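import Pool.Agent.SOQ.Fin

/-! Project SOQ, module Main: the four statements, for cyclic orders given by lists.

`CutS C G s`: a cut of the cyclic order `s`, in normal form (maximal blocks on the side `S`).
`rule_f` (F1): adjacency of vertices in different blocks. `six_f` (F2): at most five blocks. `glue_f` (F3): gluing.
`both_f`: for a structure of the whole graph a locked cut is unlocked on one of the two sides. -/

set_option autoImplicit false

namespace Pool.Agent.SOQ

open Pool.Agent.SOC Pool.Agent.SOD Pool.Agent.RUP Pool.Agent.SOF Pool.Agent.SOG Pool.Agent.SOW Pool.Agent.SOP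
  Pool.Agent.SOE

variable {V : Type} [DecidableEq V]

/-- the data of a cut in the cyclic order `s` -/
structure CutS (C : Cut V) (G : SimpleGraph V) (s : List V) : Prop where
  enum : IsEnum s
  ok : C.Ok (CrD s)
  bi : C.Bi G
  mx : Mx1 C G (CrD s)

theorem idx_inj {s : List V} (hs : IsEnum s) : Function.Injective fun x => s.idxOf x := by
  intro a b h
  have ha := hs.2 a
  exact (List.idxOf_inj ha).1 h

section
variable {C : Cut V} {G : SimpleGraph V} {T T1 T2 : V → V → V → V → Prop} {l : List V} {a b p q r s : V}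

theorem CutS.ch (h : CutS C G l) (he : EPC G {x | C.S x}) : CH C (fun x => l.idxOf x) G :=
  ⟨idx_inj h.enum, h.ok, h.bi, h.mx, he⟩

theorem rule_f (h : CutS C G l) (he : EPC G {x | C.S x}) (hh : Half C G (CrD l) C.S T) (sa : C.S a) (sb : C.S b)
    (aa : C.A a) (ab : C.A b) (nk : ¬ C.K a b) :
    G.Adj a b ↔ (¬ (∀ z, ¬ C.S z → (G.Adj a z ↔ G.Adj b z)) ∨
      ∃ u, C.S u ∧ C.A u ∧ (∀ z, ¬ C.S z → G.Adj u z → G.Adj a z) ∧ ∃ e, ¬ C.S e ∧ G.Adj a e ∧ ¬ G.Adj u e) :=
  (h.ch he).rule hh sa sb aa ab nk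

theorem six_f (h : CutS C G l) (he : EPC G {x | C.S x}) (hh : Half C G (CrD l) C.S T) (x : ℕ → V)
    (hx : ∀ i < 6, C.S (x i) ∧ C.A (x i))
    (ho : ∀ i j k d, i < j → j < k → k < 6 → ¬ C.S d → CrD l (x i) (x k) (x j) d)
    (hd : ∀ i, i + 1 < 6 → ∃ z, ¬ C.S z ∧ ¬ (G.Adj (x i) z ↔ G.Adj (x (i + 1)) z)) : False :=
  (h.ch he).six hh x hx ho hd

theorem glue_f (h : CutS C G l) (m2 : Mx1 (op C) G (CrD l)) (he : EPC G {x | C.S x})
    (h1 : Half C G (CrD l) C.S T1) (h2 : Half C G (CrD l) (fun x => ¬ C.S x) T2)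
    (lock : ∀ p s q r, Lock C G (CrD l) p s q r → Unl C G T1 ∨ Unl (op C) G T2) : ∃ T, QT G (CrD l) T :=
  (h.ch he).glue m2 h1 h2 lock h.enum.2

theorem both_f (h : CutS C G l) (he : EPC G {x | C.S x}) (hq : QT G (CrD l) T) (hl : Lock C G (CrD l) p s q r) :
    Unl C G T ∨ Unl (op C) G T :=
  (h.ch he).both hq hl

end

end Pool.Agent.SOQ
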