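import Pool.Agent.SOG.MainG

/-! Project SOQ, module GFix: the gluing theorem for reflexive block relations. -/

set_option autoImplicit false
set_option maxRecDepth 100000
set_option linter.unusedVariables false

namespace Pool.Agent.SOQ

open Pool.Agent.SOC Pool.Agent.SOD Pool.Agent.RUP Pool.Agent.SOF Pool.Agent.SOG

/-- the facts which are used -/
structure Fcts {V : Type} (C : Cut V) (G : SimpleGraph V) (T1 T2 : V → V → V → V → Prop) : Prop where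
  m1 : ∀ {a b c d}, C.S a → ¬ C.S c → ¬ C.S d → C.K a b → a ≠ b → ¬ C.K c d → G.Adj a c → G.Adj a d → T1 a b c d
  m2 : ∀ {a b c d}, ¬ C.S a → C.S c → C.S d → C.K a b → a ≠ b → ¬ C.K c d → G.Adj a c → G.Adj a d → T2 a b c d
  d1 : ∀ {a b c d}, C.S a → C.S b → ¬ C.S c → ¬ C.S d → ¬ C.K a b → ¬ C.K c d → (T1 a b c d ↔ T2 a b c d)
  d2 : ∀ {a b c d}, C.S a → C.S b → ¬ C.S c → ¬ C.S d → ¬ C.K a b → ¬ C.K c d → (T1 a c b d ↔ T2 a c b d)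
  l : ∀ {p q a b c d}, C.S p → ¬ C.S q → C.S a → C.S b → ¬ C.S c → ¬ C.S d → T1 q a p b → T2 q c p d →
    G.Adj a d ∨ G.Adj b c

theorem hFG_h {V : Type} {Y : GSy V} (hf : Fcts Y.C Y.G Y.T1 Y.T2) : UHs Y.rel gFG :=
  .cons (fun v n01 n02 n03 n12 n13 n23 h0 h1 h2 h3 h4 h5 h6 h7 => h7 (hf.m1 h0.2 (ng h1) (ng h2) h3 n01 h4 h5 h6)) (
  .cons (fun v n01 n02 n03 n12 n13 n23 h0 h1 h2 h3 h4 h5 h6 h7 => h7 (hf.m2 (ng h0) h1.2 h2.2 h3 n01 h4 h5 h6)) (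
  .cons (fun v n01 n02 n03 n12 n13 n23 h0 h1 h2 h3 h4 h5 h6 h7 => h7 ((hf.d1 h0.2 h1.2 (ng h2) (ng h3) h4 h5).1 h6)) (
  .cons (fun v n01 n02 n03 n12 n13 n23 h0 h1 h2 h3 h4 h5 h6 h7 => h7 ((hf.d2 h0.2 h1.2 (ng h2) (ng h3) h4 h5).1 h6)) (
  .cons (fun v n01 n02 n03 n12 n13 n23 h0 h1 h2 h3 h4 h5 h6 h7 => h7 ((hf.d1 h0.2 h1.2 (ng h2) (ng h3) h4 h5).2 h6)) (
  .cons (fun v n01 n02 n03 n12 n13 n23 h0 h1 h2 h3 h4 h5 h6 h7 => h7 ((hf.d2 h0.2 h1.2 (ng h2) (ng h3) h4 h5).2 h6)) (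
  .cons (fun v n01 n02 n03 n04 n05 n12 n13 n14 n15 n23 n24 n25 n34 n35 n45 h0 h1 h2 h3 h4 h5 h6 h7 h8 h9 => (hf.l h0.2 (ng h1) h2.2 h3.2 (ng h4) (ng h5) h6 h7).elim h8 h9) (
  .nil)))))))

theorem hgnb {V : Type} {Y : GSy V} (hc : Y.C.Ok Y.X) (hg : Y.C.Bi Y.G)
    (hh1 : Half Y.C Y.G Y.X Y.C.S Y.T1) (hh2 : Half Y.C Y.G Y.X (fun a => ¬ Y.C.S a) Y.T2)
    (hf : Fcts Y.C Y.G Y.T1 Y.T2) {a b c d : V}
    (nd : [a, b, c, d].Nodup) (g1 : glueT Y.C Y.G Y.T1 Y.T2 a b c d) (g2 : glueT Y.C Y.G Y.T1 Y.T2 a c b d) : False :=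
  ggnb_ref (S := Y.rel) (pt_inj (o := a) nd rfl) (PHs.app (UHs.phs ((gO_h hc).app ((gCG_h hc hg).app ((gH1_h hh1).app ((gH2_h hh2).app ((gDG_h hc hg).app (hFG_h hf)))))) _ _) (
  .cons (fun d hd h0 => h0 g1) (
  .cons (fun d hd h0 => h0 g2) (
  .nil))))

theorem hgnc {V : Type} {Y : GSy V} (hc : Y.C.Ok Y.X) (hg : Y.C.Bi Y.G)
    (hh1 : Half Y.C Y.G Y.X Y.C.S Y.T1) (hh2 : Half Y.C Y.G Y.X (fun a => ¬ Y.C.S a) Y.T2)
    (hf : Fcts Y.C Y.G Y.T1 Y.T2) {a b c d : V}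
    (nd : [a, b, c, d].Nodup) (g1 : glueT Y.C Y.G Y.T1 Y.T2 a b c d) (g2 : Y.X a b c d) : False :=
  ggnc_ref (S := Y.rel) (pt_inj (o := a) nd rfl) (PHs.app (UHs.phs ((gO_h hc).app ((gCG_h hc hg).app ((gH1_h hh1).app ((gH2_h hh2).app ((gDG_h hc hg).app (hFG_h hf)))))) _ _) (
  .cons (fun d hd h0 => h0 g1) (
  .cons (fun d hd h0 => h0 g2) (
  .nil))))

theorem hgsome {V : Type} {Y : GSy V} (hc : Y.C.Ok Y.X) (hg : Y.C.Bi Y.G)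
    (hh1 : Half Y.C Y.G Y.X Y.C.S Y.T1) (hh2 : Half Y.C Y.G Y.X (fun a => ¬ Y.C.S a) Y.T2)
    (hf : Fcts Y.C Y.G Y.T1 Y.T2) {a b c d : V}
    (nd : [a, b, c, d].Nodup) (e1 : Y.G.Adj a c) (e2 : Y.G.Adj b d) (g1 : Y.X a c b d) (g2 : ¬ glueT Y.C Y.G Y.T1 Y.T2 a b c d)
    (g3 : ¬ glueT Y.C Y.G Y.T1 Y.T2 a d b c) : False :=
  ggsome_ref (S := Y.rel) (pt_inj (o := a) nd rfl) (PHs.app (UHs.phs ((gO_h hc).app ((gCG_h hc hg).app ((gH1_h hh1).app ((gH2_h hh2).app ((gDG_h hc hg).app (hFG_h hf)))))) _ _) (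
  .cons (fun d hd h0 => h0 e1) (
  .cons (fun d hd h0 => h0 e2) (
  .cons (fun d hd h0 => h0 g1) (
  .cons (fun d hd h0 => g2 h0) (
  .cons (fun d hd h0 => g3 h0) (
  .nil)))))))

theorem hgtr {V : Type} {Y : GSy V} (hc : Y.C.Ok Y.X) (hg : Y.C.Bi Y.G)
    (hh1 : Half Y.C Y.G Y.X Y.C.S Y.T1) (hh2 : Half Y.C Y.G Y.X (fun a => ¬ Y.C.S a) Y.T2)
    (hf : Fcts Y.C Y.G Y.T1 Y.T2) {u w x y z : V}
    (nd : [u, w, x, y, z].Nodup) (g1 : glueT Y.C Y.G Y.T1 Y.T2 u w x y) (g2 : glueT Y.C Y.G Y.T1 Y.T2 u w y z) (g3 : ¬ glueT Y.C Y.G Y.T1 Y.T2 u w x z) : False :=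
  ggtr_ref (S := Y.rel) (pt_inj (o := u) nd rfl) (PHs.app (UHs.phs ((gO_h hc).app ((gCG_h hc hg).app ((gH1_h hh1).app ((gH2_h hh2).app ((gDG_h hc hg).app (hFG_h hf)))))) _ _) (
  .cons (fun d hd h0 => h0 g1) (
  .cons (fun d hd h0 => h0 g2) (
  .cons (fun d hd h0 => g3 h0) (
  .nil)))))

theorem hgf5 {V : Type} {Y : GSy V} (hc : Y.C.Ok Y.X) (hg : Y.C.Bi Y.G)
    (hh1 : Half Y.C Y.G Y.X Y.C.S Y.T1) (hh2 : Half Y.C Y.G Y.X (fun a => ¬ Y.C.S a) Y.T2)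
    (hf : Fcts Y.C Y.G Y.T1 Y.T2) {u w x y z : V}
    (nd : [u, w, x, y, z].Nodup) (g1 : glueT Y.C Y.G Y.T1 Y.T2 u x w y) (g2 : glueT Y.C Y.G Y.T1 Y.T2 u z w x) (g3 : ¬ glueT Y.C Y.G Y.T1 Y.T2 u z w y) : False :=
  ggf5_ref (S := Y.rel) (pt_inj (o := u) nd rfl) (PHs.app (UHs.phs ((gO_h hc).app ((gCG_h hc hg).app ((gH1_h hh1).app ((gH2_h hh2).app ((gDG_h hc hg).app (hFG_h hf)))))) _ _) (
  .cons (fun d hd h0 => h0 g1) (
  .cons (fun d hd h0 => h0 g2) (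
  .cons (fun d hd h0 => g3 h0) (
  .nil)))))

theorem hgf6 {V : Type} {Y : GSy V} (hc : Y.C.Ok Y.X) (hg : Y.C.Bi Y.G)
    (hh1 : Half Y.C Y.G Y.X Y.C.S Y.T1) (hh2 : Half Y.C Y.G Y.X (fun a => ¬ Y.C.S a) Y.T2)
    (hf : Fcts Y.C Y.G Y.T1 Y.T2) {a b x y x2 y2 : V}
    (nd : [a, b, x, y, x2, y2].Nodup) (g1 : glueT Y.C Y.G Y.T1 Y.T2 a x b y) (g2 : glueT Y.C Y.G Y.T1 Y.T2 a x2 b y2)
    (g3 : ¬ glueT Y.C Y.G Y.T1 Y.T2 a x b y2) (g4 : ¬ glueT Y.C Y.G Y.T1 Y.T2 a x2 b y) : False :=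
  ggf6_ref (S := Y.rel) (pt_inj (o := a) nd rfl) (PHs.app (UHs.phs ((gO_h hc).app ((gCG_h hc hg).app ((gH1_h hh1).app ((gH2_h hh2).app ((gDG_h hc hg).app (hFG_h hf)))))) _ _) (
  .cons (fun d hd h0 => h0 g1) (
  .cons (fun d hd h0 => h0 g2) (
  .cons (fun d hd h0 => g3 h0) (
  .cons (fun d hd h0 => g4 h0) (
  .nil))))))

variable {V : Type} {C : Cut V} {G : SimpleGraph V} {X T1 T2 : V → V → V → V → Prop}

/-- GLUING along a general cut -/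
theorem glue_qt1 (hc : C.Ok X) (hg : C.Bi G) (hh1 : Half C G X C.S T1) (hh2 : Half C G X (fun a => ¬ C.S a) T2)
    (hf : Fcts C G T1 T2) : QT G X (glueT C G T1 T2) := by
  have sX : Sym4 X := ⟨fun _ _ _ _ => hc.sepr.swap, fun _ _ _ _ => hc.sepr.comm⟩
  have s1 : Sym4 T1 := ⟨fun _ _ _ _ => hh1.swap₁, fun _ _ _ _ => hh1.swap₂⟩
  have s2 : Sym4 T2 := ⟨fun _ _ _ _ => hh2.swap₁, fun _ _ _ _ => hh2.swap₂⟩
  have hK : ∀ a b, C.K a b → C.K b a := fun _ _ => hc.ksym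
  let Y : GSy V := ⟨G, X, C, T1, T2, sX, s1, s2, hK⟩
  have sT := glueT_sym (G := G) hK s1 s2
  have sq := fun {a b c d : V} (h : glueT C G T1 T2 a b c d) => glueT_sq hh1 hh2 h
  have sw3 : ∀ {a b c d : V}, glueT C G T1 T2 a b c d → glueT C G T1 T2 a b d c :=
    fun h => sT.2 _ _ _ _ (sT.1 _ _ _ _ (sT.2 _ _ _ _ h))
  have nb : ∀ {a b c d : V}, glueT C G T1 T2 a b c d → ¬ glueT C G T1 T2 a c b d := by
    intro a b c d h1 h2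
    obtain ⟨⟨n1, n2⟩, e1, e2, e3, e4⟩ := sq h1
    refine hgnb (Y := Y) hc hg hh1 hh2 hf (a := a) (b := b) (c := c) (d := d) ?_ h1 h2
    simp only [List.nodup_cons, List.mem_cons, List.not_mem_nil, or_false, not_or, not_false_eq_true,
      List.nodup_nil, and_true]
    exact ⟨⟨n1, e1.ne, e2.ne⟩, ⟨e3.ne, e4.ne⟩, n2⟩
  have f5 : ∀ {a b x y x2 : V}, glueT C G T1 T2 a x b y → glueT C G T1 T2 a x2 b x → y ≠ x2 →
      glueT C G T1 T2 a x2 b y := by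
    intro a b x y x2 h1 h2 h3
    by_contra hn
    obtain ⟨⟨n1, n2⟩, e1, e2, e3, e4⟩ := sq h1
    obtain ⟨⟨m1, m2⟩, f1, f2, f3, f4⟩ := sq h2
    refine hgf5 (Y := Y) hc hg hh1 hh2 hf (u := a) (w := b) (x := x) (y := y) (z := x2) ?_ h1 h2 hn
    simp only [List.nodup_cons, List.mem_cons, List.not_mem_nil, or_false, not_or, not_false_eq_true,
      List.nodup_nil, and_true]
    exact ⟨⟨e1.ne, n1, e2.ne, m1⟩, ⟨m2, n2, f3.ne.symm⟩, ⟨e4.ne, f4.ne.symm⟩, h3⟩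
  refine ⟨fun h => sT.1 _ _ _ _ h, fun h => sT.2 _ _ _ _ h, fun h => h.1.1, fun h => (sq h).2.1, ?_, ?_, ?_, ?_, ?_⟩
  · intro a b c d h1 h2
    obtain ⟨⟨n1, n2⟩, e1, e2, e3, e4⟩ := sq h1
    refine hgnc (Y := Y) hc hg hh1 hh2 hf (a := a) (b := b) (c := c) (d := d) ?_ h1 h2
    simp only [List.nodup_cons, List.mem_cons, List.not_mem_nil, or_false, not_or, not_false_eq_true,
      List.nodup_nil, and_true]
    exact ⟨⟨n1, e1.ne, e2.ne⟩, ⟨e3.ne, e4.ne⟩, n2⟩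
  · intro a b c d ac bd ab ad bc cd hx
    by_contra hn
    rw [not_or] at hn
    refine hgsome (Y := Y) hc hg hh1 hh2 hf (a := a) (b := b) (c := c) (d := d) ?_ ac bd hx hn.1 hn.2
    simp only [List.nodup_cons, List.mem_cons, List.not_mem_nil, or_false, not_or, not_false_eq_true,
      List.nodup_nil, and_true]
    exact ⟨⟨ab, ac.ne, ad⟩, ⟨bc, bd.ne⟩, cd⟩
  · intro a b c d h1 h2
    exact nb (sw3 h1) h2
  · intro u w x y z h1 h2 xz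
    by_contra hn
    obtain ⟨⟨n1, n2⟩, e1, e2, e3, e4⟩ := sq h1
    obtain ⟨⟨m1, m2⟩, f1, f2, f3, f4⟩ := sq h2
    refine hgtr (Y := Y) hc hg hh1 hh2 hf (u := u) (w := w) (x := x) (y := y) (z := z) ?_ h1 h2 hn
    simp only [List.nodup_cons, List.mem_cons, List.not_mem_nil, or_false, not_or, not_false_eq_true,
      List.nodup_nil, and_true]
    exact ⟨⟨n1, e1.ne, e2.ne, f2.ne⟩, ⟨e3.ne, e4.ne, f4.ne⟩, ⟨n2, xz⟩, m2⟩
  · intro a b x y x' y' h1 h2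
    by_cases xx : x = x'
    · subst xx
      exact Or.inl h2
    · by_cases yy : y = y'
      · subst yy
        exact Or.inr h2
      · by_cases xy : x = y'
        · subst xy
          by_cases yx : y = x'
          · subst yx
            exact (nb (sw3 h1) (sw3 h2)).elim
          · exact Or.inr (f5 h1 h2 yx)
        · by_cases yx : y = x'
          · subst yx
            exact Or.inl (f5 h2 h1 (fun h => xy h.symm))
          · by_contra hn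
            rw [not_or] at hn
            obtain ⟨⟨n1, n2⟩, e1, e2, e3, e4⟩ := sq h1
            obtain ⟨⟨m1, m2⟩, f1, f2, f3, f4⟩ := sq h2
            refine hgf6 (Y := Y) hc hg hh1 hh2 hf (a := a) (b := b) (x := x) (y := y) (x2 := x') (y2 := y') ?_ h1 h2
              hn.1 hn.2
            simp only [List.nodup_cons, List.mem_cons, List.not_mem_nil, or_false, not_or, not_false_eq_true,
              List.nodup_nil, and_true]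
            exact ⟨⟨e1.ne, n1, e2.ne, m1, f2.ne⟩, ⟨e3.ne.symm, n2, f3.ne.symm, m2⟩, ⟨e4.ne, xx, xy⟩, ⟨yx, yy⟩,
              f4.ne⟩

end Pool.Agent.SOQ
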