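import Pool.Agent.SOQ.Norm
import Pool.Agent.SOQ.GFix
import Pool.Agent.SOE.Defs
import Pool.Agent.SOG.Rep

/-! Project SOQ, module Cv: structures of a side of a cut and worlds. -/

set_option autoImplicit false

namespace Pool.Agent.SOQ

open Pool.Agent.SOC Pool.Agent.SOD Pool.Agent.RUP Pool.Agent.SOF Pool.Agent.SOG Pool.Agent.SOW Pool.Agent.SOP
  Pool.Agent.SOE

variable {V : Type}

/-- the same cut, seen from the other side -/
def op (C : Cut V) : Cut V := ⟨fun x => ¬ C.S x, C.A, C.B, C.K⟩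

/-- attached vertices have neighbours on the other side; blocks on the side `S` are maximal -/
structure Mx1 (C : Cut V) (G : SimpleGraph V) (X : V → V → V → V → Prop) : Prop where
  refl : ∀ {a}, C.A a → C.K a a
  at1 : ∀ {a}, C.S a → C.A a → ∃ z, ¬ C.S z ∧ G.Adj a z
  at2 : ∀ {a}, ¬ C.S a → C.A a → ∃ z, C.S z ∧ G.Adj a z
  mx : ∀ {a b}, C.S a → C.S b → C.A a → C.A b → ¬ C.K a b → (∀ z, ¬ C.S z → (G.Adj a z ↔ G.Adj b z)) →
    ∃ c, C.S c ∧ C.A c ∧ (∃ z, ¬ C.S z ∧ ¬ (G.Adj a z ↔ G.Adj c z)) ∧ ∀ d, ¬ C.S d → X a b c d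

/-- the representative of the block of `x`, in `P` if possible -/
noncomputable def rp (C : Cut V) (P : V → Prop) (x : V) : V :=
  @Classical.epsilon V ⟨x⟩ (fun y => C.K x y ∧ (P y ∨ ∀ z, P z → ¬ C.K x z))

/-- the side `s` and one vertex of each block of the other side -/
def dm (C : Cut V) (s P : V → Prop) (x : V) : Prop := s x ∨ (C.A x ∧ rp C P x = x)

/-- restriction of a structure -/
def rs (T : V → V → V → V → Prop) (D : V → Prop) (a b c d : V) : Prop := (D a ∧ D b ∧ D c ∧ D d) ∧ T a b c d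

open Classical in
/-- the points of the side `s` and the representatives of the blocks of the other side -/
noncomputable def rh (C : Cut V) (s P : V → Prop) (x : V) : V := if s x then x else rp C P x

section
variable {C : Cut V} {G : SimpleGraph V} {X T T' : V → V → V → V → Prop} {f : V → ℕ} {s P D : V → Prop}
  {a b c d e x y p q r t : V}

theorem rp_s (hr : C.K x x) : C.K x (rp C P x) ∧ (P (rp C P x) ∨ ∀ z, P z → ¬ C.K x z) := by
  refine Classical.epsilon_spec (p := fun y => C.K x y ∧ (P y ∨ ∀ z, P z → ¬ C.K x z)) ?_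
  by_cases h : ∃ z, P z ∧ C.K x z
  · obtain ⟨z, h1, h2⟩ := h
    exact ⟨z, h2, Or.inl h1⟩
  · push Not at h
    exact ⟨x, hr, Or.inr h⟩

theorem rp_k (hr : C.K x x) : C.K x (rp C P x) := (rp_s hr).1

theorem rp_con (hc : C.Ok X) (hk : C.K x y) : rp C P x = rp C P y := by
  have h1 : (fun z => C.K x z ∧ (P z ∨ ∀ w, P w → ¬ C.K x w)) = (fun z => C.K y z ∧ (P z ∨ ∀ w, P w → ¬ C.K y w)) := by
    have e : ∀ z, C.K x z ↔ C.K y z := fun z => ⟨fun k => hc.ktr (hc.ksym hk) k, fun k => hc.ktr hk k⟩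
    funext z
    simp only [e]
  unfold rp
  rw [h1]

theorem rp_idem (hc : C.Ok X) (hr : C.K x x) : rp C P (rp C P x) = rp C P x := (rp_con hc (rp_k hr)).symm

theorem rp_P (hr : C.K x x) (hP : ∀ {y z}, P y → P z → C.K y z → y = z) (hx : P x) : rp C P x = x := by
  obtain ⟨h1, h2⟩ := rp_s (P := P) hr
  rcases h2 with h2 | h2
  · exact (hP hx h2 h1).symm
  · exact absurd hr (h2 x hx)

theorem op_ok (h : C.Ok X) : (op C).Ok X where
  sepr := h.sepr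
  int := fun ha hb hc hd hx => h.int (not_not.1 hc) (not_not.1 hd) ha hb (h.sepr.comm hx)
  kS := fun hk ha hb => ha (h.kS (h.ksym hk) hb)
  kA := h.kA
  kB := h.kB
  ksym := h.ksym
  ktr := h.ktr
  kb := fun hk hc ha hcS hd hx => h.kb' hk hc ha hcS (not_not.1 hd) hx
  kb' := fun hk hc ha hcS hd hx => h.kb hk hc (not_not.1 ha) (not_not.1 hcS) hd hx

theorem op_bi (h : C.Bi G) : (op C).Bi G where
  xa := fun ha hb e => (h.xa (not_not.1 hb) ha e.symm).symm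
  bi := fun hk ha hc e => h.bi' hk ha (not_not.1 hc) e
  bi' := fun hk ha hc e => h.bi hk (not_not.1 ha) hc e

/-- a structure for one side of the complementary cut -/
theorem half_op (h : Half C G X s T) : Half (op C) G X s T :=
  ⟨h.swap₁, h.swap₂, h.ne, h.adj, h.nocross, h.att, h.d1, h.d2, h.nb, h.some, h.trans, h.ferrers, h.inv⟩

/-- blocks are intervals -/
theorem kb_of (hc : C.Ok X) (h1 : ∀ {a}, C.S a → C.A a → ∃ z, ¬ C.S z ∧ G.Adj a z)
    (h2 : ∀ {a}, ¬ C.S a → C.A a → ∃ z, C.S z ∧ G.Adj a z)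
    (k : C.K a b) (ac : C.A c) (nc : ¬ C.K a c) (ad : C.A d) (nd : ¬ C.K a d) : ¬ X a b c d := by
  intro hx
  have nx : c ≠ d := (hc.sepr.dist (hc.sepr.comm hx)).1
  have sw : X a b d c := hc.sepr.comm (hc.sepr.swap (hc.sepr.comm hx))
  by_cases sa : C.S a
  · have sb := hc.kS k sa
    by_cases sc : C.S c
    · by_cases sd : C.S d
      · obtain ⟨e, se, _⟩ := h1 sa (hc.kA k)
        rcases hc.sepr.add2 (e := e) hx (fun e' => se (e' ▸ sd)) (fun e' => se (e' ▸ sc)) (fun e' => se (e' ▸ sa))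
          (fun e' => se (e' ▸ sb)) with h3 | h3
        · exact nd (hc.kb k ad sa sd se h3)
        · exact nc (hc.kb k ac sa sc se h3)
      · exact nc (hc.kb k ac sa sc sd hx)
    · by_cases sd : C.S d
      · exact nd (hc.kb k ad sa sd sc sw)
      · exact hc.int sa sb sc sd hx
  · have sb : ¬ C.S b := fun k' => sa (hc.kS (hc.ksym k) k')
    by_cases sc : C.S c
    · by_cases sd : C.S d
      · exact hc.int sc sd sa sb (hc.sepr.comm hx)
      · exact nd (hc.kb' k ad sa sd sc sw)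
    · by_cases sd : C.S d
      · exact nc (hc.kb' k ac sa sc sd hx)
      · obtain ⟨e, se, _⟩ := h2 sa (hc.kA k)
        rcases hc.sepr.add2 (e := e) hx (fun e' => sd (e' ▸ se)) (fun e' => sc (e' ▸ se)) (fun e' => sa (e' ▸ se))
          (fun e' => sb (e' ▸ se)) with h3 | h3
        · exact nd (hc.kb' k ad sa sd se h3)
        · exact nc (hc.kb' k ac sa sc se h3)

theorem bs_of (hc : C.Ok X) (hb : C.Bi G) (hm : Mx1 C G X) (he : EPC G {x | C.S x}) : Bs G X C.S C.A C.K where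
  int := hc.int
  att := hb.xa
  krefl := hm.refl
  ksym := hc.ksym
  ktr := hc.ktr
  kS := hc.kS
  kA := hc.kA
  kr := hb.bi
  kr' := hb.bi'
  kb := kb_of hc hm.at1 hm.at2
  pc := by
    intro a b c d sa sb sc sd e1 e2
    by_cases ac : a = c
    · rw [← ac] at e2 ⊢
      exact Or.inr ⟨e2, e1⟩
    by_cases bd : b = d
    · rw [← bd] at e2 ⊢
      exact Or.inr ⟨e1, e2⟩
    by_contra hn
    rw [not_or] at hn
    exact he.cut a sa c sc b sb d sd ⟨e1, e2, ac, nsx sa sd, (nsx sc sb).symm, bd, hn.1, fun k => hn.2 ⟨k.1, k.2.symm⟩⟩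
  w4 := by
    intro p q p' q' r sp sq sp' sq' h1 h2 h3 h4 h5 h6 h7 h8 h9 h10
    exact he.w4 (p := p) (p' := p') (q := q) (q' := q') (r := r)
      ⟨h1, h2, nsx sp sp', nsx sq sq', h3, h4, h5.symm, h6, h7.symm, h9.symm, h8.symm, h10.symm⟩
      ⟨fun k => sp' (k.1 sp), fun k => sq' (k.1 sq)⟩
where
  nsx {C : Cut V} {a b : V} (sa : C.S a) (sb : ¬ C.S b) : a ≠ b := fun e => sb (e ▸ sa)

theorem Bs.op {S A : V → Prop} {K : V → V → Prop} (h : Bs G X S A K) (hX : Sepr X) : Bs G X (fun x => ¬ S x) A K where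
  int := fun ha hb hc hd hx => h.int (not_not.1 hc) (not_not.1 hd) ha hb (hX.comm hx)
  att := fun ha hb e => (h.att (not_not.1 hb) ha e.symm).symm
  krefl := h.krefl
  ksym := h.ksym
  ktr := h.ktr
  kS := fun hk ha hb => ha (h.kS (h.ksym hk) hb)
  kA := h.kA
  kr := fun hk ha hc e => h.kr' hk ha (not_not.1 hc) e
  kr' := fun hk ha hc e => h.kr hk (not_not.1 ha) hc e
  kb := h.kb
  pc := fun ha hb hc hd e1 e2 => by
    rcases h.pc (not_not.1 hb) ha (not_not.1 hd) hc e1.symm e2.symm with h1 | h1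
    · exact Or.inl ⟨h1.2, h1.1⟩
    · exact Or.inr ⟨h1.2.symm, h1.1.symm⟩
  w4 := fun sp sq sp' sq' h1 h2 h3 h4 h5 h6 h7 h8 h9 h10 =>
    h.w4 (not_not.1 sp') (not_not.1 sq') sp sq (fun e => h1 e.symm) (fun e => h2 e.symm) h6 h5.symm h4.symm h3 h9 h10 h7 h8

/-- the restriction of a structure of a side -/
theorem pq_of_half (h : Half C G (CrF f) s T) (hD : ∀ {x}, D x → s x ∨ C.A x)
    (dk : ∀ {a b}, ¬ s a → D a → D b → C.K a b → a = b) : PQ G (CrF f) (rs T D) D where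
  sw1 := fun ⟨⟨h1, h2, h3, h4⟩, h5⟩ => ⟨⟨h2, h1, h3, h4⟩, h.swap₁ h5⟩
  sw2 := fun ⟨⟨h1, h2, h3, h4⟩, h5⟩ => ⟨⟨h3, h4, h1, h2⟩, h.swap₂ h5⟩
  ne := fun ht => h.ne ht.2
  adj := fun ht => h.adj ht.2
  nc := fun ht => h.nocross ht.2
  dom := fun ht => ht.1.1
  nb := fun ht ht' => h.nb ht.2 ht'.2
  some := by
    intro a b c d e1 e2 hx da db dc dd
    have key : ∀ {u v : V}, D u → D v → u ≠ v → s u ∨ s v ∨ ¬ C.K u v := by
      intro u v du dv n
      by_cases su : s u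
      · exact Or.inl su
      · exact Or.inr (Or.inr fun k => n (dk su du dv k))
    obtain ⟨n1, n2, n3, n4, n5, n6⟩ := hx.1
    rcases h.some e1 e2 hx (hD da) (hD db) (hD dc) (hD dd) (key da db n2) (key da dc n1) (key da dd n3)
      (key db dc n4.symm) (key db dd n6) (key dc dd n5) with h1 | h1
    · exact Or.inl ⟨⟨da, db, dc, dd⟩, h1⟩
    · exact Or.inr ⟨⟨da, dd, db, dc⟩, h1⟩
  trans := by
    rintro u w x y z ⟨⟨h1, h2, h3, h4⟩, h5⟩ ⟨⟨_, _, _, g4⟩, g5⟩ xz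
    refine ⟨⟨h1, h2, h3, g4⟩, h.trans xz ?_ h5 g5⟩
    by_cases sx : s x
    · exact Or.inl sx
    · exact Or.inr (Or.inr fun k => xz (dk sx h3 g4 k))
  ferrers := by
    rintro a b x y x' y' ⟨⟨h1, h2, h3, h4⟩, h5⟩ ⟨⟨g1, g2, g3, g4⟩, g5⟩
    rcases h.ferrers h5 g5 with h6 | h6
    · exact Or.inl ⟨⟨h1, h2, h3, g4⟩, h6⟩
    · exact Or.inr ⟨⟨h1, g2, h3, h4⟩, h6⟩

/-- a structure on the representatives is a structure of a side -/
theorem half_of_pq {ρ : V → V} (hC : C.Ok (CrF f)) (hR : RepOk C G (CrF f) s G (CrF f) ρ)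
    (hD : ∀ {x}, s x ∨ C.A x → D (ρ x)) (h : PQ G (CrF f) T' D) : Half C G (CrF f) s (repT C s T' ρ) := by
  have dl : ∀ {p q : V}, (s p ∨ C.A p) → (s q ∨ C.A q) → p ≠ q → (s p ∨ s q ∨ ¬ C.K p q) → ρ p ≠ ρ q := by
    intro p q hp hq pq hk he
    rcases hR.inj hp hq he with h1 | ⟨h1, h2⟩
    · exact pq h1
    · rcases hk with h3 | h3 | h3
      · exact h1 h3
      · exact h1 (hR.side (hC.ksym h2) h3)
      · exact h3 h2
  refine ⟨?_, ?_, ?_, ?_, ?_, ?_, ?_, ?_, ?_, ?_, ?_, ?_, ?_⟩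
  · rintro a b c d ⟨⟨h1, h2, h3, h4⟩, h5⟩
    exact ⟨⟨h2, h1, h3, h4⟩, h.sw1 h5⟩
  · rintro a b c d ⟨⟨h1, h2, h3, h4⟩, h5⟩
    exact ⟨⟨h3, h4, h1, h2⟩, h.sw2 h5⟩
  · rintro a b c d ⟨_, h5⟩ rfl
    exact h.ne h5 rfl
  · rintro a b c d ⟨⟨h1, h2, h3, h4⟩, h5⟩
    exact (hR.adj h1 h3 (h.adj h5).ne).2 (h.adj h5)
  · rintro a b c d ⟨⟨h1, h2, h3, h4⟩, h5⟩ hx
    obtain ⟨e1, e2, e3, e4⟩ := h.sq h5
    exact h.nc h5 ((hR.cross h1 h2 h3 h4 (h.ne h5) e1.ne e2.ne e3.ne e4.ne (h.ne' h5)).1 hx)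
  · rintro a b c d ⟨⟨h1, _⟩, _⟩
    exact h1
  · rintro a b c d ⟨_, h5⟩ ha _ hk
    exact h.ne h5 (hR.con ha hk)
  · rintro a b c d ⟨_, h5⟩ ha _ hk
    exact (h.adj h5).ne (hR.con ha hk)
  · rintro a b c d ⟨_, h5⟩ ⟨_, h6⟩
    exact h.nb h5 h6
  · intro a b c d ac bd hx ha hb hc hd kab kac kad kbc kbd kcd
    obtain ⟨m1, m2, m3, m4, m5, m6⟩ := hx.1
    have n1 := dl ha hb m2 kab
    have n2 := dl ha hc ac.ne kac
    have n3 := dl ha hd m3 kad
    have n4 := dl hb hc m4.symm kbc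
    have n5 := dl hb hd bd.ne kbd
    have n6 := dl hc hd m5 kcd
    rcases h.some ((hR.adj ha hc n2).1 ac) ((hR.adj hb hd n5).1 bd)
      ((hR.cross ha hc hb hd n2 n1 n3 n4.symm n6 n5).1 hx) (hD ha) (hD hb) (hD hc) (hD hd) with h1 | h1
    · exact Or.inl ⟨⟨ha, hb, hc, hd⟩, h1⟩
    · exact Or.inr ⟨⟨ha, hd, hb, hc⟩, h1⟩
  · rintro u w x y z xz hk ⟨⟨h1, h2, h3, h4⟩, h5⟩ ⟨⟨_, _, _, h6⟩, h7⟩
    exact ⟨⟨h1, h2, h3, h6⟩, h.trans h5 h7 (dl h3 h6 xz hk)⟩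
  · rintro a b x y x' y' ⟨⟨h1, h2, h3, h4⟩, h5⟩ ⟨⟨_, g2, _, g4⟩, h7⟩
    rcases h.ferrers h5 h7 with h8 | h8
    · exact Or.inl ⟨⟨h1, h2, h3, g4⟩, h8⟩
    · exact Or.inr ⟨⟨h1, g2, h3, h4⟩, h8⟩
  · rintro a b c d e hd hk ⟨⟨h1, h2, h3, h4⟩, h5⟩
    refine ⟨⟨h1, h2, h3, Or.inr (hC.kA (hC.ksym hk))⟩, ?_⟩
    rw [← hR.con hd hk]
    exact h5

end

end Pool.Agent.SOQ
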