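import Pool.Agent.RUP.Soc
import Pool.Agent.RUP.Gen

/-! Project SOQ (MP_66ba69_lc, structures of the two sides of an E-P-cut), definitions: positions, worlds, twins. -/

set_option autoImplicit false

namespace Pool.Agent.SOQ

open Pool.Agent.SOC Pool.Agent.SOD Pool.Agent.RUP

variable {V : Type}

/-- `c` is between `a` and `b` -/
def BtF (f : V → ℕ) (a b c : V) : Prop := (f a < f c ∧ f c < f b) ∨ (f b < f c ∧ f c < f a)

/-- the chords `ab`, `cd` cross and the points are different, for the positions `f` -/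
def CrF (f : V → ℕ) (a b c d : V) : Prop :=
  (a ≠ b ∧ a ≠ c ∧ a ≠ d ∧ b ≠ c ∧ b ≠ d ∧ c ≠ d) ∧ ¬ (BtF f a b c ↔ BtF f a b d)

theorem crD_eq [DecidableEq V] (s : List V) : CrD s = CrF fun x => s.idxOf x := rfl

theorem bt {f : V → ℕ} {a b c : V} (h1 : f a ≠ f c) (h2 : f b ≠ f c) : BtF f a b c ↔ ¬ (f a < f c ↔ f b < f c) := by
  unfold BtF
  omega

theorem lt_sw {a b : ℕ} (h : a ≠ b) : b < a ↔ ¬ a < b := by omega

theorem p_comm {p q r s : Prop} (h : ¬ (¬ (p ↔ r) ↔ ¬ (q ↔ s))) : ¬ (¬ (¬ p ↔ ¬ q) ↔ ¬ (¬ r ↔ ¬ s)) := by tauto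

theorem p_one {ab ac ad bc bd cd : Prop} (x : ¬ (ac ↔ bc) ↔ ¬ (ad ↔ bd)) (y : ¬ (ab ↔ ¬ bc) ↔ ¬ (ad ↔ cd)) :
    ¬ (¬ (ab ↔ ¬ bd) ↔ ¬ (ac ↔ ¬ cd)) := by
  by_cases h1 : ab <;> by_cases h2 : ac <;> by_cases h3 : ad <;> by_cases h4 : bc <;>
    simp only [h1, h2, h3, h4, true_iff, iff_true, false_iff, iff_false, not_true_eq_false, not_false_eq_true, not_not] at * <;> tauto

theorem n_amo {a b c d : ℕ} (i2 : a ≠ c) (i3 : a ≠ d) (i4 : b ≠ c)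
    (x : ¬ (¬ (a < c ↔ b < c) ↔ ¬ (a < d ↔ b < d))) (y : ¬ (¬ (a < b ↔ c < b) ↔ ¬ (a < d ↔ c < d))) : False := by
  rcases lt_or_gt_of_ne i2 with h1 | h1 <;> rcases lt_or_gt_of_ne i4 with h2 | h2 <;> rcases lt_or_gt_of_ne i3 with h3 | h3 <;>
    omega

theorem crF_sepr {f : V → ℕ} (hf : Function.Injective f) : Sepr (CrF f) where
  swap := by
    rintro a b c d ⟨⟨h1, h2, h3, h4, h5, h6⟩, h⟩
    refine ⟨⟨h1.symm, h4, h5, h2, h3, h6⟩, ?_⟩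
    unfold BtF at h ⊢
    rwa [or_comm (a := f b < f c ∧ _), or_comm (a := f b < f d ∧ _)]
  comm := by
    rintro a b c d ⟨⟨h1, h2, h3, h4, h5, h6⟩, h⟩
    refine ⟨⟨h6, h2.symm, h4.symm, h3.symm, h5.symm, h1⟩, ?_⟩
    have i2 := hf.ne h2
    have i3 := hf.ne h3
    have i4 := hf.ne h4
    have i5 := hf.ne h5
    rw [bt i2 i4, bt i3 i5] at h
    rw [bt i2.symm i3.symm, bt i4.symm i5.symm, lt_sw i2, lt_sw i3, lt_sw i4, lt_sw i5]
    exact p_comm h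
  dist := fun h => ⟨h.1.1, h.1.2.1⟩
  one := by
    intro a b c d h1 h2 h3 h4 h5 h6
    by_cases x : CrF f a b c d
    · exact Or.inl x
    · by_cases y : CrF f a c b d
      · exact Or.inr (Or.inl y)
      · refine Or.inr (Or.inr ⟨⟨h3, h1, h2, h5.symm, h6.symm, h4⟩, ?_⟩)
        have x' := not_not.1 fun h => x ⟨⟨h1, h2, h3, h4, h5, h6⟩, h⟩
        have y' := not_not.1 fun h => y ⟨⟨h2, h1, h3, h4.symm, h6, h5⟩, h⟩
        have i1 := hf.ne h1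
        have i2 := hf.ne h2
        have i3 := hf.ne h3
        have i4 := hf.ne h4
        have i5 := hf.ne h5
        have i6 := hf.ne h6
        rw [bt i2 i4, bt i3 i5] at x'
        rw [bt i1 i4.symm, bt i3 i6, lt_sw i4] at y'
        rw [bt i1 i5.symm, bt i2 i6.symm, lt_sw i5, lt_sw i6]
        exact p_one x' y'
  amo := by
    rintro a b c d ⟨⟨h1, h2, h3, h4, h5, h6⟩, x⟩ ⟨_, y⟩
    have i1 := hf.ne h1
    have i2 := hf.ne h2
    have i3 := hf.ne h3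
    have i4 := hf.ne h4
    have i5 := hf.ne h5
    have i6 := hf.ne h6
    rw [bt i2 i4, bt i3 i5] at x
    rw [bt i1 i4.symm, bt i3 i6] at y
    exact n_amo i2 i3 i4 x y
  add := by
    rintro a b c d e ⟨_, x⟩ ⟨_, y⟩ ⟨_, z⟩
    tauto
  add2 := by
    rintro a b c d e ⟨⟨h1, h2, h3, h4, h5, h6⟩, x⟩ g1 g2 g3 g4
    by_cases y : BtF f a b d ↔ BtF f a b e
    · refine Or.inr ⟨⟨h1, h2, g3, h4, g4, g2⟩, ?_⟩
      tauto
    · exact Or.inl ⟨⟨h1, h3, g3, h5, g4, g1⟩, y⟩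

/-- the cut: side `S`, attached vertices `A`, blocks `K` -/
structure Bs (G : SimpleGraph V) (X : V → V → V → V → Prop) (S A : V → Prop) (K : V → V → Prop) : Prop where
  int : ∀ {a b c d}, S a → S b → ¬ S c → ¬ S d → ¬ X a b c d
  att : ∀ {a b}, S a → ¬ S b → G.Adj a b → A a ∧ A b
  krefl : ∀ {a}, A a → K a a
  ksym : ∀ {a b}, K a b → K b a
  ktr : ∀ {a b c}, K a b → K b c → K a c
  kS : ∀ {a b}, K a b → S a → S b
  kA : ∀ {a b}, K a b → A a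
  kr : ∀ {a b c}, K a b → S a → ¬ S c → G.Adj a c → G.Adj b c
  kr' : ∀ {a b c}, K a b → ¬ S a → S c → G.Adj a c → G.Adj b c
  kb : ∀ {a b c d}, K a b → A c → ¬ K a c → A d → ¬ K a d → ¬ X a b c d
  pc : ∀ {a b c d}, S a → ¬ S b → S c → ¬ S d → G.Adj a b → G.Adj c d →
    (G.Adj a c ∧ G.Adj b d) ∨ (G.Adj a d ∧ G.Adj c b)
  w4 : ∀ {p q p' q' r}, S p → S q → ¬ S p' → ¬ S q' → ¬ G.Adj p p' → ¬ G.Adj q q' → G.Adj p q → G.Adj p q' →
    G.Adj q p' → G.Adj p' q' → G.Adj p r → G.Adj q r → G.Adj p' r → G.Adj q' r → False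

theorem Bs.adx {G : SimpleGraph V} {X : V → V → V → V → Prop} {S A : V → Prop} {K : V → V → Prop}
    (h : Bs G X S A K) (ha : ∀ {a}, S a → A a → ∃ z, ¬ S z ∧ G.Adj a z) {a b c : V} (sa : S a) (sb : S b) (sc : ¬ S c)
    (ab : A b) (e : G.Adj a c) (n : ¬ G.Adj b c) : G.Adj a b := by
  obtain ⟨z, h1, h2⟩ := ha sb ab
  rcases h.pc sa sc sb h1 e h2 with h3 | h3
  · exact h3.1
  · exact absurd h3.2 n

/-- a quartet structure on the domain `D` -/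
structure PQ (G : SimpleGraph V) (X T : V → V → V → V → Prop) (D : V → Prop) : Prop where
  sw1 : ∀ {a b c d}, T a b c d → T b a c d
  sw2 : ∀ {a b c d}, T a b c d → T c d a b
  ne : ∀ {a b c d}, T a b c d → a ≠ b
  adj : ∀ {a b c d}, T a b c d → G.Adj a c
  nc : ∀ {a b c d}, T a b c d → ¬ X a b c d
  dom : ∀ {a b c d}, T a b c d → D a
  nb : ∀ {a b c d}, T a b c d → ¬ T a c b d
  some : ∀ {a b c d}, G.Adj a c → G.Adj b d → X a c b d → D a → D b → D c → D d → T a b c d ∨ T a d b c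
  trans : ∀ {u w x y z}, T u w x y → T u w y z → x ≠ z → T u w x z
  ferrers : ∀ {a b x y x' y'}, T a x b y → T a x' b y' → T a x b y' ∨ T a x' b y

/-- the four adjacencies -/
def Sq4 (G : SimpleGraph V) (a b c d : V) : Prop := G.Adj a c ∧ G.Adj a d ∧ G.Adj b c ∧ G.Adj b d

section
variable {G : SimpleGraph V} {X T : V → V → V → V → Prop} {D : V → Prop}

theorem PQ.sw3 (h : PQ G X T D) {a b c d : V} (ht : T a b c d) : T a b d c := h.sw2 (h.sw1 (h.sw2 ht))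

theorem PQ.sq (h : PQ G X T D) {a b c d : V} (ht : T a b c d) : Sq4 G a b c d :=
  ⟨h.adj ht, h.adj (h.sw3 ht), h.adj (h.sw1 ht), h.adj (h.sw1 (h.sw3 ht))⟩

theorem PQ.ne' (h : PQ G X T D) {a b c d : V} (ht : T a b c d) : c ≠ d := h.ne (h.sw2 ht)

theorem PQ.doms (h : PQ G X T D) {a b c d : V} (ht : T a b c d) : D a ∧ D b ∧ D c ∧ D d :=
  ⟨h.dom ht, h.dom (h.sw1 ht), h.dom (h.sw2 ht), h.dom (h.sw1 (h.sw2 ht))⟩

end

/-- positions of the twins -/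
def tf (k : ℕ) (f : V → ℕ) (p : V × Fin k) : ℕ := k * f p.1 + p.2.val

theorem tf_lt {k : ℕ} {f : V → ℕ} {p q : V × Fin k} (h : f p.1 < f q.1) : tf k f p < tf k f q := by
  unfold tf
  have h1 := p.2.isLt
  have h2 : k * (f p.1 + 1) ≤ k * f q.1 := Nat.mul_le_mul_left k h
  rw [Nat.mul_add, Nat.mul_one] at h2
  omega

theorem tf_iff {k : ℕ} {f : V → ℕ} (hf : Function.Injective f) {p q : V × Fin k} (h : p.1 ≠ q.1) :
    tf k f p < tf k f q ↔ f p.1 < f q.1 := by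
  constructor
  · intro h1
    rcases lt_or_gt_of_ne (hf.ne h) with h2 | h2
    · exact h2
    · have := tf_lt (k := k) h2
      omega
  · exact tf_lt

theorem tf_inj {k : ℕ} {f : V → ℕ} (hf : Function.Injective f) : Function.Injective (tf k f) := by
  intro p q h
  by_cases h1 : p.1 = q.1
  · refine Prod.ext h1 (Fin.ext ?_)
    unfold tf at h
    rw [h1] at h
    omega
  · rcases lt_or_gt_of_ne (hf.ne h1) with h2 | h2
    · have := tf_lt (k := k) h2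
      omega
    · have := tf_lt (k := k) h2
      omega

/-- twins of different points are in the same cyclic order -/
theorem tx_iff {k : ℕ} {f : V → ℕ} (hf : Function.Injective f) {p q r s : V × Fin k} (pq : p.1 ≠ q.1) (pr : p.1 ≠ r.1)
    (ps : p.1 ≠ s.1) (qr : q.1 ≠ r.1) (qs : q.1 ≠ s.1) (rs : r.1 ≠ s.1) :
    CrF (tf k f) p q r s ↔ CrF f p.1 q.1 r.1 s.1 := by
  have nf : ∀ {x y : V × Fin k}, x.1 ≠ y.1 → x ≠ y := fun h e => h (by rw [e])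
  unfold CrF BtF
  rw [tf_iff hf pr, tf_iff hf qr.symm, tf_iff hf qr, tf_iff hf pr.symm, tf_iff hf ps, tf_iff hf qs.symm, tf_iff hf qs,
    tf_iff hf ps.symm]
  constructor
  · rintro ⟨_, h⟩
    exact ⟨⟨pq, pr, ps, qr, qs, rs⟩, h⟩
  · rintro ⟨_, h⟩
    exact ⟨⟨nf pq, nf pr, nf ps, nf qr, nf qs, nf rs⟩, h⟩

/-- twins are neighbours -/
theorem tx_twin {k : ℕ} {f : V → ℕ} (hf : Function.Injective f) {p q r s : V × Fin k} (pq : p.1 = q.1)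
    (h : CrF (tf k f) p q r s) : r.1 = p.1 ∨ s.1 = p.1 := by
  by_contra hn
  rw [not_or] at hn
  obtain ⟨h1, h2⟩ := hn
  have e1 := tf_iff (k := k) hf (p := p) (q := r) (fun e => h1 e.symm)
  have e2 := tf_iff (k := k) hf (p := r) (q := p) h1
  have e3 := tf_iff (k := k) hf (p := q) (q := r) (fun e => h1 (e.symm.trans pq.symm))
  have e4 := tf_iff (k := k) hf (p := r) (q := q) (fun e => h1 (e.trans pq.symm))
  have e5 := tf_iff (k := k) hf (p := p) (q := s) (fun e => h2 e.symm)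
  have e6 := tf_iff (k := k) hf (p := s) (q := p) h2
  have e7 := tf_iff (k := k) hf (p := q) (q := s) (fun e => h2 (e.symm.trans pq.symm))
  have e8 := tf_iff (k := k) hf (p := s) (q := q) (fun e => h2 (e.trans pq.symm))
  rw [← pq] at e3 e4 e7 e8
  have h3 := h.2
  unfold BtF at h3
  omega

/-- twins on the second side -/
theorem tx_twin2 {k : ℕ} {f : V → ℕ} (hf : Function.Injective f) {p q r s : V × Fin k} (rs : r.1 = s.1)
    (h : CrF (tf k f) p q r s) : p.1 = r.1 ∨ q.1 = r.1 := tx_twin hf rs ((crF_sepr (tf_inj hf)).comm h)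

/-- the structure on the twins -/
def tt (G : SimpleGraph V) (D : V → Prop) (T : V → V → V → V → Prop) (k : ℕ) (p q r s : V × Fin k) : Prop :=
  (p ≠ q ∧ r ≠ s) ∧ (D p.1 ∧ D q.1 ∧ D r.1 ∧ D s.1) ∧ Sq4 G p.1 q.1 r.1 s.1 ∧
    (p.1 ≠ q.1 → r.1 ≠ s.1 → T p.1 q.1 r.1 s.1)

theorem tt_pq {G : SimpleGraph V} {f : V → ℕ} (hf : Function.Injective f) {D : V → Prop} {T : V → V → V → V → Prop}
    (h : PQ G (CrF f) T D) (k : ℕ) :
    PQ (G.comap Prod.fst) (CrF (tf k f)) (tt G D T k) (fun p : V × Fin k => D p.1) where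
  sw1 := fun ⟨⟨h1, h2⟩, ⟨a1, a2, a3, a4⟩, ⟨e1, e2, e3, e4⟩, h3⟩ =>
    ⟨⟨h1.symm, h2⟩, ⟨a2, a1, a3, a4⟩, ⟨e3, e4, e1, e2⟩, fun n1 n2 => h.sw1 (h3 n1.symm n2)⟩
  sw2 := fun ⟨⟨h1, h2⟩, ⟨a1, a2, a3, a4⟩, ⟨e1, e2, e3, e4⟩, h3⟩ =>
    ⟨⟨h2, h1⟩, ⟨a3, a4, a1, a2⟩, ⟨e1.symm, e3.symm, e2.symm, e4.symm⟩, fun n1 n2 => h.sw2 (h3 n2 n1)⟩
  ne := fun h => h.1.1
  adj := fun h => h.2.2.1.1
  nc := by
    rintro p q r s ⟨⟨h1, h2⟩, _, ⟨e1, e2, e3, e4⟩, h3⟩ hx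
    by_cases pq : p.1 = q.1
    · rcases tx_twin hf pq hx with g | g
      · exact e1.ne g.symm
      · exact e2.ne g.symm
    · by_cases rs : r.1 = s.1
      · rcases tx_twin2 hf rs hx with g | g
        · exact e1.ne g
        · exact e3.ne g
      · exact h.nc (h3 pq rs) ((tx_iff hf pq e1.ne e2.ne e3.ne e4.ne rs).1 hx)
  dom := fun h => h.2.1.1
  nb := by
    rintro p q r s ⟨⟨h1, h2⟩, _, ⟨e1, e2, e3, e4⟩, h3⟩ ⟨⟨g1, g2⟩, _, ⟨i1, i2, i3, i4⟩, g3⟩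
    exact h.nb (h3 i1.ne i4.ne) (g3 e1.ne e4.ne)
  some := by
    intro a b c d e1 e2 hx da db dc dd
    have e1' : G.Adj a.1 c.1 := e1
    have e2' : G.Adj b.1 d.1 := e2
    obtain ⟨n1, n2, n3, n4, n5, n6⟩ := hx.1
    by_cases ab : a.1 = b.1
    · refine Or.inl ⟨⟨n2, n5⟩, ⟨da, db, dc, dd⟩, ⟨e1', ?_, ?_, e2'⟩, fun h1 _ => absurd ab h1⟩
      · rw [ab]; exact e2'
      · rw [← ab]; exact e1'
    by_cases cd : c.1 = d.1
    · refine Or.inl ⟨⟨n2, n5⟩, ⟨da, db, dc, dd⟩, ⟨e1', ?_, ?_, e2'⟩, fun _ h2 => absurd cd h2⟩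
      · rw [← cd]; exact e1'
      · rw [cd]; exact e2'
    by_cases ad : a.1 = d.1
    · refine Or.inr ⟨⟨n3, n4.symm⟩, ⟨da, dd, db, dc⟩, ⟨?_, e1', e2'.symm, ?_⟩, fun h1 _ => absurd ad h1⟩
      · rw [ad]; exact e2'.symm
      · rw [← ad]; exact e1'
    by_cases bc : b.1 = c.1
    · refine Or.inr ⟨⟨n3, n4.symm⟩, ⟨da, dd, db, dc⟩, ⟨?_, e1', e2'.symm, ?_⟩, fun _ h2 => absurd bc h2⟩
      · rw [bc]; exact e1'
      · rw [← bc]; exact e2'.symm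
    have hx' := (tx_iff hf e1'.ne ab ad (fun e => bc e.symm) cd e2'.ne).1 hx
    rcases h.some e1' e2' hx' da db dc dd with h1 | h1
    · exact Or.inl ⟨⟨n2, n5⟩, ⟨da, db, dc, dd⟩, h.sq h1, fun _ _ => h1⟩
    · exact Or.inr ⟨⟨n3, n4.symm⟩, ⟨da, dd, db, dc⟩, h.sq h1, fun _ _ => h1⟩
  trans := by
    rintro u w x y z ⟨⟨h1, h2⟩, ⟨a1, a2, a3, a4⟩, ⟨e1, e2, e3, e4⟩, h3⟩ ⟨⟨g1, g2⟩, ⟨b1, b2, b3, b4⟩, ⟨i1, i2, i3, i4⟩, g3⟩ xz
    refine ⟨⟨h1, xz⟩, ⟨a1, a2, a3, b4⟩, ⟨e1, i2, e3, i4⟩, fun n1 n2 => ?_⟩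
    by_cases xy : x.1 = y.1
    · rw [xy] at n2 ⊢
      exact g3 n1 n2
    by_cases yz : y.1 = z.1
    · rw [← yz]
      exact h3 n1 xy
    exact h.trans (h3 n1 xy) (g3 n1 yz) n2
  ferrers := by
    rintro a b x y x' y' ⟨⟨h1, h2⟩, ⟨a1, a2, a3, a4⟩, ⟨e1, e2, e3, e4⟩, h3⟩ ⟨⟨g1, g2⟩, ⟨b1, b2, b3, b4⟩, ⟨i1, i2, i3, i4⟩, g3⟩
    by_cases ax : a.1 = x.1
    · refine Or.inl ⟨⟨h1, g2⟩, ⟨a1, a2, a3, b4⟩, ⟨e1, i2, e3, ?_⟩, fun h4 _ => absurd ax h4⟩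
      rw [← ax]; exact i2
    by_cases ax' : a.1 = x'.1
    · refine Or.inr ⟨⟨g1, h2⟩, ⟨a1, b2, a3, a4⟩, ⟨e1, e2, i3, ?_⟩, fun h4 _ => absurd ax' h4⟩
      rw [← ax']; exact e2
    by_cases b_y : b.1 = y.1
    · refine Or.inr ⟨⟨g1, h2⟩, ⟨a1, b2, a3, a4⟩, ⟨e1, e2, i3, ?_⟩, fun _ h4 => absurd b_y h4⟩
      rw [← b_y]; exact i3
    by_cases by' : b.1 = y'.1
    · refine Or.inl ⟨⟨h1, g2⟩, ⟨a1, a2, a3, b4⟩, ⟨e1, i2, e3, ?_⟩, fun _ h4 => absurd by' h4⟩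
      rw [← by']; exact e3
    rcases h.ferrers (h3 ax b_y) (g3 ax' by') with h4 | h4
    · exact Or.inl ⟨⟨h1, g2⟩, ⟨a1, a2, a3, b4⟩, h.sq h4, fun _ _ => h4⟩
    · exact Or.inr ⟨⟨g1, h2⟩, ⟨a1, b2, a3, a4⟩, h.sq h4, fun _ _ => h4⟩

/-- a world: graph, positions, two structures `T`, `U` with domains `D`, `E`, side `S`, attached vertices `A`, blocks `K` -/
structure Wo (V : Type) where
  G : SimpleGraph V
  f : V → ℕ
  T : V → V → V → V → Prop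
  U : V → V → V → V → Prop
  S : V → Prop
  A : V → Prop
  D : V → Prop
  E : V → Prop
  K : V → V → Prop

/-- the conditions -/
structure Wo.Ok (W : Wo V) : Prop where
  inj : Function.Injective W.f
  bs : Bs W.G (CrF W.f) W.S W.A W.K
  at1 : ∀ {a}, W.S a → W.A a → ∃ z, ¬ W.S z ∧ W.G.Adj a z
  at2 : ∀ {a}, ¬ W.S a → W.A a → ∃ z, W.S z ∧ W.G.Adj a z
  t : PQ W.G (CrF W.f) W.T W.D
  u : PQ W.G (CrF W.f) W.U W.E

/-- the world with twins -/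
def Wo.tw (W : Wo V) (k : ℕ) : Wo (V × Fin k) where
  G := W.G.comap Prod.fst
  f := tf k W.f
  T := tt W.G W.D W.T k
  U := tt W.G W.E W.U k
  S p := W.S p.1
  A p := W.A p.1
  D p := W.D p.1
  E p := W.E p.1
  K p q := W.K p.1 q.1

theorem Bs.tw {G : SimpleGraph V} {f : V → ℕ} (hf : Function.Injective f) {S A : V → Prop} {K : V → V → Prop}
    (h : Bs G (CrF f) S A K) (k : ℕ) : Bs (G.comap Prod.fst) (CrF (tf k f)) (fun p : V × Fin k => S p.1)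
      (fun p => A p.1) (fun p q => K p.1 q.1) where
  int := by
    intro a b c d ha hb hc hd hx
    have n1 : a.1 ≠ c.1 := fun e => hc (e ▸ ha)
    have n2 : a.1 ≠ d.1 := fun e => hd (e ▸ ha)
    have n3 : b.1 ≠ c.1 := fun e => hc (e ▸ hb)
    have n4 : b.1 ≠ d.1 := fun e => hd (e ▸ hb)
    by_cases ab : a.1 = b.1
    · rcases tx_twin hf ab hx with g | g
      · exact n1 g.symm
      · exact n2 g.symm
    by_cases cd : c.1 = d.1
    · rcases tx_twin2 hf cd hx with g | g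
      · exact n1 g
      · exact n3 g
    exact h.int ha hb hc hd ((tx_iff hf ab n1 n2 n3 n4 cd).1 hx)
  att := fun ha hb e => h.att ha hb e
  krefl := fun ha => h.krefl ha
  ksym := fun hk => h.ksym hk
  ktr := fun h1 h2 => h.ktr h1 h2
  kS := fun h1 h2 => h.kS h1 h2
  kA := fun h1 => h.kA h1
  kr := fun h1 h2 h3 h4 => h.kr h1 h2 h3 h4
  kr' := fun h1 h2 h3 h4 => h.kr' h1 h2 h3 h4
  kb := by
    intro a b c d hk hc nc hd nd hx
    have n1 : a.1 ≠ c.1 := fun e => nc (e ▸ h.krefl (h.kA hk))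
    have n2 : a.1 ≠ d.1 := fun e => nd (e ▸ h.krefl (h.kA hk))
    have n3 : b.1 ≠ c.1 := fun e => nc (by show K a.1 c.1; rw [← e]; exact hk)
    have n4 : b.1 ≠ d.1 := fun e => nd (by show K a.1 d.1; rw [← e]; exact hk)
    by_cases ab : a.1 = b.1
    · rcases tx_twin hf ab hx with g | g
      · exact n1 g.symm
      · exact n2 g.symm
    by_cases cd : c.1 = d.1
    · rcases tx_twin2 hf cd hx with g | g
      · exact n1 g
      · exact n3 g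
    exact h.kb hk hc nc hd nd ((tx_iff hf ab n1 n2 n3 n4 cd).1 hx)
  pc := fun h1 h2 h3 h4 h5 h6 => h.pc h1 h2 h3 h4 h5 h6
  w4 := fun h1 h2 h3 h4 h5 h6 h7 h8 h9 h10 h11 h12 h13 h14 => h.w4 h1 h2 h3 h4 h5 h6 h7 h8 h9 h10 h11 h12 h13 h14

theorem Wo.Ok.tw {W : Wo V} (h : W.Ok) {k : ℕ} (hk : 0 < k) : (W.tw k).Ok where
  inj := tf_inj h.inj
  bs := h.bs.tw h.inj k
  at1 := fun {a} h1 h2 => by
    obtain ⟨z, h3, h4⟩ := h.at1 (a := a.1) h1 h2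
    exact ⟨(z, ⟨0, hk⟩), h3, h4⟩
  at2 := fun {a} h1 h2 => by
    obtain ⟨z, h3, h4⟩ := h.at2 (a := a.1) h1 h2
    exact ⟨(z, ⟨0, hk⟩), h3, h4⟩
  t := tt_pq h.inj h.t k
  u := tt_pq h.inj h.u k

/-- quaternary relations -/
def Wo.fam (W : Wo V) : Nat → V → V → V → V → Prop
  | 0 => CrF W.f
  | 1 => W.T
  | 2 => W.U
  | _ => fun _ _ _ _ => False

/-- binary relations -/
def Wo.fam2 (W : Wo V) : Nat → V → V → Prop
  | 0 => W.G.Adj
  | 1 => W.K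
  | 2 => fun a b => a = b ∧ W.S a
  | 3 => fun a b => a = b ∧ W.A a
  | 4 => fun a b => a = b ∧ W.D a
  | 5 => fun a b => a = b ∧ W.E a
  | _ => fun _ _ => False

theorem Wo.fam2_sym {W : Wo V} (h : W.Ok) (r : Nat) {a b : V} (e : W.fam2 r a b) : W.fam2 r b a := by
  unfold Wo.fam2 at e ⊢
  split at e
  · exact SimpleGraph.Adj.symm e
  · exact h.bs.ksym e
  · exact ⟨e.1.symm, e.1 ▸ e.2⟩
  · exact ⟨e.1.symm, e.1 ▸ e.2⟩
  · exact ⟨e.1.symm, e.1 ▸ e.2⟩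
  · exact ⟨e.1.symm, e.1 ▸ e.2⟩
  · exact e

theorem Wo.fam_sym1 {W : Wo V} (h : W.Ok) (r : Nat) {a b c d : V} (e : W.fam r a b c d) : W.fam r b a c d := by
  unfold Wo.fam at e ⊢
  split at e
  · exact (crF_sepr h.inj).swap e
  · exact h.t.sw1 e
  · exact h.u.sw1 e
  · exact e

theorem Wo.fam_sym2 {W : Wo V} (h : W.Ok) (r : Nat) {a b c d : V} (e : W.fam r a b c d) : W.fam r c d a b := by
  unfold Wo.fam at e ⊢
  split at e
  · exact (crF_sepr h.inj).comm e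
  · exact h.t.sw2 e
  · exact h.u.sw2 e
  · exact e

/-- the relations for the refutations -/
def Wo.rel {W : Wo V} (h : W.Ok) : SRel V where
  r2 := W.fam2
  r3 := fun _ _ _ _ => False
  r4 := W.fam
  s2 := fun {r} {_} {_} e => Wo.fam2_sym h r e
  s3 := fun e => e
  s3' := fun e => e
  s4 := fun {r} {_} {_} {_} {_} e => Wo.fam_sym1 h r e
  s4' := fun {r} {_} {_} {_} {_} e => Wo.fam_sym2 h r e

end Pool.Agent.SOQ
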