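import Pool.Agent.SOQ.Glue
import Pool.Agent.SOQ.Ra
import Pool.Agent.SOQ.Re

/-! Project SOQ, module Fin: at most five blocks on a side; the lock for structures of the whole graph; statements for
lists. -/

set_option autoImplicit false

namespace Pool.Agent.SOQ

open Pool.Agent.SOC Pool.Agent.SOD Pool.Agent.RUP Pool.Agent.SOF Pool.Agent.SOG Pool.Agent.SOW Pool.Agent.SOP
  Pool.Agent.SOE

variable {V : Type}

section
variable {C : Cut V} {G : SimpleGraph V} {X T T1 T2 T' : V → V → V → V → Prop} {f : V → ℕ}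
  {a b c d e p q r s t : V}

/-- F2: no six consecutive blocks on the side `S` -/
theorem CH.six (h : CH C f G) (hh : Half C G (CrF f) C.S T) (x : ℕ → V) (hx : ∀ i < 6, C.S (x i) ∧ C.A (x i))
    (ho : ∀ i j k d, i < j → j < k → k < 6 → ¬ C.S d → CrF f (x i) (x k) (x j) d)
    (hd : ∀ i, i + 1 < 6 → ∃ z, ¬ C.S z ∧ ¬ (G.Adj (x i) z ↔ G.Adj (x (i + 1)) z)) : False := by
  have hw := h.w1 (P := fun _ => False) hh
  have hm := h.m1w1 (T := T) (P := fun _ => False)
  have gd : ∀ i < 6, (W1 C f G T fun _ => False).Gd (x i) := fun i hi =>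
    ⟨(hx i hi).2, Or.inl (hx i hi).1, Or.inl (hx i hi).1⟩
  have dd : ∀ i, i + 1 < 6 → ∃ z, ¬ C.S z ∧ (W1 C f G T fun _ => False).Gd z ∧
      ¬ (G.Adj (x i) z ↔ G.Adj (x (i + 1)) z) := by
    intro i hi
    obtain ⟨z, sz, hz⟩ := hd i hi
    refine hm.dx hw (hx i (by omega)).1 (hx (i + 1) hi).1 (fun k => hz (k z ?_))
    exact ⟨fun e => absurd e sz, fun e => absurd (hx i (by omega)).1 e⟩
  obtain ⟨d0, s0, g0, w0⟩ := dd 0 (by omega)
  obtain ⟨d1, s1, g1, w1⟩ := dd 1 (by omega)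
  obtain ⟨d2, s2, g2, w2⟩ := dd 2 (by omega)
  obtain ⟨d3, s3, g3, w3⟩ := dd 3 (by omega)
  obtain ⟨d4, s4, g4, w4⟩ := dd 4 (by omega)
  have o : ∀ {i j k}, i < j → j < k → k < 6 → ∀ z, ¬ C.S z → CrF f (x i) (x k) (x j) z :=
    fun h1 h2 h3 z hz => ho _ _ _ z h1 h2 h3 hz
  exact nb hw (a0 := x 0) (a1 := x 1) (a2 := x 2) (a3 := x 3) (a4 := x 4) (a5 := x 5) (d0 := d0) (d1 := d1) (d2 := d2)
    (d3 := d3) (d4 := d4)
    (s_a0 := (hx 0 (by omega)).1) (g_a0 := gd 0 (by omega)) (s_a1 := (hx 1 (by omega)).1) (g_a1 := gd 1 (by omega))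
    (s_a2 := (hx 2 (by omega)).1) (g_a2 := gd 2 (by omega)) (s_a3 := (hx 3 (by omega)).1) (g_a3 := gd 3 (by omega))
    (s_a4 := (hx 4 (by omega)).1) (g_a4 := gd 4 (by omega)) (s_a5 := (hx 5 (by omega)).1) (g_a5 := gd 5 (by omega))
    (s_d0 := s0) (g_d0 := g0) (w_a0_a1_d0 := w0) (s_d1 := s1) (g_d1 := g1) (w_a1_a2_d1 := w1)
    (s_d2 := s2) (g_d2 := g2) (w_a2_a3_d2 := w2) (s_d3 := s3) (g_d3 := g3) (w_a3_a4_d3 := w3)
    (s_d4 := s4) (g_d4 := g4) (w_a4_a5_d4 := w4)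
    (o (by omega) (by omega) (by omega)) (o (by omega) (by omega) (by omega)) (o (by omega) (by omega) (by omega))
    (o (by omega) (by omega) (by omega)) (o (by omega) (by omega) (by omega)) (o (by omega) (by omega) (by omega))
    (o (by omega) (by omega) (by omega)) (o (by omega) (by omega) (by omega)) (o (by omega) (by omega) (by omega))
    (o (by omega) (by omega) (by omega)) (o (by omega) (by omega) (by omega)) (o (by omega) (by omega) (by omega))
    (o (by omega) (by omega) (by omega)) (o (by omega) (by omega) (by omega)) (o (by omega) (by omega) (by omega))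
    (o (by omega) (by omega) (by omega)) (o (by omega) (by omega) (by omega)) (o (by omega) (by omega) (by omega))
    (o (by omega) (by omega) (by omega)) (o (by omega) (by omega) (by omega))

/-- a structure of the whole graph -/
theorem pq_of_qt (hq : QT G (CrF f) T) : PQ G (CrF f) T (fun _ => True) where
  sw1 := hq.swap₁
  sw2 := hq.swap₂
  ne := hq.ne
  adj := hq.adj
  nc := hq.nocross
  dom := fun _ => trivial
  nb := fun h1 h2 => hq.notboth (hq.swap₂ (hq.swap₁ (hq.swap₂ h1))) h2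
  some := fun e1 e2 hx _ _ _ _ => hq.some e1 e2 hx.1.2.1 hx.1.2.2.1 hx.1.2.2.2.1.symm hx.1.2.2.2.2.1 hx
  trans := hq.trans
  ferrers := hq.ferrers

/-- adjacency depends only on the blocks -/
theorem CH.adk (h : CH C f G) {u v z w : V} (k1 : C.K u v) (k2 : C.K z w) (sv : C.S v) (sw : ¬ C.S w) :
    G.Adj u z ↔ G.Adj v w := by
  have su : C.S u := h.ok.kS (h.ok.ksym k1) sv
  have sz : ¬ C.S z := fun k => sw (h.ok.kS k2 k)
  constructor
  · intro e
    have e1 := h.bi.bi k1 su sz e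
    exact (h.bi.bi' k2 sz sv e1.symm).symm
  · intro e
    have e1 := h.bi.bi (h.ok.ksym k1) sv sw e
    exact (h.bi.bi' (h.ok.ksym k2) sw su e1.symm).symm

/-- BOTH: a structure of the whole graph is not locked on both sides -/
theorem CH.both (h : CH C f G) (hq : QT G (CrF f) T) (hl : Lock C G (CrF f) p s q r) :
    Unl C G T ∨ Unl (SOQ.op C) G T := by
  obtain ⟨sp, ss, sq, sr, epq, epr, esq, nsr, hx, hall⟩ := hl
  let W : Wo V := ⟨G, f, T, T, C.S, C.A, fun _ => True, fun _ => True, C.K⟩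
  have hw : W.Ok := ⟨h.inj, h.bs, h.m1.at1, h.m1.at2, pq_of_qt hq, pq_of_qt hq⟩
  have gd : ∀ {v : V}, C.A v → W.Gd v := fun av => ⟨av, trivial, trivial⟩
  obtain ⟨ap, aq⟩ := h.bi.xa sp sq epq
  have ar := (h.bi.xa sp sr epr).2
  have as := (h.bi.xa ss sq esq).1
  have clx : ∀ {v : V}, C.S v → C.A v → C.K v p ∨ C.K v s := by
    intro v sv av
    rcases hall v av with k | k | k | k
    · exact Or.inl k
    · exact Or.inr k
    · exact absurd k (h.nks sv sq)
    · exact absurd k (h.nks sv sr)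
  have cly : ∀ {v : V}, ¬ C.S v → C.A v → C.K v q ∨ C.K v r := by
    intro v sv av
    rcases hall v av with k | k | k | k
    · exact absurd k (h.nks' sp sv)
    · exact absurd k (h.nks' ss sv)
    · exact Or.inl k
    · exact Or.inr k
  by_contra hn
  rw [not_or] at hn
  obtain ⟨hn1, hn2⟩ := hn
  unfold Unl at hn1 hn2
  push Not at hn1 hn2
  obtain ⟨q1, p1, s1, x1, r1, sq1, sr1, sp1, ss1, sx1, e1, ne1, t1⟩ := hn1
  obtain ⟨q2, p2, s2, y2, r2, sq2, sr2, sp2, ss2, sy2, e2, ne2, t2⟩ := hn2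
  have sq2 : C.S q2 := not_not.1 sq2
  have sr2 : C.S r2 := not_not.1 sr2
  have sq_ : ∀ {a b c d : V}, T a b c d → G.Adj a c ∧ G.Adj a d := fun ht =>
    ⟨hq.adj ht, hq.adj (hq.swap₂ (hq.swap₁ (hq.swap₂ ht)))⟩
  obtain ⟨i1, i2⟩ := sq_ t1
  obtain ⟨i3, i4⟩ := sq_ t2
  -- the blocks of the first quartet
  obtain ⟨ap1, ar1⟩ := h.bi.xa sp1 sr1 e1
  obtain ⟨as1, aq1⟩ := h.bi.xa ss1 sq1 i2.symm
  have ks1 : C.K s1 s := by
    rcases clx ss1 as1 with k | k
    · rcases cly sr1 ar1 with k' | k'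
      · exact absurd ((h.adk k k' sp sq).2 epq) ne1
      · exact absurd ((h.adk k k' sp sr).2 epr) ne1
    · exact k
  have kr1 : C.K r1 r := by
    rcases cly sr1 ar1 with k' | k'
    · exact absurd ((h.adk ks1 k' ss sq).2 esq) ne1
    · exact k'
  have kp1 : C.K p1 p := by
    rcases clx sp1 ap1 with k | k
    · exact k
    · exact absurd ((h.adk k kr1 ss sr).1 e1) nsr
  have kq1 : C.K q1 q := by
    rcases cly sq1 aq1 with k | k
    · exact k
    · exact absurd ((h.adk ks1 k ss sr).1 i2.symm) nsr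
  -- the blocks of the second quartet
  obtain ⟨ar2, ap2⟩ := h.bi.xa sr2 sp2 e2.symm
  obtain ⟨aq2, as2⟩ := h.bi.xa sq2 ss2 i4
  have kr2 : C.K r2 s := by
    rcases clx sr2 ar2 with k | k
    · rcases cly ss2 as2 with k' | k'
      · exact absurd ((h.adk k k' sp sq).2 epq).symm ne2
      · exact absurd ((h.adk k k' sp sr).2 epr).symm ne2
    · exact k
  have ks2 : C.K s2 r := by
    rcases cly ss2 as2 with k' | k'
    · exact absurd ((h.adk kr2 k' ss sq).2 esq).symm ne2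
    · exact k'
  have kp2 : C.K p2 q := by
    rcases cly sp2 ap2 with k | k
    · exact k
    · exact absurd ((h.adk kr2 k ss sr).1 e2.symm) nsr
  have kq2 : C.K q2 p := by
    rcases clx sq2 aq2 with k | k
    · exact k
    · exact absurd ((h.adk k ks2 ss sr).1 i4) nsr
  -- different blocks
  have nps : ¬ C.K p s := fun k => nsr (h.bi.bi k sp sr epr)
  have nqr : ¬ C.K q r := fun k => nsr (h.bi.bi' k sq ss esq.symm).symm
  have hX := crF_sepr h.inj
  have sc : ∀ {a b c d : V}, CrF f a b c d → CrF f a b d c := fun h => hX.comm (hX.swap (hX.comm h))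
  have x1' : CrF f p q s1 r := hw.shift (h.ok.ksym ks1) ap (fun k => nps (h.ok.ksym k)) aq (h.nks ss sq)
    (fun e => sr (e ▸ ss1)) (hX.comm hx)
  have x2' : CrF f p q s2 s1 := hw.shift (h.ok.ksym ks2) ap (h.nks' sp sr) aq (fun k => nqr (h.ok.ksym k))
    (fun e => ss2 (e ▸ ss1)) (sc x1')
  have x3' : CrF f s2 s1 p1 q := hw.shift (h.ok.ksym kp1) as2 (h.nks sp ss2) as1
    (fun k => nps (h.ok.ktr k ks1)) (fun e => sq (e ▸ sp1)) (hX.comm x2')
  have x4' : CrF f s2 s1 q1 p1 := hw.shift (h.ok.ksym kq1) as2 (fun k => nqr (h.ok.ktr k ks2)) as1 (h.nks' ss1 sq)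
    (fun e => sq1 (e ▸ sp1)) (sc x3')
  have cx : C.A x1 → C.K x1 p1 ∨ C.K x1 s1 := by
    intro ax
    rcases clx sx1 ax with k | k
    · exact Or.inl (h.ok.ktr k (h.ok.ksym kp1))
    · exact Or.inr (h.ok.ktr k (h.ok.ksym ks1))
  have cy : C.A y2 → C.K y2 q1 ∨ C.K y2 s2 := by
    intro ay
    rcases cly sy2 ay with k | k
    · exact Or.inl (h.ok.ktr k (h.ok.ksym kq1))
    · exact Or.inr (h.ok.ktr k (h.ok.ksym ks2))
  exact nl hw (p := p1) (s := s1) (q := q1) (r := s2) (x := x1) (y := y2) (p2 := q2) (q2 := p2)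
    sp1 (gd ap1) ss1 (gd as1) sq1 (gd aq1) ss2 (gd as2) sx1 trivial sy2 trivial sq2 (gd aq2) sp2 (gd ap2)
    (h.ok.ktr kp1 (h.ok.ksym kq2)) (h.ok.ktr kq1 (h.ok.ksym kp2)) i1.symm ((h.adk kp1 ks2 sp sr).2 epr) i2.symm
    (fun e => nsr ((h.adk ks1 ks2 ss sr).1 e)) t1 t2 (sc (hX.swap x4')) cx cy

end

end Pool.Agent.SOQ
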