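import Pool.Agent.SOQ.Sep
import Pool.Agent.SOQ.Rb

/-! Project SOQ, module Fs: when two points of a block and two letters are not core, then one of the letters is top, and
also the attached vertices between the block and the letter are top. -/

set_option autoImplicit false

namespace Pool.Agent.SOQ

open Pool.Agent.SOC Pool.Agent.SOD Pool.Agent.RUP

variable {V : Type}

/-- `y` is not top, or some attached vertex between `b` and `y` is not top -/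
def FK (W : Wo V) (b y c z : V) : Prop :=
  (∃ m, W.S m ∧ W.Gd m ∧ ¬ W.G.Adj y m) ∨
  (∃ n m, ¬ W.S n ∧ W.Gd n ∧ W.S m ∧ W.Gd m ∧ ¬ W.G.Adj n m ∧ ¬ W.K b n ∧ CrF W.f b y n c ∧ CrF W.f b y n z) ∨
  (∃ n m d, W.S n ∧ W.Gd n ∧ ¬ W.S m ∧ W.Gd m ∧ ¬ W.G.Adj n m ∧ ¬ W.K b n ∧ CrF W.f b y n c ∧ CrF W.f b y n z ∧
    ¬ W.S d ∧ W.Gd d ∧ ¬ (W.G.Adj b d ↔ W.G.Adj n d)) ∨
  (∃ n m w, W.S n ∧ W.Gd n ∧ ¬ W.S m ∧ W.Gd m ∧ ¬ W.G.Adj n m ∧ ¬ W.K b n ∧ CrF W.f b y n c ∧ CrF W.f b y n z ∧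
    W.S w ∧ W.Gd w ∧ W.Tp w ∧ ¬ W.K b w ∧ CrF W.f b n w c)

theorem fs_all {W : Wo V} (h : W.Ok) {b c y z : V} (s_b : W.S b) (g_b : W.Gd b) (s_c : W.S c) (g_c : W.Gd c)
    (s_y : ¬ W.S y) (g_y : W.Gd y) (s_z : ¬ W.S z) (g_z : W.Gd z) (k : W.K b c) (nk : ¬ W.K y z) (t : W.T b y c z)
    (h1 : FK W b y c z) (h2 : FK W c z b y) : False := by
  rcases h1 with h1 | h1 | h1 | h1 <;> rcases h2 with h2 | h2 | h2 | h2
  · obtain ⟨m1, s_m1, g_m1, ne_m1⟩ := h1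
    obtain ⟨m2, s_m2, g_m2, ne_m2⟩ := h2
    apply fs_y_y h (b := b) (c := c) (y := y) (z := z) (m1 := m1) (m2 := m2) <;> assumption
  · obtain ⟨m1, s_m1, g_m1, ne_m1⟩ := h1
    obtain ⟨n2, m2, s_n2, g_n2, s_m2, g_m2, ne_m2, nk_n2, xa2, xb2⟩ := h2
    apply fs_y_nY h (b := b) (c := c) (y := y) (z := z) (m1 := m1) (n2 := n2) (m2 := m2) <;> assumption
  · obtain ⟨m1, s_m1, g_m1, ne_m1⟩ := h1
    obtain ⟨n2, m2, d2, s_n2, g_n2, s_m2, g_m2, ne_m2, nk_n2, xa2, xb2, s_d2, g_d2, w2_⟩ := h2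
    apply fs_y_nXd h (b := b) (c := c) (y := y) (z := z) (m1 := m1) (n2 := n2) (m2 := m2) (d2 := d2) <;> assumption
  · obtain ⟨m1, s_m1, g_m1, ne_m1⟩ := h1
    obtain ⟨n2, m2, w2, s_n2, g_n2, s_m2, g_m2, ne_m2, nk_n2, xa2, xb2, s_w2, g_w2, tp_w2, nk_w2, xw2⟩ := h2
    apply fs_y_nXs h (b := b) (c := c) (y := y) (z := z) (m1 := m1) (n2 := n2) (m2 := m2) (w2 := w2) <;> assumption
  · obtain ⟨n1, m1, s_n1, g_n1, s_m1, g_m1, ne_m1, nk_n1, xa1, xb1⟩ := h1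
    obtain ⟨m2, s_m2, g_m2, ne_m2⟩ := h2
    have t2 := h.t.sw2 t
    have k2 := h.bs.ksym k
    have nk2 : ¬ W.K z y := fun e => nk (h.bs.ksym e)
    apply fs_y_nY h (b := c) (c := b) (y := z) (z := y) (m1 := m2) (n2 := n1) (m2 := m1) <;> assumption
  · obtain ⟨n1, m1, s_n1, g_n1, s_m1, g_m1, ne_m1, nk_n1, xa1, xb1⟩ := h1
    obtain ⟨n2, m2, s_n2, g_n2, s_m2, g_m2, ne_m2, nk_n2, xa2, xb2⟩ := h2
    apply fs_nY_nY h (b := b) (c := c) (y := y) (z := z) (n1 := n1) (m1 := m1) (n2 := n2) (m2 := m2) <;> assumption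
  · obtain ⟨n1, m1, s_n1, g_n1, s_m1, g_m1, ne_m1, nk_n1, xa1, xb1⟩ := h1
    obtain ⟨n2, m2, d2, s_n2, g_n2, s_m2, g_m2, ne_m2, nk_n2, xa2, xb2, s_d2, g_d2, w2_⟩ := h2
    apply fs_nY_nXd h (b := b) (c := c) (y := y) (z := z) (n1 := n1) (m1 := m1) (n2 := n2) (m2 := m2) (d2 := d2) <;> assumption
  · obtain ⟨n1, m1, s_n1, g_n1, s_m1, g_m1, ne_m1, nk_n1, xa1, xb1⟩ := h1
    obtain ⟨n2, m2, w2, s_n2, g_n2, s_m2, g_m2, ne_m2, nk_n2, xa2, xb2, s_w2, g_w2, tp_w2, nk_w2, xw2⟩ := h2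
    apply fs_nY_nXs h (b := b) (c := c) (y := y) (z := z) (n1 := n1) (m1 := m1) (n2 := n2) (m2 := m2) (w2 := w2) <;> assumption
  · obtain ⟨n1, m1, d1, s_n1, g_n1, s_m1, g_m1, ne_m1, nk_n1, xa1, xb1, s_d1, g_d1, w1_⟩ := h1
    obtain ⟨m2, s_m2, g_m2, ne_m2⟩ := h2
    have t2 := h.t.sw2 t
    have k2 := h.bs.ksym k
    have nk2 : ¬ W.K z y := fun e => nk (h.bs.ksym e)
    apply fs_y_nXd h (b := c) (c := b) (y := z) (z := y) (m1 := m2) (n2 := n1) (m2 := m1) (d2 := d1) <;> assumption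
  · obtain ⟨n1, m1, d1, s_n1, g_n1, s_m1, g_m1, ne_m1, nk_n1, xa1, xb1, s_d1, g_d1, w1_⟩ := h1
    obtain ⟨n2, m2, s_n2, g_n2, s_m2, g_m2, ne_m2, nk_n2, xa2, xb2⟩ := h2
    have t2 := h.t.sw2 t
    have k2 := h.bs.ksym k
    have nk2 : ¬ W.K z y := fun e => nk (h.bs.ksym e)
    apply fs_nY_nXd h (b := c) (c := b) (y := z) (z := y) (n1 := n2) (m1 := m2) (n2 := n1) (m2 := m1) (d2 := d1) <;> assumption
  · obtain ⟨n1, m1, d1, s_n1, g_n1, s_m1, g_m1, ne_m1, nk_n1, xa1, xb1, s_d1, g_d1, w1_⟩ := h1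
    obtain ⟨n2, m2, d2, s_n2, g_n2, s_m2, g_m2, ne_m2, nk_n2, xa2, xb2, s_d2, g_d2, w2_⟩ := h2
    apply fs_nXd_nXd h (b := b) (c := c) (y := y) (z := z) (n1 := n1) (m1 := m1) (d1 := d1) (n2 := n2) (m2 := m2) (d2 := d2) <;> assumption
  · obtain ⟨n1, m1, d1, s_n1, g_n1, s_m1, g_m1, ne_m1, nk_n1, xa1, xb1, s_d1, g_d1, w1_⟩ := h1
    obtain ⟨n2, m2, w2, s_n2, g_n2, s_m2, g_m2, ne_m2, nk_n2, xa2, xb2, s_w2, g_w2, tp_w2, nk_w2, xw2⟩ := h2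
    apply fs_nXd_nXs h (b := b) (c := c) (y := y) (z := z) (n1 := n1) (m1 := m1) (d1 := d1) (n2 := n2) (m2 := m2) (w2 := w2) <;> assumption
  · obtain ⟨n1, m1, w1, s_n1, g_n1, s_m1, g_m1, ne_m1, nk_n1, xa1, xb1, s_w1, g_w1, tp_w1, nk_w1, xw1⟩ := h1
    obtain ⟨m2, s_m2, g_m2, ne_m2⟩ := h2
    have t2 := h.t.sw2 t
    have k2 := h.bs.ksym k
    have nk2 : ¬ W.K z y := fun e => nk (h.bs.ksym e)
    apply fs_y_nXs h (b := c) (c := b) (y := z) (z := y) (m1 := m2) (n2 := n1) (m2 := m1) (w2 := w1) <;> assumption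
  · obtain ⟨n1, m1, w1, s_n1, g_n1, s_m1, g_m1, ne_m1, nk_n1, xa1, xb1, s_w1, g_w1, tp_w1, nk_w1, xw1⟩ := h1
    obtain ⟨n2, m2, s_n2, g_n2, s_m2, g_m2, ne_m2, nk_n2, xa2, xb2⟩ := h2
    have t2 := h.t.sw2 t
    have k2 := h.bs.ksym k
    have nk2 : ¬ W.K z y := fun e => nk (h.bs.ksym e)
    apply fs_nY_nXs h (b := c) (c := b) (y := z) (z := y) (n1 := n2) (m1 := m2) (n2 := n1) (m2 := m1) (w2 := w1) <;> assumption
  · obtain ⟨n1, m1, w1, s_n1, g_n1, s_m1, g_m1, ne_m1, nk_n1, xa1, xb1, s_w1, g_w1, tp_w1, nk_w1, xw1⟩ := h1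
    obtain ⟨n2, m2, d2, s_n2, g_n2, s_m2, g_m2, ne_m2, nk_n2, xa2, xb2, s_d2, g_d2, w2_⟩ := h2
    have t2 := h.t.sw2 t
    have k2 := h.bs.ksym k
    have nk2 : ¬ W.K z y := fun e => nk (h.bs.ksym e)
    apply fs_nXd_nXs h (b := c) (c := b) (y := z) (z := y) (n1 := n2) (m1 := m2) (d1 := d2) (n2 := n1) (m2 := m1) (w2 := w1) <;> assumption
  · obtain ⟨n1, m1, w1, s_n1, g_n1, s_m1, g_m1, ne_m1, nk_n1, xa1, xb1, s_w1, g_w1, tp_w1, nk_w1, xw1⟩ := h1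
    obtain ⟨n2, m2, w2, s_n2, g_n2, s_m2, g_m2, ne_m2, nk_n2, xa2, xb2, s_w2, g_w2, tp_w2, nk_w2, xw2⟩ := h2
    apply fs_nXs_nXs h (b := b) (c := c) (y := y) (z := z) (n1 := n1) (m1 := m1) (w1 := w1) (n2 := n2) (m2 := m2) (w2 := w2) <;> assumption

section
variable {W : Wo V} {b c y z n w q : V}

/-- order of points -/
theorem ord1 (h : W.Ok) (h1 : CrF W.f b n w z) (h2 : CrF W.f b y n c) (h3 : CrF W.f b y n z) (zc : z ≠ c) (wc : w ≠ c) :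
    CrF W.f b n w c := by
  have bc : b ≠ c := h2.1.2.2.1
  have nc : n ≠ c := h2.1.2.2.2.2.2
  have by' : b ≠ y := h2.1.1
  have ny : y ≠ n := h2.1.2.2.2.1
  have yc : y ≠ c := h2.1.2.2.2.2.1
  have yz : y ≠ z := h3.1.2.2.2.2.1
  rcases h.se.add2 h1 zc wc bc nc with h4 | h4
  · exfalso
    rcases h.se.add2 h4 yc.symm yz.symm by' ny.symm with h5 | h5
    · exact h.se.amo (h.se.comm (h.se.swap (h.se.comm h5))) h2
    · exact h.se.amo (h.se.comm (h.se.swap (h.se.comm h5))) h3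
  · exact h4

/-- order of points -/
theorem ord2 (h : W.Ok) (h2 : CrF W.f b n w y) (h3 : CrF W.f b y n q) (qw : q ≠ w) : CrF W.f b y w q := by
  have bw : b ≠ w := h2.1.2.1
  have nw : n ≠ w := h2.1.2.2.2.1
  have yw : y ≠ w := h2.1.2.2.2.2.2.symm
  rcases h.se.add2 h3 qw nw bw yw with h4 | h4
  · exact h.se.comm (h.se.swap (h.se.comm h4))
  · exact absurd (h.se.comm (h.se.swap (h.se.comm h2))) (h.se.amo h4)

theorem fk_of_bad (h : W.Ok) (hm : W.Mx) (s_b : W.S b) (g_b : W.Gd b) (s_c : W.S c) (g_c : W.Gd c)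
    (s_y : ¬ W.S y) (g_y : W.Gd y) (s_z : ¬ W.S z) (g_z : W.Gd z) (k : W.K b c) (t : W.T b y c z)
    (hb : ¬ (W.Tp y ∧ ∀ n, W.A n → ¬ W.K b n → CrF W.f b y n z → W.Tp n)) : FK W b y c z := by
  by_cases ty : W.Tp y
  swap
  · exact Or.inl (hm.nty h s_y ty)
  have hb' : ¬ ∀ n, W.A n → ¬ W.K b n → CrF W.f b y n z → W.Tp n := fun k => hb ⟨ty, k⟩
  push Not at hb'
  obtain ⟨n0, an0, nk0, hx0, nt0⟩ := hb'
  have bc : b ≠ c := (h.t.adj t).ne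
  have nyb : W.A y := g_y.1
  have nky : ¬ W.K n0 y := fun e => nt0 (h.ktp (h.bs.ksym e) ty)
  have nkz : ¬ W.K b z := fun e => s_z (h.bs.kS e s_b)
  have nkby : ¬ W.K b y := fun e => s_y (h.bs.kS e s_b)
  -- all properties of a vertex on the arc
  have xc : ∀ {n : V}, ¬ W.K b n → CrF W.f b y n z → CrF W.f b y n c := by
    intro n nk hx
    have nc : n ≠ c := fun e => nk (e ▸ k)
    rcases h.se.add2 hx (h.t.ne' t).symm nc bc (nsd s_c s_y).symm with h4 | h4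
    · exact absurd (h.se.comm (h.se.swap (h.se.comm h4))) (h.t.nc t)
    · exact h4
  by_cases sn0 : W.S n0
  · obtain ⟨n, kn, gn⟩ := hm.rx sn0 an0
    have sn := h.bs.kS kn sn0
    have nkn' : ¬ W.K b n := fun e => nk0 (h.bs.ktr e (h.bs.ksym kn))
    have hx : CrF W.f b y n z := h.shift kn g_b.1 (fun e => nk0 (h.bs.ksym e)) g_y.1 nky (nsd' s_z sn) hx0
    have nt : ¬ W.Tp n := fun e => nt0 (h.ktp (h.bs.ksym kn) e)
    obtain ⟨m, sm, gm, nm⟩ := hm.ntx h sn nt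
    by_cases hs : W.Sm b n
    · obtain ⟨w, d, sw, gw, hw, sd, gd, hd⟩ := hm.sx h s_b sn g_b.1 gn.1 nkn' hs
      have nkw : ¬ W.K b w := fun e => hd (h.ksm e d ⟨fun e => absurd e sd, fun e => absurd s_b e⟩)
      by_cases tw : W.Tp w
      · refine Or.inr (Or.inr (Or.inr ⟨n, m, w, sn, gn, sm, gm, nm, nkn', xc nkn' hx, hx, sw, gw, tw, nkw, ?_⟩))
        exact ord1 h (hw z s_z) (xc nkn' hx) hx (nsd s_c s_z).symm (fun e => nkw (e ▸ k))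
      · obtain ⟨m', sm', gm', nm'⟩ := hm.ntx h sw tw
        have hx' : CrF W.f b y w z := ord2 h (hw y s_y) hx (nsd' s_z sw)
        exact Or.inr (Or.inr (Or.inl ⟨w, m', d, sw, gw, sm', gm', nm', nkw, xc nkw hx', hx', sd, gd, hd⟩))
    · obtain ⟨d, sd, gd, hd⟩ := hm.dx h s_b sn hs
      exact Or.inr (Or.inr (Or.inl ⟨n, m, d, sn, gn, sm, gm, nm, nkn', xc nkn' hx, hx, sd, gd, hd⟩))
  · obtain ⟨n, kn, gn⟩ := hm.ry sn0 an0
    have sn := h.kSn kn sn0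
    have nkn' : ¬ W.K b n := fun e => nk0 (h.bs.ktr e (h.bs.ksym kn))
    by_cases nz : n = z
    · -- the representative is `z`
      exfalso
      subst nz
      have h1 : CrF W.f n n0 b y := by
        have := h.se.comm hx0
        exact h.se.swap this
      exact h.bs.kb (h.bs.ksym kn) g_b.1 (fun e => nkz (h.bs.ksym e)) g_y.1
        (fun e => nky (h.bs.ktr kn e)) h1
    have hx : CrF W.f b y n z := h.shift kn g_b.1 (fun e => nk0 (h.bs.ksym e)) g_y.1 nky (fun e => nz e.symm) hx0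
    have nt : ¬ W.Tp n := fun e => nt0 (h.ktp (h.bs.ksym kn) e)
    obtain ⟨m, sm, gm, nm⟩ := hm.nty h sn nt
    exact Or.inr (Or.inl ⟨n, m, sn, gn, sm, gm, nm, nkn', xc nkn' hx, hx⟩)

/-- F*: one of the two letters is top, with all attached vertices between the block and the letter -/
theorem fstar (h : W.Ok) (hm : W.Mx) (s_b : W.S b) (g_b : W.Gd b) (s_c : W.S c) (g_c : W.Gd c)
    (s_y : ¬ W.S y) (g_y : W.Gd y) (s_z : ¬ W.S z) (g_z : W.Gd z) (k : W.K b c) (nk : ¬ W.K y z) (t : W.T b y c z) :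
    (W.Tp y ∧ W.Arc b y z) ∨ (W.Tp z ∧ W.Arc c z y) := by
  by_contra hn
  rw [not_or] at hn
  exact fs_all h s_b g_b s_c g_c s_y g_y s_z g_z k nk t
    (fk_of_bad h hm s_b g_b s_c g_c s_y g_y s_z g_z k t hn.1)
    (fk_of_bad h hm s_c g_c s_b g_b s_z g_z s_y g_y (h.bs.ksym k) (h.t.sw2 t) hn.2)

/-- the arc condition for another vertex of the block -/
theorem Wo.Arc.kk (h : W.Ok) {r al : V} (ha : W.Arc b r al) (hk : W.K b c) (sb : W.S b) (sr : ¬ W.S r) (sl : ¬ W.S al)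
    (ga : W.A al) : W.Arc c r al := by
  intro p ap np hx
  refine ha p ap (fun e => np (h.bs.ktr (h.bs.ksym hk) e)) ?_
  exact h.shift1 (h.bs.ksym hk) (nsd sb sr).symm ap np ga (fun e => sl (h.bs.kS e (h.bs.kS hk sb))) hx

end

end Pool.Agent.SOQ
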