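import Pool.Agent.SOQ.Lk

/-! Project SOQ, module Glue: GLUING of the structures of the two sides of an E-P-cut. -/

set_option autoImplicit false

namespace Pool.Agent.SOQ

open Pool.Agent.SOC Pool.Agent.SOD Pool.Agent.RUP Pool.Agent.SOF Pool.Agent.SOG Pool.Agent.SOW Pool.Agent.SOP
  Pool.Agent.SOE

variable {V : Type}

theorem op_op (C : Cut V) : op (op C) = C := by
  unfold op
  simp only [not_not]

/-- locked cuts: exactly four blocks, in the locked order -/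
def Lock (C : Cut V) (G : SimpleGraph V) (X : V → V → V → V → Prop) (p s q r : V) : Prop :=
  C.S p ∧ C.S s ∧ ¬ C.S q ∧ ¬ C.S r ∧ G.Adj p q ∧ G.Adj p r ∧ G.Adj s q ∧ ¬ G.Adj s r ∧ X s r p q ∧
    ∀ v, C.A v → C.K v p ∨ C.K v s ∨ C.K v q ∨ C.K v r

/-- the structure of the side `S` is not locked -/
def Unl (C : Cut V) (G : SimpleGraph V) (T : V → V → V → V → Prop) : Prop :=
  ∀ q p s x r, ¬ C.S q → ¬ C.S r → C.S p → C.S s → C.S x → G.Adj p r → ¬ G.Adj s r → ¬ T q x p s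

section
variable {C : Cut V} {G : SimpleGraph V} {X T T1 T2 T' : V → V → V → V → Prop} {f : V → ℕ} {s' P D : V → Prop}
  {a b c d e x y p q r s t : V}

theorem half_op2 (h : Half C G X C.S T) : Half (op C) G X (fun x => ¬ (op C).S x) T := by
  have h1 : (fun x => ¬ (op C).S x) = C.S := by
    funext x
    exact propext not_not
  rw [h1]
  exact half_op h

theorem half_op1 (h : Half (op C) G X s' T) : Half C G X s' T :=
  ⟨h.swap₁, h.swap₂, h.ne, h.adj, h.nocross, h.att, h.d1, h.d2, h.nb, h.some, h.trans, h.ferrers, h.inv⟩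

theorem Half.smx (h : Half C G X s' T) (aa : C.A a) (ab : C.A b) (ac : C.A c) (ad : C.A d) (k1 : ¬ C.K a b)
    (k2 : ¬ C.K a c) (k3 : ¬ C.K a d) (k4 : ¬ C.K b c) (k5 : ¬ C.K b d) (k6 : ¬ C.K c d) (e1 : G.Adj a c)
    (e2 : G.Adj b d) (hx : X a c b d) : T a b c d ∨ T a d b c :=
  h.some e1 e2 hx (Or.inr aa) (Or.inr ab) (Or.inr ac) (Or.inr ad) (Or.inr (Or.inr k1)) (Or.inr (Or.inr k2))
    (Or.inr (Or.inr k3)) (Or.inr (Or.inr k4)) (Or.inr (Or.inr k5)) (Or.inr (Or.inr k6))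

theorem CH.nks (h : CH C f G) (sa : C.S a) (sc : ¬ C.S c) : ¬ C.K a c := fun k => sc (h.ok.kS k sa)

theorem CH.nks' (h : CH C f G) (sa : C.S a) (sc : ¬ C.S c) : ¬ C.K c a := fun k => h.nks sa sc (h.ok.ksym k)

theorem Half.sqq (h : Half C G X s' T) (ht : T a b c d) : G.Adj a c ∧ G.Adj a d ∧ G.Adj b c ∧ G.Adj b d :=
  ⟨h.adj ht, h.adj (Half.sw3 h ht), h.adj (h.swap₁ ht), h.adj (h.swap₁ (Half.sw3 h ht))⟩

/-- one direction of the agreement -/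
theorem CH.ag (h : CH C f G) (m2 : Mx1 (SOQ.op C) G (CrF f)) (h1 : Half C G (CrF f) C.S T1)
    (h2 : Half C G (CrF f) (fun x => ¬ C.S x) T2) (sa : C.S a) (sb : C.S b) (sc : ¬ C.S c) (sd : ¬ C.S d)
    (kab : ¬ C.K a b) (kcd : ¬ C.K c d) (ht : T1 a b c d) : T2 a b c d := by
  obtain ⟨e1, e2, e3, e4⟩ := Half.sqq h1 ht
  obtain ⟨aa, ac⟩ := h.bi.xa sa sc e1
  obtain ⟨ab, ad⟩ := h.bi.xa sb sd e4
  have hX := crF_sepr h.inj
  by_contra hn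
  have nab : a ≠ b := h1.ne ht
  have ncd : c ≠ d := h1.ne (h1.swap₂ ht)
  have kcd' : ¬ C.K d c := fun k => kcd (h.ok.ksym k)
  by_cases k4 : G.Adj a b ∧ G.Adj c d
  swap
  · rcases hX.one nab e1.ne e2.ne e3.ne e4.ne ncd with hx | hx | hx
    · exact h1.nocross ht hx
    · rcases Half.smx h2 aa ab ac ad kab (h.nks sa sc) (h.nks sa sd) (h.nks sb sc) (h.nks sb sd) kcd e1 e4 hx
        with g | g
      · exact hn g
      · obtain ⟨i1, i2, i3, i4⟩ := Half.sqq h2 g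
        exact k4 ⟨i1, i4.symm⟩
    · rcases Half.smx h2 aa ab ad ac kab (h.nks sa sd) (h.nks sa sc) (h.nks sb sd) (h.nks sb sc) kcd' e2 e3 hx
        with g | g
      · exact hn (Half.sw3 h2 g)
      · obtain ⟨i1, i2, i3, i4⟩ := Half.sqq h2 g
        exact k4 ⟨i1, i4⟩
  have hP : ∀ {y z : V}, (y = a ∨ y = b ∨ y = c ∨ y = d) → (z = a ∨ z = b ∨ z = c ∨ z = d) → C.K y z → y = z := by
    rintro y z (rfl | rfl | rfl | rfl) (rfl | rfl | rfl | rfl) k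
    · rfl
    · exact absurd k kab
    · exact absurd k (h.nks sa sc)
    · exact absurd k (h.nks sa sd)
    · exact absurd (h.ok.ksym k) kab
    · rfl
    · exact absurd k (h.nks sb sc)
    · exact absurd k (h.nks sb sd)
    · exact absurd k (h.nks' sa sc)
    · exact absurd k (h.nks' sb sc)
    · rfl
    · exact absurd k kcd
    · exact absurd k (h.nks' sa sd)
    · exact absurd k (h.nks' sb sd)
    · exact absurd k kcd'
    · rfl
  have gd : ∀ {v : V}, C.A v → (v = a ∨ v = b ∨ v = c ∨ v = d) →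
      (W2 C f G T1 T2 (fun v => v = a ∨ v = b ∨ v = c ∨ v = d)).Gd v := fun av pv =>
    ⟨av, Or.inr ⟨av, rp_P (h.m1.refl av) hP pv⟩, Or.inr ⟨av, rp_P (h.m1.refl av) hP pv⟩⟩
  have ga := gd aa (Or.inl rfl)
  have gb := gd ab (Or.inr (Or.inl rfl))
  have gc := gd ac (Or.inr (Or.inr (Or.inl rfl)))
  have gdd := gd ad (Or.inr (Or.inr (Or.inr rfl)))
  exact ag_all (h.w2 h1 h2) (h.mxw2 m2) sa ga sb gb sc gc sd gdd kab kcd k4.1 e1 e2 e3 e4 k4.2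
    ⟨⟨ga.2.1, gb.2.1, gc.2.1, gdd.2.1⟩, ht⟩ (fun k => hn k.2)

/-- D1: the structures agree on the quartets with the pairs on the two sides -/
theorem CH.d1 (h : CH C f G) (m2 : Mx1 (SOQ.op C) G (CrF f)) (h1 : Half C G (CrF f) C.S T1)
    (h2 : Half C G (CrF f) (fun x => ¬ C.S x) T2) (sa : C.S a) (sb : C.S b) (sc : ¬ C.S c) (sd : ¬ C.S d)
    (kab : ¬ C.K a b) (kcd : ¬ C.K c d) : T1 a b c d ↔ T2 a b c d := by
  refine ⟨h.ag m2 h1 h2 sa sb sc sd kab kcd, fun ht => ?_⟩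
  have m3 : Mx1 (SOQ.op (SOQ.op C)) G (CrF f) := by
    rw [op_op]
    exact h.m1
  exact h1.swap₂ ((h.op m2).ag m3 (half_op h2) (half_op2 h1) sc sd (not_not.2 sa) (not_not.2 sb) kcd kab (h2.swap₂ ht))

/-- D2: the structures agree on the quartets with mixed pairs -/
theorem CH.d2 (h : CH C f G) (m2 : Mx1 (SOQ.op C) G (CrF f)) (h1 : Half C G (CrF f) C.S T1)
    (h2 : Half C G (CrF f) (fun x => ¬ C.S x) T2) (sa : C.S a) (sb : C.S b) (sc : ¬ C.S c) (sd : ¬ C.S d)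
    (kab : ¬ C.K a b) (kcd : ¬ C.K c d) : T1 a c b d ↔ T2 a c b d := by
  have hX := crF_sepr h.inj
  have key : ∀ {s1 s2 : V → Prop} {U U' : V → V → V → V → Prop}, Half C G (CrF f) s1 U → Half C G (CrF f) s2 U' →
      (U' a b c d → U a b c d) → U a c b d → U' a c b d := by
    intro s1 s2 U U' hU hU' himp ht
    obtain ⟨e1, e2, e3, e4⟩ := Half.sqq hU ht
    -- a b, a d, c b, c d
    obtain ⟨aa, ad⟩ := h.bi.xa sa sd e2
    obtain ⟨ab, ac⟩ := h.bi.xa sb sc e3.symm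
    have nac : a ≠ c := hU.ne ht
    have nbd : b ≠ d := hU.ne (hU.swap₂ ht)
    have kcd' : ¬ C.K d c := fun k => kcd (h.ok.ksym k)
    have nbU : ∀ {a b c d : V}, U a b c d → ¬ U a c b d := fun h1 h2 => hU.nb h1 h2
    rcases hX.one e1.ne nac e2.ne e3.ne.symm nbd e4.ne with hx | hx | hx
    · exact absurd hx (h.ok.int sa sb sc sd)
    · exact absurd hx (hU.nocross ht)
    · rcases Half.smx hU' aa ab ad ac kab (h.nks sa sd) (h.nks sa sc) (h.nks sb sd) (h.nks sb sc) kcd' e2 e3.symm hx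
        with g | g
      · exact absurd ht (nbU (himp (Half.sw3 hU' g)))
      · exact g
  exact ⟨key h1 h2 (h.d1 m2 h1 h2 sa sb sc sd kab kcd).2, key h2 h1 (h.d1 m2 h1 h2 sa sb sc sd kab kcd).1⟩

/-- the facts of the world of the two structures -/
theorem CH.wag (h : CH C f G) (m2 : Mx1 (SOQ.op C) G (CrF f)) (h1 : Half C G (CrF f) C.S T1)
    (h2 : Half C G (CrF f) (fun x => ¬ C.S x) T2)
    (n1 : ∀ {a b c d}, C.S a → ¬ C.S c → ¬ C.S d → C.K a b → a ≠ b → ¬ C.K c d → G.Adj a c → G.Adj a d → T1 a b c d)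
    (n2 : ∀ {a b c d}, ¬ C.S a → C.S c → C.S d → C.K a b → a ≠ b → ¬ C.K c d → G.Adj a c → G.Adj a d → T2 a b c d) :
    (W2 C f G T1 T2 P).Ag where
  sd := fun sa => Or.inl sa
  se := fun sa => Or.inl sa
  d1 := fun sa sb sc sd kab kcd ea eb ht =>
    ⟨⟨ea, eb, Or.inl sc, Or.inl sd⟩, (h.d1 m2 h1 h2 sa sb sc sd kab kcd).1 ht.2⟩
  d1' := fun sa sb sc sd kab kcd dc dd ht =>
    ⟨⟨Or.inl sa, Or.inl sb, dc, dd⟩, (h.d1 m2 h1 h2 sa sb sc sd kab kcd).2 ht.2⟩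
  d2 := fun sa sb sc sd kac kbd ea ec ht =>
    ⟨⟨ea, Or.inl sb, ec, Or.inl sd⟩, (h.d2 m2 h1 h2 sa sc sb sd kac kbd).1 ht.2⟩
  d2' := fun sa sb sc sd kac kbd db dd ht =>
    ⟨⟨Or.inl sa, db, Or.inl sc, dd⟩, (h.d2 m2 h1 h2 sa sc sb sd kac kbd).2 ht.2⟩
  m1 := fun sa sc sd kab ab kcd dc dd e1 e2 =>
    ⟨⟨Or.inl sa, Or.inl (h.ok.kS kab sa), dc, dd⟩, n1 sa sc sd kab ab kcd e1 e2⟩
  m2 := fun sa sc sd kab ab kcd dc dd e1 e2 =>
    ⟨⟨Or.inl sa, Or.inl (h.kS' kab sa), dc, dd⟩, n2 sa sc sd kab ab kcd e1 e2⟩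

/-- L: the mixed quartets of the two sides -/
theorem CH.l (h : CH C f G) (m2 : Mx1 (SOQ.op C) G (CrF f)) (h1 : Half C G (CrF f) C.S T1)
    (h2 : Half C G (CrF f) (fun x => ¬ C.S x) T2)
    (n1 : ∀ {a b c d}, C.S a → ¬ C.S c → ¬ C.S d → C.K a b → a ≠ b → ¬ C.K c d → G.Adj a c → G.Adj a d → T1 a b c d)
    (n2 : ∀ {a b c d}, ¬ C.S a → C.S c → C.S d → C.K a b → a ≠ b → ¬ C.K c d → G.Adj a c → G.Adj a d → T2 a b c d)
    (lock : ∀ p s q r, Lock C G (CrF f) p s q r → Unl C G T1 ∨ Unl (SOQ.op C) G T2)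
    (sp : C.S p) (sq : ¬ C.S q) (sx : C.S x) (ss : C.S s) (sr : ¬ C.S r) (sy : ¬ C.S y) (t1 : T1 q x p s)
    (t2 : T2 q r p y) : G.Adj x y ∨ G.Adj s r := by
  by_contra hn
  rw [not_or] at hn
  obtain ⟨ne_x_y, ne_s_r⟩ := hn
  obtain ⟨a1, a2, a3, a4⟩ := Half.sqq h1 t1
  obtain ⟨b1, b2, b3, b4⟩ := Half.sqq h2 t2
  have hX := crF_sepr h.inj
  have e_p_q := a1.symm
  have e_p_r := b3.symm
  have e_s_q := a2.symm
  obtain ⟨ap, aq⟩ := h.bi.xa sp sq e_p_q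
  have ar := (h.bi.xa sp sr e_p_r).2
  have as := (h.bi.xa ss sq e_s_q).1
  have nk_p_s : ¬ C.K p s := fun k => ne_s_r (h.bi.bi k sp sr e_p_r)
  have nk_q_r : ¬ C.K q r := fun k => ne_s_r (h.bi.bi' k sq ss e_s_q.symm).symm
  have nk_s_p : ¬ C.K s p := fun k => nk_p_s (h.ok.ksym k)
  have nk_r_q : ¬ C.K r q := fun k => nk_q_r (h.ok.ksym k)
  have hPx : ∀ {u v : V}, C.S u → C.S v →
      (u = p ∨ u = s ∨ u = q ∨ u = r ∨ (u = x ∧ ¬ C.K x p ∧ ¬ C.K x s) ∨ (u = y ∧ ¬ C.K y q ∧ ¬ C.K y r)) →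
      (v = p ∨ v = s ∨ v = q ∨ v = r ∨ (v = x ∧ ¬ C.K x p ∧ ¬ C.K x s) ∨ (v = y ∧ ¬ C.K y q ∧ ¬ C.K y r)) →
      C.K u v → u = v := by
    rintro u v su sv (rfl | rfl | rfl | rfl | ⟨rfl, g1, g2⟩ | ⟨rfl, g1, g2⟩)
      (rfl | rfl | rfl | rfl | ⟨rfl, g3, g4⟩ | ⟨rfl, g3, g4⟩) k
    all_goals first
      | rfl
      | contradiction
      | exact absurd (h.ok.ksym k) (by assumption)
  have hPy : ∀ {u v : V}, ¬ C.S u → ¬ C.S v →
      (u = p ∨ u = s ∨ u = q ∨ u = r ∨ (u = x ∧ ¬ C.K x p ∧ ¬ C.K x s) ∨ (u = y ∧ ¬ C.K y q ∧ ¬ C.K y r)) →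
      (v = p ∨ v = s ∨ v = q ∨ v = r ∨ (v = x ∧ ¬ C.K x p ∧ ¬ C.K x s) ∨ (v = y ∧ ¬ C.K y q ∧ ¬ C.K y r)) →
      C.K u v → u = v := by
    rintro u v su sv (rfl | rfl | rfl | rfl | ⟨rfl, g1, g2⟩ | ⟨rfl, g1, g2⟩)
      (rfl | rfl | rfl | rfl | ⟨rfl, g3, g4⟩ | ⟨rfl, g3, g4⟩) k
    all_goals first
      | rfl
      | contradiction
      | exact absurd (h.ok.ksym k) (by assumption)
  have hP : ∀ {u v : V},
      (u = p ∨ u = s ∨ u = q ∨ u = r ∨ (u = x ∧ ¬ C.K x p ∧ ¬ C.K x s) ∨ (u = y ∧ ¬ C.K y q ∧ ¬ C.K y r)) →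
      (v = p ∨ v = s ∨ v = q ∨ v = r ∨ (v = x ∧ ¬ C.K x p ∧ ¬ C.K x s) ∨ (v = y ∧ ¬ C.K y q ∧ ¬ C.K y r)) →
      C.K u v → u = v := by
    intro u v hu hv k
    by_cases su : C.S u
    · exact hPx su (h.ok.kS k su) hu hv k
    · exact hPy su (h.kS' k su) hu hv k
  obtain ⟨P, hPd⟩ : ∃ P : V → Prop, P = fun u => u = p ∨ u = s ∨ u = q ∨ u = r ∨ (u = x ∧ ¬ C.K x p ∧ ¬ C.K x s) ∨
    (u = y ∧ ¬ C.K y q ∧ ¬ C.K y r) := ⟨_, rfl⟩
  have hP' : ∀ {u v : V}, P u → P v → C.K u v → u = v := by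
    subst hPd
    exact hP
  have hw := h.w2 (P := P) h1 h2
  have hm := h.mxw2 (T1 := T1) (T2 := T2) (P := P) m2
  have ha := h.wag (P := P) m2 h1 h2 n1 n2
  have gd : ∀ {v : V}, C.A v → P v → (W2 C f G T1 T2 P).Gd v := fun av pv =>
    ⟨av, Or.inr ⟨av, rp_P (h.m1.refl av) hP' pv⟩, Or.inr ⟨av, rp_P (h.m1.refl av) hP' pv⟩⟩
  have gp := gd ap (by rw [hPd]; exact Or.inl rfl)
  have gs := gd as (by rw [hPd]; exact Or.inr (Or.inl rfl))
  have gq := gd aq (by rw [hPd]; exact Or.inr (Or.inr (Or.inl rfl)))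
  have gr := gd ar (by rw [hPd]; exact Or.inr (Or.inr (Or.inr (Or.inl rfl))))
  -- the fifth block
  have hf : ∃ v, Fif (W2 C f G T1 T2 P) p s q r v := by
    by_cases hv : ∃ v, C.A v ∧ ¬ C.K v p ∧ ¬ C.K v s ∧ ¬ C.K v q ∧ ¬ C.K v r
    · obtain ⟨v, av, k1, k2, k3, k4⟩ := hv
      have kv := rp_k (P := P) (h.m1.refl av)
      have gv : (W2 C f G T1 T2 P).Gd (rp C P v) :=
        ⟨h.ok.kA (h.ok.ksym kv), dm_rp (s := C.S) h av, dm_rp (s := fun x => ¬ C.S x) h av⟩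
      refine ⟨rp C P v, ?_⟩
      by_cases sv : C.S (rp C P v)
      · exact Or.inl ⟨sv, gv, fun k => k1 (h.ok.ktr kv k), fun k => k2 (h.ok.ktr kv k)⟩
      · exact Or.inr (Or.inl ⟨sv, gv, fun k => k3 (h.ok.ktr kv k), fun k => k4 (h.ok.ktr kv k)⟩)
    · push Not at hv
      refine ⟨p, Or.inr (Or.inr ?_)⟩
      have nps : p ≠ s := fun e => nk_p_s (e ▸ h.m1.refl ap)
      have nqr : q ≠ r := fun e => nk_q_r (e ▸ h.m1.refl aq)
      rcases hX.one nps e_p_q.ne e_p_r.ne e_s_q.ne (fun e => sr (e ▸ ss)) nqr with g | g | g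
      · exact absurd g (h.ok.int sp ss sq sr)
      · exfalso
        have hl : Lock C G (CrF f) p s q r := ⟨sp, ss, sq, sr, e_p_q, e_p_r, e_s_q, ne_s_r, hX.comm g, fun v av => by
          by_contra k
          push Not at k
          exact k.2.2.2 (hv v av k.1 k.2.1 k.2.2.1)⟩
        rcases lock p s q r hl with hu | hu
        · exact hu q p s x r sq sr sp ss sx e_p_r ne_s_r t1
        · exact hu p q r y s (not_not.2 sp) (not_not.2 ss) sq sr sy e_s_q.symm (fun e => ne_s_r e.symm) (h2.swap₂ t2)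
      · exact hX.comm g
  obtain ⟨v, hf⟩ := hf
  have tw : (W2 C f G T1 T2 P).T p s q x := ⟨⟨Or.inl sp, Or.inl ss, gq.2.1, Or.inl sx⟩, h1.swap₂ t1⟩
  have uw : (W2 C f G T1 T2 P).U p y q r := ⟨⟨gp.2.2, Or.inl sy, Or.inl sq, Or.inl sr⟩, h2.swap₂ t2⟩
  have dx : (W2 C f G T1 T2 P).D x := Or.inl sx
  have ey : (W2 C f G T1 T2 P).E y := Or.inl sy
  by_cases kx : C.A x ∧ ¬ C.K x p ∧ ¬ C.K x s
  · have gx := gd kx.1 (by rw [hPd]; exact Or.inr (Or.inr (Or.inr (Or.inr (Or.inl ⟨rfl, kx.2⟩)))))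
    by_cases ky : C.A y ∧ ¬ C.K y q ∧ ¬ C.K y r
    · have gy := gd ky.1 (by rw [hPd]; exact Or.inr (Or.inr (Or.inr (Or.inr (Or.inr ⟨rfl, ky.2⟩)))))
      exact l_oo hw ha hm sp gp ss gs sq gq sr gr sx sy gx kx.2.1 kx.2.2 gy ky.2.1 ky.2.2 e_p_q e_p_r e_s_q ne_s_r ne_x_y
        nk_p_s nk_q_r tw uw hf
    · have cy : C.A y → C.K y q ∨ C.K y r := fun ay => by
        by_contra k
        rw [not_or] at k
        exact ky ⟨ay, k⟩
      exact l_oe hw ha hm sp gp ss gs sq gq sr gr sx sy gx kx.2.1 kx.2.2 ey cy e_p_q e_p_r e_s_q ne_s_r ne_x_y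
        nk_p_s nk_q_r tw uw hf
  · have cx : C.A x → C.K x p ∨ C.K x s := fun ax => by
      by_contra k
      rw [not_or] at k
      exact kx ⟨ax, k⟩
    by_cases ky : C.A y ∧ ¬ C.K y q ∧ ¬ C.K y r
    · have gy := gd ky.1 (by rw [hPd]; exact Or.inr (Or.inr (Or.inr (Or.inr (Or.inr ⟨rfl, ky.2⟩)))))
      exact l_eo hw ha hm sp gp ss gs sq gq sr gr sx sy dx cx gy ky.2.1 ky.2.2 e_p_q e_p_r e_s_q ne_s_r ne_x_y
        nk_p_s nk_q_r tw uw hf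
    · have cy : C.A y → C.K y q ∨ C.K y r := fun ay => by
        by_contra k
        rw [not_or] at k
        exact ky ⟨ay, k⟩
      exact l_ee hw ha hm sp gp ss gs sq gq sr gr sx sy dx cx ey cy e_p_q e_p_r e_s_q ne_s_r ne_x_y
        nk_p_s nk_q_r tw uw hf

theorem CH.unl (h : CH C f G) (hT : ∀ {a b c d}, T' a b c d → ¬ C.K a b → ¬ C.K c d → T a b c d) (hu : Unl C G T) :
    Unl C G T' := by
  intro q p s x r sq sr sp ss sx e ne t
  exact hu q p s x r sq sr sp ss sx e ne (hT t (h.nks' sx sq) (fun k => ne (h.bi.bi k sp sr e)))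

/-- GLUING along an E-P-cut -/
theorem CH.glue (h : CH C f G) (m2 : Mx1 (SOQ.op C) G (CrF f)) (h1 : Half C G (CrF f) C.S T1)
    (h2 : Half C G (CrF f) (fun x => ¬ C.S x) T2)
    (lock : ∀ p s q r, Lock C G (CrF f) p s q r → Unl C G T1 ∨ Unl (SOQ.op C) G T2) {l : List V} (hl : ∀ v, v ∈ l) :
    ∃ T, QT G (CrF f) T := by
  obtain ⟨U1, u1, o1, n1⟩ := h.norm m2 h1 h2 hl
  have m3 : Mx1 (SOQ.op (SOQ.op C)) G (CrF f) := by
    rw [op_op]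
    exact h.m1
  obtain ⟨U2, u2', o2, n2'⟩ := (h.op m2).norm m3 (half_op h2) (half_op2 h1) hl
  have u2 : Half C G (CrF f) (fun x => ¬ C.S x) U2 := half_op1 u2'
  have n2 : ∀ {a b c d}, ¬ C.S a → C.S c → C.S d → C.K a b → a ≠ b → ¬ C.K c d → G.Adj a c → G.Adj a d → U2 a b c d :=
    fun sa sc sd => n2' sa (not_not.2 sc) (not_not.2 sd)
  have lock' : ∀ p s q r, Lock C G (CrF f) p s q r → Unl C G U1 ∨ Unl (SOQ.op C) G U2 := by
    intro p s q r hl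
    rcases lock p s q r hl with hu | hu
    · exact Or.inl (h.unl o1 hu)
    · exact Or.inr ((h.op m2).unl o2 hu)
  have hf : Fcts C G U1 U2 := ⟨n1, n2, fun sa sb sc sd k1 k2 => h.d1 m2 u1 u2 sa sb sc sd k1 k2,
    fun sa sb sc sd k1 k2 => h.d2 m2 u1 u2 sa sb sc sd k1 k2, ?_⟩
  · exact ⟨_, glue_qt1 h.ok h.bi u1 u2 hf⟩
  · intro p q a b c d sp sq sa sb sc sd t1 t2
    exact h.l m2 u1 u2 n1 n2 lock' sp sq sa sb sc sd t1 t2

end

end Pool.Agent.SOQ
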