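import Pool.Agent.SOQ.Wd

/-! Project SOQ, module Hn: structures of a side in normal form. -/

set_option autoImplicit false

namespace Pool.Agent.SOQ

open Pool.Agent.SOC Pool.Agent.SOD Pool.Agent.RUP Pool.Agent.SOF Pool.Agent.SOG Pool.Agent.SOW Pool.Agent.SOP
  Pool.Agent.SOE

variable {V : Type}

section
variable {C : Cut V} {G : SimpleGraph V} {X T T1 T2 T' : V → V → V → V → Prop} {f : V → ℕ} {s P D : V → Prop}
  {a b c d e x y p q r t : V}

theorem epc_compl {S : V → Prop} (h : EPC G {x | S x}) : EPC G {x | ¬ S x} := h.compl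

theorem CH.op (h : CH C f G) (m2 : Mx1 (op C) G (CrF f)) : CH (op C) f G :=
  ⟨h.inj, op_ok h.ok, op_bi h.bi, m2, epc_compl h.epc⟩

/-- replacing a point by a point of its block -/
theorem Half.iv (h : Half C G X s T) (hk : d = e ∨ (¬ s d ∧ C.K d e)) (ht : T a b c d) : T a b c e := by
  rcases hk with h1 | ⟨h1, h2⟩
  · rw [← h1]; exact ht
  · exact h.inv h1 h2 ht

theorem Half.sw3 (h : Half C G X s T) (ht : T a b c d) : T a b d c := h.swap₂ (h.swap₁ (h.swap₂ ht))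

/-- replacing all points -/
theorem Half.iv4 (h : Half C G X s T) {a' b' c' d' : V} (ha : a = a' ∨ (¬ s a ∧ C.K a a'))
    (hb : b = b' ∨ (¬ s b ∧ C.K b b')) (hc : c = c' ∨ (¬ s c ∧ C.K c c')) (hd : d = d' ∨ (¬ s d ∧ C.K d d'))
    (ht : T a b c d) : T a' b' c' d' := by
  have h1 : T a b c d' := Half.iv h hd ht
  have h2 : T a b d' c' := Half.iv h hc (Half.sw3 h h1)
  have h3 : T d' c' a b' := Half.iv h hb (h.swap₂ h2)
  have h4 : T d' c' b' a' := Half.iv h ha (Half.sw3 h h3)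
  exact Half.sw3 h (h.swap₁ (h.swap₂ h4))

theorem rh_k (h : CH C f G) (hx : C.S x ∨ C.A x) : x = rh C C.S P x ∨ (¬ C.S x ∧ C.K x (rh C C.S P x)) := by
  by_cases sx : C.S x
  · rw [rh_s sx]
    exact Or.inl rfl
  · right
    rw [rh_n sx]
    exact ⟨sx, rp_k (h.m1.refl (hx.resolve_left sx))⟩

theorem rh_k' (h : CH C f G) (hx : C.S x ∨ C.A x) :
    rh C C.S P x = x ∨ (¬ C.S (rh C C.S P x) ∧ C.K (rh C C.S P x) x) := by
  rcases rh_k (P := P) h hx with h1 | ⟨h1, h2⟩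
  · exact Or.inl h1.symm
  · exact Or.inr ⟨h.kS' h2 h1, h.ok.ksym h2⟩

theorem rh_kk (h : CH C f G) (hx : C.S x ∨ C.A x) (hy : C.S y ∨ C.A y) (hk : C.K (rh C C.S P x) (rh C C.S P y)) :
    C.K x y := by
  rcases rh_k (P := P) h hx with h1 | ⟨_, h1⟩ <;> rcases rh_k (P := P) h hy with h2 | ⟨_, h2⟩
  · rw [h1, h2]; exact hk
  · rw [h1]; exact h.ok.ktr hk (h.ok.ksym h2)
  · rw [h2]; exact h.ok.ktr h1 hk
  · exact h.ok.ktr h1 (h.ok.ktr hk (h.ok.ksym h2))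

/-- NORMAL FORM of a structure of the side `S` -/
theorem CH.norm (h : CH C f G) (m2 : Mx1 (SOQ.op C) G (CrF f)) (h1 : Half C G (CrF f) C.S T1)
    (h2 : Half C G (CrF f) (fun x => ¬ C.S x) T2) {l : List V} (hl : ∀ v, v ∈ l) :
    ∃ T', Half C G (CrF f) C.S T' ∧ (∀ {a b c d}, T' a b c d → ¬ C.K a b → ¬ C.K c d → T1 a b c d) ∧
      (∀ {a b c d}, C.S a → ¬ C.S c → ¬ C.S d → C.K a b → a ≠ b → ¬ C.K c d → G.Adj a c → G.Adj a d → T' a b c d) := by
  obtain ⟨T'', t1, t2, t3⟩ := SOQ.norm (h.w1 (P := fun _ => False) h1) (h.mxw1 m2) h.dmw1 l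
  have ua : ∀ {p q p'}, ¬ C.S p → ¬ C.S q → C.A p → C.A q → ¬ C.K p q → C.K p p' → (G.Adj p q ↔ G.Adj p' q) :=
    fun sp _ ap aq nk hk => (h.op m2).uni (half_op h2) sp ap hk nk (fun _ => aq)
  have hr := rep_ok (P := fun _ => False) h ua
  refine ⟨repT C C.S T'' (rh C C.S fun _ => False), half_of_pq h.ok hr (rh_d h) t1, ?_, ?_⟩
  · rintro a b c d ⟨⟨g1, g2, g3, g4⟩, g5⟩ k1 k2
    have g6 := t2 g5 (fun k => k1 (rh_kk h g1 g2 k)) (fun k => k2 (rh_kk h g3 g4 k))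
    exact Half.iv4 h1 (rh_k' h g1) (rh_k' h g2) (rh_k' h g3) (rh_k' h g4) g6.2
  · intro a b c d sa sc sd kab ab kcd e1 e2
    have sb := h.ok.kS kab sa
    have aa := h.ok.kA kab
    have ac := (h.bi.xa sa sc e1).2
    have ad := (h.bi.xa sa sd e2).2
    have kc := rp_k (P := fun _ => False) (h.m1.refl ac)
    have kd := rp_k (P := fun _ => False) (h.m1.refl ad)
    refine ⟨⟨Or.inl sa, Or.inl sb, Or.inr ac, Or.inr ad⟩, ?_⟩
    rw [rh_s sa, rh_s sb, rh_n sc, rh_n sd]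
    refine t3 a (hl a) sa a b _ _ (h.m1.refl aa) kab ab (h.kS' kc sc) (h.kS' kd sd) ?_ (dm_rp h ac) (dm_rp h ad) ?_ ?_
    · intro e
      exact kcd (h.ok.ktr kc (e ▸ h.ok.ksym kd))
    · exact (h.bi.bi' kc sc sa e1.symm).symm
    · exact (h.bi.bi' kd sd sa e2.symm).symm

end

end Pool.Agent.SOQ
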