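import Pool.Agent.SOQ.Hn
import Pool.Agent.SOQ.Re
import Pool.Agent.SOQ.Rf
import Pool.Agent.SOQ.Rg

/-! Project SOQ, module Lk: agreement of the two structures; locks. -/

set_option autoImplicit false

namespace Pool.Agent.SOQ

open Pool.Agent.SOC Pool.Agent.SOD Pool.Agent.RUP

variable {V : Type}

section
variable {W : Wo V} {a b c d p q r s x y v : V}

/-- neighbours -/
theorem Wo.M1.nbx (h : W.Ok) (hm : W.M1) (sv : W.S v) (av : W.A v) : ∃ z, ¬ W.S z ∧ W.Gd z ∧ W.G.Adj v z := by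
  obtain ⟨z, sz, e⟩ := h.at1 sv av
  obtain ⟨y, k, gy⟩ := hm.ry sz (h.bs.att sv sz e).2
  exact ⟨y, h.kSn k sz, gy, (h.kadj k (z := v) ⟨fun _ => sz, fun _ => sv⟩).1 e⟩

/-- neighbours -/
theorem Wo.M1.nby (h : W.Ok) (hm : W.M1) (sv : ¬ W.S v) (av : W.A v) : ∃ z, W.S z ∧ W.Gd z ∧ W.G.Adj v z := by
  obtain ⟨z, sz, e⟩ := h.at2 sv av
  obtain ⟨y, k, gy⟩ := hm.rx sz (h.bs.att sz sv e.symm).1
  exact ⟨y, h.bs.kS k sz, gy, (h.kadj k (z := v) ⟨fun k' => absurd k' sv, fun k' => absurd sz k'⟩).1 e⟩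

theorem ag_all (h : W.Ok) (hm : W.Mx) (s_a : W.S a) (g_a : W.Gd a) (s_b : W.S b) (g_b : W.Gd b) (s_p : ¬ W.S p)
    (g_p : W.Gd p) (s_q : ¬ W.S q) (g_q : W.Gd q) (nk1 : ¬ W.K a b) (nk2 : ¬ W.K p q) (e_a_b : W.G.Adj a b)
    (e_a_p : W.G.Adj a p) (e_a_q : W.G.Adj a q) (e_b_p : W.G.Adj b p) (e_b_q : W.G.Adj b q) (e_p_q : W.G.Adj p q)
    (t_a_b_p_q : W.T a b p q) (nv_a_b_p_q : ¬ W.U a b p q) : False := by
  by_cases m_a_b : W.Sm a b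
  · obtain ⟨zx, dx, s_zx, g_zx, hx1, s_dx, g_dx, w_a_zx_dx⟩ := hm.sx h s_a s_b g_a.1 g_b.1 nk1 m_a_b
    have x_a_b_zx_p := hx1 p s_p
    by_cases m_p_q : W.Sm p q
    · obtain ⟨zy, dy, s_zy, g_zy, hx2, s_dy, g_dy, w_p_zy_dy⟩ := hm.sy h s_p s_q g_p.1 g_q.1 nk2 m_p_q
      have x_p_q_zy_a := hx2 a s_a
      obtain ⟨azx, s_azx, g_azx, e_zx_azx⟩ := hm.nbx h s_zx g_zx.1
      obtain ⟨azy, s_azy, g_azy, e_zy_azy⟩ := hm.nby h s_zy g_zy.1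
      obtain ⟨adx, s_adx, g_adx, e_dx_adx⟩ := hm.nby h s_dx g_dx.1
      obtain ⟨ady, s_ady, g_ady, e_dy_ady⟩ := hm.nbx h s_dy g_dy.1
      apply ag_ss h (a := a) (b := b) (p := p) (q := q) (zx := zx) (dx := dx) (zy := zy) (dy := dy) (azx := azx) (azy := azy) (adx := adx) (ady := ady) <;> assumption
    · obtain ⟨dy, s_dy, g_dy, w_p_q_dy⟩ := hm.dy h s_p s_q m_p_q
      apply ag_sd h (a := a) (b := b) (p := p) (q := q) (zx := zx) (dx := dx) (dy := dy) <;> assumption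
  · obtain ⟨dx, s_dx, g_dx, w_a_b_dx⟩ := hm.dx h s_a s_b m_a_b
    by_cases m_p_q : W.Sm p q
    · obtain ⟨zy, dy, s_zy, g_zy, hx2, s_dy, g_dy, w_p_zy_dy⟩ := hm.sy h s_p s_q g_p.1 g_q.1 nk2 m_p_q
      have x_p_q_zy_a := hx2 a s_a
      apply ag_ds h (a := a) (b := b) (p := p) (q := q) (dx := dx) (zy := zy) (dy := dy) <;> assumption
    · obtain ⟨dy, s_dy, g_dy, w_p_q_dy⟩ := hm.dy h s_p s_q m_p_q
      apply ag_dd h (a := a) (b := b) (p := p) (q := q) (dx := dx) (dy := dy) <;> assumption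

/-- the fifth block -/
def Fif (W : Wo V) (p s q r v : V) : Prop :=
  (W.S v ∧ W.Gd v ∧ ¬ W.K v p ∧ ¬ W.K v s) ∨ (¬ W.S v ∧ W.Gd v ∧ ¬ W.K v q ∧ ¬ W.K v r) ∨ CrF W.f s q p r

theorem l_ee (h : W.Ok) (ha : W.Ag) (hm : W.Mx) (s_p : W.S p) (g_p : W.Gd p) (s_s : W.S s) (g_s : W.Gd s)
    (s_q : ¬ W.S q) (g_q : W.Gd q) (s_r : ¬ W.S r) (g_r : W.Gd r) (s_x : W.S x) (s_y : ¬ W.S y)
    (d_x : W.D x) (c_x : W.A x → W.K x p ∨ W.K x s)
    (q_y : W.E y) (c_y : W.A y → W.K y q ∨ W.K y r)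
    (e_p_q : W.G.Adj p q) (e_p_r : W.G.Adj p r) (e_s_q : W.G.Adj s q) (ne_s_r : ¬ W.G.Adj s r)
    (ne_x_y : ¬ W.G.Adj x y) (nk_p_s : ¬ W.K p s) (nk_q_r : ¬ W.K q r) (t_p_s_q_x : W.T p s q x)
    (v_p_y_q_r : W.U p y q r) (hf : Fif W p s q r v) : False := by
  rcases hf with ⟨s_v, g_v, nk_v_p, nk_v_s⟩ | ⟨s_v, g_v, nk_v_q, nk_v_r⟩ | x_s_q_p_r
  · by_cases m_v_p : W.Sm v p
    · obtain ⟨z, d, s_z, g_z, hx, s_d, g_d, w_v_z_d⟩ := hm.sx h s_v s_p g_v.1 g_p.1 nk_v_p m_v_p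
      have x_v_p_z_q := hx q s_q
      apply l_ee_xs1 h ha (p := p) (s := s) (q := q) (r := r) (x := x) (y := y) (v := v) (z := z) (d := d) <;> assumption
    · by_cases m_v_s : W.Sm v s
      · obtain ⟨z, d, s_z, g_z, hx, s_d, g_d, w_v_z_d⟩ := hm.sx h s_v s_s g_v.1 g_s.1 nk_v_s m_v_s
        have x_v_s_z_q := hx q s_q
        apply l_ee_xs2 h ha (p := p) (s := s) (q := q) (r := r) (x := x) (y := y) (v := v) (z := z) (d := d) <;> assumption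
      · obtain ⟨d1, s_d1, g_d1, w_v_p_d1⟩ := hm.dx h s_v s_p m_v_p
        obtain ⟨d2, s_d2, g_d2, w_v_s_d2⟩ := hm.dx h s_v s_s m_v_s
        obtain ⟨av, s_av, g_av, e_v_av⟩ := hm.nbx h s_v g_v.1
        apply l_ee_xdd h ha (p := p) (s := s) (q := q) (r := r) (x := x) (y := y) (v := v) (d1 := d1) (d2 := d2) (av := av) <;> assumption
  · by_cases m_v_q : W.Sm v q
    · obtain ⟨z, d, s_z, g_z, hx, s_d, g_d, w_v_z_d⟩ := hm.sy h s_v s_q g_v.1 g_q.1 nk_v_q m_v_q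
      have x_v_q_z_p := hx p s_p
      apply l_ee_ys1 h ha (p := p) (s := s) (q := q) (r := r) (x := x) (y := y) (v := v) (z := z) (d := d) <;> assumption
    · by_cases m_v_r : W.Sm v r
      · obtain ⟨z, d, s_z, g_z, hx, s_d, g_d, w_v_z_d⟩ := hm.sy h s_v s_r g_v.1 g_r.1 nk_v_r m_v_r
        have x_v_r_z_p := hx p s_p
        apply l_ee_ys2 h ha (p := p) (s := s) (q := q) (r := r) (x := x) (y := y) (v := v) (z := z) (d := d) <;> assumption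
      · obtain ⟨d1, s_d1, g_d1, w_v_q_d1⟩ := hm.dy h s_v s_q m_v_q
        obtain ⟨d2, s_d2, g_d2, w_v_r_d2⟩ := hm.dy h s_v s_r m_v_r
        obtain ⟨av, s_av, g_av, e_v_av⟩ := hm.nby h s_v g_v.1
        apply l_ee_ydd h ha (p := p) (s := s) (q := q) (r := r) (x := x) (y := y) (v := v) (d1 := d1) (d2 := d2) (av := av) <;> assumption
  · apply l_ee_f h ha (p := p) (s := s) (q := q) (r := r) (x := x) (y := y) <;> assumption

theorem l_eo (h : W.Ok) (ha : W.Ag) (hm : W.Mx) (s_p : W.S p) (g_p : W.Gd p) (s_s : W.S s) (g_s : W.Gd s)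
    (s_q : ¬ W.S q) (g_q : W.Gd q) (s_r : ¬ W.S r) (g_r : W.Gd r) (s_x : W.S x) (s_y : ¬ W.S y)
    (d_x : W.D x) (c_x : W.A x → W.K x p ∨ W.K x s)
    (g_y : W.Gd y) (nk_y_q : ¬ W.K y q) (nk_y_r : ¬ W.K y r)
    (e_p_q : W.G.Adj p q) (e_p_r : W.G.Adj p r) (e_s_q : W.G.Adj s q) (ne_s_r : ¬ W.G.Adj s r)
    (ne_x_y : ¬ W.G.Adj x y) (nk_p_s : ¬ W.K p s) (nk_q_r : ¬ W.K q r) (t_p_s_q_x : W.T p s q x)
    (v_p_y_q_r : W.U p y q r) (hf : Fif W p s q r v) : False := by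
  rcases hf with ⟨s_v, g_v, nk_v_p, nk_v_s⟩ | ⟨s_v, g_v, nk_v_q, nk_v_r⟩ | x_s_q_p_r
  · by_cases m_v_p : W.Sm v p
    · obtain ⟨z, d, s_z, g_z, hx, s_d, g_d, w_v_z_d⟩ := hm.sx h s_v s_p g_v.1 g_p.1 nk_v_p m_v_p
      have x_v_p_z_q := hx q s_q
      apply l_eo_xs1 h ha (p := p) (s := s) (q := q) (r := r) (x := x) (y := y) (v := v) (z := z) (d := d) <;> assumption
    · by_cases m_v_s : W.Sm v s
      · obtain ⟨z, d, s_z, g_z, hx, s_d, g_d, w_v_z_d⟩ := hm.sx h s_v s_s g_v.1 g_s.1 nk_v_s m_v_s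
        have x_v_s_z_q := hx q s_q
        apply l_eo_xs2 h ha (p := p) (s := s) (q := q) (r := r) (x := x) (y := y) (v := v) (z := z) (d := d) <;> assumption
      · obtain ⟨d1, s_d1, g_d1, w_v_p_d1⟩ := hm.dx h s_v s_p m_v_p
        obtain ⟨d2, s_d2, g_d2, w_v_s_d2⟩ := hm.dx h s_v s_s m_v_s
        obtain ⟨av, s_av, g_av, e_v_av⟩ := hm.nbx h s_v g_v.1
        apply l_eo_xdd h ha (p := p) (s := s) (q := q) (r := r) (x := x) (y := y) (v := v) (d1 := d1) (d2 := d2) (av := av) <;> assumption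
  · by_cases m_v_q : W.Sm v q
    · obtain ⟨z, d, s_z, g_z, hx, s_d, g_d, w_v_z_d⟩ := hm.sy h s_v s_q g_v.1 g_q.1 nk_v_q m_v_q
      have x_v_q_z_p := hx p s_p
      apply l_eo_ys1 h ha (p := p) (s := s) (q := q) (r := r) (x := x) (y := y) (v := v) (z := z) (d := d) <;> assumption
    · by_cases m_v_r : W.Sm v r
      · obtain ⟨z, d, s_z, g_z, hx, s_d, g_d, w_v_z_d⟩ := hm.sy h s_v s_r g_v.1 g_r.1 nk_v_r m_v_r
        have x_v_r_z_p := hx p s_p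
        apply l_eo_ys2 h ha (p := p) (s := s) (q := q) (r := r) (x := x) (y := y) (v := v) (z := z) (d := d) <;> assumption
      · obtain ⟨d1, s_d1, g_d1, w_v_q_d1⟩ := hm.dy h s_v s_q m_v_q
        obtain ⟨d2, s_d2, g_d2, w_v_r_d2⟩ := hm.dy h s_v s_r m_v_r
        obtain ⟨av, s_av, g_av, e_v_av⟩ := hm.nby h s_v g_v.1
        apply l_eo_ydd h ha (p := p) (s := s) (q := q) (r := r) (x := x) (y := y) (v := v) (d1 := d1) (d2 := d2) (av := av) <;> assumption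
  · apply l_eo_f h ha (p := p) (s := s) (q := q) (r := r) (x := x) (y := y) <;> assumption

theorem l_oe (h : W.Ok) (ha : W.Ag) (hm : W.Mx) (s_p : W.S p) (g_p : W.Gd p) (s_s : W.S s) (g_s : W.Gd s)
    (s_q : ¬ W.S q) (g_q : W.Gd q) (s_r : ¬ W.S r) (g_r : W.Gd r) (s_x : W.S x) (s_y : ¬ W.S y)
    (g_x : W.Gd x) (nk_x_p : ¬ W.K x p) (nk_x_s : ¬ W.K x s)
    (q_y : W.E y) (c_y : W.A y → W.K y q ∨ W.K y r)
    (e_p_q : W.G.Adj p q) (e_p_r : W.G.Adj p r) (e_s_q : W.G.Adj s q) (ne_s_r : ¬ W.G.Adj s r)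
    (ne_x_y : ¬ W.G.Adj x y) (nk_p_s : ¬ W.K p s) (nk_q_r : ¬ W.K q r) (t_p_s_q_x : W.T p s q x)
    (v_p_y_q_r : W.U p y q r) (hf : Fif W p s q r v) : False := by
  rcases hf with ⟨s_v, g_v, nk_v_p, nk_v_s⟩ | ⟨s_v, g_v, nk_v_q, nk_v_r⟩ | x_s_q_p_r
  · by_cases m_v_p : W.Sm v p
    · obtain ⟨z, d, s_z, g_z, hx, s_d, g_d, w_v_z_d⟩ := hm.sx h s_v s_p g_v.1 g_p.1 nk_v_p m_v_p
      have x_v_p_z_q := hx q s_q
      apply l_oe_xs1 h ha (p := p) (s := s) (q := q) (r := r) (x := x) (y := y) (v := v) (z := z) (d := d) <;> assumption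
    · by_cases m_v_s : W.Sm v s
      · obtain ⟨z, d, s_z, g_z, hx, s_d, g_d, w_v_z_d⟩ := hm.sx h s_v s_s g_v.1 g_s.1 nk_v_s m_v_s
        have x_v_s_z_q := hx q s_q
        apply l_oe_xs2 h ha (p := p) (s := s) (q := q) (r := r) (x := x) (y := y) (v := v) (z := z) (d := d) <;> assumption
      · obtain ⟨d1, s_d1, g_d1, w_v_p_d1⟩ := hm.dx h s_v s_p m_v_p
        obtain ⟨d2, s_d2, g_d2, w_v_s_d2⟩ := hm.dx h s_v s_s m_v_s
        obtain ⟨av, s_av, g_av, e_v_av⟩ := hm.nbx h s_v g_v.1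
        apply l_oe_xdd h ha (p := p) (s := s) (q := q) (r := r) (x := x) (y := y) (v := v) (d1 := d1) (d2 := d2) (av := av) <;> assumption
  · by_cases m_v_q : W.Sm v q
    · obtain ⟨z, d, s_z, g_z, hx, s_d, g_d, w_v_z_d⟩ := hm.sy h s_v s_q g_v.1 g_q.1 nk_v_q m_v_q
      have x_v_q_z_p := hx p s_p
      apply l_oe_ys1 h ha (p := p) (s := s) (q := q) (r := r) (x := x) (y := y) (v := v) (z := z) (d := d) <;> assumption
    · by_cases m_v_r : W.Sm v r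
      · obtain ⟨z, d, s_z, g_z, hx, s_d, g_d, w_v_z_d⟩ := hm.sy h s_v s_r g_v.1 g_r.1 nk_v_r m_v_r
        have x_v_r_z_p := hx p s_p
        apply l_oe_ys2 h ha (p := p) (s := s) (q := q) (r := r) (x := x) (y := y) (v := v) (z := z) (d := d) <;> assumption
      · obtain ⟨d1, s_d1, g_d1, w_v_q_d1⟩ := hm.dy h s_v s_q m_v_q
        obtain ⟨d2, s_d2, g_d2, w_v_r_d2⟩ := hm.dy h s_v s_r m_v_r
        obtain ⟨av, s_av, g_av, e_v_av⟩ := hm.nby h s_v g_v.1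
        apply l_oe_ydd h ha (p := p) (s := s) (q := q) (r := r) (x := x) (y := y) (v := v) (d1 := d1) (d2 := d2) (av := av) <;> assumption
  · apply l_oe_f h ha (p := p) (s := s) (q := q) (r := r) (x := x) (y := y) <;> assumption

theorem l_oo (h : W.Ok) (ha : W.Ag) (hm : W.Mx) (s_p : W.S p) (g_p : W.Gd p) (s_s : W.S s) (g_s : W.Gd s)
    (s_q : ¬ W.S q) (g_q : W.Gd q) (s_r : ¬ W.S r) (g_r : W.Gd r) (s_x : W.S x) (s_y : ¬ W.S y)
    (g_x : W.Gd x) (nk_x_p : ¬ W.K x p) (nk_x_s : ¬ W.K x s)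
    (g_y : W.Gd y) (nk_y_q : ¬ W.K y q) (nk_y_r : ¬ W.K y r)
    (e_p_q : W.G.Adj p q) (e_p_r : W.G.Adj p r) (e_s_q : W.G.Adj s q) (ne_s_r : ¬ W.G.Adj s r)
    (ne_x_y : ¬ W.G.Adj x y) (nk_p_s : ¬ W.K p s) (nk_q_r : ¬ W.K q r) (t_p_s_q_x : W.T p s q x)
    (v_p_y_q_r : W.U p y q r) (hf : Fif W p s q r v) : False := by
  rcases hf with ⟨s_v, g_v, nk_v_p, nk_v_s⟩ | ⟨s_v, g_v, nk_v_q, nk_v_r⟩ | x_s_q_p_r
  · by_cases m_v_p : W.Sm v p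
    · obtain ⟨z, d, s_z, g_z, hx, s_d, g_d, w_v_z_d⟩ := hm.sx h s_v s_p g_v.1 g_p.1 nk_v_p m_v_p
      have x_v_p_z_q := hx q s_q
      apply l_oo_xs1 h ha (p := p) (s := s) (q := q) (r := r) (x := x) (y := y) (v := v) (z := z) (d := d) <;> assumption
    · by_cases m_v_s : W.Sm v s
      · obtain ⟨z, d, s_z, g_z, hx, s_d, g_d, w_v_z_d⟩ := hm.sx h s_v s_s g_v.1 g_s.1 nk_v_s m_v_s
        have x_v_s_z_q := hx q s_q
        apply l_oo_xs2 h ha (p := p) (s := s) (q := q) (r := r) (x := x) (y := y) (v := v) (z := z) (d := d) <;> assumption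
      · obtain ⟨d1, s_d1, g_d1, w_v_p_d1⟩ := hm.dx h s_v s_p m_v_p
        obtain ⟨d2, s_d2, g_d2, w_v_s_d2⟩ := hm.dx h s_v s_s m_v_s
        obtain ⟨av, s_av, g_av, e_v_av⟩ := hm.nbx h s_v g_v.1
        apply l_oo_xdd h ha (p := p) (s := s) (q := q) (r := r) (x := x) (y := y) (v := v) (d1 := d1) (d2 := d2) (av := av) <;> assumption
  · by_cases m_v_q : W.Sm v q
    · obtain ⟨z, d, s_z, g_z, hx, s_d, g_d, w_v_z_d⟩ := hm.sy h s_v s_q g_v.1 g_q.1 nk_v_q m_v_q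
      have x_v_q_z_p := hx p s_p
      apply l_oo_ys1 h ha (p := p) (s := s) (q := q) (r := r) (x := x) (y := y) (v := v) (z := z) (d := d) <;> assumption
    · by_cases m_v_r : W.Sm v r
      · obtain ⟨z, d, s_z, g_z, hx, s_d, g_d, w_v_z_d⟩ := hm.sy h s_v s_r g_v.1 g_r.1 nk_v_r m_v_r
        have x_v_r_z_p := hx p s_p
        apply l_oo_ys2 h ha (p := p) (s := s) (q := q) (r := r) (x := x) (y := y) (v := v) (z := z) (d := d) <;> assumption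
      · obtain ⟨d1, s_d1, g_d1, w_v_q_d1⟩ := hm.dy h s_v s_q m_v_q
        obtain ⟨d2, s_d2, g_d2, w_v_r_d2⟩ := hm.dy h s_v s_r m_v_r
        obtain ⟨av, s_av, g_av, e_v_av⟩ := hm.nby h s_v g_v.1
        apply l_oo_ydd h ha (p := p) (s := s) (q := q) (r := r) (x := x) (y := y) (v := v) (d1 := d1) (d2 := d2) (av := av) <;> assumption
  · apply l_oo_f h ha (p := p) (s := s) (q := q) (r := r) (x := x) (y := y) <;> assumption

end

end Pool.Agent.SOQ
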