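import Pool.Agent.SOQ.Pf

/-! Project SOQ, module Norm: all blocks are pulled, one after the other. -/

set_option autoImplicit false

namespace Pool.Agent.SOQ

open Pool.Agent.SOC Pool.Agent.SOD Pool.Agent.RUP

variable {V : Type}

/-- another structure in the world -/
def Wo.st (W : Wo V) (T' : V → V → V → V → Prop) : Wo V := { W with T := T' }

/-- the domains -/
structure Wo.Dm (W : Wo V) : Prop where
  sd : ∀ {a}, W.S a → W.D a
  de : ∀ {a}, W.D a → W.E a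
  da : ∀ {a}, W.D a → W.S a ∨ W.A a
  dk : ∀ {a c}, ¬ W.S a → W.D a → W.D c → W.K a c → a = c

/-- two points of the block of `b` against two letters -/
def GoodAt (W : Wo V) (T' : V → V → V → V → Prop) (b : V) : Prop :=
  ∀ a a' c d, W.K b a → W.K b a' → a ≠ a' → ¬ W.S c → ¬ W.S d → c ≠ d → W.D c → W.D d → W.G.Adj a c → W.G.Adj a d →
    T' a a' c d

section
variable {W : Wo V} {T' : V → V → V → V → Prop} {a a' b c d al r : V}

theorem Wo.Ok.st (h : W.Ok) (ht : PQ W.G (CrF W.f) T' W.D) : (W.st T').Ok :=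
  ⟨h.inj, h.bs, h.at1, h.at2, ht, h.u⟩

theorem Wo.M1.st (h : W.M1) : (W.st T').M1 := ⟨h.rx, h.ry, h.mx1⟩

theorem Wo.Mx.st (h : W.Mx) : (W.st T').Mx := ⟨h.toM1.st, h.mx2⟩

theorem GoodAt.kk (h : W.Ok) (hk : W.K b a) (hg : GoodAt W T' a) : GoodAt W T' b :=
  fun x y c d k1 k2 => hg x y c d (h.bs.ktr (h.bs.ksym hk) k1) (h.bs.ktr (h.bs.ksym hk) k2)

theorem norm_fin (h : PC (W.st T') a al r) : ∃ T'', PQ W.G (CrF W.f) T'' W.D ∧
    (∀ {x y z t}, T'' x y z t → ¬ W.K x y → ¬ W.K z t → T' x y z t) ∧ GoodAt W T'' a ∧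
    ∀ b', ¬ W.K a b' → GoodAt W T' b' → GoodAt W T'' b' := by
  have hp := h.plh
  refine ⟨Pl (W.st T') ((W.st T').K a) (RR (W.st T') a al r) al, pull hp, ?_, ?_, ?_⟩
  · intro x y z t ht k1 k2
    have hb := h.ok.bs
    exact pull_old hp ht (fun k => k1 (hb.ktr (hb.ksym k.1) k.2)) (fun k => k2 (hb.ktr (hb.ksym k.1) k.2))
  · intro x y c d k1 k2 n sc sd cd dc dd e1 e2
    exact pull_m1 hp k1 k2 n sc sd cd dc dd e1 e2
  · intro b' nk hg x y c d k1 k2 n sc sd cd dc dd e1 e2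
    have hb := h.ok.bs
    have nx : ¬ (W.st T').K a x := fun k => nk (hb.ktr k (hb.ksym k1))
    have ny : ¬ (W.st T').K a y := fun k => nk (hb.ktr k (hb.ksym k2))
    have nc : ¬ (W.st T').K a c := fun k => sc (hb.kS k h.sb)
    exact (pull_01 nx ny nc n cd).2 (hg x y c d k1 k2 n sc sd cd dc dd e1 e2)

theorem norm1 (h : W.Ok) (hm : W.Mx) (hd : W.Dm) (ht : PQ W.G (CrF W.f) T' W.D) (sb : W.S b) :
    ∃ T'', PQ W.G (CrF W.f) T'' W.D ∧
    (∀ {x y z t}, T'' x y z t → ¬ W.K x y → ¬ W.K z t → T' x y z t) ∧ GoodAt W T'' b ∧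
    ∀ b', ¬ W.K b b' → GoodAt W T' b' → GoodAt W T'' b' := by
  by_cases hg : GoodAt W T' b
  · exact ⟨T', ht, fun h _ _ => h, hg, fun _ _ h => h⟩
  unfold GoodAt at hg
  push Not at hg
  obtain ⟨x, y, c, d, k1, k2, n, sc, sd, cd, dc, dd, e1, e2, hn⟩ := hg
  have h' : (W.st T').Ok := h.st ht
  have hm' : (W.st T').Mx := hm.st
  have kxy : W.K x y := h.bs.ktr (h.bs.ksym k1) k2
  have sx : W.S x := h.bs.kS k1 sb
  have sy : W.S y := h.bs.kS k2 sb
  have ax := h.bs.kA (h.bs.ksym k1)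
  have ay := h.bs.kA (h.bs.ksym k2)
  have ac := (h.bs.att sx sc e1).2
  have ad := (h.bs.att sx sd e2).2
  have f1 := h.bs.kr kxy sx sc e1
  have f2 := h.bs.kr kxy sx sd e2
  have nkcd : ¬ W.K c d := fun k => cd (hd.dk sc dc dd k)
  have gd : ∀ {z}, W.A z → W.D z → (W.st T').Gd z := fun h1 h2 => ⟨h1, h2, hd.de h2⟩
  have gx := gd ax (hd.sd sx)
  have gy := gd ay (hd.sd sy)
  have gc := gd ac dc
  have gdd := gd ad dd
  -- the other vertices
  have mk : ∀ {v al r : V}, W.K b v → ¬ W.S al → (W.st T').Gd al → ¬ W.S r → (W.st T').Gd r → al ≠ r → W.G.Adj v al →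
      W.Tp r → W.Arc v r al → ∃ T'', PQ W.G (CrF W.f) T'' W.D ∧
      (∀ {x y z t}, T'' x y z t → ¬ W.K x y → ¬ W.K z t → T' x y z t) ∧ GoodAt W T'' b ∧
      ∀ b', ¬ W.K b b' → GoodAt W T' b' → GoodAt W T'' b' := by
    intro v al r k sl gl sr gr n e tp ar
    have hp : PC (W.st T') v al r := ⟨h', hm', hd.sd, hd.de, hd.da, hd.dk, h.bs.kS k sb, h.bs.kA (h.bs.ksym k), sl, gl,
      sr, gr, n, e, tp, ar⟩
    obtain ⟨T'', t1, t2, t3, t4⟩ := norm_fin hp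
    exact ⟨T'', t1, t2, GoodAt.kk h k t3, fun b' nk => t4 b' (fun k' => nk (h.bs.ktr k k'))⟩
  have go : ∀ {v w y z : V}, W.K b v → W.K b w → ¬ W.S y → (W.st T').Gd y → ¬ W.S z → (W.st T').Gd z → ¬ W.K y z →
      W.G.Adj v z → W.G.Adj w y → T' v y w z → ∃ T'', PQ W.G (CrF W.f) T'' W.D ∧
      (∀ {x y z t}, T'' x y z t → ¬ W.K x y → ¬ W.K z t → T' x y z t) ∧ GoodAt W T'' b ∧
      ∀ b', ¬ W.K b b' → GoodAt W T' b' → GoodAt W T'' b' := by
    intro v w y z kv kw sy gy sz gz nk e1 e2 t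
    have sv := h.bs.kS kv sb
    have sw := h.bs.kS kw sb
    have gv := gd (h.bs.kA (h.bs.ksym kv)) (hd.sd sv)
    have gw := gd (h.bs.kA (h.bs.ksym kw)) (hd.sd sw)
    have yz : y ≠ z := fun e => nk (e ▸ h.bs.krefl gy.1)
    rcases fstar h' hm' sv gv sw gw sy gy sz gz (h.bs.ktr (h.bs.ksym kv) kw) nk t with ⟨h1, h2⟩ | ⟨h1, h2⟩
    · exact mk kv sz gz sy gy yz.symm e1 h1 h2
    · exact mk kw sy gy sz gz yz e2 h1 h2
  have nx : ¬ CrF W.f x y c d := h.bs.int sx sy sc sd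
  rcases h.se.one n e1.ne e2.ne f1.ne f2.ne cd with h1 | h1 | h1
  · exact absurd h1 nx
  · rcases ht.some e1 f2 h1 (hd.sd sx) (hd.sd sy) dc dd with h2 | h2
    · exact absurd h2 hn
    · exact go k1 k2 sd gdd sc gc (fun k => nkcd (h.bs.ksym k)) e1 f2 h2
  · rcases ht.some e2 f1 h1 (hd.sd sx) (hd.sd sy) dd dc with h2 | h2
    · exact absurd (ht.sw3 h2) hn
    · exact go k1 k2 sc gc sd gdd nkcd e2 f1 h2

/-- NORMAL FORM: all blocks are pulled -/
theorem norm (h : W.Ok) (hm : W.Mx) (hd : W.Dm) (l : List V) : ∃ T'', PQ W.G (CrF W.f) T'' W.D ∧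
    (∀ {x y z t}, T'' x y z t → ¬ W.K x y → ¬ W.K z t → W.T x y z t) ∧ ∀ b ∈ l, W.S b → GoodAt W T'' b := by
  induction l with
  | nil => exact ⟨W.T, h.t, fun h _ _ => h, fun b hb => absurd hb (List.not_mem_nil)⟩
  | cons v l ih =>
    obtain ⟨T', t1, t2, t3⟩ := ih
    by_cases sv : W.S v
    · obtain ⟨T'', u1, u2, u3, u4⟩ := norm1 h hm hd t1 sv
      refine ⟨T'', u1, fun h k1 k2 => t2 (u2 h k1 k2) k1 k2, ?_⟩
      intro b hb sb
      by_cases k : W.K v b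
      · exact GoodAt.kk h (h.bs.ksym k) u3
      · rcases List.mem_cons.1 hb with h1 | h1
        · rw [h1]; exact u3
        · exact u4 b k (t3 b h1 sb)
    · refine ⟨T', t1, t2, ?_⟩
      intro b hb sb
      rcases List.mem_cons.1 hb with h1 | h1
      · exact absurd (h1 ▸ sb) sv
      · exact t3 b h1 sb

end

end Pool.Agent.SOQ
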