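import Pool.Agent.SOQ.Sem

/-! Project SOQ, module PDefs: the pull of the set `R` to the vertex `al` at the block `B`. -/

set_option autoImplicit false

namespace Pool.Agent.SOQ

open Pool.Agent.SOC Pool.Agent.SOD Pool.Agent.RUP

variable {V : Type}

/-- three points of `B` and one point of `R` -/
def N3 (B R : V → Prop) (a b c d : V) : Prop :=
  (B a ∧ B b ∧ B c ∧ R d) ∨ (B a ∧ B b ∧ R c ∧ B d) ∨ (B a ∧ R b ∧ B c ∧ B d) ∨ (R a ∧ B b ∧ B c ∧ B d)

/-- two points `p`, `q` of `B`, one of the others in `R`, adjacent and not crossing -/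
def QQ (G : SimpleGraph V) (X : V → V → V → V → Prop) (D B R : V → Prop) (p q r s : V) : Prop :=
  B p ∧ B q ∧ ¬ B r ∧ ¬ B s ∧ (R r ∨ R s) ∧ D r ∧ D s ∧ Sq4 G p q r s ∧ ¬ X p q r s

open Classical in
/-- replace the points of `R` by `al` -/
noncomputable def sg (R : V → Prop) (al x : V) : V := if R x then al else x

open Classical in
/-- the pulled structure -/
noncomputable def plT (G : SimpleGraph V) (X T : V → V → V → V → Prop) (D B R : V → Prop) (al a b c d : V) : Prop :=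
  (a ≠ b ∧ c ≠ d) ∧
  if N3 B R a b c d then T (sg R al a) (sg R al b) (sg R al c) (sg R al d)
  else if QQ G X D B R a b c d ∨ QQ G X D B R c d a b then True
  else if QQ G X D B R a c b d ∨ QQ G X D B R a d b c ∨ QQ G X D B R b c a d ∨ QQ G X D B R b d a c then False
  else T a b c d

/-- the hypotheses -/
structure PlH (W : Wo V) (B R : V → Prop) (al : V) : Prop where
  ok : W.Ok
  bs : ∀ {a}, B a → W.S a
  ba : ∀ {a}, B a → W.A a
  sd : ∀ {a}, W.S a → W.D a
  da : ∀ {a}, W.D a → W.S a ∨ W.A a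
  kb : ∀ {a b c d}, B a → B b → W.A c → ¬ B c → W.A d → ¬ B d → ¬ CrF W.f a b c d
  uni : ∀ {a b c}, B a → B b → W.A c → ¬ B c → W.G.Adj a c → W.G.Adj b c
  alY : ¬ W.S al
  alD : W.D al
  alR : ¬ R al
  alE : ∀ {b}, B b → W.G.Adj al b
  ra : ∀ {a}, R a → W.A a
  rb : ∀ {a}, R a → ¬ B a
  rd : ∀ {a}, R a → W.D a
  top : ∀ {a b}, R a → W.A b → W.D b → ¬ W.K a b → W.G.Adj a b
  topB : ∀ {a b}, R a → B b → W.G.Adj a b
  rk : ∀ {a b}, R a → W.K a b → W.D b → R b
  fa : ∀ {a b c}, B a → B b → a ≠ b → W.A c → ¬ B c → ¬ R c → W.D c → W.G.Adj a c → W.G.Adj b c → W.G.Adj c al →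
    W.T a b al c
  fr : ∀ {a b c d}, B a → B b → a ≠ b → R c → R d → W.G.Adj c d → W.T a b c d
  ll : ∀ {a b c d}, R a → ¬ W.A b → B c → W.A d → ¬ B d → ¬ W.G.Adj d al → ¬ W.T a b c d
  l2 : ∀ {b c d}, ¬ W.A b → B c → R d → ¬ W.T al b c d
  l3 : ∀ {a b c d}, R a → ¬ W.A b → B c → ¬ W.A d → ¬ W.T a b c d

theorem PlH.fa' {W : Wo V} {B R : V → Prop} {al : V} (h : PlH W B R al) {a b c o : V} (ho : o = al) (ha : B a) (hb : B b)
    (ab : a ≠ b) (hc : W.A c) (bc : ¬ B c) (rc : ¬ R c) (dc : W.D c) (e1 : W.G.Adj a c) (e2 : W.G.Adj b c)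
    (e3 : W.G.Adj c o) : W.T a b o c := by
  subst ho
  exact h.fa ha hb ab hc bc rc dc e1 e2 e3

theorem PlH.ll' {W : Wo V} {B R : V → Prop} {al : V} (h : PlH W B R al) {a b c d o : V} (ho : o = al) (ra : R a)
    (ab : ¬ W.A b) (bc : B c) (ad : W.A d) (bd : ¬ B d) (n : ¬ W.G.Adj d o) (ht : W.T a b c d) : False := by
  subst ho
  exact h.ll ra ab bc ad bd n ht

theorem PlH.l2' {W : Wo V} {B R : V → Prop} {al : V} (h : PlH W B R al) {b c d o : V} (ho : o = al)
    (ab : ¬ W.A b) (bc : B c) (rd : R d) (ht : W.T o b c d) : False := by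
  subst ho
  exact h.l2 ab bc rd ht

theorem PlH.aly {W : Wo V} {B R : V → Prop} {al : V} (h : PlH W B R al) {o : V} (ho : o = al) : ¬ W.S o ∧ W.D o ∧ ¬ R o := by
  subst ho
  exact ⟨h.alY, h.alD, h.alR⟩

theorem PlH.ale {W : Wo V} {B R : V → Prop} {al : V} (h : PlH W B R al) {o b : V} (ho : o = al) (hb : B b) : W.G.Adj o b := by
  subst ho
  exact h.alE hb

section
variable {G : SimpleGraph V} {X T : V → V → V → V → Prop} {D B R : V → Prop} {al a b c d p q r s o : V}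

theorem n3_1 : N3 B R b a c d ↔ N3 B R a b c d := by unfold N3; tauto

theorem n3_2 : N3 B R c d a b ↔ N3 B R a b c d := by unfold N3; tauto

theorem Sq4.s1 (h : Sq4 G p q r s) : Sq4 G q p r s := ⟨h.2.2.1, h.2.2.2, h.1, h.2.1⟩

theorem Sq4.s2 (h : Sq4 G p q r s) : Sq4 G p q s r := ⟨h.2.1, h.1, h.2.2.2, h.2.2.1⟩

theorem qq_1 (h1 : ∀ {a b c d}, X a b c d → X b a c d) : QQ G X D B R q p r s ↔ QQ G X D B R p q r s := by
  have key : ∀ {p q}, QQ G X D B R p q r s → QQ G X D B R q p r s := fun ⟨a1, a2, a3, a4, a5, a6, a7, a8, a9⟩ =>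
    ⟨a2, a1, a3, a4, a5, a6, a7, a8.s1, fun k => a9 (h1 k)⟩
  exact ⟨key, key⟩

theorem qq_2 (h1 : ∀ {a b c d}, X a b c d → X b a c d) (h2 : ∀ {a b c d}, X a b c d → X c d a b) :
    QQ G X D B R p q s r ↔ QQ G X D B R p q r s := by
  have key : ∀ {r s}, QQ G X D B R p q r s → QQ G X D B R p q s r := fun ⟨a1, a2, a3, a4, a5, a6, a7, a8, a9⟩ =>
    ⟨a1, a2, a4, a3, a5.symm, a7, a6, a8.s2, fun k => a9 (h2 (h1 (h2 k)))⟩
  exact ⟨key, key⟩

open Classical in
theorem plT_sym (x1 : ∀ {a b c d}, X a b c d → X b a c d) (x2 : ∀ {a b c d}, X a b c d → X c d a b)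
    (t1 : ∀ {a b c d}, T a b c d → T b a c d) (t2 : ∀ {a b c d}, T a b c d → T c d a b) :
    (∀ {a b c d}, plT G X T D B R al a b c d → plT G X T D B R al b a c d) ∧
      (∀ {a b c d}, plT G X T D B R al a b c d → plT G X T D B R al c d a b) := by
  have q1 : ∀ {p q r s}, QQ G X D B R q p r s ↔ QQ G X D B R p q r s := qq_1 x1
  have q2 : ∀ {p q r s}, QQ G X D B R p q s r ↔ QQ G X D B R p q r s := qq_2 x1 x2
  constructor
  · intro a b c d h
    unfold plT at h ⊢
    refine ⟨⟨h.1.1.symm, h.1.2⟩, ?_⟩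
    have h2 := h.2
    have e1 : N3 B R b a c d ↔ N3 B R a b c d := n3_1
    have e2 : (QQ G X D B R b a c d ∨ QQ G X D B R c d b a) ↔ (QQ G X D B R a b c d ∨ QQ G X D B R c d a b) := by
      rw [q1 (p := a) (q := b), q2 (r := a) (s := b)]
    have e3 : (QQ G X D B R b c a d ∨ QQ G X D B R b d a c ∨ QQ G X D B R a c b d ∨ QQ G X D B R a d b c) ↔
        (QQ G X D B R a c b d ∨ QQ G X D B R a d b c ∨ QQ G X D B R b c a d ∨ QQ G X D B R b d a c) := by tauto
    by_cases k1 : N3 B R a b c d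
    · rw [if_pos k1] at h2
      rw [if_pos (e1.2 k1)]
      exact t1 h2
    · rw [if_neg k1] at h2
      rw [if_neg (fun k => k1 (e1.1 k))]
      by_cases k2 : QQ G X D B R a b c d ∨ QQ G X D B R c d a b
      · rw [if_pos (e2.2 k2)]
        trivial
      · rw [if_neg k2] at h2
        rw [if_neg (fun k => k2 (e2.1 k))]
        by_cases k3 : QQ G X D B R a c b d ∨ QQ G X D B R a d b c ∨ QQ G X D B R b c a d ∨ QQ G X D B R b d a c
        · rw [if_pos k3] at h2
          exact h2.elim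
        · rw [if_neg k3] at h2
          rw [if_neg (fun k => k3 (e3.1 k))]
          exact t1 h2
  · intro a b c d h
    unfold plT at h ⊢
    refine ⟨⟨h.1.2, h.1.1⟩, ?_⟩
    have h2 := h.2
    have e1 : N3 B R c d a b ↔ N3 B R a b c d := n3_2
    have e2 : (QQ G X D B R c d a b ∨ QQ G X D B R a b c d) ↔ (QQ G X D B R a b c d ∨ QQ G X D B R c d a b) := or_comm
    have e3 : (QQ G X D B R c a d b ∨ QQ G X D B R c b d a ∨ QQ G X D B R d a c b ∨ QQ G X D B R d b c a) ↔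
        (QQ G X D B R a c b d ∨ QQ G X D B R a d b c ∨ QQ G X D B R b c a d ∨ QQ G X D B R b d a c) := by
      rw [q1 (p := a) (q := c), q2 (r := b) (s := d), q1 (p := b) (q := c), q2 (r := a) (s := d), q1 (p := a) (q := d),
        q2 (r := b) (s := c), q1 (p := b) (q := d), q2 (r := a) (s := c)]
      tauto
    by_cases k1 : N3 B R a b c d
    · rw [if_pos k1] at h2
      rw [if_pos (e1.2 k1)]
      exact t2 h2
    · rw [if_neg k1] at h2
      rw [if_neg (fun k => k1 (e1.1 k))]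
      by_cases k2 : QQ G X D B R a b c d ∨ QQ G X D B R c d a b
      · rw [if_pos (e2.2 k2)]
        trivial
      · rw [if_neg k2] at h2
        rw [if_neg (fun k => k2 (e2.1 k))]
        by_cases k3 : QQ G X D B R a c b d ∨ QQ G X D B R a d b c ∨ QQ G X D B R b c a d ∨ QQ G X D B R b d a c
        · rw [if_pos k3] at h2
          exact h2.elim
        · rw [if_neg k3] at h2
          rw [if_neg (fun k => k3 (e3.1 k))]
          exact t2 h2

/-- at most one of the first three points in `B` ... none -/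
theorem pl_01 (ha : ¬ B a) (hb : ¬ B b) (hc : ¬ B c) (ab : a ≠ b) (cd : c ≠ d) :
    plT G X T D B R al a b c d ↔ T a b c d := by
  have n1 : ¬ N3 B R a b c d := by unfold N3; tauto
  have n2 : ¬ (QQ G X D B R a b c d ∨ QQ G X D B R c d a b) := by unfold QQ; tauto
  have n3 : ¬ (QQ G X D B R a c b d ∨ QQ G X D B R a d b c ∨ QQ G X D B R b c a d ∨ QQ G X D B R b d a c) := by
    unfold QQ; tauto
  unfold plT
  rw [if_neg n1, if_neg n2, if_neg n3]
  exact ⟨fun h => h.2, fun h => ⟨⟨ab, cd⟩, h⟩⟩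

theorem pl_4 (rb : ∀ {a}, R a → ¬ B a) (ha : B a) (hb : B b) (hc : B c) (hd : B d) (ab : a ≠ b) (cd : c ≠ d) :
    plT G X T D B R al a b c d ↔ T a b c d := by
  have ra : ¬ R a := fun k => rb k ha
  have rb' : ¬ R b := fun k => rb k hb
  have rc : ¬ R c := fun k => rb k hc
  have rd : ¬ R d := fun k => rb k hd
  have n1 : ¬ N3 B R a b c d := by unfold N3; tauto
  have n2 : ¬ (QQ G X D B R a b c d ∨ QQ G X D B R c d a b) := by unfold QQ; tauto
  have n3 : ¬ (QQ G X D B R a c b d ∨ QQ G X D B R a d b c ∨ QQ G X D B R b c a d ∨ QQ G X D B R b d a c) := by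
    unfold QQ; tauto
  unfold plT
  rw [if_neg n1, if_neg n2, if_neg n3]
  exact ⟨fun h => h.2, fun h => ⟨⟨ab, cd⟩, h⟩⟩

theorem pl_3 (rb : ∀ {a}, R a → ¬ B a) (ha : B a) (hb : B b) (hc : B c) (hd : ¬ B d) (rd : ¬ R d) (ab : a ≠ b)
    (cd : c ≠ d) : plT G X T D B R al a b c d ↔ T a b c d := by
  have ra : ¬ R a := fun k => rb k ha
  have rb' : ¬ R b := fun k => rb k hb
  have rc : ¬ R c := fun k => rb k hc
  have n1 : ¬ N3 B R a b c d := by unfold N3; tauto
  have n2 : ¬ (QQ G X D B R a b c d ∨ QQ G X D B R c d a b) := by unfold QQ; tauto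
  have n3 : ¬ (QQ G X D B R a c b d ∨ QQ G X D B R a d b c ∨ QQ G X D B R b c a d ∨ QQ G X D B R b d a c) := by
    unfold QQ; tauto
  unfold plT
  rw [if_neg n1, if_neg n2, if_neg n3]
  exact ⟨fun h => h.2, fun h => ⟨⟨ab, cd⟩, h⟩⟩

theorem pl_3r (rb : ∀ {a}, R a → ¬ B a) (ha : B a) (hb : B b) (hc : B c) (rd : R d) (ab : a ≠ b) (cd : c ≠ d)
    (ho : o = al) : plT G X T D B R al a b c d ↔ T a b c o := by
  subst ho
  have ra : ¬ R a := fun k => rb k ha
  have rb' : ¬ R b := fun k => rb k hb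
  have rc : ¬ R c := fun k => rb k hc
  have n1 : N3 B R a b c d := Or.inl ⟨ha, hb, hc, rd⟩
  unfold plT sg
  rw [if_pos n1, if_neg ra, if_neg rb', if_neg rc, if_pos rd]
  exact ⟨fun h => h.2, fun h => ⟨⟨ab, cd⟩, h⟩⟩

theorem pl_2a (rb : ∀ {a}, R a → ¬ B a) (ha : B a) (hb : B b) (hc : ¬ B c) (hd : ¬ B d) (n : ¬ QQ G X D B R a b c d)
    (ab : a ≠ b) (cd : c ≠ d) : plT G X T D B R al a b c d ↔ T a b c d := by
  have ra : ¬ R a := fun k => rb k ha
  have rb' : ¬ R b := fun k => rb k hb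
  have n1 : ¬ N3 B R a b c d := by unfold N3; tauto
  have n2 : ¬ (QQ G X D B R a b c d ∨ QQ G X D B R c d a b) := by
    rintro (h | h)
    · exact n h
    · exact hc h.1
  have n3 : ¬ (QQ G X D B R a c b d ∨ QQ G X D B R a d b c ∨ QQ G X D B R b c a d ∨ QQ G X D B R b d a c) := by
    unfold QQ; tauto
  unfold plT
  rw [if_neg n1, if_neg n2, if_neg n3]
  exact ⟨fun h => h.2, fun h => ⟨⟨ab, cd⟩, h⟩⟩

theorem pl_2b (rb : ∀ {a}, R a → ¬ B a) (ha : B a) (hb : B b) (hc : ¬ B c) (hd : ¬ B d) (n : ¬ QQ G X D B R a b c d)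
    (ac : a ≠ c) (bd : b ≠ d) : plT G X T D B R al a c b d ↔ T a c b d := by
  have ra : ¬ R a := fun k => rb k ha
  have rb' : ¬ R b := fun k => rb k hb
  have n1 : ¬ N3 B R a c b d := by unfold N3; tauto
  have n2 : ¬ (QQ G X D B R a c b d ∨ QQ G X D B R b d a c) := by unfold QQ; tauto
  have n3 : ¬ (QQ G X D B R a b c d ∨ QQ G X D B R a d c b ∨ QQ G X D B R c b a d ∨ QQ G X D B R c d a b) := by
    rintro (h | h | h | h)
    · exact n h
    · exact hd h.2.1
    · exact hc h.1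
    · exact hc h.1
  unfold plT
  rw [if_neg n1, if_neg n2, if_neg n3]
  exact ⟨fun h => h.2, fun h => ⟨⟨ac, bd⟩, h⟩⟩

theorem pl_c1 (h : QQ G X D B R a b c d) (rb : ∀ {a}, R a → ¬ B a) (ab : a ≠ b) (cd : c ≠ d) :
    plT G X T D B R al a b c d := by
  have ra : ¬ R a := fun k => rb k h.1
  have rb' : ¬ R b := fun k => rb k h.2.1
  have hc := h.2.2.1
  have hd := h.2.2.2.1
  have n1 : ¬ N3 B R a b c d := by unfold N3; tauto
  unfold plT
  rw [if_neg n1, if_pos (Or.inl h)]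
  exact ⟨⟨ab, cd⟩, trivial⟩

theorem pl_c2 (h : QQ G X D B R a b c d) (rb : ∀ {a}, R a → ¬ B a) : ¬ plT G X T D B R al a c b d := by
  have ra : ¬ R a := fun k => rb k h.1
  have rb' : ¬ R b := fun k => rb k h.2.1
  have hc := h.2.2.1
  have hd := h.2.2.2.1
  have n1 : ¬ N3 B R a c b d := by unfold N3; tauto
  have n2 : ¬ (QQ G X D B R a c b d ∨ QQ G X D B R b d a c) := by
    rintro (k | k)
    · exact hc k.2.1
    · exact hd k.2.1
  unfold plT
  rw [if_neg n1, if_neg n2, if_pos (Or.inl h)]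
  exact fun k => k.2

end

/-- the relations for the refutations -/
noncomputable def plFam (W : Wo V) (B R : V → Prop) (al : V) : Nat → V → V → V → V → Prop
  | 0 => CrF W.f
  | 1 => W.T
  | 2 => plT W.G (CrF W.f) W.T W.D B R al
  | _ => fun _ _ _ _ => False

/-- binary relations -/
def plFam2 (W : Wo V) (B R : V → Prop) (al : V) : Nat → V → V → Prop
  | 0 => W.G.Adj
  | 1 => W.K
  | 2 => fun a b => a = b ∧ W.S a
  | 3 => fun a b => a = b ∧ W.A a
  | 4 => fun a b => a = b ∧ B a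
  | 5 => fun a b => a = b ∧ R a
  | 6 => fun a b => a = b ∧ a = al
  | 7 => fun a b => a = b ∧ W.D a
  | _ => fun _ _ => False

/-- the relations for the refutations -/
noncomputable def plRel {W : Wo V} (h : W.Ok) (B R : V → Prop) (al : V) : SRel V where
  r2 := plFam2 W B R al
  r3 := fun _ _ _ _ => False
  r4 := plFam W B R al
  s2 := by
    intro r a b e
    unfold plFam2 at e ⊢
    split at e
    · exact SimpleGraph.Adj.symm e
    · exact h.bs.ksym e
    · exact ⟨e.1.symm, e.1 ▸ e.2⟩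
    · exact ⟨e.1.symm, e.1 ▸ e.2⟩
    · exact ⟨e.1.symm, e.1 ▸ e.2⟩
    · exact ⟨e.1.symm, e.1 ▸ e.2⟩
    · exact ⟨e.1.symm, e.1 ▸ e.2⟩
    · exact ⟨e.1.symm, e.1 ▸ e.2⟩
    · exact e
  s3 := fun e => e
  s3' := fun e => e
  s4 := by
    intro r a b c d e
    unfold plFam at e ⊢
    split at e
    · exact (crF_sepr h.inj).swap e
    · exact h.t.sw1 e
    · exact (plT_sym (X := CrF W.f) (T := W.T) (crF_sepr h.inj).swap (crF_sepr h.inj).comm h.t.sw1 h.t.sw2).1 e
    · exact e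
  s4' := by
    intro r a b c d e
    unfold plFam at e ⊢
    split at e
    · exact (crF_sepr h.inj).comm e
    · exact h.t.sw2 e
    · exact (plT_sym (X := CrF W.f) (T := W.T) (crF_sepr h.inj).swap (crF_sepr h.inj).comm h.t.sw1 h.t.sw2).2 e
    · exact e

end Pool.Agent.SOQ
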