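import Pool.Agent.SOQ.Pa
import Pool.Agent.SOQ.Pb
import Pool.Agent.SOQ.Pc
import Pool.Agent.SOQ.Pd

/-! Project SOQ, module PMain: the pulled structure is a structure. -/

set_option autoImplicit false

namespace Pool.Agent.SOQ

open Pool.Agent.SOC Pool.Agent.SOD Pool.Agent.RUP

variable {V : Type} {W : Wo V} {B R : V → Prop} {al : V}

/-- the pulled structure -/
noncomputable abbrev Pl (W : Wo V) (B R : V → Prop) (al : V) : V → V → V → V → Prop :=
  plT W.G (CrF W.f) W.T W.D B R al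

theorem pl_ne (h : PlH W B R al) {a b c d : V} (ht : Pl W B R al a b c d) : a ≠ c := by
  classical
  have h2 := ht.2
  by_cases k1 : N3 B R a b c d
  · rw [if_pos k1] at h2
    rintro rfl
    exact (h.ok.t.adj h2).ne rfl
  · rw [if_neg k1] at h2
    by_cases k2 : QQ W.G (CrF W.f) W.D B R a b c d ∨ QQ W.G (CrF W.f) W.D B R c d a b
    · rcases k2 with k | k
      · exact k.2.2.2.2.2.2.2.1.1.ne
      · exact k.2.2.2.2.2.2.2.1.1.ne.symm
    · rw [if_neg k2] at h2
      split at h2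
      · exact h2.elim
      · exact (h.ok.t.adj h2).ne

theorem pl_s1 (h : PlH W B R al) {a b c d : V} (ht : Pl W B R al a b c d) : Pl W B R al b a c d :=
  (plT_sym (X := CrF W.f) (T := W.T) (crF_sepr h.ok.inj).swap (crF_sepr h.ok.inj).comm h.ok.t.sw1 h.ok.t.sw2).1 ht

theorem pl_s2 (h : PlH W B R al) {a b c d : V} (ht : Pl W B R al a b c d) : Pl W B R al c d a b :=
  (plT_sym (X := CrF W.f) (T := W.T) (crF_sepr h.ok.inj).swap (crF_sepr h.ok.inj).comm h.ok.t.sw1 h.ok.t.sw2).2 ht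

theorem pl_s3 (h : PlH W B R al) {a b c d : V} (ht : Pl W B R al a b c d) : Pl W B R al a b d c :=
  pl_s2 h (pl_s1 h (pl_s2 h ht))

theorem pl_nd (h : PlH W B R al) {a b c d : V} (ht : Pl W B R al a b c d) : [a, b, c, d].Nodup := by
  have h1 := pl_ne h ht
  have h2 := pl_ne h (pl_s3 h ht)
  have h3 := pl_ne h (pl_s1 h ht)
  have h4 := pl_ne h (pl_s1 h (pl_s3 h ht))
  have h5 := ht.1.1
  have h6 := ht.1.2
  simp only [List.nodup_cons, List.mem_cons, List.not_mem_nil, or_false, not_or, not_false_eq_true, List.nodup_nil,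
    and_true]
  exact ⟨⟨h5, h1, h2⟩, ⟨h3, h4⟩, h6⟩

theorem pl_adj (h : PlH W B R al) {a b c d : V} (ht : Pl W B R al a b c d) : W.G.Adj a c := by
  by_contra hn
  exact plsq h (pl_nd h ht) ht hn

/-- PULL: the pulled structure is a structure -/
theorem pull (h : PlH W B R al) : PQ W.G (CrF W.f) (Pl W B R al) W.D := by
  have nd := fun {a b c d : V} (ht : Pl W B R al a b c d) => pl_nd h ht
  have sq : ∀ {a b c d : V}, Pl W B R al a b c d → (a ≠ b ∧ c ≠ d) ∧ W.G.Adj a c ∧ W.G.Adj a d ∧ W.G.Adj b c ∧ W.G.Adj b d :=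
    fun ht => ⟨ht.1, pl_adj h ht, pl_adj h (pl_s3 h ht), pl_adj h (pl_s1 h ht), pl_adj h (pl_s1 h (pl_s3 h ht))⟩
  have nb : ∀ {a b c d : V}, Pl W B R al a b c d → ¬ Pl W B R al a c b d := fun h1 h2 => plnb h (nd h1) h1 h2
  have f5 : ∀ {a b x y x2 : V}, Pl W B R al a x b y → Pl W B R al a x2 b x → y ≠ x2 → Pl W B R al a x2 b y := by
    intro a b x y x2 h1 h2 h3
    by_contra hn
    obtain ⟨⟨n1, n2⟩, e1, e2, e3, e4⟩ := sq h1
    obtain ⟨⟨m1, m2⟩, g1, g2, g3, g4⟩ := sq h2
    refine plf5 h (a := a) (b := x2) (c := b) (d := x) (e := y) ?_ h2 h1 hn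
    simp only [List.nodup_cons, List.mem_cons, List.not_mem_nil, or_false, not_or, not_false_eq_true,
      List.nodup_nil, and_true]
    exact ⟨⟨m1, e1.ne, n1, e2.ne⟩, ⟨g3.ne, g4.ne, h3.symm⟩, ⟨m2, n2⟩, e4.ne⟩
  refine ⟨fun ht => pl_s1 h ht, fun ht => pl_s2 h ht, fun ht => ht.1.1, fun ht => pl_adj h ht, ?_, ?_, nb, ?_, ?_, ?_⟩
  · intro a b c d h1 h2
    exact plnc h (nd h1) h1 h2
  · intro a b c d h1
    by_contra hn
    exact pldm h (nd h1) h1 hn
  · intro a b c d e1 e2 hx da db dc dd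
    by_contra hn
    rw [not_or] at hn
    obtain ⟨n1, n2, n3, n4, n5, n6⟩ := hx.1
    refine plso h (a := a) (b := c) (c := b) (d := d) ?_ e1 e2 hx hn.1 (fun k => hn.2 (pl_s3 h k)) da dc db dd
    simp only [List.nodup_cons, List.mem_cons, List.not_mem_nil, or_false, not_or, not_false_eq_true,
      List.nodup_nil, and_true]
    exact ⟨⟨n1, n2, n3⟩, ⟨n4, n5⟩, n6⟩
  · intro u w x y z h1 h2 xz
    by_contra hn
    obtain ⟨⟨n1, n2⟩, e1, e2, e3, e4⟩ := sq h1
    obtain ⟨⟨m1, m2⟩, g1, g2, g3, g4⟩ := sq h2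
    refine pltr h (a := u) (b := w) (c := x) (d := y) (e := z) ?_ h1 h2 hn
    simp only [List.nodup_cons, List.mem_cons, List.not_mem_nil, or_false, not_or, not_false_eq_true,
      List.nodup_nil, and_true]
    exact ⟨⟨n1, e1.ne, e2.ne, g2.ne⟩, ⟨e3.ne, e4.ne, g4.ne⟩, ⟨n2, xz⟩, m2⟩
  · intro a b x y x' y' h1 h2
    by_cases xx : x = x'
    · subst xx
      exact Or.inl h2
    · by_cases yy : y = y'
      · subst yy
        exact Or.inr h2
      · by_cases xy : x = y'
        · subst xy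
          by_cases yx : y = x'
          · subst yx
            exact (nb (pl_s3 h h1) (pl_s3 h h2)).elim
          · exact Or.inr (f5 h1 h2 yx)
        · by_cases yx : y = x'
          · subst yx
            exact Or.inl (f5 h2 h1 (fun h => xy h.symm))
          · by_contra hn
            rw [not_or] at hn
            obtain ⟨⟨n1, n2⟩, e1, e2, e3, e4⟩ := sq h1
            obtain ⟨⟨m1, m2⟩, g1, g2, g3, g4⟩ := sq h2
            refine plf6 h (a := a) (b := x) (c := b) (d := y) (e := x') (f := y') ?_ h1 h2 hn.1 hn.2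
            simp only [List.nodup_cons, List.mem_cons, List.not_mem_nil, or_false, not_or, not_false_eq_true,
              List.nodup_nil, and_true]
            exact ⟨⟨n1, e1.ne, e2.ne, m1, g2.ne⟩, ⟨e3.ne, e4.ne, xx, xy⟩, ⟨n2, g3.ne.symm, m2⟩, ⟨yx, yy⟩, g4.ne⟩

/-- two points of the block and two points of the other side -/
theorem pull_m1 (h : PlH W B R al) {a b c d : V} (ha : B a) (hb : B b) (ab : a ≠ b) (sc : ¬ W.S c) (sd : ¬ W.S d)
    (cd : c ≠ d) (dc : W.D c) (dd : W.D d) (e1 : W.G.Adj a c) (e2 : W.G.Adj a d) : Pl W B R al a b c d := by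
  by_contra hn
  refine plm1 h ?_ ha hb sc sd dc dd e1 e2 hn
  have sa := h.bs ha
  have sb := h.bs hb
  simp only [List.nodup_cons, List.mem_cons, List.not_mem_nil, or_false, not_or, not_false_eq_true,
    List.nodup_nil, and_true]
  exact ⟨⟨ab, nsd sa sc, nsd sa sd⟩, ⟨nsd sb sc, nsd sb sd⟩, cd⟩

/-- nothing changes when no two points are in the block -/
theorem pull_01 {a b c d : V} (ha : ¬ B a) (hb : ¬ B b) (hc : ¬ B c) (ab : a ≠ b) (cd : c ≠ d) :
    Pl W B R al a b c d ↔ W.T a b c d := pl_01 ha hb hc ab cd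

/-- pairs with one point in the block and one point outside are not new -/
theorem pull_old (h : PlH W B R al) {a b c d : V} (ht : Pl W B R al a b c d) (h1 : ¬ (B a ∧ B b)) (h2 : ¬ (B c ∧ B d)) :
    W.T a b c d := by
  classical
  have k1 : ¬ N3 B R a b c d := by
    have := h.rb (a := a)
    have := h.rb (a := b)
    have := h.rb (a := c)
    have := h.rb (a := d)
    unfold N3
    tauto
  have k2 : ¬ (QQ W.G (CrF W.f) W.D B R a b c d ∨ QQ W.G (CrF W.f) W.D B R c d a b) := by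
    rintro (k | k)
    · exact h1 ⟨k.1, k.2.1⟩
    · exact h2 ⟨k.1, k.2.1⟩
  have h3 := ht.2
  rw [if_neg k1, if_neg k2] at h3
  split at h3
  · exact h3.elim
  · exact h3

end Pool.Agent.SOQ
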