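import Pool.Agent.SOQ.PDefs

/-! Project SOQ: templates for the pulled structure (generated). -/

set_option autoImplicit false
set_option maxRecDepth 100000
set_option linter.unusedVariables false

namespace Pool.Agent.SOQ

open Pool.Agent.SOC Pool.Agent.SOD Pool.Agent.RUP

/-- templates -/
def pO : List Tm := [
  ⟨4, [], ad4, [.q true 0 0 1 2 3, .q true 0 0 2 1 3, .q true 0 0 3 1 2]⟩,
  ⟨4, [], ad4, [.q false 0 0 1 2 3, .q false 0 0 2 1 3]⟩,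
  ⟨5, [], ad5, [.q false 0 0 1 2 3, .q false 0 0 1 3 4, .q false 0 0 1 2 4]⟩,
  ⟨5, [], ad5, [.q false 0 0 1 2 3, .q true 0 0 1 3 4, .q true 0 0 1 2 4]⟩]

theorem pO_h {V : Type} {W : Wo V} {B R : V → Prop} {al : V} (h : PlH W B R al) : UHs (plRel h.ok B R al) pO :=
  .cons (fun v n01 n02 n03 n12 n13 n23 h0 h1 h2 => ((crF_sepr h.ok.inj).one n01 n02 n03 n12 n13 n23).elim h0 (fun k => k.elim h1 h2)) (
  .cons (fun v n01 n02 n03 n12 n13 n23 h0 h1 => (crF_sepr h.ok.inj).amo h0 h1) (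
  .cons (fun v n01 n02 n03 n04 n12 n13 n14 n23 n24 n34 h0 h1 h2 => (crF_sepr h.ok.inj).add h0 h1 h2) (
  .cons (fun v n01 n02 n03 n04 n12 n13 n14 n23 n24 n34 h0 h1 h2 => ((crF_sepr h.ok.inj).add2 h0 n34 n24 n04 n14).elim h1 h2) (
  .nil))))

/-- templates -/
def pT : List Tm := [
  ⟨4, [], ad4, [.q false 1 0 1 2 3, .q false 0 0 1 2 3]⟩,
  ⟨4, [], ad4, [.q false 1 0 1 2 3, .b true 0 0 2]⟩,
  ⟨4, [], ad4, [.b false 0 0 1, .b false 0 2 3, .q false 0 0 1 2 3, .q true 1 0 2 1 3, .q true 1 0 3 1 2, .b false 7 0 0, .b false 7 1 1, .b false 7 2 2, .b false 7 3 3]⟩,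
  ⟨4, [], ad4, [.q false 1 0 1 2 3, .q false 1 0 2 1 3]⟩,
  ⟨5, [], ad5, [.q false 1 0 1 2 3, .q false 1 0 1 3 4, .q true 1 0 1 2 4]⟩,
  ⟨5, [], ad5, [.q false 1 0 1 2 3, .q false 1 0 3 2 4, .q true 1 0 1 2 4]⟩,
  ⟨6, [], ad6, [.q false 1 0 1 2 3, .q false 1 0 4 2 5, .q true 1 0 1 2 5, .q true 1 0 4 2 3]⟩,
  ⟨4, [], ad4, [.q false 1 0 1 2 3, .b true 7 0 0]⟩]

theorem pT_h {V : Type} {W : Wo V} {B R : V → Prop} {al : V} (h : PlH W B R al) : UHs (plRel h.ok B R al) pT :=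
  .cons (fun v n01 n02 n03 n12 n13 n23 h0 h1 => h.ok.t.nc h0 h1) (
  .cons (fun v n01 n02 n03 n12 n13 n23 h0 h1 => h1 (h.ok.t.adj h0)) (
  .cons (fun v n01 n02 n03 n12 n13 n23 h0 h1 h2 h3 h4 h5 h6 h7 h8 => (h.ok.t.some h0 h1 h2 h5.2 h7.2 h6.2 h8.2).elim h3 (fun k => h4 (h.ok.t.sw3 k))) (
  .cons (fun v n01 n02 n03 n12 n13 n23 h0 h1 => h.ok.t.nb h0 h1) (
  .cons (fun v n01 n02 n03 n04 n12 n13 n14 n23 n24 n34 h0 h1 h2 => h2 (h.ok.t.trans h0 h1 n24)) (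
  .cons (fun v n01 n02 n03 n04 n12 n13 n14 n23 n24 n34 h0 h1 h2 => (h.ok.t.ferrers h0 h1).elim h2 (fun k => h.ok.t.irr k)) (
  .cons (fun v n01 n02 n03 n04 n05 n12 n13 n14 n15 n23 n24 n25 n34 n35 n45 h0 h1 h2 h3 => (h.ok.t.ferrers h0 h1).elim h2 h3) (
  .cons (fun v n01 n02 n03 n12 n13 n23 h0 h1 => h1 ⟨rfl, h.ok.t.dom h0⟩) (
  .nil))))))))

/-- templates -/
def pS : List Tm := [
  ⟨4, [], ad4, [.b false 2 0 0, .b false 2 1 1, .b true 2 2 2, .b true 2 3 3, .q false 0 0 1 2 3]⟩,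
  ⟨1, [], [], [.b false 4 0 0, .b true 2 0 0]⟩,
  ⟨1, [], [], [.b false 4 0 0, .b true 3 0 0]⟩,
  ⟨1, [], [], [.b false 2 0 0, .b true 7 0 0]⟩,
  ⟨1, [], [], [.b false 7 0 0, .b true 2 0 0, .b true 3 0 0]⟩,
  ⟨2, [], [(0, 1)], [.b false 2 0 0, .b true 2 1 1, .b false 0 0 1, .b true 3 0 0]⟩,
  ⟨4, [], ad4, [.b false 4 0 0, .b false 4 1 1, .b false 3 2 2, .b true 4 2 2, .b false 3 3 3, .b true 4 3 3, .q false 0 0 1 2 3]⟩,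
  ⟨3, [], [(0, 1), (0, 2), (1, 2)], [.b false 4 0 0, .b false 4 1 1, .b false 3 2 2, .b true 4 2 2, .b false 0 0 2, .b true 0 1 2]⟩,
  ⟨1, [], [], [.b false 6 0 0, .b false 4 0 0]⟩,
  ⟨1, [], [], [.b false 6 0 0, .b false 2 0 0]⟩,
  ⟨1, [], [], [.b false 6 0 0, .b true 7 0 0]⟩,
  ⟨1, [], [], [.b false 6 0 0, .b false 5 0 0]⟩,
  ⟨2, [], [(0, 1)], [.b false 6 0 0, .b false 6 1 1]⟩,
  ⟨2, [], [(0, 1)], [.b false 6 0 0, .b false 4 1 1, .b true 0 0 1]⟩,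
  ⟨1, [], [], [.b false 5 0 0, .b true 3 0 0]⟩,
  ⟨1, [], [], [.b false 5 0 0, .b false 4 0 0]⟩,
  ⟨1, [], [], [.b false 5 0 0, .b true 7 0 0]⟩,
  ⟨2, [], [(0, 1)], [.b false 5 0 0, .b false 4 1 1, .b true 0 0 1]⟩,
  ⟨2, [], [(0, 1)], [.b false 5 0 0, .b false 3 1 1, .b false 7 1 1, .b true 1 0 1, .b true 0 0 1]⟩,
  ⟨2, [], [(0, 1)], [.b false 5 0 0, .b false 1 0 1, .b false 7 1 1, .b true 5 1 1]⟩]

theorem pS_h {V : Type} {W : Wo V} {B R : V → Prop} {al : V} (h : PlH W B R al) : UHs (plRel h.ok B R al) pS :=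
  .cons (fun v n01 n02 n03 n12 n13 n23 h0 h1 h2 h3 h4 => h.ok.bs.int h0.2 h1.2 (ng h2) (ng h3) h4) (
  .cons (fun v  h0 h1 => h1 ⟨rfl, h.bs h0.2⟩) (
  .cons (fun v  h0 h1 => h1 ⟨rfl, h.ba h0.2⟩) (
  .cons (fun v  h0 h1 => h1 ⟨rfl, h.sd h0.2⟩) (
  .cons (fun v  h0 h1 h2 => (h.da h0.2).elim (ng h1) (ng h2)) (
  .cons (fun v n01 h0 h1 h2 h3 => h3 ⟨rfl, (h.ok.bs.att h0.2 (ng h1) h2).1⟩) (
  .cons (fun v n01 n02 n03 n12 n13 n23 h0 h1 h2 h3 h4 h5 h6 => h.kb h0.2 h1.2 h2.2 (ng h3) h4.2 (ng h5) h6) (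
  .cons (fun v n01 n02 n12 h0 h1 h2 h3 h4 h5 => h5 (h.uni h0.2 h1.2 h2.2 (ng h3) h4)) (
  .cons (fun v  h0 h1 => (h.aly h0.2).1 (h.bs h1.2)) (
  .cons (fun v  h0 h1 => (h.aly h0.2).1 h1.2) (
  .cons (fun v  h0 h1 => h1 ⟨rfl, (h.aly h0.2).2.1⟩) (
  .cons (fun v  h0 h1 => (h.aly h0.2).2.2 h1.2) (
  .cons (fun v n01 h0 h1 => n01 (h0.2.trans h1.2.symm)) (
  .cons (fun v n01 h0 h1 h2 => h2 (h.ale h0.2 h1.2)) (
  .cons (fun v  h0 h1 => h1 ⟨rfl, h.ra h0.2⟩) (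
  .cons (fun v  h0 h1 => h.rb h0.2 h1.2) (
  .cons (fun v  h0 h1 => h1 ⟨rfl, h.rd h0.2⟩) (
  .cons (fun v n01 h0 h1 h2 => h2 (h.topB h0.2 h1.2)) (
  .cons (fun v n01 h0 h1 h2 h3 h4 => h4 (h.top h0.2 h1.2 h2.2 h3)) (
  .cons (fun v n01 h0 h1 h2 h3 => h3 ⟨rfl, h.rk h0.2 h1 h2.2⟩) (
  .nil))))))))))))))))))))

/-- templates -/
def pP : List Tm := [
  ⟨4, [], ad4, [.b true 4 0 0, .b true 4 1 1, .b true 4 2 2, .q false 2 0 1 2 3, .q true 1 0 1 2 3]⟩,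
  ⟨4, [], ad4, [.b true 4 0 0, .b true 4 1 1, .b true 4 2 2, .q true 2 0 1 2 3, .q false 1 0 1 2 3]⟩,
  ⟨4, [], ad4, [.b false 4 0 0, .b false 4 1 1, .b false 4 2 2, .b false 4 3 3, .q false 2 0 1 2 3, .q true 1 0 1 2 3]⟩,
  ⟨4, [], ad4, [.b false 4 0 0, .b false 4 1 1, .b false 4 2 2, .b false 4 3 3, .q true 2 0 1 2 3, .q false 1 0 1 2 3]⟩,
  ⟨4, [], ad4, [.b false 4 0 0, .b false 4 1 1, .b false 4 2 2, .b true 4 3 3, .b true 5 3 3, .q false 2 0 1 2 3, .q true 1 0 1 2 3]⟩,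
  ⟨4, [], ad4, [.b false 4 0 0, .b false 4 1 1, .b false 4 2 2, .b true 4 3 3, .b true 5 3 3, .q true 2 0 1 2 3, .q false 1 0 1 2 3]⟩,
  ⟨5, [], ad5, [.b false 4 0 0, .b false 4 1 1, .b false 4 2 2, .b true 4 3 3, .b false 5 3 3, .b false 6 4 4, .q false 2 0 1 2 3, .q true 1 0 1 2 4]⟩,
  ⟨5, [], ad5, [.b false 4 0 0, .b false 4 1 1, .b false 4 2 2, .b true 4 3 3, .b false 5 3 3, .b false 6 4 4, .q true 2 0 1 2 3, .q false 1 0 1 2 4]⟩,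
  ⟨4, [], ad4, [.b false 4 0 0, .b false 4 1 1, .b true 4 2 2, .b true 4 3 3, .b true 5 2 2, .b true 5 3 3, .q false 2 0 1 2 3, .q true 1 0 1 2 3]⟩,
  ⟨4, [], ad4, [.b false 4 0 0, .b false 4 1 1, .b true 4 2 2, .b true 4 3 3, .b true 5 2 2, .b true 5 3 3, .q true 2 0 1 2 3, .q false 1 0 1 2 3]⟩,
  ⟨4, [], ad4, [.b false 4 0 0, .b false 4 1 1, .b true 4 2 2, .b true 4 3 3, .b true 0 0 2, .q false 2 0 1 2 3, .q true 1 0 1 2 3]⟩,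
  ⟨4, [], ad4, [.b false 4 0 0, .b false 4 1 1, .b true 4 2 2, .b true 4 3 3, .b true 0 0 2, .q true 2 0 1 2 3, .q false 1 0 1 2 3]⟩,
  ⟨4, [], ad4, [.b false 4 0 0, .b false 4 1 1, .b true 4 2 2, .b true 4 3 3, .q false 0 0 1 2 3, .q false 2 0 1 2 3, .q true 1 0 1 2 3]⟩,
  ⟨4, [], ad4, [.b false 4 0 0, .b false 4 1 1, .b true 4 2 2, .b true 4 3 3, .q false 0 0 1 2 3, .q true 2 0 1 2 3, .q false 1 0 1 2 3]⟩,
  ⟨4, [], ad4, [.b false 4 0 0, .b false 4 1 1, .b true 4 2 2, .b true 4 3 3, .b true 7 2 2, .q false 2 0 1 2 3, .q true 1 0 1 2 3]⟩,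
  ⟨4, [], ad4, [.b false 4 0 0, .b false 4 1 1, .b true 4 2 2, .b true 4 3 3, .b true 7 2 2, .q true 2 0 1 2 3, .q false 1 0 1 2 3]⟩,
  ⟨4, [], ad4, [.b false 4 0 0, .b false 4 1 1, .b true 4 2 2, .b true 4 3 3, .b true 5 2 2, .b true 5 3 3, .q false 2 0 2 1 3, .q true 1 0 2 1 3]⟩,
  ⟨4, [], ad4, [.b false 4 0 0, .b false 4 1 1, .b true 4 2 2, .b true 4 3 3, .b true 5 2 2, .b true 5 3 3, .q true 2 0 2 1 3, .q false 1 0 2 1 3]⟩,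
  ⟨4, [], ad4, [.b false 4 0 0, .b false 4 1 1, .b true 4 2 2, .b true 4 3 3, .b true 0 0 2, .q false 2 0 2 1 3, .q true 1 0 2 1 3]⟩,
  ⟨4, [], ad4, [.b false 4 0 0, .b false 4 1 1, .b true 4 2 2, .b true 4 3 3, .b true 0 0 2, .q true 2 0 2 1 3, .q false 1 0 2 1 3]⟩,
  ⟨4, [], ad4, [.b false 4 0 0, .b false 4 1 1, .b true 4 2 2, .b true 4 3 3, .b true 0 0 3, .q false 2 0 2 1 3, .q true 1 0 2 1 3]⟩,
  ⟨4, [], ad4, [.b false 4 0 0, .b false 4 1 1, .b true 4 2 2, .b true 4 3 3, .b true 0 0 3, .q true 2 0 2 1 3, .q false 1 0 2 1 3]⟩,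
  ⟨4, [], ad4, [.b false 4 0 0, .b false 4 1 1, .b true 4 2 2, .b true 4 3 3, .q false 0 0 1 2 3, .q false 2 0 2 1 3, .q true 1 0 2 1 3]⟩,
  ⟨4, [], ad4, [.b false 4 0 0, .b false 4 1 1, .b true 4 2 2, .b true 4 3 3, .q false 0 0 1 2 3, .q true 2 0 2 1 3, .q false 1 0 2 1 3]⟩,
  ⟨4, [], ad4, [.b false 4 0 0, .b false 4 1 1, .b true 4 2 2, .b true 4 3 3, .b true 7 2 2, .q false 2 0 2 1 3, .q true 1 0 2 1 3]⟩,
  ⟨4, [], ad4, [.b false 4 0 0, .b false 4 1 1, .b true 4 2 2, .b true 4 3 3, .b true 7 2 2, .q true 2 0 2 1 3, .q false 1 0 2 1 3]⟩,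
  ⟨4, [], ad4, [.b false 4 0 0, .b false 4 1 1, .b true 4 2 2, .b true 4 3 3, .b true 7 3 3, .q false 2 0 2 1 3, .q true 1 0 2 1 3]⟩,
  ⟨4, [], ad4, [.b false 4 0 0, .b false 4 1 1, .b true 4 2 2, .b true 4 3 3, .b true 7 3 3, .q true 2 0 2 1 3, .q false 1 0 2 1 3]⟩,
  ⟨4, [], ad4, [.b false 4 0 0, .b false 4 1 1, .b true 4 2 2, .b true 4 3 3, .b false 0 0 2, .b false 0 0 3, .b false 0 1 2, .b false 0 1 3, .q true 0 0 1 2 3, .b false 5 2 2, .b false 7 3 3, .q true 2 0 1 2 3]⟩,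
  ⟨4, [], ad4, [.b false 4 0 0, .b false 4 1 1, .b true 4 2 2, .b true 4 3 3, .b false 0 0 2, .b false 0 0 3, .b false 0 1 2, .b false 0 1 3, .q true 0 0 1 2 3, .b false 5 2 2, .b false 7 3 3, .q false 2 0 2 1 3]⟩]

theorem pP_h {V : Type} {W : Wo V} {B R : V → Prop} {al : V} (h : PlH W B R al) : UHs (plRel h.ok B R al) pP :=
  .cons (fun v n01 n02 n03 n12 n13 n23 h0 h1 h2 h3 h4 => h4 ((pl_01 (G := W.G) (X := CrF W.f) (T := W.T) (D := W.D) (B := B) (R := R) (al := al) (a := v 0) (b := v 1) (c := v 2) (d := v 3) (ng h0) (ng h1) (ng h2) n01 n23).1 h3)) (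
  .cons (fun v n01 n02 n03 n12 n13 n23 h0 h1 h2 h3 h4 => h3 ((pl_01 (G := W.G) (X := CrF W.f) (T := W.T) (D := W.D) (B := B) (R := R) (al := al) (a := v 0) (b := v 1) (c := v 2) (d := v 3) (ng h0) (ng h1) (ng h2) n01 n23).2 h4)) (
  .cons (fun v n01 n02 n03 n12 n13 n23 h0 h1 h2 h3 h4 h5 => h5 ((pl_4 (G := W.G) (X := CrF W.f) (T := W.T) (D := W.D) (B := B) (R := R) (al := al) (a := v 0) (b := v 1) (c := v 2) (d := v 3) (fun {_} => h.rb) h0.2 h1.2 h2.2 h3.2 n01 n23).1 h4)) (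
  .cons (fun v n01 n02 n03 n12 n13 n23 h0 h1 h2 h3 h4 h5 => h4 ((pl_4 (G := W.G) (X := CrF W.f) (T := W.T) (D := W.D) (B := B) (R := R) (al := al) (a := v 0) (b := v 1) (c := v 2) (d := v 3) (fun {_} => h.rb) h0.2 h1.2 h2.2 h3.2 n01 n23).2 h5)) (
  .cons (fun v n01 n02 n03 n12 n13 n23 h0 h1 h2 h3 h4 h5 h6 => h6 ((pl_3 (G := W.G) (X := CrF W.f) (T := W.T) (D := W.D) (B := B) (R := R) (al := al) (a := v 0) (b := v 1) (c := v 2) (d := v 3) (fun {_} => h.rb) h0.2 h1.2 h2.2 (ng h3) (ng h4) n01 n23).1 h5)) (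
  .cons (fun v n01 n02 n03 n12 n13 n23 h0 h1 h2 h3 h4 h5 h6 => h5 ((pl_3 (G := W.G) (X := CrF W.f) (T := W.T) (D := W.D) (B := B) (R := R) (al := al) (a := v 0) (b := v 1) (c := v 2) (d := v 3) (fun {_} => h.rb) h0.2 h1.2 h2.2 (ng h3) (ng h4) n01 n23).2 h6)) (
  .cons (fun v n01 n02 n03 n04 n12 n13 n14 n23 n24 n34 h0 h1 h2 h3 h4 h5 h6 h7 => h7 ((pl_3r (o := v 4) (G := W.G) (X := CrF W.f) (T := W.T) (D := W.D) (B := B) (R := R) (al := al) (a := v 0) (b := v 1) (c := v 2) (d := v 3) (fun {_} => h.rb) h0.2 h1.2 h2.2 h4.2 n01 n23 h5.2).1 h6)) (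
  .cons (fun v n01 n02 n03 n04 n12 n13 n14 n23 n24 n34 h0 h1 h2 h3 h4 h5 h6 h7 => h6 ((pl_3r (o := v 4) (G := W.G) (X := CrF W.f) (T := W.T) (D := W.D) (B := B) (R := R) (al := al) (a := v 0) (b := v 1) (c := v 2) (d := v 3) (fun {_} => h.rb) h0.2 h1.2 h2.2 h4.2 n01 n23 h5.2).2 h7)) (
  .cons (fun v n01 n02 n03 n12 n13 n23 h0 h1 h2 h3 h4 h5 h6 h7 => h7 ((pl_2a (G := W.G) (X := CrF W.f) (T := W.T) (D := W.D) (B := B) (R := R) (al := al) (a := v 0) (b := v 1) (c := v 2) (d := v 3) (fun {_} => h.rb) h0.2 h1.2 (ng h2) (ng h3) (fun k => k.2.2.2.2.1.elim (ng h4) (ng h5)) n01 n23).1 h6)) (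
  .cons (fun v n01 n02 n03 n12 n13 n23 h0 h1 h2 h3 h4 h5 h6 h7 => h6 ((pl_2a (G := W.G) (X := CrF W.f) (T := W.T) (D := W.D) (B := B) (R := R) (al := al) (a := v 0) (b := v 1) (c := v 2) (d := v 3) (fun {_} => h.rb) h0.2 h1.2 (ng h2) (ng h3) (fun k => k.2.2.2.2.1.elim (ng h4) (ng h5)) n01 n23).2 h7)) (
  .cons (fun v n01 n02 n03 n12 n13 n23 h0 h1 h2 h3 h4 h5 h6 => h6 ((pl_2a (G := W.G) (X := CrF W.f) (T := W.T) (D := W.D) (B := B) (R := R) (al := al) (a := v 0) (b := v 1) (c := v 2) (d := v 3) (fun {_} => h.rb) h0.2 h1.2 (ng h2) (ng h3) (fun k => h4 k.2.2.2.2.2.2.2.1.1) n01 n23).1 h5)) (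
  .cons (fun v n01 n02 n03 n12 n13 n23 h0 h1 h2 h3 h4 h5 h6 => h5 ((pl_2a (G := W.G) (X := CrF W.f) (T := W.T) (D := W.D) (B := B) (R := R) (al := al) (a := v 0) (b := v 1) (c := v 2) (d := v 3) (fun {_} => h.rb) h0.2 h1.2 (ng h2) (ng h3) (fun k => h4 k.2.2.2.2.2.2.2.1.1) n01 n23).2 h6)) (
  .cons (fun v n01 n02 n03 n12 n13 n23 h0 h1 h2 h3 h4 h5 h6 => h6 ((pl_2a (G := W.G) (X := CrF W.f) (T := W.T) (D := W.D) (B := B) (R := R) (al := al) (a := v 0) (b := v 1) (c := v 2) (d := v 3) (fun {_} => h.rb) h0.2 h1.2 (ng h2) (ng h3) (fun k => k.2.2.2.2.2.2.2.2 h4) n01 n23).1 h5)) (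
  .cons (fun v n01 n02 n03 n12 n13 n23 h0 h1 h2 h3 h4 h5 h6 => h5 ((pl_2a (G := W.G) (X := CrF W.f) (T := W.T) (D := W.D) (B := B) (R := R) (al := al) (a := v 0) (b := v 1) (c := v 2) (d := v 3) (fun {_} => h.rb) h0.2 h1.2 (ng h2) (ng h3) (fun k => k.2.2.2.2.2.2.2.2 h4) n01 n23).2 h6)) (
  .cons (fun v n01 n02 n03 n12 n13 n23 h0 h1 h2 h3 h4 h5 h6 => h6 ((pl_2a (G := W.G) (X := CrF W.f) (T := W.T) (D := W.D) (B := B) (R := R) (al := al) (a := v 0) (b := v 1) (c := v 2) (d := v 3) (fun {_} => h.rb) h0.2 h1.2 (ng h2) (ng h3) (fun k => h4 ⟨rfl, k.2.2.2.2.2.1⟩) n01 n23).1 h5)) (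
  .cons (fun v n01 n02 n03 n12 n13 n23 h0 h1 h2 h3 h4 h5 h6 => h5 ((pl_2a (G := W.G) (X := CrF W.f) (T := W.T) (D := W.D) (B := B) (R := R) (al := al) (a := v 0) (b := v 1) (c := v 2) (d := v 3) (fun {_} => h.rb) h0.2 h1.2 (ng h2) (ng h3) (fun k => h4 ⟨rfl, k.2.2.2.2.2.1⟩) n01 n23).2 h6)) (
  .cons (fun v n01 n02 n03 n12 n13 n23 h0 h1 h2 h3 h4 h5 h6 h7 => h7 ((pl_2b (G := W.G) (X := CrF W.f) (T := W.T) (D := W.D) (B := B) (R := R) (al := al) (a := v 0) (b := v 1) (c := v 2) (d := v 3) (fun {_} => h.rb) h0.2 h1.2 (ng h2) (ng h3) (fun k => k.2.2.2.2.1.elim (ng h4) (ng h5)) n02 n13).1 h6)) (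
  .cons (fun v n01 n02 n03 n12 n13 n23 h0 h1 h2 h3 h4 h5 h6 h7 => h6 ((pl_2b (G := W.G) (X := CrF W.f) (T := W.T) (D := W.D) (B := B) (R := R) (al := al) (a := v 0) (b := v 1) (c := v 2) (d := v 3) (fun {_} => h.rb) h0.2 h1.2 (ng h2) (ng h3) (fun k => k.2.2.2.2.1.elim (ng h4) (ng h5)) n02 n13).2 h7)) (
  .cons (fun v n01 n02 n03 n12 n13 n23 h0 h1 h2 h3 h4 h5 h6 => h6 ((pl_2b (G := W.G) (X := CrF W.f) (T := W.T) (D := W.D) (B := B) (R := R) (al := al) (a := v 0) (b := v 1) (c := v 2) (d := v 3) (fun {_} => h.rb) h0.2 h1.2 (ng h2) (ng h3) (fun k => h4 k.2.2.2.2.2.2.2.1.1) n02 n13).1 h5)) (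
  .cons (fun v n01 n02 n03 n12 n13 n23 h0 h1 h2 h3 h4 h5 h6 => h5 ((pl_2b (G := W.G) (X := CrF W.f) (T := W.T) (D := W.D) (B := B) (R := R) (al := al) (a := v 0) (b := v 1) (c := v 2) (d := v 3) (fun {_} => h.rb) h0.2 h1.2 (ng h2) (ng h3) (fun k => h4 k.2.2.2.2.2.2.2.1.1) n02 n13).2 h6)) (
  .cons (fun v n01 n02 n03 n12 n13 n23 h0 h1 h2 h3 h4 h5 h6 => h6 ((pl_2b (G := W.G) (X := CrF W.f) (T := W.T) (D := W.D) (B := B) (R := R) (al := al) (a := v 0) (b := v 1) (c := v 2) (d := v 3) (fun {_} => h.rb) h0.2 h1.2 (ng h2) (ng h3) (fun k => h4 k.2.2.2.2.2.2.2.1.2.1) n02 n13).1 h5)) (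
  .cons (fun v n01 n02 n03 n12 n13 n23 h0 h1 h2 h3 h4 h5 h6 => h5 ((pl_2b (G := W.G) (X := CrF W.f) (T := W.T) (D := W.D) (B := B) (R := R) (al := al) (a := v 0) (b := v 1) (c := v 2) (d := v 3) (fun {_} => h.rb) h0.2 h1.2 (ng h2) (ng h3) (fun k => h4 k.2.2.2.2.2.2.2.1.2.1) n02 n13).2 h6)) (
  .cons (fun v n01 n02 n03 n12 n13 n23 h0 h1 h2 h3 h4 h5 h6 => h6 ((pl_2b (G := W.G) (X := CrF W.f) (T := W.T) (D := W.D) (B := B) (R := R) (al := al) (a := v 0) (b := v 1) (c := v 2) (d := v 3) (fun {_} => h.rb) h0.2 h1.2 (ng h2) (ng h3) (fun k => k.2.2.2.2.2.2.2.2 h4) n02 n13).1 h5)) (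
  .cons (fun v n01 n02 n03 n12 n13 n23 h0 h1 h2 h3 h4 h5 h6 => h5 ((pl_2b (G := W.G) (X := CrF W.f) (T := W.T) (D := W.D) (B := B) (R := R) (al := al) (a := v 0) (b := v 1) (c := v 2) (d := v 3) (fun {_} => h.rb) h0.2 h1.2 (ng h2) (ng h3) (fun k => k.2.2.2.2.2.2.2.2 h4) n02 n13).2 h6)) (
  .cons (fun v n01 n02 n03 n12 n13 n23 h0 h1 h2 h3 h4 h5 h6 => h6 ((pl_2b (G := W.G) (X := CrF W.f) (T := W.T) (D := W.D) (B := B) (R := R) (al := al) (a := v 0) (b := v 1) (c := v 2) (d := v 3) (fun {_} => h.rb) h0.2 h1.2 (ng h2) (ng h3) (fun k => h4 ⟨rfl, k.2.2.2.2.2.1⟩) n02 n13).1 h5)) (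
  .cons (fun v n01 n02 n03 n12 n13 n23 h0 h1 h2 h3 h4 h5 h6 => h5 ((pl_2b (G := W.G) (X := CrF W.f) (T := W.T) (D := W.D) (B := B) (R := R) (al := al) (a := v 0) (b := v 1) (c := v 2) (d := v 3) (fun {_} => h.rb) h0.2 h1.2 (ng h2) (ng h3) (fun k => h4 ⟨rfl, k.2.2.2.2.2.1⟩) n02 n13).2 h6)) (
  .cons (fun v n01 n02 n03 n12 n13 n23 h0 h1 h2 h3 h4 h5 h6 => h6 ((pl_2b (G := W.G) (X := CrF W.f) (T := W.T) (D := W.D) (B := B) (R := R) (al := al) (a := v 0) (b := v 1) (c := v 2) (d := v 3) (fun {_} => h.rb) h0.2 h1.2 (ng h2) (ng h3) (fun k => h4 ⟨rfl, k.2.2.2.2.2.2.1⟩) n02 n13).1 h5)) (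
  .cons (fun v n01 n02 n03 n12 n13 n23 h0 h1 h2 h3 h4 h5 h6 => h5 ((pl_2b (G := W.G) (X := CrF W.f) (T := W.T) (D := W.D) (B := B) (R := R) (al := al) (a := v 0) (b := v 1) (c := v 2) (d := v 3) (fun {_} => h.rb) h0.2 h1.2 (ng h2) (ng h3) (fun k => h4 ⟨rfl, k.2.2.2.2.2.2.1⟩) n02 n13).2 h6)) (
  .cons (fun v n01 n02 n03 n12 n13 n23 h0 h1 h2 h3 h4 h5 h6 h7 h8 h9 h10 h11 => h11 (pl_c1 (G := W.G) (X := CrF W.f) (T := W.T) (D := W.D) (B := B) (R := R) (al := al) (a := v 0) (b := v 1) (c := v 2) (d := v 3) ⟨h0.2, h1.2, ng h2, ng h3, Or.inl h9.2, h.rd h9.2, h10.2, ⟨h4, h5, h6, h7⟩, h8⟩ (fun {_} => h.rb) n01 n23)) (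
  .cons (fun v n01 n02 n03 n12 n13 n23 h0 h1 h2 h3 h4 h5 h6 h7 h8 h9 h10 h11 => pl_c2 (G := W.G) (X := CrF W.f) (T := W.T) (D := W.D) (B := B) (R := R) (al := al) (a := v 0) (b := v 1) (c := v 2) (d := v 3) ⟨h0.2, h1.2, ng h2, ng h3, Or.inl h9.2, h.rd h9.2, h10.2, ⟨h4, h5, h6, h7⟩, h8⟩ (fun {_} => h.rb) h11) (
  .nil))))))))))))))))))))))))))))))

/-- templates -/
def pH : List Tm := [
  ⟨4, [], ad4, [.b false 4 0 0, .b false 4 1 1, .b true 4 2 2, .b false 3 2 2, .b true 5 2 2, .b false 7 2 2, .b false 6 3 3, .b false 0 0 2, .b false 0 1 2, .b false 0 2 3, .q true 1 0 1 3 2]⟩,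
  ⟨4, [], ad4, [.b false 4 0 0, .b false 4 1 1, .b false 5 2 2, .b false 5 3 3, .b false 0 2 3, .q true 1 0 1 2 3]⟩,
  ⟨5, [], ad5, [.b false 5 0 0, .b true 3 1 1, .b false 4 2 2, .b false 3 3 3, .b true 4 3 3, .b false 6 4 4, .b true 0 3 4, .q false 1 0 1 2 3]⟩,
  ⟨4, [], ad4, [.b false 6 0 0, .b true 3 1 1, .b false 4 2 2, .b false 5 3 3, .q false 1 0 1 2 3]⟩,
  ⟨4, [], ad4, [.b false 5 0 0, .b true 3 1 1, .b false 4 2 2, .b true 3 3 3, .q false 1 0 1 2 3]⟩]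

theorem pH_h {V : Type} {W : Wo V} {B R : V → Prop} {al : V} (h : PlH W B R al) : UHs (plRel h.ok B R al) pH :=
  .cons (fun v n01 n02 n03 n12 n13 n23 h0 h1 h2 h3 h4 h5 h6 h7 h8 h9 h10 => h10 (h.fa' h6.2 h0.2 h1.2 n01 h3.2 (ng h2) (ng h4) h5.2 h7 h8 h9)) (
  .cons (fun v n01 n02 n03 n12 n13 n23 h0 h1 h2 h3 h4 h5 => h5 (h.fr h0.2 h1.2 n01 h2.2 h3.2 h4)) (
  .cons (fun v n01 n02 n03 n04 n12 n13 n14 n23 n24 n34 h0 h1 h2 h3 h4 h5 h6 h7 => h.ll' h5.2 h0.2 (ng h1) h2.2 h3.2 (ng h4) h6 h7) (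
  .cons (fun v n01 n02 n03 n12 n13 n23 h0 h1 h2 h3 h4 => h.l2' h0.2 (ng h1) h2.2 h3.2 h4) (
  .cons (fun v n01 n02 n03 n12 n13 n23 h0 h1 h2 h3 h4 => h.l3 h0.2 (ng h1) h2.2 (ng h3) h4) (
  .nil)))))

theorem nd_snoc {V : Type} {l : List V} {o : V} (h : l.Nodup) (h' : o ∉ l) : (l ++ [o]).Nodup :=
  List.nodup_append.2 ⟨h, List.nodup_singleton o, fun a ha b hb e => h' (by rw [← List.mem_singleton.1 hb, ← e]; exact ha)⟩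

end Pool.Agent.SOQ
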