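import Pool.Agent.SOQ.TH

/-! Project SOQ: refutations (generated). -/

set_option autoImplicit false
set_option maxRecDepth 100000
set_option linter.unusedVariables false

namespace Pool.Agent.SOQ

open Pool.Agent.SOC Pool.Agent.SOD Pool.Agent.RUP

/-- templates -/
def ll_d_r_x : List Tm := [
  ⟨0, [], [], [.b true 2 8 8]⟩,
  ⟨0, [], [], [.b true 3 8 8]⟩,
  ⟨0, [], [], [.b true 4 8 8]⟩,
  ⟨0, [], [], [.b true 2 9 9]⟩,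
  ⟨0, [], [], [.b true 3 9 9]⟩,
  ⟨0, [], [], [.b true 4 9 9]⟩,
  ⟨0, [], [], [.b false 2 10 10]⟩,
  ⟨0, [], [], [.b true 3 10 10]⟩,
  ⟨0, [], [], [.b true 4 10 10]⟩,
  ⟨0, [], [], [.b false 2 11 11]⟩,
  ⟨0, [], [], [.b true 3 11 11]⟩,
  ⟨0, [], [], [.b true 4 11 11]⟩,
  ⟨0, [], [], [.b true 1 8 9]⟩,
  ⟨0, [], [], [.b true 0 8 10]⟩,
  ⟨1, [], [], [.b false 2 0 0, .b false 3 0 0, .b true 0 0 11]⟩,
  ⟨2, [], [], [.b false 2 0 0, .b true 2 1 1, .b false 3 0 0, .b false 3 1 1, .b true 1 0 8, .q false 0 8 11 0 10, .b true 0 0 1]⟩,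
  ⟨2, [], [], [.b true 2 0 0, .b false 2 1 1, .b false 3 0 0, .b false 3 1 1, .b true 1 0 8, .q false 0 8 11 0 10, .b true 0 0 1]⟩,
  ⟨2, [], [], [.b false 2 0 0, .b true 2 1 1, .b false 3 0 0, .b false 3 1 1, .b true 1 0 9, .q false 0 9 11 0 10, .b true 0 0 1]⟩,
  ⟨2, [], [], [.b true 2 0 0, .b false 2 1 1, .b false 3 0 0, .b false 3 1 1, .b true 1 0 9, .q false 0 9 11 0 10, .b true 0 0 1]⟩,
  ⟨0, [], [], [.b true 2 12 12]⟩,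
  ⟨0, [], [], [.b true 3 12 12]⟩,
  ⟨0, [], [], [.b true 4 12 12]⟩,
  ⟨0, [], [], [.b false 0 10 12]⟩,
  ⟨0, [], [], [.b true 2 13 13]⟩,
  ⟨0, [], [], [.b false 3 13 13]⟩,
  ⟨0, [], [], [.b true 4 13 13]⟩,
  ⟨0, [], [], [.b true 2 14 14]⟩,
  ⟨0, [], [], [.b true 3 14 14]⟩,
  ⟨0, [], [], [.b true 4 14 14]⟩,
  ⟨0, [], [], [.b false 1 8 14]⟩,
  ⟨0, [], [], [.b false 0 14 10]⟩,
  ⟨0, [], [], [.q true 1 11 13 8 14]⟩]

def ll_d_r_p0 : List Nat := [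
0x4c530000000410000000430073006a049504960720000305,
0x4a1b0000000630000000410000000650461000401,
0x6ac40b0000000040739000201,
0x64c01900000004700000004100000003500000006906ca000501,
0xc5100000006900000006b0078000301,
0xc640b00000007106cb000201,
0x200000006f00000006b0000000690000000710720000501,
0xc6400100000000800000000e033e000301,
0xc6400d00000000c00000006d00000003900000004f00000004500000004b00000000a0000000100315000901,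
0x40ca61300000000600000001206df000301,
0x73000000014000200]

def ll_d_r_pf : List Nat := ll_d_r_p0

theorem ll_d_r_ref {V : Type} {S : SRel V} {p : Nat → V} (hp : ∀ i j, i < 7 → j < 7 → p i = p j → i = j)
    (hts : PHs S p 7 ((qO ++ (qT ++ qE)) ++ ll_d_r_x)) : False :=
  refuteS (k := 7) (n2 := 5) (n3 := 1) (n4 := 2) (o3 := 140) (o4 := 224) (M := 1036) ((qO ++ (qT ++ qE)) ++ ll_d_r_x) ll_d_r_pf (by decide +kernel)
    (by decide +kernel) (by decide +kernel) (by decide +kernel) hp hts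

theorem ll_d_r {V : Type} {W : Wo V} (h : W.Ok) {b c al r m u x : V}
    (s_b : W.S b) (g_b : W.Gd b) (s_c : W.S c) (g_c : W.Gd c) (s_al : ¬ W.S al) (g_al : W.Gd al) (s_r : ¬ W.S r) (g_r : W.Gd r) (k_b_c : W.K b c) (e_b_al : W.G.Adj b al) (tp_r : W.Tp r) (n_al_r : al ≠ r) (ar_b : W.Arc b r al) (ar_c : W.Arc c r al) (s_m : W.S m) (g_m : W.Gd m) (ne_al_m : ¬ W.G.Adj al m) (s_u : W.S u) (u_u : ¬ W.A u) (d_u : W.D u) (s_x : W.S x) (g_x : W.Gd x) (nk_b_x : ¬ W.K b x) (ne_x_al : ¬ W.G.Adj x al) (t_r_u_b_x : W.T r u b x) : False := by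
  have h' := h.tw (k := 7) (by decide)
  refine ll_d_r_ref (S := Wo.rel h') (pt_inj (l := ([(b, 0), (c, 1), (al, 2), (r, 3), (m, 4), (u, 5), (x, 6)] : List (V × Fin 7))) (o := (b, 0))
    (List.Nodup.of_map Prod.snd (show ([0, 1, 2, 3, 4, 5, 6] : List (Fin 7)).Nodup by decide)) rfl) (PHs.app (UHs.phs ((qO_h h').app ((qT_h h').app (qE_h h'))) _ _) ?_)
  exact
  .cons (fun d hd h0 => h0 ⟨rfl, s_b⟩) (
    .cons (fun d hd h0 => h0 ⟨rfl, g_b.1⟩) (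
    .cons (fun d hd h0 => h0 ⟨rfl, g_b.2.1⟩) (
    .cons (fun d hd h0 => h0 ⟨rfl, s_c⟩) (
    .cons (fun d hd h0 => h0 ⟨rfl, g_c.1⟩) (
    .cons (fun d hd h0 => h0 ⟨rfl, g_c.2.1⟩) (
    .cons (fun d hd h0 => s_al h0.2) (
    .cons (fun d hd h0 => h0 ⟨rfl, g_al.1⟩) (
    .cons (fun d hd h0 => h0 ⟨rfl, g_al.2.1⟩) (
    .cons (fun d hd h0 => s_r h0.2) (
    .cons (fun d hd h0 => h0 ⟨rfl, g_r.1⟩) (
    .cons (fun d hd h0 => h0 ⟨rfl, g_r.2.1⟩) (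
    .cons (fun d hd h0 => h0 k_b_c) (
    .cons (fun d hd h0 => h0 e_b_al) (
    .cons (fun d hd h0 h1 h2 => h2 (tpy tp_r s_r h0.2 h1.2)) (
    .cons (fun d hd h0 h1 h2 h3 h4 h5 h6 => h6 (arx h ar_b s_b s_r s_al n_al_r h0.2 (ng h1) h2.2 h3.2 h4 h5)) (
    .cons (fun d hd h0 h1 h2 h3 h4 h5 h6 => h6 (ary h ar_b s_b s_r s_al n_al_r tp_r (ng h0) h1.2 h2.2 h3.2 h4 h5)) (
    .cons (fun d hd h0 h1 h2 h3 h4 h5 h6 => h6 (arx h ar_c s_c s_r s_al n_al_r h0.2 (ng h1) h2.2 h3.2 h4 h5)) (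
    .cons (fun d hd h0 h1 h2 h3 h4 h5 h6 => h6 (ary h ar_c s_c s_r s_al n_al_r tp_r (ng h0) h1.2 h2.2 h3.2 h4 h5)) (
    .cons (fun d hd h0 => h0 ⟨rfl, s_m⟩) (
    .cons (fun d hd h0 => h0 ⟨rfl, g_m.1⟩) (
    .cons (fun d hd h0 => h0 ⟨rfl, g_m.2.1⟩) (
    .cons (fun d hd h0 => ne_al_m h0) (
    .cons (fun d hd h0 => h0 ⟨rfl, s_u⟩) (
    .cons (fun d hd h0 => u_u h0.2) (
    .cons (fun d hd h0 => h0 ⟨rfl, d_u⟩) (
    .cons (fun d hd h0 => h0 ⟨rfl, s_x⟩) (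
    .cons (fun d hd h0 => h0 ⟨rfl, g_x.1⟩) (
    .cons (fun d hd h0 => h0 ⟨rfl, g_x.2.1⟩) (
    .cons (fun d hd h0 => nk_b_x h0) (
    .cons (fun d hd h0 => ne_x_al h0) (
    .cons (fun d hd h0 => h0 (ttp h t_r_u_b_x)) (
    .nil))))))))))))))))))))))))))))))))

/-- templates -/
def fr_d_xd_x : List Tm := [
  ⟨0, [], [], [.b true 2 8 8]⟩,
  ⟨0, [], [], [.b true 3 8 8]⟩,
  ⟨0, [], [], [.b true 4 8 8]⟩,
  ⟨0, [], [], [.b true 2 9 9]⟩,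
  ⟨0, [], [], [.b true 3 9 9]⟩,
  ⟨0, [], [], [.b true 4 9 9]⟩,
  ⟨0, [], [], [.b false 2 10 10]⟩,
  ⟨0, [], [], [.b true 3 10 10]⟩,
  ⟨0, [], [], [.b true 4 10 10]⟩,
  ⟨0, [], [], [.b false 2 11 11]⟩,
  ⟨0, [], [], [.b true 3 11 11]⟩,
  ⟨0, [], [], [.b true 4 11 11]⟩,
  ⟨0, [], [], [.b true 1 8 9]⟩,
  ⟨0, [], [], [.b true 0 8 10]⟩,
  ⟨1, [], [], [.b false 2 0 0, .b false 3 0 0, .b true 0 0 11]⟩,
  ⟨2, [], [], [.b false 2 0 0, .b true 2 1 1, .b false 3 0 0, .b false 3 1 1, .b true 1 0 8, .q false 0 8 11 0 10, .b true 0 0 1]⟩,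
  ⟨2, [], [], [.b true 2 0 0, .b false 2 1 1, .b false 3 0 0, .b false 3 1 1, .b true 1 0 8, .q false 0 8 11 0 10, .b true 0 0 1]⟩,
  ⟨2, [], [], [.b false 2 0 0, .b true 2 1 1, .b false 3 0 0, .b false 3 1 1, .b true 1 0 9, .q false 0 9 11 0 10, .b true 0 0 1]⟩,
  ⟨2, [], [], [.b true 2 0 0, .b false 2 1 1, .b false 3 0 0, .b false 3 1 1, .b true 1 0 9, .q false 0 9 11 0 10, .b true 0 0 1]⟩,
  ⟨0, [], [], [.b true 2 12 12]⟩,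
  ⟨0, [], [], [.b true 3 12 12]⟩,
  ⟨0, [], [], [.b true 4 12 12]⟩,
  ⟨0, [], [], [.b false 0 10 12]⟩,
  ⟨0, [], [], [.b true 2 13 13]⟩,
  ⟨0, [], [], [.b true 3 13 13]⟩,
  ⟨0, [], [], [.b true 4 13 13]⟩,
  ⟨0, [], [], [.b false 1 8 13]⟩,
  ⟨0, [], [], [.q true 0 8 11 13 10]⟩,
  ⟨1, [], [], [.b true 2 0 0, .b false 3 0 0, .b true 0 0 13]⟩,
  ⟨0, [], [], [.b false 2 14 14]⟩,
  ⟨0, [], [], [.b true 3 14 14]⟩,
  ⟨0, [], [], [.b true 4 14 14]⟩,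
  ⟨0, [], [], [.b false 0 8 14]⟩,
  ⟨0, [], [], [.b true 0 8 9]⟩,
  ⟨0, [], [], [.q false 1 8 9 13 11]⟩]

def fr_d_xd_p0 : List Nat := [
0x4021000000035000000041041c000301,
0x51000000035000000037001e000301,
0x6202500000004700000004d0000000350000000040023000501,
0xc550000000350000000370089006a006904960720000305,
0xc590000000350000000370089006f006904960722000305,
0xa4202900000006500000000200000004d0000000430000000690620000601,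
0x260a40700000000c00000006b0220000301,
0xc02100000003500000006f0476000301,
0xc22100000003b00000006f047b000301,
0xca5300000006f00000006b0000000690000000630000000650000000710082000701,
0x6ca00b0000000750763000201,
0xc022500000006f00000004d00000003b000000075047a000501,
0x800000006f0000000100000000710000000750720000501,
0xa00000006f0000000120000000710000000750722000501,
0x6ca20b0000000180765000201,
0xca4600700000006b00000001a03aa000301,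
0xca4620700000000e00000001c03ac000301,
0xca600d00000001600000007300000003900000000400000004b00000006700000001400000002002d3000901,
0xca620d00000001e00000007300000003f00000000600000004b00000006700000001400000002202ff000901,
0x2c0a6110000000240000000260239000301,
0x79000000028000200]

def fr_d_xd_pf : List Nat := fr_d_xd_p0

theorem fr_d_xd_ref {V : Type} {S : SRel V} {p : Nat → V} (hp : ∀ i j, i < 7 → j < 7 → p i = p j → i = j)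
    (hts : PHs S p 7 ((qO ++ (qT ++ qE)) ++ fr_d_xd_x)) : False :=
  refuteS (k := 7) (n2 := 5) (n3 := 1) (n4 := 2) (o3 := 140) (o4 := 224) (M := 1036) ((qO ++ (qT ++ qE)) ++ fr_d_xd_x) fr_d_xd_pf (by decide +kernel)
    (by decide +kernel) (by decide +kernel) (by decide +kernel) hp hts

theorem fr_d_xd {V : Type} {W : Wo V} (h : W.Ok) {b c al r m t dbt : V}
    (s_b : W.S b) (g_b : W.Gd b) (s_c : W.S c) (g_c : W.Gd c) (s_al : ¬ W.S al) (g_al : W.Gd al) (s_r : ¬ W.S r) (g_r : W.Gd r) (k_b_c : W.K b c) (e_b_al : W.G.Adj b al) (tp_r : W.Tp r) (n_al_r : al ≠ r) (ar_b : W.Arc b r al) (ar_c : W.Arc c r al) (s_m : W.S m) (g_m : W.Gd m) (ne_al_m : ¬ W.G.Adj al m) (s_t : W.S t) (g_t : W.Gd t) (nk_b_t : ¬ W.K b t) (x_b_r_t_al : CrF W.f b r t al) (tp_t : W.Tp t) (s_dbt : ¬ W.S dbt) (g_dbt : W.Gd dbt) (ne_b_dbt : ¬ W.G.Adj b dbt) (e_b_c : W.G.Adj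 b c) (nt_b_c_t_r : ¬ W.T b c t r) : False := by
  have h' := h.tw (k := 7) (by decide)
  refine fr_d_xd_ref (S := Wo.rel h') (pt_inj (l := ([(b, 0), (c, 1), (al, 2), (r, 3), (m, 4), (t, 5), (dbt, 6)] : List (V × Fin 7))) (o := (b, 0))
    (List.Nodup.of_map Prod.snd (show ([0, 1, 2, 3, 4, 5, 6] : List (Fin 7)).Nodup by decide)) rfl) (PHs.app (UHs.phs ((qO_h h').app ((qT_h h').app (qE_h h'))) _ _) ?_)
  exact
  .cons (fun d hd h0 => h0 ⟨rfl, s_b⟩) (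
    .cons (fun d hd h0 => h0 ⟨rfl, g_b.1⟩) (
    .cons (fun d hd h0 => h0 ⟨rfl, g_b.2.1⟩) (
    .cons (fun d hd h0 => h0 ⟨rfl, s_c⟩) (
    .cons (fun d hd h0 => h0 ⟨rfl, g_c.1⟩) (
    .cons (fun d hd h0 => h0 ⟨rfl, g_c.2.1⟩) (
    .cons (fun d hd h0 => s_al h0.2) (
    .cons (fun d hd h0 => h0 ⟨rfl, g_al.1⟩) (
    .cons (fun d hd h0 => h0 ⟨rfl, g_al.2.1⟩) (
    .cons (fun d hd h0 => s_r h0.2) (
    .cons (fun d hd h0 => h0 ⟨rfl, g_r.1⟩) (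
    .cons (fun d hd h0 => h0 ⟨rfl, g_r.2.1⟩) (
    .cons (fun d hd h0 => h0 k_b_c) (
    .cons (fun d hd h0 => h0 e_b_al) (
    .cons (fun d hd h0 h1 h2 => h2 (tpy tp_r s_r h0.2 h1.2)) (
    .cons (fun d hd h0 h1 h2 h3 h4 h5 h6 => h6 (arx h ar_b s_b s_r s_al n_al_r h0.2 (ng h1) h2.2 h3.2 h4 h5)) (
    .cons (fun d hd h0 h1 h2 h3 h4 h5 h6 => h6 (ary h ar_b s_b s_r s_al n_al_r tp_r (ng h0) h1.2 h2.2 h3.2 h4 h5)) (
    .cons (fun d hd h0 h1 h2 h3 h4 h5 h6 => h6 (arx h ar_c s_c s_r s_al n_al_r h0.2 (ng h1) h2.2 h3.2 h4 h5)) (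
    .cons (fun d hd h0 h1 h2 h3 h4 h5 h6 => h6 (ary h ar_c s_c s_r s_al n_al_r tp_r (ng h0) h1.2 h2.2 h3.2 h4 h5)) (
    .cons (fun d hd h0 => h0 ⟨rfl, s_m⟩) (
    .cons (fun d hd h0 => h0 ⟨rfl, g_m.1⟩) (
    .cons (fun d hd h0 => h0 ⟨rfl, g_m.2.1⟩) (
    .cons (fun d hd h0 => ne_al_m h0) (
    .cons (fun d hd h0 => h0 ⟨rfl, s_t⟩) (
    .cons (fun d hd h0 => h0 ⟨rfl, g_t.1⟩) (
    .cons (fun d hd h0 => h0 ⟨rfl, g_t.2.1⟩) (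
    .cons (fun d hd h0 => nk_b_t h0) (
    .cons (fun d hd h0 => h0 (txp h x_b_r_t_al)) (
    .cons (fun d hd h0 h1 h2 => h2 (tpx tp_t s_t (ng h0) h1.2)) (
    .cons (fun d hd h0 => s_dbt h0.2) (
    .cons (fun d hd h0 => h0 ⟨rfl, g_dbt.1⟩) (
    .cons (fun d hd h0 => h0 ⟨rfl, g_dbt.2.1⟩) (
    .cons (fun d hd h0 => ne_b_dbt h0) (
    .cons (fun d hd h0 => h0 e_b_c) (
    .cons (fun d hd h0 => nt_b_c_t_r (ttn e_b_c.ne (nsd s_t s_r) h0)) (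
    .nil)))))))))))))))))))))))))))))))))))

/-- templates -/
def ll_d_xd_x : List Tm := [
  ⟨0, [], [], [.b true 2 8 8]⟩,
  ⟨0, [], [], [.b true 3 8 8]⟩,
  ⟨0, [], [], [.b true 4 8 8]⟩,
  ⟨0, [], [], [.b true 2 9 9]⟩,
  ⟨0, [], [], [.b true 3 9 9]⟩,
  ⟨0, [], [], [.b true 4 9 9]⟩,
  ⟨0, [], [], [.b false 2 10 10]⟩,
  ⟨0, [], [], [.b true 3 10 10]⟩,
  ⟨0, [], [], [.b true 4 10 10]⟩,
  ⟨0, [], [], [.b false 2 11 11]⟩,
  ⟨0, [], [], [.b true 3 11 11]⟩,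
  ⟨0, [], [], [.b true 4 11 11]⟩,
  ⟨0, [], [], [.b true 1 8 9]⟩,
  ⟨0, [], [], [.b true 0 8 10]⟩,
  ⟨1, [], [], [.b false 2 0 0, .b false 3 0 0, .b true 0 0 11]⟩,
  ⟨2, [], [], [.b false 2 0 0, .b true 2 1 1, .b false 3 0 0, .b false 3 1 1, .b true 1 0 8, .q false 0 8 11 0 10, .b true 0 0 1]⟩,
  ⟨2, [], [], [.b true 2 0 0, .b false 2 1 1, .b false 3 0 0, .b false 3 1 1, .b true 1 0 8, .q false 0 8 11 0 10, .b true 0 0 1]⟩,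
  ⟨2, [], [], [.b false 2 0 0, .b true 2 1 1, .b false 3 0 0, .b false 3 1 1, .b true 1 0 9, .q false 0 9 11 0 10, .b true 0 0 1]⟩,
  ⟨2, [], [], [.b true 2 0 0, .b false 2 1 1, .b false 3 0 0, .b false 3 1 1, .b true 1 0 9, .q false 0 9 11 0 10, .b true 0 0 1]⟩,
  ⟨0, [], [], [.b true 2 12 12]⟩,
  ⟨0, [], [], [.b true 3 12 12]⟩,
  ⟨0, [], [], [.b true 4 12 12]⟩,
  ⟨0, [], [], [.b false 0 10 12]⟩,
  ⟨0, [], [], [.b true 2 13 13]⟩,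
  ⟨0, [], [], [.b true 3 13 13]⟩,
  ⟨0, [], [], [.b true 4 13 13]⟩,
  ⟨0, [], [], [.b false 1 8 13]⟩,
  ⟨0, [], [], [.q true 0 8 11 13 10]⟩,
  ⟨1, [], [], [.b true 2 0 0, .b false 3 0 0, .b true 0 0 13]⟩,
  ⟨0, [], [], [.b false 2 14 14]⟩,
  ⟨0, [], [], [.b true 3 14 14]⟩,
  ⟨0, [], [], [.b true 4 14 14]⟩,
  ⟨0, [], [], [.b false 0 8 14]⟩,
  ⟨0, [], [], [.b true 2 15 15]⟩,
  ⟨0, [], [], [.b false 3 15 15]⟩,
  ⟨0, [], [], [.b true 4 15 15]⟩,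
  ⟨0, [], [], [.b true 2 16 16]⟩,
  ⟨0, [], [], [.b true 3 16 16]⟩,
  ⟨0, [], [], [.b true 4 16 16]⟩,
  ⟨0, [], [], [.b false 1 8 16]⟩,
  ⟨0, [], [], [.b false 0 16 10]⟩,
  ⟨0, [], [], [.q true 1 13 15 8 16]⟩]

def ll_d_xd_p0 : List Nat := [
0x51000000035000000037001e000301,
0x4853000000041000000043003c003309e409e50bca000305,
0x4a530000000410000000430055004c0a020a030c60000305,
0x505300000004100000004300be00b50a7a0a7b10f8000305,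
0xc550000000350000000370089006a00690a260d56000305,
0x64801900000004700000004100000003500000005b0ba0000501,
0x85100000005b00000005d0041000301,
0x8640b0000000610ba1000201,
0x4802500000004f00000004100000003500000006109cf000501,
0x4802f00000005d00000005b00000004100000003500000004f0000000610032000701,
0x400000006100000005d00000005b0000000120bca000501,
0x86400100000000c0000000160242000301,
0x86400d00000001000000005f00000003900000004f00000004500000004b00000000e000000018022f000901,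
0x600000006900000006500000006300000006b0055000501,
0x46a82b00000006300000006100000004700000004100000000e00000005b00000001c005f000801,
0xc02100000003500000006f0a06000301,
0xca5300000006f00000006b0000000690000000630000000650000000710082000701,
0x6ca00b0000000750d99000201,
0xc43100000006f00000007100000004f0000000410000000350000000750073000701,
0xa00000006f0000000200000000710000000750d56000501,
0xc4a02b00000006f00000002200000006300000004100000003500000004f000000075004b000801,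
0xa4c803300000006f00000007500000006100000004100000003500000004f00000001400000005b00000002a00000001c00000001e0000000220000000260a19000e01,
0xca4600700000006b0000000280450000301,
0xc480b00000002c0d09000201,
0xca600d00000002400000007300000003900000000200000004b00000006700000002200000002e0379000901,
0x864c01300000001a0000000300d01000301,
0x4a6c0130000000340000000320c23000301,
0xa4600d00000001c00000006b00000003900000004500000000200000004b00000006700000003602e3000901,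
0x4e1b0000000770000000410000000790a32000401,
0x6f040b00000003a112b000201,
0x65001900000004700000004100000003500000007d1066000501,
0x105100000007d00000007f00c3000301,
0x70040b0000000851141000201,
0x10640b0000000851067000201,
0x46b02b00000004000000007d00000004700000004100000001c00000006300000008500cd000801,
0x800000008300000007f00000007d00000008510f8000501,
0x10a640130000000380000000421159000301,
0x106400100000003e00000004807a4000301,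
0x10a4600700000006b000000048084c000301,
0x106400d00000004400000008100000003900000004f00000004500000004b00000004000000004c075d000901,
0x10a600d00000004a00000004600000003900000000200000004b00000006700000008100000004e06df000901,
0x410e61300000003c0000000501095000301,
0xea700110000000540000000521099000301,
0x87000000056000200]

def ll_d_xd_pf : List Nat := ll_d_xd_p0

theorem ll_d_xd_ref {V : Type} {S : SRel V} {p : Nat → V} (hp : ∀ i j, i < 9 → j < 9 → p i = p j → i = j)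
    (hts : PHs S p 9 ((qO ++ (qT ++ qE)) ++ ll_d_xd_x)) : False :=
  refuteS (k := 9) (n2 := 5) (n3 := 1) (n4 := 2) (o3 := 225) (o4 := 390) (M := 2460) ((qO ++ (qT ++ qE)) ++ ll_d_xd_x) ll_d_xd_pf (by decide +kernel)
    (by decide +kernel) (by decide +kernel) (by decide +kernel) hp hts

theorem ll_d_xd {V : Type} {W : Wo V} (h : W.Ok) {b c al r m t dbt u x : V}
    (s_b : W.S b) (g_b : W.Gd b) (s_c : W.S c) (g_c : W.Gd c) (s_al : ¬ W.S al) (g_al : W.Gd al) (s_r : ¬ W.S r) (g_r : W.Gd r) (k_b_c : W.K b c) (e_b_al : W.G.Adj b al) (tp_r : W.Tp r) (n_al_r : al ≠ r) (ar_b : W.Arc b r al) (ar_c : W.Arc c r al) (s_m : W.S m) (g_m : W.Gd m) (ne_al_m : ¬ W.G.Adj al m) (s_t : W.S t) (g_t : W.Gd t) (nk_b_t : ¬ W.K b t) (x_b_r_t_al : CrF W.f b r t al) (tp_t : W.Tp t) (s_dbt : ¬ W.S dbt) (g_dbt : W.Gd dbt) (ne_b_dbt : ¬ W.G.Adj b dbt) (s_u : W.S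 u) (u_u : ¬ W.A u) (d_u : W.D u) (s_x : W.S x) (g_x : W.Gd x) (nk_b_x : ¬ W.K b x) (ne_x_al : ¬ W.G.Adj x al) (t_t_u_b_x : W.T t u b x) : False := by
  have h' := h.tw (k := 9) (by decide)
  refine ll_d_xd_ref (S := Wo.rel h') (pt_inj (l := ([(b, 0), (c, 1), (al, 2), (r, 3), (m, 4), (t, 5), (dbt, 6), (u, 7), (x, 8)] : List (V × Fin 9))) (o := (b, 0))
    (List.Nodup.of_map Prod.snd (show ([0, 1, 2, 3, 4, 5, 6, 7, 8] : List (Fin 9)).Nodup by decide)) rfl) (PHs.app (UHs.phs ((qO_h h').app ((qT_h h').app (qE_h h'))) _ _) ?_)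
  exact
  .cons (fun d hd h0 => h0 ⟨rfl, s_b⟩) (
    .cons (fun d hd h0 => h0 ⟨rfl, g_b.1⟩) (
    .cons (fun d hd h0 => h0 ⟨rfl, g_b.2.1⟩) (
    .cons (fun d hd h0 => h0 ⟨rfl, s_c⟩) (
    .cons (fun d hd h0 => h0 ⟨rfl, g_c.1⟩) (
    .cons (fun d hd h0 => h0 ⟨rfl, g_c.2.1⟩) (
    .cons (fun d hd h0 => s_al h0.2) (
    .cons (fun d hd h0 => h0 ⟨rfl, g_al.1⟩) (
    .cons (fun d hd h0 => h0 ⟨rfl, g_al.2.1⟩) (
    .cons (fun d hd h0 => s_r h0.2) (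
    .cons (fun d hd h0 => h0 ⟨rfl, g_r.1⟩) (
    .cons (fun d hd h0 => h0 ⟨rfl, g_r.2.1⟩) (
    .cons (fun d hd h0 => h0 k_b_c) (
    .cons (fun d hd h0 => h0 e_b_al) (
    .cons (fun d hd h0 h1 h2 => h2 (tpy tp_r s_r h0.2 h1.2)) (
    .cons (fun d hd h0 h1 h2 h3 h4 h5 h6 => h6 (arx h ar_b s_b s_r s_al n_al_r h0.2 (ng h1) h2.2 h3.2 h4 h5)) (
    .cons (fun d hd h0 h1 h2 h3 h4 h5 h6 => h6 (ary h ar_b s_b s_r s_al n_al_r tp_r (ng h0) h1.2 h2.2 h3.2 h4 h5)) (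
    .cons (fun d hd h0 h1 h2 h3 h4 h5 h6 => h6 (arx h ar_c s_c s_r s_al n_al_r h0.2 (ng h1) h2.2 h3.2 h4 h5)) (
    .cons (fun d hd h0 h1 h2 h3 h4 h5 h6 => h6 (ary h ar_c s_c s_r s_al n_al_r tp_r (ng h0) h1.2 h2.2 h3.2 h4 h5)) (
    .cons (fun d hd h0 => h0 ⟨rfl, s_m⟩) (
    .cons (fun d hd h0 => h0 ⟨rfl, g_m.1⟩) (
    .cons (fun d hd h0 => h0 ⟨rfl, g_m.2.1⟩) (
    .cons (fun d hd h0 => ne_al_m h0) (
    .cons (fun d hd h0 => h0 ⟨rfl, s_t⟩) (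
    .cons (fun d hd h0 => h0 ⟨rfl, g_t.1⟩) (
    .cons (fun d hd h0 => h0 ⟨rfl, g_t.2.1⟩) (
    .cons (fun d hd h0 => nk_b_t h0) (
    .cons (fun d hd h0 => h0 (txp h x_b_r_t_al)) (
    .cons (fun d hd h0 h1 h2 => h2 (tpx tp_t s_t (ng h0) h1.2)) (
    .cons (fun d hd h0 => s_dbt h0.2) (
    .cons (fun d hd h0 => h0 ⟨rfl, g_dbt.1⟩) (
    .cons (fun d hd h0 => h0 ⟨rfl, g_dbt.2.1⟩) (
    .cons (fun d hd h0 => ne_b_dbt h0) (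
    .cons (fun d hd h0 => h0 ⟨rfl, s_u⟩) (
    .cons (fun d hd h0 => u_u h0.2) (
    .cons (fun d hd h0 => h0 ⟨rfl, d_u⟩) (
    .cons (fun d hd h0 => h0 ⟨rfl, s_x⟩) (
    .cons (fun d hd h0 => h0 ⟨rfl, g_x.1⟩) (
    .cons (fun d hd h0 => h0 ⟨rfl, g_x.2.1⟩) (
    .cons (fun d hd h0 => nk_b_x h0) (
    .cons (fun d hd h0 => ne_x_al h0) (
    .cons (fun d hd h0 => h0 (ttp h t_t_u_b_x)) (
    .nil))))))))))))))))))))))))))))))))))))))))))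

/-- templates -/
def lb_d_xd_x : List Tm := [
  ⟨0, [], [], [.b true 2 8 8]⟩,
  ⟨0, [], [], [.b true 3 8 8]⟩,
  ⟨0, [], [], [.b true 4 8 8]⟩,
  ⟨0, [], [], [.b true 2 9 9]⟩,
  ⟨0, [], [], [.b true 3 9 9]⟩,
  ⟨0, [], [], [.b true 4 9 9]⟩,
  ⟨0, [], [], [.b false 2 10 10]⟩,
  ⟨0, [], [], [.b true 3 10 10]⟩,
  ⟨0, [], [], [.b true 4 10 10]⟩,
  ⟨0, [], [], [.b false 2 11 11]⟩,
  ⟨0, [], [], [.b true 3 11 11]⟩,
  ⟨0, [], [], [.b true 4 11 11]⟩,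
  ⟨0, [], [], [.b true 1 8 9]⟩,
  ⟨0, [], [], [.b true 0 8 10]⟩,
  ⟨1, [], [], [.b false 2 0 0, .b false 3 0 0, .b true 0 0 11]⟩,
  ⟨2, [], [], [.b false 2 0 0, .b true 2 1 1, .b false 3 0 0, .b false 3 1 1, .b true 1 0 8, .q false 0 8 11 0 10, .b true 0 0 1]⟩,
  ⟨2, [], [], [.b true 2 0 0, .b false 2 1 1, .b false 3 0 0, .b false 3 1 1, .b true 1 0 8, .q false 0 8 11 0 10, .b true 0 0 1]⟩,
  ⟨2, [], [], [.b false 2 0 0, .b true 2 1 1, .b false 3 0 0, .b false 3 1 1, .b true 1 0 9, .q false 0 9 11 0 10, .b true 0 0 1]⟩,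
  ⟨2, [], [], [.b true 2 0 0, .b false 2 1 1, .b false 3 0 0, .b false 3 1 1, .b true 1 0 9, .q false 0 9 11 0 10, .b true 0 0 1]⟩,
  ⟨0, [], [], [.b true 2 12 12]⟩,
  ⟨0, [], [], [.b true 3 12 12]⟩,
  ⟨0, [], [], [.b true 4 12 12]⟩,
  ⟨0, [], [], [.b false 0 10 12]⟩,
  ⟨0, [], [], [.b true 2 13 13]⟩,
  ⟨0, [], [], [.b true 3 13 13]⟩,
  ⟨0, [], [], [.b true 4 13 13]⟩,
  ⟨0, [], [], [.b false 1 8 13]⟩,
  ⟨0, [], [], [.q true 0 8 11 13 10]⟩,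
  ⟨1, [], [], [.b true 2 0 0, .b false 3 0 0, .b true 0 0 13]⟩,
  ⟨0, [], [], [.b false 2 14 14]⟩,
  ⟨0, [], [], [.b true 3 14 14]⟩,
  ⟨0, [], [], [.b true 4 14 14]⟩,
  ⟨0, [], [], [.b false 0 8 14]⟩,
  ⟨0, [], [], [.b true 2 15 15]⟩,
  ⟨0, [], [], [.b false 3 15 15]⟩,
  ⟨0, [], [], [.b true 4 15 15]⟩,
  ⟨0, [], [], [.q true 1 10 15 8 13]⟩]

def lb_d_xd_p0 : List Nat := [
0x4853000000041000000043003c003306a806a90834000305,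
0x4a530000000410000000430055004c06c606c708ca000305,
0xc550000000350000000370089006a006906ea09c0000305,
0x64801900000004700000004100000003500000005b080a000501,
0x85100000005b00000005d0041000301,
0xa8640b0000000610919000201,
0x4802500000004f0000000410000000350000000610693000501,
0x4802f00000005d00000005b00000004100000003500000004f0000000610032000701,
0x200000006100000005d00000005b00000000e0834000501,
0x86400100000000800000001201e8000301,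
0xa6400300000006b08e8000201,
0x8a4600700000001200000006b02b4000301,
0x400000006900000006500000006300000006b0055000501,
0xa86400700000001400000001602ae000301,
0x8a60030000000180896000201,
0x46a82b00000006300000006100000004700000004100000000a00000005b00000001a005f000801,
0xa8400300000001c08d2000201,
0xa40860700000001400000001e0278000301,
0x86a40d00000000c00000001a00000004500000004b00000000a00000005f000000067000000024029b000901,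
0xc02100000003500000006f06ca000301,
0xc4801900000005b00000004100000003500000006f09c8000501,
0x4ca800700000002200000002a0a5e000301,
0xca5300000006f00000006b0000000690000000630000000650000000710082000701,
0x4ca00b00000007509d3000201,
0xc43100000006f00000007100000004f0000000410000000350000000750073000701,
0x600000006f00000002800000007100000007509c0000501,
0xc4a02b00000006f00000002e00000006300000004100000003500000004f000000075004b000801,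
0xa4c803300000006f00000007500000006100000004100000003500000004f00000001000000005b00000003600000001a00000002000000002e00000003206dd000e01,
0xca4600700000006b00000003403f6000301,
0x6ca80b0000000380a0b000201,
0x860ca0700000002c00000003a0404000301,
0xca860d00000003c00000007300000004b00000000a00000005f00000006700000002e00000003e03db000901,
0xc84a6110000000260000000400379000301,
0x6e1b00000007700000004700000007906fb000401,
0x4ea60b0000000440b53000201,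
0xe6ac4150000000420000000300000000460b4d000401,
0x7d000000048000200]

def lb_d_xd_pf : List Nat := lb_d_xd_p0

theorem lb_d_xd_ref {V : Type} {S : SRel V} {p : Nat → V} (hp : ∀ i j, i < 8 → j < 8 → p i = p j → i = j)
    (hts : PHs S p 8 ((qO ++ (qT ++ qE)) ++ lb_d_xd_x)) : False :=
  refuteS (k := 8) (n2 := 5) (n3 := 1) (n4 := 2) (o3 := 180) (o4 := 300) (M := 1632) ((qO ++ (qT ++ qE)) ++ lb_d_xd_x) lb_d_xd_pf (by decide +kernel)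
    (by decide +kernel) (by decide +kernel) (by decide +kernel) hp hts

theorem lb_d_xd {V : Type} {W : Wo V} (h : W.Ok) {b c al r m t dbt u : V}
    (s_b : W.S b) (g_b : W.Gd b) (s_c : W.S c) (g_c : W.Gd c) (s_al : ¬ W.S al) (g_al : W.Gd al) (s_r : ¬ W.S r) (g_r : W.Gd r) (k_b_c : W.K b c) (e_b_al : W.G.Adj b al) (tp_r : W.Tp r) (n_al_r : al ≠ r) (ar_b : W.Arc b r al) (ar_c : W.Arc c r al) (s_m : W.S m) (g_m : W.Gd m) (ne_al_m : ¬ W.G.Adj al m) (s_t : W.S t) (g_t : W.Gd t) (nk_b_t : ¬ W.K b t) (x_b_r_t_al : CrF W.f b r t al) (tp_t : W.Tp t) (s_dbt : ¬ W.S dbt) (g_dbt : W.Gd dbt) (ne_b_dbt : ¬ W.G.Adj b dbt) (s_u : W.S u) (u_u : ¬ W.A u) (d_u : W.D u) (t_al_u_b_t : W.T al u b t) : False := by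
  have h' := h.tw (k := 8) (by decide)
  refine lb_d_xd_ref (S := Wo.rel h') (pt_inj (l := ([(b, 0), (c, 1), (al, 2), (r, 3), (m, 4), (t, 5), (dbt, 6), (u, 7)] : List (V × Fin 8))) (o := (b, 0))
    (List.Nodup.of_map Prod.snd (show ([0, 1, 2, 3, 4, 5, 6, 7] : List (Fin 8)).Nodup by decide)) rfl) (PHs.app (UHs.phs ((qO_h h').app ((qT_h h').app (qE_h h'))) _ _) ?_)
  exact
  .cons (fun d hd h0 => h0 ⟨rfl, s_b⟩) (
    .cons (fun d hd h0 => h0 ⟨rfl, g_b.1⟩) (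
    .cons (fun d hd h0 => h0 ⟨rfl, g_b.2.1⟩) (
    .cons (fun d hd h0 => h0 ⟨rfl, s_c⟩) (
    .cons (fun d hd h0 => h0 ⟨rfl, g_c.1⟩) (
    .cons (fun d hd h0 => h0 ⟨rfl, g_c.2.1⟩) (
    .cons (fun d hd h0 => s_al h0.2) (
    .cons (fun d hd h0 => h0 ⟨rfl, g_al.1⟩) (
    .cons (fun d hd h0 => h0 ⟨rfl, g_al.2.1⟩) (
    .cons (fun d hd h0 => s_r h0.2) (
    .cons (fun d hd h0 => h0 ⟨rfl, g_r.1⟩) (
    .cons (fun d hd h0 => h0 ⟨rfl, g_r.2.1⟩) (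
    .cons (fun d hd h0 => h0 k_b_c) (
    .cons (fun d hd h0 => h0 e_b_al) (
    .cons (fun d hd h0 h1 h2 => h2 (tpy tp_r s_r h0.2 h1.2)) (
    .cons (fun d hd h0 h1 h2 h3 h4 h5 h6 => h6 (arx h ar_b s_b s_r s_al n_al_r h0.2 (ng h1) h2.2 h3.2 h4 h5)) (
    .cons (fun d hd h0 h1 h2 h3 h4 h5 h6 => h6 (ary h ar_b s_b s_r s_al n_al_r tp_r (ng h0) h1.2 h2.2 h3.2 h4 h5)) (
    .cons (fun d hd h0 h1 h2 h3 h4 h5 h6 => h6 (arx h ar_c s_c s_r s_al n_al_r h0.2 (ng h1) h2.2 h3.2 h4 h5)) (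
    .cons (fun d hd h0 h1 h2 h3 h4 h5 h6 => h6 (ary h ar_c s_c s_r s_al n_al_r tp_r (ng h0) h1.2 h2.2 h3.2 h4 h5)) (
    .cons (fun d hd h0 => h0 ⟨rfl, s_m⟩) (
    .cons (fun d hd h0 => h0 ⟨rfl, g_m.1⟩) (
    .cons (fun d hd h0 => h0 ⟨rfl, g_m.2.1⟩) (
    .cons (fun d hd h0 => ne_al_m h0) (
    .cons (fun d hd h0 => h0 ⟨rfl, s_t⟩) (
    .cons (fun d hd h0 => h0 ⟨rfl, g_t.1⟩) (
    .cons (fun d hd h0 => h0 ⟨rfl, g_t.2.1⟩) (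
    .cons (fun d hd h0 => nk_b_t h0) (
    .cons (fun d hd h0 => h0 (txp h x_b_r_t_al)) (
    .cons (fun d hd h0 h1 h2 => h2 (tpx tp_t s_t (ng h0) h1.2)) (
    .cons (fun d hd h0 => s_dbt h0.2) (
    .cons (fun d hd h0 => h0 ⟨rfl, g_dbt.1⟩) (
    .cons (fun d hd h0 => h0 ⟨rfl, g_dbt.2.1⟩) (
    .cons (fun d hd h0 => ne_b_dbt h0) (
    .cons (fun d hd h0 => h0 ⟨rfl, s_u⟩) (
    .cons (fun d hd h0 => u_u h0.2) (
    .cons (fun d hd h0 => h0 ⟨rfl, d_u⟩) (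
    .cons (fun d hd h0 => h0 (ttp h t_al_u_b_t)) (
    .nil)))))))))))))))))))))))))))))))))))))

/-- templates -/
def lc_d_xd_x : List Tm := [
  ⟨0, [], [], [.b true 2 8 8]⟩,
  ⟨0, [], [], [.b true 3 8 8]⟩,
  ⟨0, [], [], [.b true 4 8 8]⟩,
  ⟨0, [], [], [.b true 2 9 9]⟩,
  ⟨0, [], [], [.b true 3 9 9]⟩,
  ⟨0, [], [], [.b true 4 9 9]⟩,
  ⟨0, [], [], [.b false 2 10 10]⟩,
  ⟨0, [], [], [.b true 3 10 10]⟩,
  ⟨0, [], [], [.b true 4 10 10]⟩,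
  ⟨0, [], [], [.b false 2 11 11]⟩,
  ⟨0, [], [], [.b true 3 11 11]⟩,
  ⟨0, [], [], [.b true 4 11 11]⟩,
  ⟨0, [], [], [.b true 1 8 9]⟩,
  ⟨0, [], [], [.b true 0 8 10]⟩,
  ⟨1, [], [], [.b false 2 0 0, .b false 3 0 0, .b true 0 0 11]⟩,
  ⟨2, [], [], [.b false 2 0 0, .b true 2 1 1, .b false 3 0 0, .b false 3 1 1, .b true 1 0 8, .q false 0 8 11 0 10, .b true 0 0 1]⟩,
  ⟨2, [], [], [.b true 2 0 0, .b false 2 1 1, .b false 3 0 0, .b false 3 1 1, .b true 1 0 8, .q false 0 8 11 0 10, .b true 0 0 1]⟩,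
  ⟨2, [], [], [.b false 2 0 0, .b true 2 1 1, .b false 3 0 0, .b false 3 1 1, .b true 1 0 9, .q false 0 9 11 0 10, .b true 0 0 1]⟩,
  ⟨2, [], [], [.b true 2 0 0, .b false 2 1 1, .b false 3 0 0, .b false 3 1 1, .b true 1 0 9, .q false 0 9 11 0 10, .b true 0 0 1]⟩,
  ⟨0, [], [], [.b true 2 12 12]⟩,
  ⟨0, [], [], [.b true 3 12 12]⟩,
  ⟨0, [], [], [.b true 4 12 12]⟩,
  ⟨0, [], [], [.b false 0 10 12]⟩,
  ⟨0, [], [], [.b true 2 13 13]⟩,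
  ⟨0, [], [], [.b true 3 13 13]⟩,
  ⟨0, [], [], [.b true 4 13 13]⟩,
  ⟨0, [], [], [.b false 1 8 13]⟩,
  ⟨0, [], [], [.q true 0 8 11 13 10]⟩,
  ⟨1, [], [], [.b true 2 0 0, .b false 3 0 0, .b true 0 0 13]⟩,
  ⟨0, [], [], [.b false 2 14 14]⟩,
  ⟨0, [], [], [.b true 3 14 14]⟩,
  ⟨0, [], [], [.b true 4 14 14]⟩,
  ⟨0, [], [], [.b false 0 8 14]⟩,
  ⟨0, [], [], [.b true 2 15 15]⟩,
  ⟨0, [], [], [.b false 3 15 15]⟩,
  ⟨0, [], [], [.b true 4 15 15]⟩,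
  ⟨0, [], [], [.b true 2 16 16]⟩,
  ⟨0, [], [], [.b false 3 16 16]⟩,
  ⟨0, [], [], [.b true 4 16 16]⟩,
  ⟨0, [], [], [.q true 1 13 15 8 16]⟩]

def lc_d_xd_p0 : List Nat := [
0x51000000035000000037001e000301,
0x4853000000041000000043003c003309e409e50bca000305,
0x4a530000000410000000430055004c0a020a030c60000305,
0xc550000000350000000370089006a00690a260d56000305,
0x64801900000004700000004100000003500000005b0ba0000501,
0x85100000005b00000005d0041000301,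
0x8640b0000000610ba1000201,
0x4802500000004f00000004100000003500000006109cf000501,
0x4802f00000005d00000005b00000004100000003500000004f0000000610032000701,
0x400000006100000005d00000005b0000000100bca000501,
0x86400100000000a0000000140242000301,
0x86400d00000000e00000005f00000003900000004f00000004500000004b00000000c000000016022f000901,
0x600000006900000006500000006300000006b0055000501,
0x46a82b00000006300000006100000004700000004100000000c00000005b00000001a005f000801,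
0xc02100000003500000006f0a06000301,
0xca5300000006f00000006b0000000690000000630000000650000000710082000701,
0x6ca00b0000000750d99000201,
0xc43100000006f00000007100000004f0000000410000000350000000750073000701,
0x800000006f00000001e0000000710000000750d56000501,
0xc4a02b00000006f00000002000000006300000004100000003500000004f000000075004b000801,
0xa4c803300000006f00000007500000006100000004100000003500000004f00000001200000005b00000002800000001a00000001c0000000200000000240a19000e01,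
0xca4600700000006b0000000260450000301,
0xc480b00000002a0d09000201,
0xca600d00000002200000007300000003900000000200000004b00000006700000002000000002c0379000901,
0x864c01300000001800000002e0d01000301,
0x4a6c0130000000320000000300c23000301,
0xa4600d00000001a00000006b00000003900000004500000000200000004b00000006700000003402e3000901,
0x4e1b0000000770000000410000000790a32000401,
0xae040b0000000380f8b000201,
0x701b00000007d00000004700000007f0a5f000401,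
0x10a60b00000003c107b000201,
0xf06a401500000003a00000003600000003e1099000401,
0x83000000040000200]

def lc_d_xd_pf : List Nat := lc_d_xd_p0

theorem lc_d_xd_ref {V : Type} {S : SRel V} {p : Nat → V} (hp : ∀ i j, i < 9 → j < 9 → p i = p j → i = j)
    (hts : PHs S p 9 ((qO ++ (qT ++ qE)) ++ lc_d_xd_x)) : False :=
  refuteS (k := 9) (n2 := 5) (n3 := 1) (n4 := 2) (o3 := 225) (o4 := 390) (M := 2460) ((qO ++ (qT ++ qE)) ++ lc_d_xd_x) lc_d_xd_pf (by decide +kernel)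
    (by decide +kernel) (by decide +kernel) (by decide +kernel) hp hts

theorem lc_d_xd {V : Type} {W : Wo V} (h : W.Ok) {b c al r m t dbt u v : V}
    (s_b : W.S b) (g_b : W.Gd b) (s_c : W.S c) (g_c : W.Gd c) (s_al : ¬ W.S al) (g_al : W.Gd al) (s_r : ¬ W.S r) (g_r : W.Gd r) (k_b_c : W.K b c) (e_b_al : W.G.Adj b al) (tp_r : W.Tp r) (n_al_r : al ≠ r) (ar_b : W.Arc b r al) (ar_c : W.Arc c r al) (s_m : W.S m) (g_m : W.Gd m) (ne_al_m : ¬ W.G.Adj al m) (s_t : W.S t) (g_t : W.Gd t) (nk_b_t : ¬ W.K b t) (x_b_r_t_al : CrF W.f b r t al) (tp_t : W.Tp t) (s_dbt : ¬ W.S dbt) (g_dbt : W.Gd dbt) (ne_b_dbt : ¬ W.G.Adj b dbt) (s_u : W.S u) (u_u : ¬ W.A u) (d_u : W.D u) (s_v : W.S v) (u_v : ¬ W.A v) (d_v : W.D v) (t_t_u_b_v : W.T t u b v) : False := by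
  have h' := h.tw (k := 9) (by decide)
  refine lc_d_xd_ref (S := Wo.rel h') (pt_inj (l := ([(b, 0), (c, 1), (al, 2), (r, 3), (m, 4), (t, 5), (dbt, 6), (u, 7), (v, 8)] : List (V × Fin 9))) (o := (b, 0))
    (List.Nodup.of_map Prod.snd (show ([0, 1, 2, 3, 4, 5, 6, 7, 8] : List (Fin 9)).Nodup by decide)) rfl) (PHs.app (UHs.phs ((qO_h h').app ((qT_h h').app (qE_h h'))) _ _) ?_)
  exact
  .cons (fun d hd h0 => h0 ⟨rfl, s_b⟩) (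
    .cons (fun d hd h0 => h0 ⟨rfl, g_b.1⟩) (
    .cons (fun d hd h0 => h0 ⟨rfl, g_b.2.1⟩) (
    .cons (fun d hd h0 => h0 ⟨rfl, s_c⟩) (
    .cons (fun d hd h0 => h0 ⟨rfl, g_c.1⟩) (
    .cons (fun d hd h0 => h0 ⟨rfl, g_c.2.1⟩) (
    .cons (fun d hd h0 => s_al h0.2) (
    .cons (fun d hd h0 => h0 ⟨rfl, g_al.1⟩) (
    .cons (fun d hd h0 => h0 ⟨rfl, g_al.2.1⟩) (
    .cons (fun d hd h0 => s_r h0.2) (
    .cons (fun d hd h0 => h0 ⟨rfl, g_r.1⟩) (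
    .cons (fun d hd h0 => h0 ⟨rfl, g_r.2.1⟩) (
    .cons (fun d hd h0 => h0 k_b_c) (
    .cons (fun d hd h0 => h0 e_b_al) (
    .cons (fun d hd h0 h1 h2 => h2 (tpy tp_r s_r h0.2 h1.2)) (
    .cons (fun d hd h0 h1 h2 h3 h4 h5 h6 => h6 (arx h ar_b s_b s_r s_al n_al_r h0.2 (ng h1) h2.2 h3.2 h4 h5)) (
    .cons (fun d hd h0 h1 h2 h3 h4 h5 h6 => h6 (ary h ar_b s_b s_r s_al n_al_r tp_r (ng h0) h1.2 h2.2 h3.2 h4 h5)) (
    .cons (fun d hd h0 h1 h2 h3 h4 h5 h6 => h6 (arx h ar_c s_c s_r s_al n_al_r h0.2 (ng h1) h2.2 h3.2 h4 h5)) (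
    .cons (fun d hd h0 h1 h2 h3 h4 h5 h6 => h6 (ary h ar_c s_c s_r s_al n_al_r tp_r (ng h0) h1.2 h2.2 h3.2 h4 h5)) (
    .cons (fun d hd h0 => h0 ⟨rfl, s_m⟩) (
    .cons (fun d hd h0 => h0 ⟨rfl, g_m.1⟩) (
    .cons (fun d hd h0 => h0 ⟨rfl, g_m.2.1⟩) (
    .cons (fun d hd h0 => ne_al_m h0) (
    .cons (fun d hd h0 => h0 ⟨rfl, s_t⟩) (
    .cons (fun d hd h0 => h0 ⟨rfl, g_t.1⟩) (
    .cons (fun d hd h0 => h0 ⟨rfl, g_t.2.1⟩) (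
    .cons (fun d hd h0 => nk_b_t h0) (
    .cons (fun d hd h0 => h0 (txp h x_b_r_t_al)) (
    .cons (fun d hd h0 h1 h2 => h2 (tpx tp_t s_t (ng h0) h1.2)) (
    .cons (fun d hd h0 => s_dbt h0.2) (
    .cons (fun d hd h0 => h0 ⟨rfl, g_dbt.1⟩) (
    .cons (fun d hd h0 => h0 ⟨rfl, g_dbt.2.1⟩) (
    .cons (fun d hd h0 => ne_b_dbt h0) (
    .cons (fun d hd h0 => h0 ⟨rfl, s_u⟩) (
    .cons (fun d hd h0 => u_u h0.2) (
    .cons (fun d hd h0 => h0 ⟨rfl, d_u⟩) (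
    .cons (fun d hd h0 => h0 ⟨rfl, s_v⟩) (
    .cons (fun d hd h0 => u_v h0.2) (
    .cons (fun d hd h0 => h0 ⟨rfl, d_v⟩) (
    .cons (fun d hd h0 => h0 (ttp h t_t_u_b_v)) (
    .nil))))))))))))))))))))))))))))))))))))))))

/-- templates -/
def fr_d_xs_x : List Tm := [
  ⟨0, [], [], [.b true 2 8 8]⟩,
  ⟨0, [], [], [.b true 3 8 8]⟩,
  ⟨0, [], [], [.b true 4 8 8]⟩,
  ⟨0, [], [], [.b true 2 9 9]⟩,
  ⟨0, [], [], [.b true 3 9 9]⟩,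
  ⟨0, [], [], [.b true 4 9 9]⟩,
  ⟨0, [], [], [.b false 2 10 10]⟩,
  ⟨0, [], [], [.b true 3 10 10]⟩,
  ⟨0, [], [], [.b true 4 10 10]⟩,
  ⟨0, [], [], [.b false 2 11 11]⟩,
  ⟨0, [], [], [.b true 3 11 11]⟩,
  ⟨0, [], [], [.b true 4 11 11]⟩,
  ⟨0, [], [], [.b true 1 8 9]⟩,
  ⟨0, [], [], [.b true 0 8 10]⟩,
  ⟨1, [], [], [.b false 2 0 0, .b false 3 0 0, .b true 0 0 11]⟩,
  ⟨2, [], [], [.b false 2 0 0, .b true 2 1 1, .b false 3 0 0, .b false 3 1 1, .b true 1 0 8, .q false 0 8 11 0 10, .b true 0 0 1]⟩,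
  ⟨2, [], [], [.b true 2 0 0, .b false 2 1 1, .b false 3 0 0, .b false 3 1 1, .b true 1 0 8, .q false 0 8 11 0 10, .b true 0 0 1]⟩,
  ⟨2, [], [], [.b false 2 0 0, .b true 2 1 1, .b false 3 0 0, .b false 3 1 1, .b true 1 0 9, .q false 0 9 11 0 10, .b true 0 0 1]⟩,
  ⟨2, [], [], [.b true 2 0 0, .b false 2 1 1, .b false 3 0 0, .b false 3 1 1, .b true 1 0 9, .q false 0 9 11 0 10, .b true 0 0 1]⟩,
  ⟨0, [], [], [.b true 2 12 12]⟩,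
  ⟨0, [], [], [.b true 3 12 12]⟩,
  ⟨0, [], [], [.b true 4 12 12]⟩,
  ⟨0, [], [], [.b false 0 10 12]⟩,
  ⟨0, [], [], [.b true 2 13 13]⟩,
  ⟨0, [], [], [.b true 3 13 13]⟩,
  ⟨0, [], [], [.b true 4 13 13]⟩,
  ⟨0, [], [], [.b false 1 8 13]⟩,
  ⟨0, [], [], [.q true 0 8 11 13 10]⟩,
  ⟨1, [], [], [.b true 2 0 0, .b false 3 0 0, .b true 0 0 13]⟩,
  ⟨1, [], [], [.b true 2 0 0, .b false 3 0 0, .b true 0 0 8]⟩,
  ⟨0, [], [], [.b true 2 14 14]⟩,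
  ⟨0, [], [], [.b true 3 14 14]⟩,
  ⟨0, [], [], [.b true 4 14 14]⟩,
  ⟨0, [], [], [.b false 2 15 15]⟩,
  ⟨0, [], [], [.b true 3 15 15]⟩,
  ⟨0, [], [], [.b true 4 15 15]⟩,
  ⟨0, [], [], [.q true 0 8 13 14 10]⟩,
  ⟨0, [], [], [.b false 0 14 15]⟩,
  ⟨0, [], [], [.b true 0 8 9]⟩,
  ⟨0, [], [], [.q false 1 8 9 13 11]⟩]

def fr_d_xs_p0 : List Nat := [
0x64ca190000000470000000410000000630000000710a5a000501,
0xe6f000000077000000079008c000301,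
0xca400300000007d0a50000201,
0x460ca070000000020000000060a56000301,
0xca4600700000006b0000000080360000301,
0xec02500000007700000000400000003500000007f06ca000501,
0xec5300000007700000000a00000007900000007100000007300000007f00000000c000800]

def fr_d_xs_pf : List Nat := fr_d_xs_p0

theorem fr_d_xs_ref {V : Type} {S : SRel V} {p : Nat → V} (hp : ∀ i j, i < 8 → j < 8 → p i = p j → i = j)
    (hts : PHs S p 8 ((qO ++ (qT ++ qE)) ++ fr_d_xs_x)) : False :=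
  refuteS (k := 8) (n2 := 5) (n3 := 1) (n4 := 2) (o3 := 180) (o4 := 300) (M := 1632) ((qO ++ (qT ++ qE)) ++ fr_d_xs_x) fr_d_xs_pf (by decide +kernel)
    (by decide +kernel) (by decide +kernel) (by decide +kernel) hp hts

theorem fr_d_xs {V : Type} {W : Wo V} (h : W.Ok) {b c al r m t zbt dbt : V}
    (s_b : W.S b) (g_b : W.Gd b) (s_c : W.S c) (g_c : W.Gd c) (s_al : ¬ W.S al) (g_al : W.Gd al) (s_r : ¬ W.S r) (g_r : W.Gd r) (k_b_c : W.K b c) (e_b_al : W.G.Adj b al) (tp_r : W.Tp r) (n_al_r : al ≠ r) (ar_b : W.Arc b r al) (ar_c : W.Arc c r al) (s_m : W.S m) (g_m : W.Gd m) (ne_al_m : ¬ W.G.Adj al m) (s_t : W.S t) (g_t : W.Gd t) (nk_b_t : ¬ W.K b t) (x_b_r_t_al : CrF W.f b r t al) (tp_t : W.Tp t) (tp_b : W.Tp b) (s_zbt : W.S zbt) (g_zbt : W.Gd zbt) (s_dbt : ¬ W.S dbt) (g_dbt : W.Gd dbt) (x_b_t_zbt_al : CrF W.f b t zbt al) (ne_zbt_dbt : ¬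 W.G.Adj zbt dbt) (e_b_c : W.G.Adj b c) (nt_b_c_t_r : ¬ W.T b c t r) : False := by
  have h' := h.tw (k := 8) (by decide)
  refine fr_d_xs_ref (S := Wo.rel h') (pt_inj (l := ([(b, 0), (c, 1), (al, 2), (r, 3), (m, 4), (t, 5), (zbt, 6), (dbt, 7)] : List (V × Fin 8))) (o := (b, 0))
    (List.Nodup.of_map Prod.snd (show ([0, 1, 2, 3, 4, 5, 6, 7] : List (Fin 8)).Nodup by decide)) rfl) (PHs.app (UHs.phs ((qO_h h').app ((qT_h h').app (qE_h h'))) _ _) ?_)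
  exact
  .cons (fun d hd h0 => h0 ⟨rfl, s_b⟩) (
    .cons (fun d hd h0 => h0 ⟨rfl, g_b.1⟩) (
    .cons (fun d hd h0 => h0 ⟨rfl, g_b.2.1⟩) (
    .cons (fun d hd h0 => h0 ⟨rfl, s_c⟩) (
    .cons (fun d hd h0 => h0 ⟨rfl, g_c.1⟩) (
    .cons (fun d hd h0 => h0 ⟨rfl, g_c.2.1⟩) (
    .cons (fun d hd h0 => s_al h0.2) (
    .cons (fun d hd h0 => h0 ⟨rfl, g_al.1⟩) (
    .cons (fun d hd h0 => h0 ⟨rfl, g_al.2.1⟩) (
    .cons (fun d hd h0 => s_r h0.2) (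
    .cons (fun d hd h0 => h0 ⟨rfl, g_r.1⟩) (
    .cons (fun d hd h0 => h0 ⟨rfl, g_r.2.1⟩) (
    .cons (fun d hd h0 => h0 k_b_c) (
    .cons (fun d hd h0 => h0 e_b_al) (
    .cons (fun d hd h0 h1 h2 => h2 (tpy tp_r s_r h0.2 h1.2)) (
    .cons (fun d hd h0 h1 h2 h3 h4 h5 h6 => h6 (arx h ar_b s_b s_r s_al n_al_r h0.2 (ng h1) h2.2 h3.2 h4 h5)) (
    .cons (fun d hd h0 h1 h2 h3 h4 h5 h6 => h6 (ary h ar_b s_b s_r s_al n_al_r tp_r (ng h0) h1.2 h2.2 h3.2 h4 h5)) (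
    .cons (fun d hd h0 h1 h2 h3 h4 h5 h6 => h6 (arx h ar_c s_c s_r s_al n_al_r h0.2 (ng h1) h2.2 h3.2 h4 h5)) (
    .cons (fun d hd h0 h1 h2 h3 h4 h5 h6 => h6 (ary h ar_c s_c s_r s_al n_al_r tp_r (ng h0) h1.2 h2.2 h3.2 h4 h5)) (
    .cons (fun d hd h0 => h0 ⟨rfl, s_m⟩) (
    .cons (fun d hd h0 => h0 ⟨rfl, g_m.1⟩) (
    .cons (fun d hd h0 => h0 ⟨rfl, g_m.2.1⟩) (
    .cons (fun d hd h0 => ne_al_m h0) (
    .cons (fun d hd h0 => h0 ⟨rfl, s_t⟩) (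
    .cons (fun d hd h0 => h0 ⟨rfl, g_t.1⟩) (
    .cons (fun d hd h0 => h0 ⟨rfl, g_t.2.1⟩) (
    .cons (fun d hd h0 => nk_b_t h0) (
    .cons (fun d hd h0 => h0 (txp h x_b_r_t_al)) (
    .cons (fun d hd h0 h1 h2 => h2 (tpx tp_t s_t (ng h0) h1.2)) (
    .cons (fun d hd h0 h1 h2 => h2 (tpx tp_b s_b (ng h0) h1.2)) (
    .cons (fun d hd h0 => h0 ⟨rfl, s_zbt⟩) (
    .cons (fun d hd h0 => h0 ⟨rfl, g_zbt.1⟩) (
    .cons (fun d hd h0 => h0 ⟨rfl, g_zbt.2.1⟩) (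
    .cons (fun d hd h0 => s_dbt h0.2) (
    .cons (fun d hd h0 => h0 ⟨rfl, g_dbt.1⟩) (
    .cons (fun d hd h0 => h0 ⟨rfl, g_dbt.2.1⟩) (
    .cons (fun d hd h0 => h0 (txp h x_b_t_zbt_al)) (
    .cons (fun d hd h0 => ne_zbt_dbt h0) (
    .cons (fun d hd h0 => h0 e_b_c) (
    .cons (fun d hd h0 => nt_b_c_t_r (ttn e_b_c.ne (nsd s_t s_r) h0)) (
    .nil))))))))))))))))))))))))))))))))))))))))

/-- templates -/
def ll_d_xs_x : List Tm := [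
  ⟨0, [], [], [.b true 2 8 8]⟩,
  ⟨0, [], [], [.b true 3 8 8]⟩,
  ⟨0, [], [], [.b true 4 8 8]⟩,
  ⟨0, [], [], [.b true 2 9 9]⟩,
  ⟨0, [], [], [.b true 3 9 9]⟩,
  ⟨0, [], [], [.b true 4 9 9]⟩,
  ⟨0, [], [], [.b false 2 10 10]⟩,
  ⟨0, [], [], [.b true 3 10 10]⟩,
  ⟨0, [], [], [.b true 4 10 10]⟩,
  ⟨0, [], [], [.b false 2 11 11]⟩,
  ⟨0, [], [], [.b true 3 11 11]⟩,
  ⟨0, [], [], [.b true 4 11 11]⟩,
  ⟨0, [], [], [.b true 1 8 9]⟩,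
  ⟨0, [], [], [.b true 0 8 10]⟩,
  ⟨1, [], [], [.b false 2 0 0, .b false 3 0 0, .b true 0 0 11]⟩,
  ⟨2, [], [], [.b false 2 0 0, .b true 2 1 1, .b false 3 0 0, .b false 3 1 1, .b true 1 0 8, .q false 0 8 11 0 10, .b true 0 0 1]⟩,
  ⟨2, [], [], [.b true 2 0 0, .b false 2 1 1, .b false 3 0 0, .b false 3 1 1, .b true 1 0 8, .q false 0 8 11 0 10, .b true 0 0 1]⟩,
  ⟨2, [], [], [.b false 2 0 0, .b true 2 1 1, .b false 3 0 0, .b false 3 1 1, .b true 1 0 9, .q false 0 9 11 0 10, .b true 0 0 1]⟩,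
  ⟨2, [], [], [.b true 2 0 0, .b false 2 1 1, .b false 3 0 0, .b false 3 1 1, .b true 1 0 9, .q false 0 9 11 0 10, .b true 0 0 1]⟩,
  ⟨0, [], [], [.b true 2 12 12]⟩,
  ⟨0, [], [], [.b true 3 12 12]⟩,
  ⟨0, [], [], [.b true 4 12 12]⟩,
  ⟨0, [], [], [.b false 0 10 12]⟩,
  ⟨0, [], [], [.b true 2 13 13]⟩,
  ⟨0, [], [], [.b true 3 13 13]⟩,
  ⟨0, [], [], [.b true 4 13 13]⟩,
  ⟨0, [], [], [.b false 1 8 13]⟩,
  ⟨0, [], [], [.q true 0 8 11 13 10]⟩,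
  ⟨1, [], [], [.b true 2 0 0, .b false 3 0 0, .b true 0 0 13]⟩,
  ⟨1, [], [], [.b true 2 0 0, .b false 3 0 0, .b true 0 0 8]⟩,
  ⟨0, [], [], [.b true 2 14 14]⟩,
  ⟨0, [], [], [.b true 3 14 14]⟩,
  ⟨0, [], [], [.b true 4 14 14]⟩,
  ⟨0, [], [], [.b false 2 15 15]⟩,
  ⟨0, [], [], [.b true 3 15 15]⟩,
  ⟨0, [], [], [.b true 4 15 15]⟩,
  ⟨0, [], [], [.q true 0 8 13 14 10]⟩,
  ⟨0, [], [], [.b false 0 14 15]⟩,
  ⟨0, [], [], [.b true 2 16 16]⟩,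
  ⟨0, [], [], [.b false 3 16 16]⟩,
  ⟨0, [], [], [.b true 4 16 16]⟩,
  ⟨0, [], [], [.b true 2 17 17]⟩,
  ⟨0, [], [], [.b true 3 17 17]⟩,
  ⟨0, [], [], [.b true 4 17 17]⟩,
  ⟨0, [], [], [.b false 1 8 17]⟩,
  ⟨0, [], [], [.b false 0 17 10]⟩,
  ⟨0, [], [], [.q true 1 13 16 8 17]⟩]

def ll_d_xs_p0 : List Nat := [
0x64ca1900000004700000004100000006300000007112b4000501,
0xe6f000000077000000079008c000301,
0xca400300000007d12aa000201,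
0x460ca0700000000200000000612b0000301,
0xca4600700000006b0000000080423000301,
0xec02500000007700000000400000003500000007f0e61000501,
0xec5300000007700000000a00000007900000007100000007300000007f00000000c000800]

def ll_d_xs_pf : List Nat := ll_d_xs_p0

theorem ll_d_xs_ref {V : Type} {S : SRel V} {p : Nat → V} (hp : ∀ i j, i < 10 → j < 10 → p i = p j → i = j)
    (hts : PHs S p 10 ((qO ++ (qT ++ qE)) ++ ll_d_xs_x)) : False :=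
  refuteS (k := 10) (n2 := 5) (n3 := 1) (n4 := 2) (o3 := 275) (o4 := 495) (M := 3575) ((qO ++ (qT ++ qE)) ++ ll_d_xs_x) ll_d_xs_pf (by decide +kernel)
    (by decide +kernel) (by decide +kernel) (by decide +kernel) hp hts

theorem ll_d_xs {V : Type} {W : Wo V} (h : W.Ok) {b c al r m t zbt dbt u x : V}
    (s_b : W.S b) (g_b : W.Gd b) (s_c : W.S c) (g_c : W.Gd c) (s_al : ¬ W.S al) (g_al : W.Gd al) (s_r : ¬ W.S r) (g_r : W.Gd r) (k_b_c : W.K b c) (e_b_al : W.G.Adj b al) (tp_r : W.Tp r) (n_al_r : al ≠ r) (ar_b : W.Arc b r al) (ar_c : W.Arc c r al) (s_m : W.S m) (g_m : W.Gd m) (ne_al_m : ¬ W.G.Adj al m) (s_t : W.S t) (g_t : W.Gd t) (nk_b_t : ¬ W.K b t) (x_b_r_t_al : CrF W.f b r t al) (tp_t : W.Tp t) (tp_b : W.Tp b) (s_zbt : W.S zbt) (g_zbt : W.Gd zbt) (s_dbt : ¬ W.S dbt) (g_dbt : W.Gd dbt) (x_b_t_zbt_al : CrF W.f b t zbt al) (ne_zbt_dbt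 : ¬ W.G.Adj zbt dbt) (s_u : W.S u) (u_u : ¬ W.A u) (d_u : W.D u) (s_x : W.S x) (g_x : W.Gd x) (nk_b_x : ¬ W.K b x) (ne_x_al : ¬ W.G.Adj x al) (t_t_u_b_x : W.T t u b x) : False := by
  have h' := h.tw (k := 10) (by decide)
  refine ll_d_xs_ref (S := Wo.rel h') (pt_inj (l := ([(b, 0), (c, 1), (al, 2), (r, 3), (m, 4), (t, 5), (zbt, 6), (dbt, 7), (u, 8), (x, 9)] : List (V × Fin 10))) (o := (b, 0))
    (List.Nodup.of_map Prod.snd (show ([0, 1, 2, 3, 4, 5, 6, 7, 8, 9] : List (Fin 10)).Nodup by decide)) rfl) (PHs.app (UHs.phs ((qO_h h').app ((qT_h h').app (qE_h h'))) _ _) ?_)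
  exact
  .cons (fun d hd h0 => h0 ⟨rfl, s_b⟩) (
    .cons (fun d hd h0 => h0 ⟨rfl, g_b.1⟩) (
    .cons (fun d hd h0 => h0 ⟨rfl, g_b.2.1⟩) (
    .cons (fun d hd h0 => h0 ⟨rfl, s_c⟩) (
    .cons (fun d hd h0 => h0 ⟨rfl, g_c.1⟩) (
    .cons (fun d hd h0 => h0 ⟨rfl, g_c.2.1⟩) (
    .cons (fun d hd h0 => s_al h0.2) (
    .cons (fun d hd h0 => h0 ⟨rfl, g_al.1⟩) (
    .cons (fun d hd h0 => h0 ⟨rfl, g_al.2.1⟩) (
    .cons (fun d hd h0 => s_r h0.2) (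
    .cons (fun d hd h0 => h0 ⟨rfl, g_r.1⟩) (
    .cons (fun d hd h0 => h0 ⟨rfl, g_r.2.1⟩) (
    .cons (fun d hd h0 => h0 k_b_c) (
    .cons (fun d hd h0 => h0 e_b_al) (
    .cons (fun d hd h0 h1 h2 => h2 (tpy tp_r s_r h0.2 h1.2)) (
    .cons (fun d hd h0 h1 h2 h3 h4 h5 h6 => h6 (arx h ar_b s_b s_r s_al n_al_r h0.2 (ng h1) h2.2 h3.2 h4 h5)) (
    .cons (fun d hd h0 h1 h2 h3 h4 h5 h6 => h6 (ary h ar_b s_b s_r s_al n_al_r tp_r (ng h0) h1.2 h2.2 h3.2 h4 h5)) (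
    .cons (fun d hd h0 h1 h2 h3 h4 h5 h6 => h6 (arx h ar_c s_c s_r s_al n_al_r h0.2 (ng h1) h2.2 h3.2 h4 h5)) (
    .cons (fun d hd h0 h1 h2 h3 h4 h5 h6 => h6 (ary h ar_c s_c s_r s_al n_al_r tp_r (ng h0) h1.2 h2.2 h3.2 h4 h5)) (
    .cons (fun d hd h0 => h0 ⟨rfl, s_m⟩) (
    .cons (fun d hd h0 => h0 ⟨rfl, g_m.1⟩) (
    .cons (fun d hd h0 => h0 ⟨rfl, g_m.2.1⟩) (
    .cons (fun d hd h0 => ne_al_m h0) (
    .cons (fun d hd h0 => h0 ⟨rfl, s_t⟩) (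
    .cons (fun d hd h0 => h0 ⟨rfl, g_t.1⟩) (
    .cons (fun d hd h0 => h0 ⟨rfl, g_t.2.1⟩) (
    .cons (fun d hd h0 => nk_b_t h0) (
    .cons (fun d hd h0 => h0 (txp h x_b_r_t_al)) (
    .cons (fun d hd h0 h1 h2 => h2 (tpx tp_t s_t (ng h0) h1.2)) (
    .cons (fun d hd h0 h1 h2 => h2 (tpx tp_b s_b (ng h0) h1.2)) (
    .cons (fun d hd h0 => h0 ⟨rfl, s_zbt⟩) (
    .cons (fun d hd h0 => h0 ⟨rfl, g_zbt.1⟩) (
    .cons (fun d hd h0 => h0 ⟨rfl, g_zbt.2.1⟩) (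
    .cons (fun d hd h0 => s_dbt h0.2) (
    .cons (fun d hd h0 => h0 ⟨rfl, g_dbt.1⟩) (
    .cons (fun d hd h0 => h0 ⟨rfl, g_dbt.2.1⟩) (
    .cons (fun d hd h0 => h0 (txp h x_b_t_zbt_al)) (
    .cons (fun d hd h0 => ne_zbt_dbt h0) (
    .cons (fun d hd h0 => h0 ⟨rfl, s_u⟩) (
    .cons (fun d hd h0 => u_u h0.2) (
    .cons (fun d hd h0 => h0 ⟨rfl, d_u⟩) (
    .cons (fun d hd h0 => h0 ⟨rfl, s_x⟩) (
    .cons (fun d hd h0 => h0 ⟨rfl, g_x.1⟩) (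
    .cons (fun d hd h0 => h0 ⟨rfl, g_x.2.1⟩) (
    .cons (fun d hd h0 => nk_b_x h0) (
    .cons (fun d hd h0 => ne_x_al h0) (
    .cons (fun d hd h0 => h0 (ttp h t_t_u_b_x)) (
    .nil)))))))))))))))))))))))))))))))))))))))))))))))

/-- templates -/
def lb_d_xs_x : List Tm := [
  ⟨0, [], [], [.b true 2 8 8]⟩,
  ⟨0, [], [], [.b true 3 8 8]⟩,
  ⟨0, [], [], [.b true 4 8 8]⟩,
  ⟨0, [], [], [.b true 2 9 9]⟩,
  ⟨0, [], [], [.b true 3 9 9]⟩,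
  ⟨0, [], [], [.b true 4 9 9]⟩,
  ⟨0, [], [], [.b false 2 10 10]⟩,
  ⟨0, [], [], [.b true 3 10 10]⟩,
  ⟨0, [], [], [.b true 4 10 10]⟩,
  ⟨0, [], [], [.b false 2 11 11]⟩,
  ⟨0, [], [], [.b true 3 11 11]⟩,
  ⟨0, [], [], [.b true 4 11 11]⟩,
  ⟨0, [], [], [.b true 1 8 9]⟩,
  ⟨0, [], [], [.b true 0 8 10]⟩,
  ⟨1, [], [], [.b false 2 0 0, .b false 3 0 0, .b true 0 0 11]⟩,
  ⟨2, [], [], [.b false 2 0 0, .b true 2 1 1, .b false 3 0 0, .b false 3 1 1, .b true 1 0 8, .q false 0 8 11 0 10, .b true 0 0 1]⟩,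
  ⟨2, [], [], [.b true 2 0 0, .b false 2 1 1, .b false 3 0 0, .b false 3 1 1, .b true 1 0 8, .q false 0 8 11 0 10, .b true 0 0 1]⟩,
  ⟨2, [], [], [.b false 2 0 0, .b true 2 1 1, .b false 3 0 0, .b false 3 1 1, .b true 1 0 9, .q false 0 9 11 0 10, .b true 0 0 1]⟩,
  ⟨2, [], [], [.b true 2 0 0, .b false 2 1 1, .b false 3 0 0, .b false 3 1 1, .b true 1 0 9, .q false 0 9 11 0 10, .b true 0 0 1]⟩,
  ⟨0, [], [], [.b true 2 12 12]⟩,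
  ⟨0, [], [], [.b true 3 12 12]⟩,
  ⟨0, [], [], [.b true 4 12 12]⟩,
  ⟨0, [], [], [.b false 0 10 12]⟩,
  ⟨0, [], [], [.b true 2 13 13]⟩,
  ⟨0, [], [], [.b true 3 13 13]⟩,
  ⟨0, [], [], [.b true 4 13 13]⟩,
  ⟨0, [], [], [.b false 1 8 13]⟩,
  ⟨0, [], [], [.q true 0 8 11 13 10]⟩,
  ⟨1, [], [], [.b true 2 0 0, .b false 3 0 0, .b true 0 0 13]⟩,
  ⟨1, [], [], [.b true 2 0 0, .b false 3 0 0, .b true 0 0 8]⟩,
  ⟨0, [], [], [.b true 2 14 14]⟩,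
  ⟨0, [], [], [.b true 3 14 14]⟩,
  ⟨0, [], [], [.b true 4 14 14]⟩,
  ⟨0, [], [], [.b false 2 15 15]⟩,
  ⟨0, [], [], [.b true 3 15 15]⟩,
  ⟨0, [], [], [.b true 4 15 15]⟩,
  ⟨0, [], [], [.q true 0 8 13 14 10]⟩,
  ⟨0, [], [], [.b false 0 14 15]⟩,
  ⟨0, [], [], [.b true 2 16 16]⟩,
  ⟨0, [], [], [.b false 3 16 16]⟩,
  ⟨0, [], [], [.b true 4 16 16]⟩,
  ⟨0, [], [], [.q true 1 10 16 8 13]⟩]

def lb_d_xs_p0 : List Nat := [
0x64ca190000000470000000410000000630000000710df0000501,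
0xe6f000000077000000079008c000301,
0xca400300000007d0de6000201,
0x460ca070000000020000000060dec000301,
0xca4600700000006b00000000803ba000301,
0xec02500000007700000000400000003500000007f0a06000501,
0xec5300000007700000000a00000007900000007100000007300000007f00000000c000800]

def lb_d_xs_pf : List Nat := lb_d_xs_p0

theorem lb_d_xs_ref {V : Type} {S : SRel V} {p : Nat → V} (hp : ∀ i j, i < 9 → j < 9 → p i = p j → i = j)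
    (hts : PHs S p 9 ((qO ++ (qT ++ qE)) ++ lb_d_xs_x)) : False :=
  refuteS (k := 9) (n2 := 5) (n3 := 1) (n4 := 2) (o3 := 225) (o4 := 390) (M := 2460) ((qO ++ (qT ++ qE)) ++ lb_d_xs_x) lb_d_xs_pf (by decide +kernel)
    (by decide +kernel) (by decide +kernel) (by decide +kernel) hp hts

theorem lb_d_xs {V : Type} {W : Wo V} (h : W.Ok) {b c al r m t zbt dbt u : V}
    (s_b : W.S b) (g_b : W.Gd b) (s_c : W.S c) (g_c : W.Gd c) (s_al : ¬ W.S al) (g_al : W.Gd al) (s_r : ¬ W.S r) (g_r : W.Gd r) (k_b_c : W.K b c) (e_b_al : W.G.Adj b al) (tp_r : W.Tp r) (n_al_r : al ≠ r) (ar_b : W.Arc b r al) (ar_c : W.Arc c r al) (s_m : W.S m) (g_m : W.Gd m) (ne_al_m : ¬ W.G.Adj al m) (s_t : W.S t) (g_t : W.Gd t) (nk_b_t : ¬ W.K b t) (x_b_r_t_al : CrF W.f b r t al) (tp_t : W.Tp t) (tp_b : W.Tp b) (s_zbt : W.S zbt) (g_zbt : W.Gd zbt) (s_dbt : ¬ W.S dbt) (g_dbt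 : W.Gd dbt) (x_b_t_zbt_al : CrF W.f b t zbt al) (ne_zbt_dbt : ¬ W.G.Adj zbt dbt) (s_u : W.S u) (u_u : ¬ W.A u) (d_u : W.D u) (t_al_u_b_t : W.T al u b t) : False := by
  have h' := h.tw (k := 9) (by decide)
  refine lb_d_xs_ref (S := Wo.rel h') (pt_inj (l := ([(b, 0), (c, 1), (al, 2), (r, 3), (m, 4), (t, 5), (zbt, 6), (dbt, 7), (u, 8)] : List (V × Fin 9))) (o := (b, 0))
    (List.Nodup.of_map Prod.snd (show ([0, 1, 2, 3, 4, 5, 6, 7, 8] : List (Fin 9)).Nodup by decide)) rfl) (PHs.app (UHs.phs ((qO_h h').app ((qT_h h').app (qE_h h'))) _ _) ?_)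
  exact
  .cons (fun d hd h0 => h0 ⟨rfl, s_b⟩) (
    .cons (fun d hd h0 => h0 ⟨rfl, g_b.1⟩) (
    .cons (fun d hd h0 => h0 ⟨rfl, g_b.2.1⟩) (
    .cons (fun d hd h0 => h0 ⟨rfl, s_c⟩) (
    .cons (fun d hd h0 => h0 ⟨rfl, g_c.1⟩) (
    .cons (fun d hd h0 => h0 ⟨rfl, g_c.2.1⟩) (
    .cons (fun d hd h0 => s_al h0.2) (
    .cons (fun d hd h0 => h0 ⟨rfl, g_al.1⟩) (
    .cons (fun d hd h0 => h0 ⟨rfl, g_al.2.1⟩) (
    .cons (fun d hd h0 => s_r h0.2) (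
    .cons (fun d hd h0 => h0 ⟨rfl, g_r.1⟩) (
    .cons (fun d hd h0 => h0 ⟨rfl, g_r.2.1⟩) (
    .cons (fun d hd h0 => h0 k_b_c) (
    .cons (fun d hd h0 => h0 e_b_al) (
    .cons (fun d hd h0 h1 h2 => h2 (tpy tp_r s_r h0.2 h1.2)) (
    .cons (fun d hd h0 h1 h2 h3 h4 h5 h6 => h6 (arx h ar_b s_b s_r s_al n_al_r h0.2 (ng h1) h2.2 h3.2 h4 h5)) (
    .cons (fun d hd h0 h1 h2 h3 h4 h5 h6 => h6 (ary h ar_b s_b s_r s_al n_al_r tp_r (ng h0) h1.2 h2.2 h3.2 h4 h5)) (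
    .cons (fun d hd h0 h1 h2 h3 h4 h5 h6 => h6 (arx h ar_c s_c s_r s_al n_al_r h0.2 (ng h1) h2.2 h3.2 h4 h5)) (
    .cons (fun d hd h0 h1 h2 h3 h4 h5 h6 => h6 (ary h ar_c s_c s_r s_al n_al_r tp_r (ng h0) h1.2 h2.2 h3.2 h4 h5)) (
    .cons (fun d hd h0 => h0 ⟨rfl, s_m⟩) (
    .cons (fun d hd h0 => h0 ⟨rfl, g_m.1⟩) (
    .cons (fun d hd h0 => h0 ⟨rfl, g_m.2.1⟩) (
    .cons (fun d hd h0 => ne_al_m h0) (
    .cons (fun d hd h0 => h0 ⟨rfl, s_t⟩) (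
    .cons (fun d hd h0 => h0 ⟨rfl, g_t.1⟩) (
    .cons (fun d hd h0 => h0 ⟨rfl, g_t.2.1⟩) (
    .cons (fun d hd h0 => nk_b_t h0) (
    .cons (fun d hd h0 => h0 (txp h x_b_r_t_al)) (
    .cons (fun d hd h0 h1 h2 => h2 (tpx tp_t s_t (ng h0) h1.2)) (
    .cons (fun d hd h0 h1 h2 => h2 (tpx tp_b s_b (ng h0) h1.2)) (
    .cons (fun d hd h0 => h0 ⟨rfl, s_zbt⟩) (
    .cons (fun d hd h0 => h0 ⟨rfl, g_zbt.1⟩) (
    .cons (fun d hd h0 => h0 ⟨rfl, g_zbt.2.1⟩) (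
    .cons (fun d hd h0 => s_dbt h0.2) (
    .cons (fun d hd h0 => h0 ⟨rfl, g_dbt.1⟩) (
    .cons (fun d hd h0 => h0 ⟨rfl, g_dbt.2.1⟩) (
    .cons (fun d hd h0 => h0 (txp h x_b_t_zbt_al)) (
    .cons (fun d hd h0 => ne_zbt_dbt h0) (
    .cons (fun d hd h0 => h0 ⟨rfl, s_u⟩) (
    .cons (fun d hd h0 => u_u h0.2) (
    .cons (fun d hd h0 => h0 ⟨rfl, d_u⟩) (
    .cons (fun d hd h0 => h0 (ttp h t_al_u_b_t)) (
    .nil))))))))))))))))))))))))))))))))))))))))))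

/-- templates -/
def lc_d_xs_x : List Tm := [
  ⟨0, [], [], [.b true 2 8 8]⟩,
  ⟨0, [], [], [.b true 3 8 8]⟩,
  ⟨0, [], [], [.b true 4 8 8]⟩,
  ⟨0, [], [], [.b true 2 9 9]⟩,
  ⟨0, [], [], [.b true 3 9 9]⟩,
  ⟨0, [], [], [.b true 4 9 9]⟩,
  ⟨0, [], [], [.b false 2 10 10]⟩,
  ⟨0, [], [], [.b true 3 10 10]⟩,
  ⟨0, [], [], [.b true 4 10 10]⟩,
  ⟨0, [], [], [.b false 2 11 11]⟩,
  ⟨0, [], [], [.b true 3 11 11]⟩,
  ⟨0, [], [], [.b true 4 11 11]⟩,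
  ⟨0, [], [], [.b true 1 8 9]⟩,
  ⟨0, [], [], [.b true 0 8 10]⟩,
  ⟨1, [], [], [.b false 2 0 0, .b false 3 0 0, .b true 0 0 11]⟩,
  ⟨2, [], [], [.b false 2 0 0, .b true 2 1 1, .b false 3 0 0, .b false 3 1 1, .b true 1 0 8, .q false 0 8 11 0 10, .b true 0 0 1]⟩,
  ⟨2, [], [], [.b true 2 0 0, .b false 2 1 1, .b false 3 0 0, .b false 3 1 1, .b true 1 0 8, .q false 0 8 11 0 10, .b true 0 0 1]⟩,
  ⟨2, [], [], [.b false 2 0 0, .b true 2 1 1, .b false 3 0 0, .b false 3 1 1, .b true 1 0 9, .q false 0 9 11 0 10, .b true 0 0 1]⟩,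
  ⟨2, [], [], [.b true 2 0 0, .b false 2 1 1, .b false 3 0 0, .b false 3 1 1, .b true 1 0 9, .q false 0 9 11 0 10, .b true 0 0 1]⟩,
  ⟨0, [], [], [.b true 2 12 12]⟩,
  ⟨0, [], [], [.b true 3 12 12]⟩,
  ⟨0, [], [], [.b true 4 12 12]⟩,
  ⟨0, [], [], [.b false 0 10 12]⟩,
  ⟨0, [], [], [.b true 2 13 13]⟩,
  ⟨0, [], [], [.b true 3 13 13]⟩,
  ⟨0, [], [], [.b true 4 13 13]⟩,
  ⟨0, [], [], [.b false 1 8 13]⟩,
  ⟨0, [], [], [.q true 0 8 11 13 10]⟩,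
  ⟨1, [], [], [.b true 2 0 0, .b false 3 0 0, .b true 0 0 13]⟩,
  ⟨1, [], [], [.b true 2 0 0, .b false 3 0 0, .b true 0 0 8]⟩,
  ⟨0, [], [], [.b true 2 14 14]⟩,
  ⟨0, [], [], [.b true 3 14 14]⟩,
  ⟨0, [], [], [.b true 4 14 14]⟩,
  ⟨0, [], [], [.b false 2 15 15]⟩,
  ⟨0, [], [], [.b true 3 15 15]⟩,
  ⟨0, [], [], [.b true 4 15 15]⟩,
  ⟨0, [], [], [.q true 0 8 13 14 10]⟩,
  ⟨0, [], [], [.b false 0 14 15]⟩,
  ⟨0, [], [], [.b true 2 16 16]⟩,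
  ⟨0, [], [], [.b false 3 16 16]⟩,
  ⟨0, [], [], [.b true 4 16 16]⟩,
  ⟨0, [], [], [.b true 2 17 17]⟩,
  ⟨0, [], [], [.b false 3 17 17]⟩,
  ⟨0, [], [], [.b true 4 17 17]⟩,
  ⟨0, [], [], [.q true 1 13 16 8 17]⟩]

def lc_d_xs_p0 : List Nat := [
0x64ca1900000004700000004100000006300000007112b4000501,
0xe6f000000077000000079008c000301,
0xca400300000007d12aa000201,
0x460ca0700000000200000000612b0000301,
0xca4600700000006b0000000080423000301,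
0xec02500000007700000000400000003500000007f0e61000501,
0xec5300000007700000000a00000007900000007100000007300000007f00000000c000800]

def lc_d_xs_pf : List Nat := lc_d_xs_p0

theorem lc_d_xs_ref {V : Type} {S : SRel V} {p : Nat → V} (hp : ∀ i j, i < 10 → j < 10 → p i = p j → i = j)
    (hts : PHs S p 10 ((qO ++ (qT ++ qE)) ++ lc_d_xs_x)) : False :=
  refuteS (k := 10) (n2 := 5) (n3 := 1) (n4 := 2) (o3 := 275) (o4 := 495) (M := 3575) ((qO ++ (qT ++ qE)) ++ lc_d_xs_x) lc_d_xs_pf (by decide +kernel)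
    (by decide +kernel) (by decide +kernel) (by decide +kernel) hp hts

theorem lc_d_xs {V : Type} {W : Wo V} (h : W.Ok) {b c al r m t zbt dbt u v : V}
    (s_b : W.S b) (g_b : W.Gd b) (s_c : W.S c) (g_c : W.Gd c) (s_al : ¬ W.S al) (g_al : W.Gd al) (s_r : ¬ W.S r) (g_r : W.Gd r) (k_b_c : W.K b c) (e_b_al : W.G.Adj b al) (tp_r : W.Tp r) (n_al_r : al ≠ r) (ar_b : W.Arc b r al) (ar_c : W.Arc c r al) (s_m : W.S m) (g_m : W.Gd m) (ne_al_m : ¬ W.G.Adj al m) (s_t : W.S t) (g_t : W.Gd t) (nk_b_t : ¬ W.K b t) (x_b_r_t_al : CrF W.f b r t al) (tp_t : W.Tp t) (tp_b : W.Tp b) (s_zbt : W.S zbt) (g_zbt : W.Gd zbt) (s_dbt : ¬ W.S dbt) (g_dbt : W.Gd dbt) (x_b_t_zbt_al : CrF W.f b t zbt al) (ne_zbt_dbt : ¬ W.G.Adj zbt dbt) (s_u : W.S u) (u_u : ¬ W.A u) (d_u : W.D u) (s_v : W.S v) (u_v : ¬ W.A v) (d_v : W.D v) (t_t_u_b_v : W.T t u b v) : False := by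
  have h' := h.tw (k := 10) (by decide)
  refine lc_d_xs_ref (S := Wo.rel h') (pt_inj (l := ([(b, 0), (c, 1), (al, 2), (r, 3), (m, 4), (t, 5), (zbt, 6), (dbt, 7), (u, 8), (v, 9)] : List (V × Fin 10))) (o := (b, 0))
    (List.Nodup.of_map Prod.snd (show ([0, 1, 2, 3, 4, 5, 6, 7, 8, 9] : List (Fin 10)).Nodup by decide)) rfl) (PHs.app (UHs.phs ((qO_h h').app ((qT_h h').app (qE_h h'))) _ _) ?_)
  exact
  .cons (fun d hd h0 => h0 ⟨rfl, s_b⟩) (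
    .cons (fun d hd h0 => h0 ⟨rfl, g_b.1⟩) (
    .cons (fun d hd h0 => h0 ⟨rfl, g_b.2.1⟩) (
    .cons (fun d hd h0 => h0 ⟨rfl, s_c⟩) (
    .cons (fun d hd h0 => h0 ⟨rfl, g_c.1⟩) (
    .cons (fun d hd h0 => h0 ⟨rfl, g_c.2.1⟩) (
    .cons (fun d hd h0 => s_al h0.2) (
    .cons (fun d hd h0 => h0 ⟨rfl, g_al.1⟩) (
    .cons (fun d hd h0 => h0 ⟨rfl, g_al.2.1⟩) (
    .cons (fun d hd h0 => s_r h0.2) (
    .cons (fun d hd h0 => h0 ⟨rfl, g_r.1⟩) (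
    .cons (fun d hd h0 => h0 ⟨rfl, g_r.2.1⟩) (
    .cons (fun d hd h0 => h0 k_b_c) (
    .cons (fun d hd h0 => h0 e_b_al) (
    .cons (fun d hd h0 h1 h2 => h2 (tpy tp_r s_r h0.2 h1.2)) (
    .cons (fun d hd h0 h1 h2 h3 h4 h5 h6 => h6 (arx h ar_b s_b s_r s_al n_al_r h0.2 (ng h1) h2.2 h3.2 h4 h5)) (
    .cons (fun d hd h0 h1 h2 h3 h4 h5 h6 => h6 (ary h ar_b s_b s_r s_al n_al_r tp_r (ng h0) h1.2 h2.2 h3.2 h4 h5)) (
    .cons (fun d hd h0 h1 h2 h3 h4 h5 h6 => h6 (arx h ar_c s_c s_r s_al n_al_r h0.2 (ng h1) h2.2 h3.2 h4 h5)) (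
    .cons (fun d hd h0 h1 h2 h3 h4 h5 h6 => h6 (ary h ar_c s_c s_r s_al n_al_r tp_r (ng h0) h1.2 h2.2 h3.2 h4 h5)) (
    .cons (fun d hd h0 => h0 ⟨rfl, s_m⟩) (
    .cons (fun d hd h0 => h0 ⟨rfl, g_m.1⟩) (
    .cons (fun d hd h0 => h0 ⟨rfl, g_m.2.1⟩) (
    .cons (fun d hd h0 => ne_al_m h0) (
    .cons (fun d hd h0 => h0 ⟨rfl, s_t⟩) (
    .cons (fun d hd h0 => h0 ⟨rfl, g_t.1⟩) (
    .cons (fun d hd h0 => h0 ⟨rfl, g_t.2.1⟩) (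
    .cons (fun d hd h0 => nk_b_t h0) (
    .cons (fun d hd h0 => h0 (txp h x_b_r_t_al)) (
    .cons (fun d hd h0 h1 h2 => h2 (tpx tp_t s_t (ng h0) h1.2)) (
    .cons (fun d hd h0 h1 h2 => h2 (tpx tp_b s_b (ng h0) h1.2)) (
    .cons (fun d hd h0 => h0 ⟨rfl, s_zbt⟩) (
    .cons (fun d hd h0 => h0 ⟨rfl, g_zbt.1⟩) (
    .cons (fun d hd h0 => h0 ⟨rfl, g_zbt.2.1⟩) (
    .cons (fun d hd h0 => s_dbt h0.2) (
    .cons (fun d hd h0 => h0 ⟨rfl, g_dbt.1⟩) (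
    .cons (fun d hd h0 => h0 ⟨rfl, g_dbt.2.1⟩) (
    .cons (fun d hd h0 => h0 (txp h x_b_t_zbt_al)) (
    .cons (fun d hd h0 => ne_zbt_dbt h0) (
    .cons (fun d hd h0 => h0 ⟨rfl, s_u⟩) (
    .cons (fun d hd h0 => u_u h0.2) (
    .cons (fun d hd h0 => h0 ⟨rfl, d_u⟩) (
    .cons (fun d hd h0 => h0 ⟨rfl, s_v⟩) (
    .cons (fun d hd h0 => u_v h0.2) (
    .cons (fun d hd h0 => h0 ⟨rfl, d_v⟩) (
    .cons (fun d hd h0 => h0 (ttp h t_t_u_b_v)) (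
    .nil)))))))))))))))))))))))))))))))))))))))))))))

/-- templates -/
def fr_d_y_x : List Tm := [
  ⟨0, [], [], [.b true 2 8 8]⟩,
  ⟨0, [], [], [.b true 3 8 8]⟩,
  ⟨0, [], [], [.b true 4 8 8]⟩,
  ⟨0, [], [], [.b true 2 9 9]⟩,
  ⟨0, [], [], [.b true 3 9 9]⟩,
  ⟨0, [], [], [.b true 4 9 9]⟩,
  ⟨0, [], [], [.b false 2 10 10]⟩,
  ⟨0, [], [], [.b true 3 10 10]⟩,
  ⟨0, [], [], [.b true 4 10 10]⟩,
  ⟨0, [], [], [.b false 2 11 11]⟩,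
  ⟨0, [], [], [.b true 3 11 11]⟩,
  ⟨0, [], [], [.b true 4 11 11]⟩,
  ⟨0, [], [], [.b true 1 8 9]⟩,
  ⟨0, [], [], [.b true 0 8 10]⟩,
  ⟨1, [], [], [.b false 2 0 0, .b false 3 0 0, .b true 0 0 11]⟩,
  ⟨2, [], [], [.b false 2 0 0, .b true 2 1 1, .b false 3 0 0, .b false 3 1 1, .b true 1 0 8, .q false 0 8 11 0 10, .b true 0 0 1]⟩,
  ⟨2, [], [], [.b true 2 0 0, .b false 2 1 1, .b false 3 0 0, .b false 3 1 1, .b true 1 0 8, .q false 0 8 11 0 10, .b true 0 0 1]⟩,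
  ⟨2, [], [], [.b false 2 0 0, .b true 2 1 1, .b false 3 0 0, .b false 3 1 1, .b true 1 0 9, .q false 0 9 11 0 10, .b true 0 0 1]⟩,
  ⟨2, [], [], [.b true 2 0 0, .b false 2 1 1, .b false 3 0 0, .b false 3 1 1, .b true 1 0 9, .q false 0 9 11 0 10, .b true 0 0 1]⟩,
  ⟨0, [], [], [.b true 2 12 12]⟩,
  ⟨0, [], [], [.b true 3 12 12]⟩,
  ⟨0, [], [], [.b true 4 12 12]⟩,
  ⟨0, [], [], [.b false 0 10 12]⟩,
  ⟨0, [], [], [.b false 2 13 13]⟩,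
  ⟨0, [], [], [.b true 3 13 13]⟩,
  ⟨0, [], [], [.b true 4 13 13]⟩,
  ⟨0, [], [], [.q true 0 8 11 13 10]⟩,
  ⟨1, [], [], [.b false 2 0 0, .b false 3 0 0, .b true 0 0 13]⟩,
  ⟨0, [], [], [.b false 2 14 14]⟩,
  ⟨0, [], [], [.b true 3 14 14]⟩,
  ⟨0, [], [], [.b true 4 14 14]⟩,
  ⟨0, [], [], [.b true 2 15 15]⟩,
  ⟨0, [], [], [.b true 3 15 15]⟩,
  ⟨0, [], [], [.b true 4 15 15]⟩,
  ⟨0, [], [], [.q true 0 13 11 14 8]⟩,
  ⟨0, [], [], [.b false 0 14 15]⟩,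
  ⟨0, [], [], [.b true 0 8 9]⟩,
  ⟨0, [], [], [.q false 1 8 9 13 11]⟩]

def fr_d_y_p0 : List Nat := [
0xc02100000003500000006d06ca000301,
0xac60030000000790a56000201,
0xca460070000000690000000040360000301,
0xec5500000007500000006d00000000200000006f00000007300000000600aa000701,
0x7b000000008000200]

def fr_d_y_pf : List Nat := fr_d_y_p0

theorem fr_d_y_ref {V : Type} {S : SRel V} {p : Nat → V} (hp : ∀ i j, i < 8 → j < 8 → p i = p j → i = j)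
    (hts : PHs S p 8 ((qO ++ (qT ++ qE)) ++ fr_d_y_x)) : False :=
  refuteS (k := 8) (n2 := 5) (n3 := 1) (n4 := 2) (o3 := 180) (o4 := 300) (M := 1632) ((qO ++ (qT ++ qE)) ++ fr_d_y_x) fr_d_y_pf (by decide +kernel)
    (by decide +kernel) (by decide +kernel) (by decide +kernel) hp hts

theorem fr_d_y {V : Type} {W : Wo V} (h : W.Ok) {b c al r m t zrt drt : V}
    (s_b : W.S b) (g_b : W.Gd b) (s_c : W.S c) (g_c : W.Gd c) (s_al : ¬ W.S al) (g_al : W.Gd al) (s_r : ¬ W.S r) (g_r : W.Gd r) (k_b_c : W.K b c) (e_b_al : W.G.Adj b al) (tp_r : W.Tp r) (n_al_r : al ≠ r) (ar_b : W.Arc b r al) (ar_c : W.Arc c r al) (s_m : W.S m) (g_m : W.Gd m) (ne_al_m : ¬ W.G.Adj al m) (s_t : ¬ W.S t) (g_t : W.Gd t) (x_b_r_t_al : CrF W.f b r t al) (tp_t : W.Tp t) (s_zrt : ¬ W.S zrt) (g_zrt : W.Gd zrt) (s_drt : W.S drt) (g_drt : W.Gd drt) (x_t_r_zrt_b : CrF W.f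 t r zrt b) (ne_zrt_drt : ¬ W.G.Adj zrt drt) (n_t_r : t ≠ r) (e_b_c : W.G.Adj b c) (nt_b_c_t_r : ¬ W.T b c t r) : False := by
  have h' := h.tw (k := 8) (by decide)
  refine fr_d_y_ref (S := Wo.rel h') (pt_inj (l := ([(b, 0), (c, 1), (al, 2), (r, 3), (m, 4), (t, 5), (zrt, 6), (drt, 7)] : List (V × Fin 8))) (o := (b, 0))
    (List.Nodup.of_map Prod.snd (show ([0, 1, 2, 3, 4, 5, 6, 7] : List (Fin 8)).Nodup by decide)) rfl) (PHs.app (UHs.phs ((qO_h h').app ((qT_h h').app (qE_h h'))) _ _) ?_)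
  exact
  .cons (fun d hd h0 => h0 ⟨rfl, s_b⟩) (
    .cons (fun d hd h0 => h0 ⟨rfl, g_b.1⟩) (
    .cons (fun d hd h0 => h0 ⟨rfl, g_b.2.1⟩) (
    .cons (fun d hd h0 => h0 ⟨rfl, s_c⟩) (
    .cons (fun d hd h0 => h0 ⟨rfl, g_c.1⟩) (
    .cons (fun d hd h0 => h0 ⟨rfl, g_c.2.1⟩) (
    .cons (fun d hd h0 => s_al h0.2) (
    .cons (fun d hd h0 => h0 ⟨rfl, g_al.1⟩) (
    .cons (fun d hd h0 => h0 ⟨rfl, g_al.2.1⟩) (
    .cons (fun d hd h0 => s_r h0.2) (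
    .cons (fun d hd h0 => h0 ⟨rfl, g_r.1⟩) (
    .cons (fun d hd h0 => h0 ⟨rfl, g_r.2.1⟩) (
    .cons (fun d hd h0 => h0 k_b_c) (
    .cons (fun d hd h0 => h0 e_b_al) (
    .cons (fun d hd h0 h1 h2 => h2 (tpy tp_r s_r h0.2 h1.2)) (
    .cons (fun d hd h0 h1 h2 h3 h4 h5 h6 => h6 (arx h ar_b s_b s_r s_al n_al_r h0.2 (ng h1) h2.2 h3.2 h4 h5)) (
    .cons (fun d hd h0 h1 h2 h3 h4 h5 h6 => h6 (ary h ar_b s_b s_r s_al n_al_r tp_r (ng h0) h1.2 h2.2 h3.2 h4 h5)) (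
    .cons (fun d hd h0 h1 h2 h3 h4 h5 h6 => h6 (arx h ar_c s_c s_r s_al n_al_r h0.2 (ng h1) h2.2 h3.2 h4 h5)) (
    .cons (fun d hd h0 h1 h2 h3 h4 h5 h6 => h6 (ary h ar_c s_c s_r s_al n_al_r tp_r (ng h0) h1.2 h2.2 h3.2 h4 h5)) (
    .cons (fun d hd h0 => h0 ⟨rfl, s_m⟩) (
    .cons (fun d hd h0 => h0 ⟨rfl, g_m.1⟩) (
    .cons (fun d hd h0 => h0 ⟨rfl, g_m.2.1⟩) (
    .cons (fun d hd h0 => ne_al_m h0) (
    .cons (fun d hd h0 => s_t h0.2) (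
    .cons (fun d hd h0 => h0 ⟨rfl, g_t.1⟩) (
    .cons (fun d hd h0 => h0 ⟨rfl, g_t.2.1⟩) (
    .cons (fun d hd h0 => h0 (txp h x_b_r_t_al)) (
    .cons (fun d hd h0 h1 h2 => h2 (tpy tp_t s_t h0.2 h1.2)) (
    .cons (fun d hd h0 => s_zrt h0.2) (
    .cons (fun d hd h0 => h0 ⟨rfl, g_zrt.1⟩) (
    .cons (fun d hd h0 => h0 ⟨rfl, g_zrt.2.1⟩) (
    .cons (fun d hd h0 => h0 ⟨rfl, s_drt⟩) (
    .cons (fun d hd h0 => h0 ⟨rfl, g_drt.1⟩) (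
    .cons (fun d hd h0 => h0 ⟨rfl, g_drt.2.1⟩) (
    .cons (fun d hd h0 => h0 (txp h x_t_r_zrt_b)) (
    .cons (fun d hd h0 => ne_zrt_drt h0) (
    .cons (fun d hd h0 => h0 e_b_c) (
    .cons (fun d hd h0 => nt_b_c_t_r (ttn e_b_c.ne n_t_r h0)) (
    .nil))))))))))))))))))))))))))))))))))))))

/-- templates -/
def ll_d_y_x : List Tm := [
  ⟨0, [], [], [.b true 2 8 8]⟩,
  ⟨0, [], [], [.b true 3 8 8]⟩,
  ⟨0, [], [], [.b true 4 8 8]⟩,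
  ⟨0, [], [], [.b true 2 9 9]⟩,
  ⟨0, [], [], [.b true 3 9 9]⟩,
  ⟨0, [], [], [.b true 4 9 9]⟩,
  ⟨0, [], [], [.b false 2 10 10]⟩,
  ⟨0, [], [], [.b true 3 10 10]⟩,
  ⟨0, [], [], [.b true 4 10 10]⟩,
  ⟨0, [], [], [.b false 2 11 11]⟩,
  ⟨0, [], [], [.b true 3 11 11]⟩,
  ⟨0, [], [], [.b true 4 11 11]⟩,
  ⟨0, [], [], [.b true 1 8 9]⟩,
  ⟨0, [], [], [.b true 0 8 10]⟩,
  ⟨1, [], [], [.b false 2 0 0, .b false 3 0 0, .b true 0 0 11]⟩,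
  ⟨2, [], [], [.b false 2 0 0, .b true 2 1 1, .b false 3 0 0, .b false 3 1 1, .b true 1 0 8, .q false 0 8 11 0 10, .b true 0 0 1]⟩,
  ⟨2, [], [], [.b true 2 0 0, .b false 2 1 1, .b false 3 0 0, .b false 3 1 1, .b true 1 0 8, .q false 0 8 11 0 10, .b true 0 0 1]⟩,
  ⟨2, [], [], [.b false 2 0 0, .b true 2 1 1, .b false 3 0 0, .b false 3 1 1, .b true 1 0 9, .q false 0 9 11 0 10, .b true 0 0 1]⟩,
  ⟨2, [], [], [.b true 2 0 0, .b false 2 1 1, .b false 3 0 0, .b false 3 1 1, .b true 1 0 9, .q false 0 9 11 0 10, .b true 0 0 1]⟩,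
  ⟨0, [], [], [.b true 2 12 12]⟩,
  ⟨0, [], [], [.b true 3 12 12]⟩,
  ⟨0, [], [], [.b true 4 12 12]⟩,
  ⟨0, [], [], [.b false 0 10 12]⟩,
  ⟨0, [], [], [.b false 2 13 13]⟩,
  ⟨0, [], [], [.b true 3 13 13]⟩,
  ⟨0, [], [], [.b true 4 13 13]⟩,
  ⟨0, [], [], [.q true 0 8 11 13 10]⟩,
  ⟨1, [], [], [.b false 2 0 0, .b false 3 0 0, .b true 0 0 13]⟩,
  ⟨0, [], [], [.b false 2 14 14]⟩,
  ⟨0, [], [], [.b true 3 14 14]⟩,
  ⟨0, [], [], [.b true 4 14 14]⟩,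
  ⟨0, [], [], [.b true 2 15 15]⟩,
  ⟨0, [], [], [.b true 3 15 15]⟩,
  ⟨0, [], [], [.b true 4 15 15]⟩,
  ⟨0, [], [], [.q true 0 13 11 14 8]⟩,
  ⟨0, [], [], [.b false 0 14 15]⟩,
  ⟨0, [], [], [.b true 2 16 16]⟩,
  ⟨0, [], [], [.b false 3 16 16]⟩,
  ⟨0, [], [], [.b true 4 16 16]⟩,
  ⟨0, [], [], [.b true 2 17 17]⟩,
  ⟨0, [], [], [.b true 3 17 17]⟩,
  ⟨0, [], [], [.b true 4 17 17]⟩,
  ⟨0, [], [], [.b false 1 8 17]⟩,
  ⟨0, [], [], [.b false 0 17 10]⟩,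
  ⟨0, [], [], [.q true 1 13 16 8 17]⟩]

def ll_d_y_p0 : List Nat := [
0xc02100000003500000006d0e61000301,
0xac600300000007912b0000201,
0xca460070000000690000000040423000301,
0xec5500000007500000006d00000000200000006f00000007300000000600aa000701,
0x7b000000008000200]

def ll_d_y_pf : List Nat := ll_d_y_p0

theorem ll_d_y_ref {V : Type} {S : SRel V} {p : Nat → V} (hp : ∀ i j, i < 10 → j < 10 → p i = p j → i = j)
    (hts : PHs S p 10 ((qO ++ (qT ++ qE)) ++ ll_d_y_x)) : False :=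
  refuteS (k := 10) (n2 := 5) (n3 := 1) (n4 := 2) (o3 := 275) (o4 := 495) (M := 3575) ((qO ++ (qT ++ qE)) ++ ll_d_y_x) ll_d_y_pf (by decide +kernel)
    (by decide +kernel) (by decide +kernel) (by decide +kernel) hp hts

theorem ll_d_y {V : Type} {W : Wo V} (h : W.Ok) {b c al r m t zrt drt u x : V}
    (s_b : W.S b) (g_b : W.Gd b) (s_c : W.S c) (g_c : W.Gd c) (s_al : ¬ W.S al) (g_al : W.Gd al) (s_r : ¬ W.S r) (g_r : W.Gd r) (k_b_c : W.K b c) (e_b_al : W.G.Adj b al) (tp_r : W.Tp r) (n_al_r : al ≠ r) (ar_b : W.Arc b r al) (ar_c : W.Arc c r al) (s_m : W.S m) (g_m : W.Gd m) (ne_al_m : ¬ W.G.Adj al m) (s_t : ¬ W.S t) (g_t : W.Gd t) (x_b_r_t_al : CrF W.f b r t al) (tp_t : W.Tp t) (s_zrt : ¬ W.S zrt) (g_zrt : W.Gd zrt) (s_drt : W.S drt) (g_drt : W.Gd drt) (x_t_r_zrt_b : CrF W.f t r zrt b) (ne_zrt_drt : ¬ W.G.Adj zrt drt) (n_t_r : t ≠ r) (s_u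 : W.S u) (u_u : ¬ W.A u) (d_u : W.D u) (s_x : W.S x) (g_x : W.Gd x) (nk_b_x : ¬ W.K b x) (ne_x_al : ¬ W.G.Adj x al) (t_t_u_b_x : W.T t u b x) : False := by
  have h' := h.tw (k := 10) (by decide)
  refine ll_d_y_ref (S := Wo.rel h') (pt_inj (l := ([(b, 0), (c, 1), (al, 2), (r, 3), (m, 4), (t, 5), (zrt, 6), (drt, 7), (u, 8), (x, 9)] : List (V × Fin 10))) (o := (b, 0))
    (List.Nodup.of_map Prod.snd (show ([0, 1, 2, 3, 4, 5, 6, 7, 8, 9] : List (Fin 10)).Nodup by decide)) rfl) (PHs.app (UHs.phs ((qO_h h').app ((qT_h h').app (qE_h h'))) _ _) ?_)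
  exact
  .cons (fun d hd h0 => h0 ⟨rfl, s_b⟩) (
    .cons (fun d hd h0 => h0 ⟨rfl, g_b.1⟩) (
    .cons (fun d hd h0 => h0 ⟨rfl, g_b.2.1⟩) (
    .cons (fun d hd h0 => h0 ⟨rfl, s_c⟩) (
    .cons (fun d hd h0 => h0 ⟨rfl, g_c.1⟩) (
    .cons (fun d hd h0 => h0 ⟨rfl, g_c.2.1⟩) (
    .cons (fun d hd h0 => s_al h0.2) (
    .cons (fun d hd h0 => h0 ⟨rfl, g_al.1⟩) (
    .cons (fun d hd h0 => h0 ⟨rfl, g_al.2.1⟩) (
    .cons (fun d hd h0 => s_r h0.2) (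
    .cons (fun d hd h0 => h0 ⟨rfl, g_r.1⟩) (
    .cons (fun d hd h0 => h0 ⟨rfl, g_r.2.1⟩) (
    .cons (fun d hd h0 => h0 k_b_c) (
    .cons (fun d hd h0 => h0 e_b_al) (
    .cons (fun d hd h0 h1 h2 => h2 (tpy tp_r s_r h0.2 h1.2)) (
    .cons (fun d hd h0 h1 h2 h3 h4 h5 h6 => h6 (arx h ar_b s_b s_r s_al n_al_r h0.2 (ng h1) h2.2 h3.2 h4 h5)) (
    .cons (fun d hd h0 h1 h2 h3 h4 h5 h6 => h6 (ary h ar_b s_b s_r s_al n_al_r tp_r (ng h0) h1.2 h2.2 h3.2 h4 h5)) (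
    .cons (fun d hd h0 h1 h2 h3 h4 h5 h6 => h6 (arx h ar_c s_c s_r s_al n_al_r h0.2 (ng h1) h2.2 h3.2 h4 h5)) (
    .cons (fun d hd h0 h1 h2 h3 h4 h5 h6 => h6 (ary h ar_c s_c s_r s_al n_al_r tp_r (ng h0) h1.2 h2.2 h3.2 h4 h5)) (
    .cons (fun d hd h0 => h0 ⟨rfl, s_m⟩) (
    .cons (fun d hd h0 => h0 ⟨rfl, g_m.1⟩) (
    .cons (fun d hd h0 => h0 ⟨rfl, g_m.2.1⟩) (
    .cons (fun d hd h0 => ne_al_m h0) (
    .cons (fun d hd h0 => s_t h0.2) (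
    .cons (fun d hd h0 => h0 ⟨rfl, g_t.1⟩) (
    .cons (fun d hd h0 => h0 ⟨rfl, g_t.2.1⟩) (
    .cons (fun d hd h0 => h0 (txp h x_b_r_t_al)) (
    .cons (fun d hd h0 h1 h2 => h2 (tpy tp_t s_t h0.2 h1.2)) (
    .cons (fun d hd h0 => s_zrt h0.2) (
    .cons (fun d hd h0 => h0 ⟨rfl, g_zrt.1⟩) (
    .cons (fun d hd h0 => h0 ⟨rfl, g_zrt.2.1⟩) (
    .cons (fun d hd h0 => h0 ⟨rfl, s_drt⟩) (
    .cons (fun d hd h0 => h0 ⟨rfl, g_drt.1⟩) (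
    .cons (fun d hd h0 => h0 ⟨rfl, g_drt.2.1⟩) (
    .cons (fun d hd h0 => h0 (txp h x_t_r_zrt_b)) (
    .cons (fun d hd h0 => ne_zrt_drt h0) (
    .cons (fun d hd h0 => h0 ⟨rfl, s_u⟩) (
    .cons (fun d hd h0 => u_u h0.2) (
    .cons (fun d hd h0 => h0 ⟨rfl, d_u⟩) (
    .cons (fun d hd h0 => h0 ⟨rfl, s_x⟩) (
    .cons (fun d hd h0 => h0 ⟨rfl, g_x.1⟩) (
    .cons (fun d hd h0 => h0 ⟨rfl, g_x.2.1⟩) (
    .cons (fun d hd h0 => nk_b_x h0) (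
    .cons (fun d hd h0 => ne_x_al h0) (
    .cons (fun d hd h0 => h0 (ttp h t_t_u_b_x)) (
    .nil)))))))))))))))))))))))))))))))))))))))))))))

/-- templates -/
def ll_s_r_x : List Tm := [
  ⟨0, [], [], [.b true 2 8 8]⟩,
  ⟨0, [], [], [.b true 3 8 8]⟩,
  ⟨0, [], [], [.b true 4 8 8]⟩,
  ⟨0, [], [], [.b true 2 9 9]⟩,
  ⟨0, [], [], [.b true 3 9 9]⟩,
  ⟨0, [], [], [.b true 4 9 9]⟩,
  ⟨0, [], [], [.b false 2 10 10]⟩,
  ⟨0, [], [], [.b true 3 10 10]⟩,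
  ⟨0, [], [], [.b true 4 10 10]⟩,
  ⟨0, [], [], [.b false 2 11 11]⟩,
  ⟨0, [], [], [.b true 3 11 11]⟩,
  ⟨0, [], [], [.b true 4 11 11]⟩,
  ⟨0, [], [], [.b true 1 8 9]⟩,
  ⟨0, [], [], [.b true 0 8 10]⟩,
  ⟨1, [], [], [.b false 2 0 0, .b false 3 0 0, .b true 0 0 11]⟩,
  ⟨2, [], [], [.b false 2 0 0, .b true 2 1 1, .b false 3 0 0, .b false 3 1 1, .b true 1 0 8, .q false 0 8 11 0 10, .b true 0 0 1]⟩,
  ⟨2, [], [], [.b true 2 0 0, .b false 2 1 1, .b false 3 0 0, .b false 3 1 1, .b true 1 0 8, .q false 0 8 11 0 10, .b true 0 0 1]⟩,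
  ⟨2, [], [], [.b false 2 0 0, .b true 2 1 1, .b false 3 0 0, .b false 3 1 1, .b true 1 0 9, .q false 0 9 11 0 10, .b true 0 0 1]⟩,
  ⟨2, [], [], [.b true 2 0 0, .b false 2 1 1, .b false 3 0 0, .b false 3 1 1, .b true 1 0 9, .q false 0 9 11 0 10, .b true 0 0 1]⟩,
  ⟨1, [], [], [.b false 2 0 0, .b false 3 0 0, .b true 0 0 10]⟩,
  ⟨0, [], [], [.b false 2 12 12]⟩,
  ⟨0, [], [], [.b true 3 12 12]⟩,
  ⟨0, [], [], [.b true 4 12 12]⟩,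
  ⟨0, [], [], [.b true 2 13 13]⟩,
  ⟨0, [], [], [.b true 3 13 13]⟩,
  ⟨0, [], [], [.b true 4 13 13]⟩,
  ⟨0, [], [], [.q true 0 10 11 12 8]⟩,
  ⟨0, [], [], [.b false 0 12 13]⟩,
  ⟨0, [], [], [.b true 2 14 14]⟩,
  ⟨0, [], [], [.b false 3 14 14]⟩,
  ⟨0, [], [], [.b true 4 14 14]⟩,
  ⟨0, [], [], [.b true 2 15 15]⟩,
  ⟨0, [], [], [.b true 3 15 15]⟩,
  ⟨0, [], [], [.b true 4 15 15]⟩,
  ⟨0, [], [], [.b false 1 8 15]⟩,
  ⟨0, [], [], [.b false 0 15 10]⟩,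
  ⟨0, [], [], [.q true 1 11 14 8 15]⟩]

def ll_s_r_p0 : List Nat := [
0xe5b0000000730000000750096000301,
0x7b000000002000200]

def ll_s_r_pf : List Nat := ll_s_r_p0

theorem ll_s_r_ref {V : Type} {S : SRel V} {p : Nat → V} (hp : ∀ i j, i < 8 → j < 8 → p i = p j → i = j)
    (hts : PHs S p 8 ((qO ++ (qT ++ qE)) ++ ll_s_r_x)) : False :=
  refuteS (k := 8) (n2 := 5) (n3 := 1) (n4 := 2) (o3 := 180) (o4 := 300) (M := 1632) ((qO ++ (qT ++ qE)) ++ ll_s_r_x) ll_s_r_pf (by decide +kernel)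
    (by decide +kernel) (by decide +kernel) (by decide +kernel) hp hts

theorem ll_s_r {V : Type} {W : Wo V} (h : W.Ok) {b c al r zm m u x : V}
    (s_b : W.S b) (g_b : W.Gd b) (s_c : W.S c) (g_c : W.Gd c) (s_al : ¬ W.S al) (g_al : W.Gd al) (s_r : ¬ W.S r) (g_r : W.Gd r) (k_b_c : W.K b c) (e_b_al : W.G.Adj b al) (tp_r : W.Tp r) (n_al_r : al ≠ r) (ar_b : W.Arc b r al) (ar_c : W.Arc c r al) (tp_al : W.Tp al) (s_zm : ¬ W.S zm) (g_zm : W.Gd zm) (s_m : W.S m) (g_m : W.Gd m) (x_al_r_zm_b : CrF W.f al r zm b) (ne_zm_m : ¬ W.G.Adj zm m) (s_u : W.S u) (u_u : ¬ W.A u) (d_u : W.D u) (s_x : W.S x) (g_x : W.Gd x) (nk_b_x : ¬ W.K b x) (ne_x_al : ¬ W.G.Adj x al) (t_r_u_b_x : W.T r u b x) : False := by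
  have h' := h.tw (k := 8) (by decide)
  refine ll_s_r_ref (S := Wo.rel h') (pt_inj (l := ([(b, 0), (c, 1), (al, 2), (r, 3), (zm, 4), (m, 5), (u, 6), (x, 7)] : List (V × Fin 8))) (o := (b, 0))
    (List.Nodup.of_map Prod.snd (show ([0, 1, 2, 3, 4, 5, 6, 7] : List (Fin 8)).Nodup by decide)) rfl) (PHs.app (UHs.phs ((qO_h h').app ((qT_h h').app (qE_h h'))) _ _) ?_)
  exact
  .cons (fun d hd h0 => h0 ⟨rfl, s_b⟩) (
    .cons (fun d hd h0 => h0 ⟨rfl, g_b.1⟩) (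
    .cons (fun d hd h0 => h0 ⟨rfl, g_b.2.1⟩) (
    .cons (fun d hd h0 => h0 ⟨rfl, s_c⟩) (
    .cons (fun d hd h0 => h0 ⟨rfl, g_c.1⟩) (
    .cons (fun d hd h0 => h0 ⟨rfl, g_c.2.1⟩) (
    .cons (fun d hd h0 => s_al h0.2) (
    .cons (fun d hd h0 => h0 ⟨rfl, g_al.1⟩) (
    .cons (fun d hd h0 => h0 ⟨rfl, g_al.2.1⟩) (
    .cons (fun d hd h0 => s_r h0.2) (
    .cons (fun d hd h0 => h0 ⟨rfl, g_r.1⟩) (
    .cons (fun d hd h0 => h0 ⟨rfl, g_r.2.1⟩) (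
    .cons (fun d hd h0 => h0 k_b_c) (
    .cons (fun d hd h0 => h0 e_b_al) (
    .cons (fun d hd h0 h1 h2 => h2 (tpy tp_r s_r h0.2 h1.2)) (
    .cons (fun d hd h0 h1 h2 h3 h4 h5 h6 => h6 (arx h ar_b s_b s_r s_al n_al_r h0.2 (ng h1) h2.2 h3.2 h4 h5)) (
    .cons (fun d hd h0 h1 h2 h3 h4 h5 h6 => h6 (ary h ar_b s_b s_r s_al n_al_r tp_r (ng h0) h1.2 h2.2 h3.2 h4 h5)) (
    .cons (fun d hd h0 h1 h2 h3 h4 h5 h6 => h6 (arx h ar_c s_c s_r s_al n_al_r h0.2 (ng h1) h2.2 h3.2 h4 h5)) (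
    .cons (fun d hd h0 h1 h2 h3 h4 h5 h6 => h6 (ary h ar_c s_c s_r s_al n_al_r tp_r (ng h0) h1.2 h2.2 h3.2 h4 h5)) (
    .cons (fun d hd h0 h1 h2 => h2 (tpy tp_al s_al h0.2 h1.2)) (
    .cons (fun d hd h0 => s_zm h0.2) (
    .cons (fun d hd h0 => h0 ⟨rfl, g_zm.1⟩) (
    .cons (fun d hd h0 => h0 ⟨rfl, g_zm.2.1⟩) (
    .cons (fun d hd h0 => h0 ⟨rfl, s_m⟩) (
    .cons (fun d hd h0 => h0 ⟨rfl, g_m.1⟩) (
    .cons (fun d hd h0 => h0 ⟨rfl, g_m.2.1⟩) (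
    .cons (fun d hd h0 => h0 (txp h x_al_r_zm_b)) (
    .cons (fun d hd h0 => ne_zm_m h0) (
    .cons (fun d hd h0 => h0 ⟨rfl, s_u⟩) (
    .cons (fun d hd h0 => u_u h0.2) (
    .cons (fun d hd h0 => h0 ⟨rfl, d_u⟩) (
    .cons (fun d hd h0 => h0 ⟨rfl, s_x⟩) (
    .cons (fun d hd h0 => h0 ⟨rfl, g_x.1⟩) (
    .cons (fun d hd h0 => h0 ⟨rfl, g_x.2.1⟩) (
    .cons (fun d hd h0 => nk_b_x h0) (
    .cons (fun d hd h0 => ne_x_al h0) (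
    .cons (fun d hd h0 => h0 (ttp h t_r_u_b_x)) (
    .nil)))))))))))))))))))))))))))))))))))))

/-- templates -/
def fr_s_xd_x : List Tm := [
  ⟨0, [], [], [.b true 2 8 8]⟩,
  ⟨0, [], [], [.b true 3 8 8]⟩,
  ⟨0, [], [], [.b true 4 8 8]⟩,
  ⟨0, [], [], [.b true 2 9 9]⟩,
  ⟨0, [], [], [.b true 3 9 9]⟩,
  ⟨0, [], [], [.b true 4 9 9]⟩,
  ⟨0, [], [], [.b false 2 10 10]⟩,
  ⟨0, [], [], [.b true 3 10 10]⟩,
  ⟨0, [], [], [.b true 4 10 10]⟩,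
  ⟨0, [], [], [.b false 2 11 11]⟩,
  ⟨0, [], [], [.b true 3 11 11]⟩,
  ⟨0, [], [], [.b true 4 11 11]⟩,
  ⟨0, [], [], [.b true 1 8 9]⟩,
  ⟨0, [], [], [.b true 0 8 10]⟩,
  ⟨1, [], [], [.b false 2 0 0, .b false 3 0 0, .b true 0 0 11]⟩,
  ⟨2, [], [], [.b false 2 0 0, .b true 2 1 1, .b false 3 0 0, .b false 3 1 1, .b true 1 0 8, .q false 0 8 11 0 10, .b true 0 0 1]⟩,
  ⟨2, [], [], [.b true 2 0 0, .b false 2 1 1, .b false 3 0 0, .b false 3 1 1, .b true 1 0 8, .q false 0 8 11 0 10, .b true 0 0 1]⟩,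
  ⟨2, [], [], [.b false 2 0 0, .b true 2 1 1, .b false 3 0 0, .b false 3 1 1, .b true 1 0 9, .q false 0 9 11 0 10, .b true 0 0 1]⟩,
  ⟨2, [], [], [.b true 2 0 0, .b false 2 1 1, .b false 3 0 0, .b false 3 1 1, .b true 1 0 9, .q false 0 9 11 0 10, .b true 0 0 1]⟩,
  ⟨1, [], [], [.b false 2 0 0, .b false 3 0 0, .b true 0 0 10]⟩,
  ⟨0, [], [], [.b false 2 12 12]⟩,
  ⟨0, [], [], [.b true 3 12 12]⟩,
  ⟨0, [], [], [.b true 4 12 12]⟩,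
  ⟨0, [], [], [.b true 2 13 13]⟩,
  ⟨0, [], [], [.b true 3 13 13]⟩,
  ⟨0, [], [], [.b true 4 13 13]⟩,
  ⟨0, [], [], [.q true 0 10 11 12 8]⟩,
  ⟨0, [], [], [.b false 0 12 13]⟩,
  ⟨0, [], [], [.b true 2 14 14]⟩,
  ⟨0, [], [], [.b true 3 14 14]⟩,
  ⟨0, [], [], [.b true 4 14 14]⟩,
  ⟨0, [], [], [.b false 1 8 14]⟩,
  ⟨0, [], [], [.q true 0 8 11 14 10]⟩,
  ⟨1, [], [], [.b true 2 0 0, .b false 3 0 0, .b true 0 0 14]⟩,
  ⟨0, [], [], [.b false 2 15 15]⟩,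
  ⟨0, [], [], [.b true 3 15 15]⟩,
  ⟨0, [], [], [.b true 4 15 15]⟩,
  ⟨0, [], [], [.b false 0 8 15]⟩,
  ⟨0, [], [], [.b true 0 8 9]⟩,
  ⟨0, [], [], [.q false 1 8 9 14 11]⟩]

def fr_s_xd_p0 : List Nat := [
0x40210000000350000000410670000301,
0x51000000035000000037001e000301,
0x6202500000004700000004d0000000350000000040023000501,
0xe5500000003500000003700b1008d008c07120b3a000305,
0xe5900000003500000003700b10092008c07120b3c000305,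
0xc4202900000006f00000000200000004d00000004300000007309b6000601,
0x260c40700000000c0000000750362000301,
0xe02100000003500000007906ed000301,
0xe22100000003b00000007906f2000301,
0xec5300000007900000007500000007300000006d00000006f00000007b00aa000701,
0x6ec00b00000007f0b97000201,
0xe022500000007900000004d00000003b00000007f06f1000501,
0x800000007900000001000000007b00000007f0b3a000501,
0xa00000007900000001200000007b00000007f0b3c000501,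
0x6ec20b0000000180b99000201,
0xec4600700000007500000001a05de000301,
0xec4620700000000e00000001c05e0000301,
0xec600d00000001600000007d00000003900000000400000004b0000000710000000140000000200489000901,
0xec620d00000001e00000007d00000003f00000000600000004b00000007100000001400000002204c3000901,
0x2e0c6110000000240000000260387000301,
0x83000000028000200]

def fr_s_xd_pf : List Nat := fr_s_xd_p0

theorem fr_s_xd_ref {V : Type} {S : SRel V} {p : Nat → V} (hp : ∀ i j, i < 8 → j < 8 → p i = p j → i = j)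
    (hts : PHs S p 8 ((qO ++ (qT ++ qE)) ++ fr_s_xd_x)) : False :=
  refuteS (k := 8) (n2 := 5) (n3 := 1) (n4 := 2) (o3 := 180) (o4 := 300) (M := 1632) ((qO ++ (qT ++ qE)) ++ fr_s_xd_x) fr_s_xd_pf (by decide +kernel)
    (by decide +kernel) (by decide +kernel) (by decide +kernel) hp hts

theorem fr_s_xd {V : Type} {W : Wo V} (h : W.Ok) {b c al r zm m t dbt : V}
    (s_b : W.S b) (g_b : W.Gd b) (s_c : W.S c) (g_c : W.Gd c) (s_al : ¬ W.S al) (g_al : W.Gd al) (s_r : ¬ W.S r) (g_r : W.Gd r) (k_b_c : W.K b c) (e_b_al : W.G.Adj b al) (tp_r : W.Tp r) (n_al_r : al ≠ r) (ar_b : W.Arc b r al) (ar_c : W.Arc c r al) (tp_al : W.Tp al) (s_zm : ¬ W.S zm) (g_zm : W.Gd zm) (s_m : W.S m) (g_m : W.Gd m) (x_al_r_zm_b : CrF W.f al r zm b) (ne_zm_m : ¬ W.G.Adj zm m) (s_t : W.S t) (g_t : W.Gd t) (nk_b_t : ¬ W.K b t) (x_b_r_t_al : CrF W.f b r t al) (tp_t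 : W.Tp t) (s_dbt : ¬ W.S dbt) (g_dbt : W.Gd dbt) (ne_b_dbt : ¬ W.G.Adj b dbt) (e_b_c : W.G.Adj b c) (nt_b_c_t_r : ¬ W.T b c t r) : False := by
  have h' := h.tw (k := 8) (by decide)
  refine fr_s_xd_ref (S := Wo.rel h') (pt_inj (l := ([(b, 0), (c, 1), (al, 2), (r, 3), (zm, 4), (m, 5), (t, 6), (dbt, 7)] : List (V × Fin 8))) (o := (b, 0))
    (List.Nodup.of_map Prod.snd (show ([0, 1, 2, 3, 4, 5, 6, 7] : List (Fin 8)).Nodup by decide)) rfl) (PHs.app (UHs.phs ((qO_h h').app ((qT_h h').app (qE_h h'))) _ _) ?_)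
  exact
  .cons (fun d hd h0 => h0 ⟨rfl, s_b⟩) (
    .cons (fun d hd h0 => h0 ⟨rfl, g_b.1⟩) (
    .cons (fun d hd h0 => h0 ⟨rfl, g_b.2.1⟩) (
    .cons (fun d hd h0 => h0 ⟨rfl, s_c⟩) (
    .cons (fun d hd h0 => h0 ⟨rfl, g_c.1⟩) (
    .cons (fun d hd h0 => h0 ⟨rfl, g_c.2.1⟩) (
    .cons (fun d hd h0 => s_al h0.2) (
    .cons (fun d hd h0 => h0 ⟨rfl, g_al.1⟩) (
    .cons (fun d hd h0 => h0 ⟨rfl, g_al.2.1⟩) (
    .cons (fun d hd h0 => s_r h0.2) (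
    .cons (fun d hd h0 => h0 ⟨rfl, g_r.1⟩) (
    .cons (fun d hd h0 => h0 ⟨rfl, g_r.2.1⟩) (
    .cons (fun d hd h0 => h0 k_b_c) (
    .cons (fun d hd h0 => h0 e_b_al) (
    .cons (fun d hd h0 h1 h2 => h2 (tpy tp_r s_r h0.2 h1.2)) (
    .cons (fun d hd h0 h1 h2 h3 h4 h5 h6 => h6 (arx h ar_b s_b s_r s_al n_al_r h0.2 (ng h1) h2.2 h3.2 h4 h5)) (
    .cons (fun d hd h0 h1 h2 h3 h4 h5 h6 => h6 (ary h ar_b s_b s_r s_al n_al_r tp_r (ng h0) h1.2 h2.2 h3.2 h4 h5)) (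
    .cons (fun d hd h0 h1 h2 h3 h4 h5 h6 => h6 (arx h ar_c s_c s_r s_al n_al_r h0.2 (ng h1) h2.2 h3.2 h4 h5)) (
    .cons (fun d hd h0 h1 h2 h3 h4 h5 h6 => h6 (ary h ar_c s_c s_r s_al n_al_r tp_r (ng h0) h1.2 h2.2 h3.2 h4 h5)) (
    .cons (fun d hd h0 h1 h2 => h2 (tpy tp_al s_al h0.2 h1.2)) (
    .cons (fun d hd h0 => s_zm h0.2) (
    .cons (fun d hd h0 => h0 ⟨rfl, g_zm.1⟩) (
    .cons (fun d hd h0 => h0 ⟨rfl, g_zm.2.1⟩) (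
    .cons (fun d hd h0 => h0 ⟨rfl, s_m⟩) (
    .cons (fun d hd h0 => h0 ⟨rfl, g_m.1⟩) (
    .cons (fun d hd h0 => h0 ⟨rfl, g_m.2.1⟩) (
    .cons (fun d hd h0 => h0 (txp h x_al_r_zm_b)) (
    .cons (fun d hd h0 => ne_zm_m h0) (
    .cons (fun d hd h0 => h0 ⟨rfl, s_t⟩) (
    .cons (fun d hd h0 => h0 ⟨rfl, g_t.1⟩) (
    .cons (fun d hd h0 => h0 ⟨rfl, g_t.2.1⟩) (
    .cons (fun d hd h0 => nk_b_t h0) (
    .cons (fun d hd h0 => h0 (txp h x_b_r_t_al)) (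
    .cons (fun d hd h0 h1 h2 => h2 (tpx tp_t s_t (ng h0) h1.2)) (
    .cons (fun d hd h0 => s_dbt h0.2) (
    .cons (fun d hd h0 => h0 ⟨rfl, g_dbt.1⟩) (
    .cons (fun d hd h0 => h0 ⟨rfl, g_dbt.2.1⟩) (
    .cons (fun d hd h0 => ne_b_dbt h0) (
    .cons (fun d hd h0 => h0 e_b_c) (
    .cons (fun d hd h0 => nt_b_c_t_r (ttn e_b_c.ne (nsd s_t s_r) h0)) (
    .nil))))))))))))))))))))))))))))))))))))))))

/-- templates -/
def ll_s_xd_x : List Tm := [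
  ⟨0, [], [], [.b true 2 8 8]⟩,
  ⟨0, [], [], [.b true 3 8 8]⟩,
  ⟨0, [], [], [.b true 4 8 8]⟩,
  ⟨0, [], [], [.b true 2 9 9]⟩,
  ⟨0, [], [], [.b true 3 9 9]⟩,
  ⟨0, [], [], [.b true 4 9 9]⟩,
  ⟨0, [], [], [.b false 2 10 10]⟩,
  ⟨0, [], [], [.b true 3 10 10]⟩,
  ⟨0, [], [], [.b true 4 10 10]⟩,
  ⟨0, [], [], [.b false 2 11 11]⟩,
  ⟨0, [], [], [.b true 3 11 11]⟩,
  ⟨0, [], [], [.b true 4 11 11]⟩,
  ⟨0, [], [], [.b true 1 8 9]⟩,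
  ⟨0, [], [], [.b true 0 8 10]⟩,
  ⟨1, [], [], [.b false 2 0 0, .b false 3 0 0, .b true 0 0 11]⟩,
  ⟨2, [], [], [.b false 2 0 0, .b true 2 1 1, .b false 3 0 0, .b false 3 1 1, .b true 1 0 8, .q false 0 8 11 0 10, .b true 0 0 1]⟩,
  ⟨2, [], [], [.b true 2 0 0, .b false 2 1 1, .b false 3 0 0, .b false 3 1 1, .b true 1 0 8, .q false 0 8 11 0 10, .b true 0 0 1]⟩,
  ⟨2, [], [], [.b false 2 0 0, .b true 2 1 1, .b false 3 0 0, .b false 3 1 1, .b true 1 0 9, .q false 0 9 11 0 10, .b true 0 0 1]⟩,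
  ⟨2, [], [], [.b true 2 0 0, .b false 2 1 1, .b false 3 0 0, .b false 3 1 1, .b true 1 0 9, .q false 0 9 11 0 10, .b true 0 0 1]⟩,
  ⟨1, [], [], [.b false 2 0 0, .b false 3 0 0, .b true 0 0 10]⟩,
  ⟨0, [], [], [.b false 2 12 12]⟩,
  ⟨0, [], [], [.b true 3 12 12]⟩,
  ⟨0, [], [], [.b true 4 12 12]⟩,
  ⟨0, [], [], [.b true 2 13 13]⟩,
  ⟨0, [], [], [.b true 3 13 13]⟩,
  ⟨0, [], [], [.b true 4 13 13]⟩,
  ⟨0, [], [], [.q true 0 10 11 12 8]⟩,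
  ⟨0, [], [], [.b false 0 12 13]⟩,
  ⟨0, [], [], [.b true 2 14 14]⟩,
  ⟨0, [], [], [.b true 3 14 14]⟩,
  ⟨0, [], [], [.b true 4 14 14]⟩,
  ⟨0, [], [], [.b false 1 8 14]⟩,
  ⟨0, [], [], [.q true 0 8 11 14 10]⟩,
  ⟨1, [], [], [.b true 2 0 0, .b false 3 0 0, .b true 0 0 14]⟩,
  ⟨0, [], [], [.b false 2 15 15]⟩,
  ⟨0, [], [], [.b true 3 15 15]⟩,
  ⟨0, [], [], [.b true 4 15 15]⟩,
  ⟨0, [], [], [.b false 0 8 15]⟩,
  ⟨0, [], [], [.b true 2 16 16]⟩,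
  ⟨0, [], [], [.b false 3 16 16]⟩,
  ⟨0, [], [], [.b true 4 16 16]⟩,
  ⟨0, [], [], [.b true 2 17 17]⟩,
  ⟨0, [], [], [.b true 3 17 17]⟩,
  ⟨0, [], [], [.b true 4 17 17]⟩,
  ⟨0, [], [], [.b false 1 8 17]⟩,
  ⟨0, [], [], [.b false 0 17 10]⟩,
  ⟨0, [], [], [.q true 1 14 16 8 17]⟩]

def ll_s_xd_p0 : List Nat := [
0x125b00000008700000008900eb000301,
0x8f000000002000200]

def ll_s_xd_pf : List Nat := ll_s_xd_p0

theorem ll_s_xd_ref {V : Type} {S : SRel V} {p : Nat → V} (hp : ∀ i j, i < 10 → j < 10 → p i = p j → i = j)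
    (hts : PHs S p 10 ((qO ++ (qT ++ qE)) ++ ll_s_xd_x)) : False :=
  refuteS (k := 10) (n2 := 5) (n3 := 1) (n4 := 2) (o3 := 275) (o4 := 495) (M := 3575) ((qO ++ (qT ++ qE)) ++ ll_s_xd_x) ll_s_xd_pf (by decide +kernel)
    (by decide +kernel) (by decide +kernel) (by decide +kernel) hp hts

theorem ll_s_xd {V : Type} {W : Wo V} (h : W.Ok) {b c al r zm m t dbt u x : V}
    (s_b : W.S b) (g_b : W.Gd b) (s_c : W.S c) (g_c : W.Gd c) (s_al : ¬ W.S al) (g_al : W.Gd al) (s_r : ¬ W.S r) (g_r : W.Gd r) (k_b_c : W.K b c) (e_b_al : W.G.Adj b al) (tp_r : W.Tp r) (n_al_r : al ≠ r) (ar_b : W.Arc b r al) (ar_c : W.Arc c r al) (tp_al : W.Tp al) (s_zm : ¬ W.S zm) (g_zm : W.Gd zm) (s_m : W.S m) (g_m : W.Gd m) (x_al_r_zm_b : CrF W.f al r zm b) (ne_zm_m : ¬ W.G.Adj zm m) (s_t : W.S t) (g_t : W.Gd t) (nk_b_t : ¬ W.K b t) (x_b_r_t_al : CrF W.f b r t al)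 (tp_t : W.Tp t) (s_dbt : ¬ W.S dbt) (g_dbt : W.Gd dbt) (ne_b_dbt : ¬ W.G.Adj b dbt) (s_u : W.S u) (u_u : ¬ W.A u) (d_u : W.D u) (s_x : W.S x) (g_x : W.Gd x) (nk_b_x : ¬ W.K b x) (ne_x_al : ¬ W.G.Adj x al) (t_t_u_b_x : W.T t u b x) : False := by
  have h' := h.tw (k := 10) (by decide)
  refine ll_s_xd_ref (S := Wo.rel h') (pt_inj (l := ([(b, 0), (c, 1), (al, 2), (r, 3), (zm, 4), (m, 5), (t, 6), (dbt, 7), (u, 8), (x, 9)] : List (V × Fin 10))) (o := (b, 0))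
    (List.Nodup.of_map Prod.snd (show ([0, 1, 2, 3, 4, 5, 6, 7, 8, 9] : List (Fin 10)).Nodup by decide)) rfl) (PHs.app (UHs.phs ((qO_h h').app ((qT_h h').app (qE_h h'))) _ _) ?_)
  exact
  .cons (fun d hd h0 => h0 ⟨rfl, s_b⟩) (
    .cons (fun d hd h0 => h0 ⟨rfl, g_b.1⟩) (
    .cons (fun d hd h0 => h0 ⟨rfl, g_b.2.1⟩) (
    .cons (fun d hd h0 => h0 ⟨rfl, s_c⟩) (
    .cons (fun d hd h0 => h0 ⟨rfl, g_c.1⟩) (
    .cons (fun d hd h0 => h0 ⟨rfl, g_c.2.1⟩) (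
    .cons (fun d hd h0 => s_al h0.2) (
    .cons (fun d hd h0 => h0 ⟨rfl, g_al.1⟩) (
    .cons (fun d hd h0 => h0 ⟨rfl, g_al.2.1⟩) (
    .cons (fun d hd h0 => s_r h0.2) (
    .cons (fun d hd h0 => h0 ⟨rfl, g_r.1⟩) (
    .cons (fun d hd h0 => h0 ⟨rfl, g_r.2.1⟩) (
    .cons (fun d hd h0 => h0 k_b_c) (
    .cons (fun d hd h0 => h0 e_b_al) (
    .cons (fun d hd h0 h1 h2 => h2 (tpy tp_r s_r h0.2 h1.2)) (
    .cons (fun d hd h0 h1 h2 h3 h4 h5 h6 => h6 (arx h ar_b s_b s_r s_al n_al_r h0.2 (ng h1) h2.2 h3.2 h4 h5)) (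
    .cons (fun d hd h0 h1 h2 h3 h4 h5 h6 => h6 (ary h ar_b s_b s_r s_al n_al_r tp_r (ng h0) h1.2 h2.2 h3.2 h4 h5)) (
    .cons (fun d hd h0 h1 h2 h3 h4 h5 h6 => h6 (arx h ar_c s_c s_r s_al n_al_r h0.2 (ng h1) h2.2 h3.2 h4 h5)) (
    .cons (fun d hd h0 h1 h2 h3 h4 h5 h6 => h6 (ary h ar_c s_c s_r s_al n_al_r tp_r (ng h0) h1.2 h2.2 h3.2 h4 h5)) (
    .cons (fun d hd h0 h1 h2 => h2 (tpy tp_al s_al h0.2 h1.2)) (
    .cons (fun d hd h0 => s_zm h0.2) (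
    .cons (fun d hd h0 => h0 ⟨rfl, g_zm.1⟩) (
    .cons (fun d hd h0 => h0 ⟨rfl, g_zm.2.1⟩) (
    .cons (fun d hd h0 => h0 ⟨rfl, s_m⟩) (
    .cons (fun d hd h0 => h0 ⟨rfl, g_m.1⟩) (
    .cons (fun d hd h0 => h0 ⟨rfl, g_m.2.1⟩) (
    .cons (fun d hd h0 => h0 (txp h x_al_r_zm_b)) (
    .cons (fun d hd h0 => ne_zm_m h0) (
    .cons (fun d hd h0 => h0 ⟨rfl, s_t⟩) (
    .cons (fun d hd h0 => h0 ⟨rfl, g_t.1⟩) (
    .cons (fun d hd h0 => h0 ⟨rfl, g_t.2.1⟩) (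
    .cons (fun d hd h0 => nk_b_t h0) (
    .cons (fun d hd h0 => h0 (txp h x_b_r_t_al)) (
    .cons (fun d hd h0 h1 h2 => h2 (tpx tp_t s_t (ng h0) h1.2)) (
    .cons (fun d hd h0 => s_dbt h0.2) (
    .cons (fun d hd h0 => h0 ⟨rfl, g_dbt.1⟩) (
    .cons (fun d hd h0 => h0 ⟨rfl, g_dbt.2.1⟩) (
    .cons (fun d hd h0 => ne_b_dbt h0) (
    .cons (fun d hd h0 => h0 ⟨rfl, s_u⟩) (
    .cons (fun d hd h0 => u_u h0.2) (
    .cons (fun d hd h0 => h0 ⟨rfl, d_u⟩) (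
    .cons (fun d hd h0 => h0 ⟨rfl, s_x⟩) (
    .cons (fun d hd h0 => h0 ⟨rfl, g_x.1⟩) (
    .cons (fun d hd h0 => h0 ⟨rfl, g_x.2.1⟩) (
    .cons (fun d hd h0 => nk_b_x h0) (
    .cons (fun d hd h0 => ne_x_al h0) (
    .cons (fun d hd h0 => h0 (ttp h t_t_u_b_x)) (
    .nil)))))))))))))))))))))))))))))))))))))))))))))))

/-- templates -/
def lb_s_xd_x : List Tm := [
  ⟨0, [], [], [.b true 2 8 8]⟩,
  ⟨0, [], [], [.b true 3 8 8]⟩,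
  ⟨0, [], [], [.b true 4 8 8]⟩,
  ⟨0, [], [], [.b true 2 9 9]⟩,
  ⟨0, [], [], [.b true 3 9 9]⟩,
  ⟨0, [], [], [.b true 4 9 9]⟩,
  ⟨0, [], [], [.b false 2 10 10]⟩,
  ⟨0, [], [], [.b true 3 10 10]⟩,
  ⟨0, [], [], [.b true 4 10 10]⟩,
  ⟨0, [], [], [.b false 2 11 11]⟩,
  ⟨0, [], [], [.b true 3 11 11]⟩,
  ⟨0, [], [], [.b true 4 11 11]⟩,
  ⟨0, [], [], [.b true 1 8 9]⟩,
  ⟨0, [], [], [.b true 0 8 10]⟩,
  ⟨1, [], [], [.b false 2 0 0, .b false 3 0 0, .b true 0 0 11]⟩,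
  ⟨2, [], [], [.b false 2 0 0, .b true 2 1 1, .b false 3 0 0, .b false 3 1 1, .b true 1 0 8, .q false 0 8 11 0 10, .b true 0 0 1]⟩,
  ⟨2, [], [], [.b true 2 0 0, .b false 2 1 1, .b false 3 0 0, .b false 3 1 1, .b true 1 0 8, .q false 0 8 11 0 10, .b true 0 0 1]⟩,
  ⟨2, [], [], [.b false 2 0 0, .b true 2 1 1, .b false 3 0 0, .b false 3 1 1, .b true 1 0 9, .q false 0 9 11 0 10, .b true 0 0 1]⟩,
  ⟨2, [], [], [.b true 2 0 0, .b false 2 1 1, .b false 3 0 0, .b false 3 1 1, .b true 1 0 9, .q false 0 9 11 0 10, .b true 0 0 1]⟩,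
  ⟨1, [], [], [.b false 2 0 0, .b false 3 0 0, .b true 0 0 10]⟩,
  ⟨0, [], [], [.b false 2 12 12]⟩,
  ⟨0, [], [], [.b true 3 12 12]⟩,
  ⟨0, [], [], [.b true 4 12 12]⟩,
  ⟨0, [], [], [.b true 2 13 13]⟩,
  ⟨0, [], [], [.b true 3 13 13]⟩,
  ⟨0, [], [], [.b true 4 13 13]⟩,
  ⟨0, [], [], [.q true 0 10 11 12 8]⟩,
  ⟨0, [], [], [.b false 0 12 13]⟩,
  ⟨0, [], [], [.b true 2 14 14]⟩,
  ⟨0, [], [], [.b true 3 14 14]⟩,
  ⟨0, [], [], [.b true 4 14 14]⟩,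
  ⟨0, [], [], [.b false 1 8 14]⟩,
  ⟨0, [], [], [.q true 0 8 11 14 10]⟩,
  ⟨1, [], [], [.b true 2 0 0, .b false 3 0 0, .b true 0 0 14]⟩,
  ⟨0, [], [], [.b false 2 15 15]⟩,
  ⟨0, [], [], [.b true 3 15 15]⟩,
  ⟨0, [], [], [.b true 4 15 15]⟩,
  ⟨0, [], [], [.b false 0 8 15]⟩,
  ⟨0, [], [], [.b true 2 16 16]⟩,
  ⟨0, [], [], [.b false 3 16 16]⟩,
  ⟨0, [], [], [.b true 4 16 16]⟩,
  ⟨0, [], [], [.q true 1 10 16 8 14]⟩]

def lb_s_xd_p0 : List Nat := [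
0x51000000035000000037001e000301,
0xe5500000003500000003700b1008d008c0a4e0ed0000305,
0xc5b00000006d00000006f0073000301,
0xe0210000000350000000790a29000301,
0xec5300000007900000007500000007300000006d00000006f00000007b00aa000701,
0x6ec00b00000007f0f2d000201,
0x400000007900000000800000007b00000007f0ed0000501,
0xec4600700000007500000000e0638000301,
0xec600d00000000c00000007d00000003900000000200000004b00000007100000000a00000001004e3000901,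
0x701b0000000810000000470000000830a5f000401,
0xf01b0000000810000000790000000830a73000401,
0x50c60b000000014111d000201,
0x700e0b0000000161173000201,
0x10c6e01300000001200000001a1165000301,
0x1046c01100000001c0000000870d01000301,
0x60d04130000000180000000870d81000301,
0xc4600d00000007500000007100000003900000004500000000200000004b00000000600000002000000001e000a00]

def lb_s_xd_pf : List Nat := lb_s_xd_p0

theorem lb_s_xd_ref {V : Type} {S : SRel V} {p : Nat → V} (hp : ∀ i j, i < 9 → j < 9 → p i = p j → i = j)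
    (hts : PHs S p 9 ((qO ++ (qT ++ qE)) ++ lb_s_xd_x)) : False :=
  refuteS (k := 9) (n2 := 5) (n3 := 1) (n4 := 2) (o3 := 225) (o4 := 390) (M := 2460) ((qO ++ (qT ++ qE)) ++ lb_s_xd_x) lb_s_xd_pf (by decide +kernel)
    (by decide +kernel) (by decide +kernel) (by decide +kernel) hp hts

theorem lb_s_xd {V : Type} {W : Wo V} (h : W.Ok) {b c al r zm m t dbt u : V}
    (s_b : W.S b) (g_b : W.Gd b) (s_c : W.S c) (g_c : W.Gd c) (s_al : ¬ W.S al) (g_al : W.Gd al) (s_r : ¬ W.S r) (g_r : W.Gd r) (k_b_c : W.K b c) (e_b_al : W.G.Adj b al) (tp_r : W.Tp r) (n_al_r : al ≠ r) (ar_b : W.Arc b r al) (ar_c : W.Arc c r al) (tp_al : W.Tp al) (s_zm : ¬ W.S zm) (g_zm : W.Gd zm) (s_m : W.S m) (g_m : W.Gd m) (x_al_r_zm_b : CrF W.f al r zm b) (ne_zm_m : ¬ W.G.Adj zm m) (s_t : W.S t) (g_t : W.Gd t) (nk_b_t : ¬ W.K b t) (x_b_r_t_al : CrF W.f b r t al) (tp_t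 : W.Tp t) (s_dbt : ¬ W.S dbt) (g_dbt : W.Gd dbt) (ne_b_dbt : ¬ W.G.Adj b dbt) (s_u : W.S u) (u_u : ¬ W.A u) (d_u : W.D u) (t_al_u_b_t : W.T al u b t) : False := by
  have h' := h.tw (k := 9) (by decide)
  refine lb_s_xd_ref (S := Wo.rel h') (pt_inj (l := ([(b, 0), (c, 1), (al, 2), (r, 3), (zm, 4), (m, 5), (t, 6), (dbt, 7), (u, 8)] : List (V × Fin 9))) (o := (b, 0))
    (List.Nodup.of_map Prod.snd (show ([0, 1, 2, 3, 4, 5, 6, 7, 8] : List (Fin 9)).Nodup by decide)) rfl) (PHs.app (UHs.phs ((qO_h h').app ((qT_h h').app (qE_h h'))) _ _) ?_)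
  exact
  .cons (fun d hd h0 => h0 ⟨rfl, s_b⟩) (
    .cons (fun d hd h0 => h0 ⟨rfl, g_b.1⟩) (
    .cons (fun d hd h0 => h0 ⟨rfl, g_b.2.1⟩) (
    .cons (fun d hd h0 => h0 ⟨rfl, s_c⟩) (
    .cons (fun d hd h0 => h0 ⟨rfl, g_c.1⟩) (
    .cons (fun d hd h0 => h0 ⟨rfl, g_c.2.1⟩) (
    .cons (fun d hd h0 => s_al h0.2) (
    .cons (fun d hd h0 => h0 ⟨rfl, g_al.1⟩) (
    .cons (fun d hd h0 => h0 ⟨rfl, g_al.2.1⟩) (
    .cons (fun d hd h0 => s_r h0.2) (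
    .cons (fun d hd h0 => h0 ⟨rfl, g_r.1⟩) (
    .cons (fun d hd h0 => h0 ⟨rfl, g_r.2.1⟩) (
    .cons (fun d hd h0 => h0 k_b_c) (
    .cons (fun d hd h0 => h0 e_b_al) (
    .cons (fun d hd h0 h1 h2 => h2 (tpy tp_r s_r h0.2 h1.2)) (
    .cons (fun d hd h0 h1 h2 h3 h4 h5 h6 => h6 (arx h ar_b s_b s_r s_al n_al_r h0.2 (ng h1) h2.2 h3.2 h4 h5)) (
    .cons (fun d hd h0 h1 h2 h3 h4 h5 h6 => h6 (ary h ar_b s_b s_r s_al n_al_r tp_r (ng h0) h1.2 h2.2 h3.2 h4 h5)) (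
    .cons (fun d hd h0 h1 h2 h3 h4 h5 h6 => h6 (arx h ar_c s_c s_r s_al n_al_r h0.2 (ng h1) h2.2 h3.2 h4 h5)) (
    .cons (fun d hd h0 h1 h2 h3 h4 h5 h6 => h6 (ary h ar_c s_c s_r s_al n_al_r tp_r (ng h0) h1.2 h2.2 h3.2 h4 h5)) (
    .cons (fun d hd h0 h1 h2 => h2 (tpy tp_al s_al h0.2 h1.2)) (
    .cons (fun d hd h0 => s_zm h0.2) (
    .cons (fun d hd h0 => h0 ⟨rfl, g_zm.1⟩) (
    .cons (fun d hd h0 => h0 ⟨rfl, g_zm.2.1⟩) (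
    .cons (fun d hd h0 => h0 ⟨rfl, s_m⟩) (
    .cons (fun d hd h0 => h0 ⟨rfl, g_m.1⟩) (
    .cons (fun d hd h0 => h0 ⟨rfl, g_m.2.1⟩) (
    .cons (fun d hd h0 => h0 (txp h x_al_r_zm_b)) (
    .cons (fun d hd h0 => ne_zm_m h0) (
    .cons (fun d hd h0 => h0 ⟨rfl, s_t⟩) (
    .cons (fun d hd h0 => h0 ⟨rfl, g_t.1⟩) (
    .cons (fun d hd h0 => h0 ⟨rfl, g_t.2.1⟩) (
    .cons (fun d hd h0 => nk_b_t h0) (
    .cons (fun d hd h0 => h0 (txp h x_b_r_t_al)) (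
    .cons (fun d hd h0 h1 h2 => h2 (tpx tp_t s_t (ng h0) h1.2)) (
    .cons (fun d hd h0 => s_dbt h0.2) (
    .cons (fun d hd h0 => h0 ⟨rfl, g_dbt.1⟩) (
    .cons (fun d hd h0 => h0 ⟨rfl, g_dbt.2.1⟩) (
    .cons (fun d hd h0 => ne_b_dbt h0) (
    .cons (fun d hd h0 => h0 ⟨rfl, s_u⟩) (
    .cons (fun d hd h0 => u_u h0.2) (
    .cons (fun d hd h0 => h0 ⟨rfl, d_u⟩) (
    .cons (fun d hd h0 => h0 (ttp h t_al_u_b_t)) (
    .nil))))))))))))))))))))))))))))))))))))))))))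

/-- templates -/
def lc_s_xd_x : List Tm := [
  ⟨0, [], [], [.b true 2 8 8]⟩,
  ⟨0, [], [], [.b true 3 8 8]⟩,
  ⟨0, [], [], [.b true 4 8 8]⟩,
  ⟨0, [], [], [.b true 2 9 9]⟩,
  ⟨0, [], [], [.b true 3 9 9]⟩,
  ⟨0, [], [], [.b true 4 9 9]⟩,
  ⟨0, [], [], [.b false 2 10 10]⟩,
  ⟨0, [], [], [.b true 3 10 10]⟩,
  ⟨0, [], [], [.b true 4 10 10]⟩,
  ⟨0, [], [], [.b false 2 11 11]⟩,
  ⟨0, [], [], [.b true 3 11 11]⟩,
  ⟨0, [], [], [.b true 4 11 11]⟩,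
  ⟨0, [], [], [.b true 1 8 9]⟩,
  ⟨0, [], [], [.b true 0 8 10]⟩,
  ⟨1, [], [], [.b false 2 0 0, .b false 3 0 0, .b true 0 0 11]⟩,
  ⟨2, [], [], [.b false 2 0 0, .b true 2 1 1, .b false 3 0 0, .b false 3 1 1, .b true 1 0 8, .q false 0 8 11 0 10, .b true 0 0 1]⟩,
  ⟨2, [], [], [.b true 2 0 0, .b false 2 1 1, .b false 3 0 0, .b false 3 1 1, .b true 1 0 8, .q false 0 8 11 0 10, .b true 0 0 1]⟩,
  ⟨2, [], [], [.b false 2 0 0, .b true 2 1 1, .b false 3 0 0, .b false 3 1 1, .b true 1 0 9, .q false 0 9 11 0 10, .b true 0 0 1]⟩,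
  ⟨2, [], [], [.b true 2 0 0, .b false 2 1 1, .b false 3 0 0, .b false 3 1 1, .b true 1 0 9, .q false 0 9 11 0 10, .b true 0 0 1]⟩,
  ⟨1, [], [], [.b false 2 0 0, .b false 3 0 0, .b true 0 0 10]⟩,
  ⟨0, [], [], [.b false 2 12 12]⟩,
  ⟨0, [], [], [.b true 3 12 12]⟩,
  ⟨0, [], [], [.b true 4 12 12]⟩,
  ⟨0, [], [], [.b true 2 13 13]⟩,
  ⟨0, [], [], [.b true 3 13 13]⟩,
  ⟨0, [], [], [.b true 4 13 13]⟩,
  ⟨0, [], [], [.q true 0 10 11 12 8]⟩,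
  ⟨0, [], [], [.b false 0 12 13]⟩,
  ⟨0, [], [], [.b true 2 14 14]⟩,
  ⟨0, [], [], [.b true 3 14 14]⟩,
  ⟨0, [], [], [.b true 4 14 14]⟩,
  ⟨0, [], [], [.b false 1 8 14]⟩,
  ⟨0, [], [], [.q true 0 8 11 14 10]⟩,
  ⟨1, [], [], [.b true 2 0 0, .b false 3 0 0, .b true 0 0 14]⟩,
  ⟨0, [], [], [.b false 2 15 15]⟩,
  ⟨0, [], [], [.b true 3 15 15]⟩,
  ⟨0, [], [], [.b true 4 15 15]⟩,
  ⟨0, [], [], [.b false 0 8 15]⟩,
  ⟨0, [], [], [.b true 2 16 16]⟩,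
  ⟨0, [], [], [.b false 3 16 16]⟩,
  ⟨0, [], [], [.b true 4 16 16]⟩,
  ⟨0, [], [], [.b true 2 17 17]⟩,
  ⟨0, [], [], [.b false 3 17 17]⟩,
  ⟨0, [], [], [.b true 4 17 17]⟩,
  ⟨0, [], [], [.q true 1 14 16 8 17]⟩]

def lc_s_xd_p0 : List Nat := [
0x51000000035000000037001e000301,
0xe5500000003500000003700b1008d008c0ea91394000305,
0xe0210000000350000000790e84000301,
0xec5300000007900000007500000007300000006d00000006f00000007b00aa000701,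
0x6ec00b00000007f13f1000201,
0x400000007900000000600000007b00000007f1394000501,
0xec4600700000007500000000c06a1000301,
0xec600d00000000a00000007d00000003900000000200000004b00000007100000000800000000e054c000901,
0xf01b0000000810000000790000000830ece000401,
0xd00e0b000000012172d000201,
0x721b0000000870000000470000000890ee7000401,
0x12c60b000000016182d000201,
0x1126ce0150000000140000000100000000181851000401,
0x8d00000001a000200]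

def lc_s_xd_pf : List Nat := lc_s_xd_p0

theorem lc_s_xd_ref {V : Type} {S : SRel V} {p : Nat → V} (hp : ∀ i j, i < 10 → j < 10 → p i = p j → i = j)
    (hts : PHs S p 10 ((qO ++ (qT ++ qE)) ++ lc_s_xd_x)) : False :=
  refuteS (k := 10) (n2 := 5) (n3 := 1) (n4 := 2) (o3 := 275) (o4 := 495) (M := 3575) ((qO ++ (qT ++ qE)) ++ lc_s_xd_x) lc_s_xd_pf (by decide +kernel)
    (by decide +kernel) (by decide +kernel) (by decide +kernel) hp hts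

theorem lc_s_xd {V : Type} {W : Wo V} (h : W.Ok) {b c al r zm m t dbt u v : V}
    (s_b : W.S b) (g_b : W.Gd b) (s_c : W.S c) (g_c : W.Gd c) (s_al : ¬ W.S al) (g_al : W.Gd al) (s_r : ¬ W.S r) (g_r : W.Gd r) (k_b_c : W.K b c) (e_b_al : W.G.Adj b al) (tp_r : W.Tp r) (n_al_r : al ≠ r) (ar_b : W.Arc b r al) (ar_c : W.Arc c r al) (tp_al : W.Tp al) (s_zm : ¬ W.S zm) (g_zm : W.Gd zm) (s_m : W.S m) (g_m : W.Gd m) (x_al_r_zm_b : CrF W.f al r zm b) (ne_zm_m : ¬ W.G.Adj zm m) (s_t : W.S t) (g_t : W.Gd t) (nk_b_t : ¬ W.K b t) (x_b_r_t_al : CrF W.f b r t al) (tp_t : W.Tp t) (s_dbt : ¬ W.S dbt) (g_dbt : W.Gd dbt) (ne_b_dbt : ¬ W.G.Adj b dbt) (s_u : W.S u) (u_u : ¬ W.A u) (d_u : W.D u) (s_v : W.S v) (u_v : ¬ W.A v) (d_v : W.D v) (t_t_u_b_v : W.T t u b v) : False := by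
  have h' := h.tw (k := 10) (by decide)
  refine lc_s_xd_ref (S := Wo.rel h') (pt_inj (l := ([(b, 0), (c, 1), (al, 2), (r, 3), (zm, 4), (m, 5), (t, 6), (dbt, 7), (u, 8), (v, 9)] : List (V × Fin 10))) (o := (b, 0))
    (List.Nodup.of_map Prod.snd (show ([0, 1, 2, 3, 4, 5, 6, 7, 8, 9] : List (Fin 10)).Nodup by decide)) rfl) (PHs.app (UHs.phs ((qO_h h').app ((qT_h h').app (qE_h h'))) _ _) ?_)
  exact
  .cons (fun d hd h0 => h0 ⟨rfl, s_b⟩) (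
    .cons (fun d hd h0 => h0 ⟨rfl, g_b.1⟩) (
    .cons (fun d hd h0 => h0 ⟨rfl, g_b.2.1⟩) (
    .cons (fun d hd h0 => h0 ⟨rfl, s_c⟩) (
    .cons (fun d hd h0 => h0 ⟨rfl, g_c.1⟩) (
    .cons (fun d hd h0 => h0 ⟨rfl, g_c.2.1⟩) (
    .cons (fun d hd h0 => s_al h0.2) (
    .cons (fun d hd h0 => h0 ⟨rfl, g_al.1⟩) (
    .cons (fun d hd h0 => h0 ⟨rfl, g_al.2.1⟩) (
    .cons (fun d hd h0 => s_r h0.2) (
    .cons (fun d hd h0 => h0 ⟨rfl, g_r.1⟩) (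
    .cons (fun d hd h0 => h0 ⟨rfl, g_r.2.1⟩) (
    .cons (fun d hd h0 => h0 k_b_c) (
    .cons (fun d hd h0 => h0 e_b_al) (
    .cons (fun d hd h0 h1 h2 => h2 (tpy tp_r s_r h0.2 h1.2)) (
    .cons (fun d hd h0 h1 h2 h3 h4 h5 h6 => h6 (arx h ar_b s_b s_r s_al n_al_r h0.2 (ng h1) h2.2 h3.2 h4 h5)) (
    .cons (fun d hd h0 h1 h2 h3 h4 h5 h6 => h6 (ary h ar_b s_b s_r s_al n_al_r tp_r (ng h0) h1.2 h2.2 h3.2 h4 h5)) (
    .cons (fun d hd h0 h1 h2 h3 h4 h5 h6 => h6 (arx h ar_c s_c s_r s_al n_al_r h0.2 (ng h1) h2.2 h3.2 h4 h5)) (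
    .cons (fun d hd h0 h1 h2 h3 h4 h5 h6 => h6 (ary h ar_c s_c s_r s_al n_al_r tp_r (ng h0) h1.2 h2.2 h3.2 h4 h5)) (
    .cons (fun d hd h0 h1 h2 => h2 (tpy tp_al s_al h0.2 h1.2)) (
    .cons (fun d hd h0 => s_zm h0.2) (
    .cons (fun d hd h0 => h0 ⟨rfl, g_zm.1⟩) (
    .cons (fun d hd h0 => h0 ⟨rfl, g_zm.2.1⟩) (
    .cons (fun d hd h0 => h0 ⟨rfl, s_m⟩) (
    .cons (fun d hd h0 => h0 ⟨rfl, g_m.1⟩) (
    .cons (fun d hd h0 => h0 ⟨rfl, g_m.2.1⟩) (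
    .cons (fun d hd h0 => h0 (txp h x_al_r_zm_b)) (
    .cons (fun d hd h0 => ne_zm_m h0) (
    .cons (fun d hd h0 => h0 ⟨rfl, s_t⟩) (
    .cons (fun d hd h0 => h0 ⟨rfl, g_t.1⟩) (
    .cons (fun d hd h0 => h0 ⟨rfl, g_t.2.1⟩) (
    .cons (fun d hd h0 => nk_b_t h0) (
    .cons (fun d hd h0 => h0 (txp h x_b_r_t_al)) (
    .cons (fun d hd h0 h1 h2 => h2 (tpx tp_t s_t (ng h0) h1.2)) (
    .cons (fun d hd h0 => s_dbt h0.2) (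
    .cons (fun d hd h0 => h0 ⟨rfl, g_dbt.1⟩) (
    .cons (fun d hd h0 => h0 ⟨rfl, g_dbt.2.1⟩) (
    .cons (fun d hd h0 => ne_b_dbt h0) (
    .cons (fun d hd h0 => h0 ⟨rfl, s_u⟩) (
    .cons (fun d hd h0 => u_u h0.2) (
    .cons (fun d hd h0 => h0 ⟨rfl, d_u⟩) (
    .cons (fun d hd h0 => h0 ⟨rfl, s_v⟩) (
    .cons (fun d hd h0 => u_v h0.2) (
    .cons (fun d hd h0 => h0 ⟨rfl, d_v⟩) (
    .cons (fun d hd h0 => h0 (ttp h t_t_u_b_v)) (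
    .nil)))))))))))))))))))))))))))))))))))))))))))))

/-- templates -/
def fr_s_xs_x : List Tm := [
  ⟨0, [], [], [.b true 2 8 8]⟩,
  ⟨0, [], [], [.b true 3 8 8]⟩,
  ⟨0, [], [], [.b true 4 8 8]⟩,
  ⟨0, [], [], [.b true 2 9 9]⟩,
  ⟨0, [], [], [.b true 3 9 9]⟩,
  ⟨0, [], [], [.b true 4 9 9]⟩,
  ⟨0, [], [], [.b false 2 10 10]⟩,
  ⟨0, [], [], [.b true 3 10 10]⟩,
  ⟨0, [], [], [.b true 4 10 10]⟩,
  ⟨0, [], [], [.b false 2 11 11]⟩,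
  ⟨0, [], [], [.b true 3 11 11]⟩,
  ⟨0, [], [], [.b true 4 11 11]⟩,
  ⟨0, [], [], [.b true 1 8 9]⟩,
  ⟨0, [], [], [.b true 0 8 10]⟩,
  ⟨1, [], [], [.b false 2 0 0, .b false 3 0 0, .b true 0 0 11]⟩,
  ⟨2, [], [], [.b false 2 0 0, .b true 2 1 1, .b false 3 0 0, .b false 3 1 1, .b true 1 0 8, .q false 0 8 11 0 10, .b true 0 0 1]⟩,
  ⟨2, [], [], [.b true 2 0 0, .b false 2 1 1, .b false 3 0 0, .b false 3 1 1, .b true 1 0 8, .q false 0 8 11 0 10, .b true 0 0 1]⟩,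
  ⟨2, [], [], [.b false 2 0 0, .b true 2 1 1, .b false 3 0 0, .b false 3 1 1, .b true 1 0 9, .q false 0 9 11 0 10, .b true 0 0 1]⟩,
  ⟨2, [], [], [.b true 2 0 0, .b false 2 1 1, .b false 3 0 0, .b false 3 1 1, .b true 1 0 9, .q false 0 9 11 0 10, .b true 0 0 1]⟩,
  ⟨1, [], [], [.b false 2 0 0, .b false 3 0 0, .b true 0 0 10]⟩,
  ⟨0, [], [], [.b false 2 12 12]⟩,
  ⟨0, [], [], [.b true 3 12 12]⟩,
  ⟨0, [], [], [.b true 4 12 12]⟩,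
  ⟨0, [], [], [.b true 2 13 13]⟩,
  ⟨0, [], [], [.b true 3 13 13]⟩,
  ⟨0, [], [], [.b true 4 13 13]⟩,
  ⟨0, [], [], [.q true 0 10 11 12 8]⟩,
  ⟨0, [], [], [.b false 0 12 13]⟩,
  ⟨0, [], [], [.b true 2 14 14]⟩,
  ⟨0, [], [], [.b true 3 14 14]⟩,
  ⟨0, [], [], [.b true 4 14 14]⟩,
  ⟨0, [], [], [.b false 1 8 14]⟩,
  ⟨0, [], [], [.q true 0 8 11 14 10]⟩,
  ⟨1, [], [], [.b true 2 0 0, .b false 3 0 0, .b true 0 0 14]⟩,
  ⟨1, [], [], [.b true 2 0 0, .b false 3 0 0, .b true 0 0 8]⟩,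
  ⟨0, [], [], [.b true 2 15 15]⟩,
  ⟨0, [], [], [.b true 3 15 15]⟩,
  ⟨0, [], [], [.b true 4 15 15]⟩,
  ⟨0, [], [], [.b false 2 16 16]⟩,
  ⟨0, [], [], [.b true 3 16 16]⟩,
  ⟨0, [], [], [.b true 4 16 16]⟩,
  ⟨0, [], [], [.q true 0 8 14 15 10]⟩,
  ⟨0, [], [], [.b false 0 15 16]⟩,
  ⟨0, [], [], [.b true 0 8 9]⟩,
  ⟨0, [], [], [.q false 1 8 9 14 11]⟩]

def fr_s_xs_p0 : List Nat := [
0x64ec1900000004700000004100000006d00000007b0fd8000501,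
0x107900000008100000008300b4000301,
0xec40030000000870fce000201,
0x460ec070000000020000000060fd4000301,
0xec460070000000750000000080534000301,
0x10e0250000000810000000040000000350000000890a29000501,
0x10e5300000008100000000a00000008300000007b00000007d00000008900000000c000800]

def fr_s_xs_pf : List Nat := fr_s_xs_p0

theorem fr_s_xs_ref {V : Type} {S : SRel V} {p : Nat → V} (hp : ∀ i j, i < 9 → j < 9 → p i = p j → i = j)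
    (hts : PHs S p 9 ((qO ++ (qT ++ qE)) ++ fr_s_xs_x)) : False :=
  refuteS (k := 9) (n2 := 5) (n3 := 1) (n4 := 2) (o3 := 225) (o4 := 390) (M := 2460) ((qO ++ (qT ++ qE)) ++ fr_s_xs_x) fr_s_xs_pf (by decide +kernel)
    (by decide +kernel) (by decide +kernel) (by decide +kernel) hp hts

theorem fr_s_xs {V : Type} {W : Wo V} (h : W.Ok) {b c al r zm m t zbt dbt : V}
    (s_b : W.S b) (g_b : W.Gd b) (s_c : W.S c) (g_c : W.Gd c) (s_al : ¬ W.S al) (g_al : W.Gd al) (s_r : ¬ W.S r) (g_r : W.Gd r) (k_b_c : W.K b c) (e_b_al : W.G.Adj b al) (tp_r : W.Tp r) (n_al_r : al ≠ r) (ar_b : W.Arc b r al) (ar_c : W.Arc c r al) (tp_al : W.Tp al) (s_zm : ¬ W.S zm) (g_zm : W.Gd zm) (s_m : W.S m) (g_m : W.Gd m) (x_al_r_zm_b : CrF W.f al r zm b) (ne_zm_m : ¬ W.G.Adj zm m) (s_t : W.S t) (g_t : W.Gd t) (nk_b_t : ¬ W.K b t) (x_b_r_t_al : CrF W.f b r t al) (tp_t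 : W.Tp t) (tp_b : W.Tp b) (s_zbt : W.S zbt) (g_zbt : W.Gd zbt) (s_dbt : ¬ W.S dbt) (g_dbt : W.Gd dbt) (x_b_t_zbt_al : CrF W.f b t zbt al) (ne_zbt_dbt : ¬ W.G.Adj zbt dbt) (e_b_c : W.G.Adj b c) (nt_b_c_t_r : ¬ W.T b c t r) : False := by
  have h' := h.tw (k := 9) (by decide)
  refine fr_s_xs_ref (S := Wo.rel h') (pt_inj (l := ([(b, 0), (c, 1), (al, 2), (r, 3), (zm, 4), (m, 5), (t, 6), (zbt, 7), (dbt, 8)] : List (V × Fin 9))) (o := (b, 0))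
    (List.Nodup.of_map Prod.snd (show ([0, 1, 2, 3, 4, 5, 6, 7, 8] : List (Fin 9)).Nodup by decide)) rfl) (PHs.app (UHs.phs ((qO_h h').app ((qT_h h').app (qE_h h'))) _ _) ?_)
  exact
  .cons (fun d hd h0 => h0 ⟨rfl, s_b⟩) (
    .cons (fun d hd h0 => h0 ⟨rfl, g_b.1⟩) (
    .cons (fun d hd h0 => h0 ⟨rfl, g_b.2.1⟩) (
    .cons (fun d hd h0 => h0 ⟨rfl, s_c⟩) (
    .cons (fun d hd h0 => h0 ⟨rfl, g_c.1⟩) (
    .cons (fun d hd h0 => h0 ⟨rfl, g_c.2.1⟩) (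
    .cons (fun d hd h0 => s_al h0.2) (
    .cons (fun d hd h0 => h0 ⟨rfl, g_al.1⟩) (
    .cons (fun d hd h0 => h0 ⟨rfl, g_al.2.1⟩) (
    .cons (fun d hd h0 => s_r h0.2) (
    .cons (fun d hd h0 => h0 ⟨rfl, g_r.1⟩) (
    .cons (fun d hd h0 => h0 ⟨rfl, g_r.2.1⟩) (
    .cons (fun d hd h0 => h0 k_b_c) (
    .cons (fun d hd h0 => h0 e_b_al) (
    .cons (fun d hd h0 h1 h2 => h2 (tpy tp_r s_r h0.2 h1.2)) (
    .cons (fun d hd h0 h1 h2 h3 h4 h5 h6 => h6 (arx h ar_b s_b s_r s_al n_al_r h0.2 (ng h1) h2.2 h3.2 h4 h5)) (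
    .cons (fun d hd h0 h1 h2 h3 h4 h5 h6 => h6 (ary h ar_b s_b s_r s_al n_al_r tp_r (ng h0) h1.2 h2.2 h3.2 h4 h5)) (
    .cons (fun d hd h0 h1 h2 h3 h4 h5 h6 => h6 (arx h ar_c s_c s_r s_al n_al_r h0.2 (ng h1) h2.2 h3.2 h4 h5)) (
    .cons (fun d hd h0 h1 h2 h3 h4 h5 h6 => h6 (ary h ar_c s_c s_r s_al n_al_r tp_r (ng h0) h1.2 h2.2 h3.2 h4 h5)) (
    .cons (fun d hd h0 h1 h2 => h2 (tpy tp_al s_al h0.2 h1.2)) (
    .cons (fun d hd h0 => s_zm h0.2) (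
    .cons (fun d hd h0 => h0 ⟨rfl, g_zm.1⟩) (
    .cons (fun d hd h0 => h0 ⟨rfl, g_zm.2.1⟩) (
    .cons (fun d hd h0 => h0 ⟨rfl, s_m⟩) (
    .cons (fun d hd h0 => h0 ⟨rfl, g_m.1⟩) (
    .cons (fun d hd h0 => h0 ⟨rfl, g_m.2.1⟩) (
    .cons (fun d hd h0 => h0 (txp h x_al_r_zm_b)) (
    .cons (fun d hd h0 => ne_zm_m h0) (
    .cons (fun d hd h0 => h0 ⟨rfl, s_t⟩) (
    .cons (fun d hd h0 => h0 ⟨rfl, g_t.1⟩) (
    .cons (fun d hd h0 => h0 ⟨rfl, g_t.2.1⟩) (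
    .cons (fun d hd h0 => nk_b_t h0) (
    .cons (fun d hd h0 => h0 (txp h x_b_r_t_al)) (
    .cons (fun d hd h0 h1 h2 => h2 (tpx tp_t s_t (ng h0) h1.2)) (
    .cons (fun d hd h0 h1 h2 => h2 (tpx tp_b s_b (ng h0) h1.2)) (
    .cons (fun d hd h0 => h0 ⟨rfl, s_zbt⟩) (
    .cons (fun d hd h0 => h0 ⟨rfl, g_zbt.1⟩) (
    .cons (fun d hd h0 => h0 ⟨rfl, g_zbt.2.1⟩) (
    .cons (fun d hd h0 => s_dbt h0.2) (
    .cons (fun d hd h0 => h0 ⟨rfl, g_dbt.1⟩) (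
    .cons (fun d hd h0 => h0 ⟨rfl, g_dbt.2.1⟩) (
    .cons (fun d hd h0 => h0 (txp h x_b_t_zbt_al)) (
    .cons (fun d hd h0 => ne_zbt_dbt h0) (
    .cons (fun d hd h0 => h0 e_b_c) (
    .cons (fun d hd h0 => nt_b_c_t_r (ttn e_b_c.ne (nsd s_t s_r) h0)) (
    .nil)))))))))))))))))))))))))))))))))))))))))))))

/-- templates -/
def ll_s_xs_x : List Tm := [
  ⟨0, [], [], [.b true 2 8 8]⟩,
  ⟨0, [], [], [.b true 3 8 8]⟩,
  ⟨0, [], [], [.b true 4 8 8]⟩,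
  ⟨0, [], [], [.b true 2 9 9]⟩,
  ⟨0, [], [], [.b true 3 9 9]⟩,
  ⟨0, [], [], [.b true 4 9 9]⟩,
  ⟨0, [], [], [.b false 2 10 10]⟩,
  ⟨0, [], [], [.b true 3 10 10]⟩,
  ⟨0, [], [], [.b true 4 10 10]⟩,
  ⟨0, [], [], [.b false 2 11 11]⟩,
  ⟨0, [], [], [.b true 3 11 11]⟩,
  ⟨0, [], [], [.b true 4 11 11]⟩,
  ⟨0, [], [], [.b true 1 8 9]⟩,
  ⟨0, [], [], [.b true 0 8 10]⟩,
  ⟨1, [], [], [.b false 2 0 0, .b false 3 0 0, .b true 0 0 11]⟩,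
  ⟨2, [], [], [.b false 2 0 0, .b true 2 1 1, .b false 3 0 0, .b false 3 1 1, .b true 1 0 8, .q false 0 8 11 0 10, .b true 0 0 1]⟩,
  ⟨2, [], [], [.b true 2 0 0, .b false 2 1 1, .b false 3 0 0, .b false 3 1 1, .b true 1 0 8, .q false 0 8 11 0 10, .b true 0 0 1]⟩,
  ⟨2, [], [], [.b false 2 0 0, .b true 2 1 1, .b false 3 0 0, .b false 3 1 1, .b true 1 0 9, .q false 0 9 11 0 10, .b true 0 0 1]⟩,
  ⟨2, [], [], [.b true 2 0 0, .b false 2 1 1, .b false 3 0 0, .b false 3 1 1, .b true 1 0 9, .q false 0 9 11 0 10, .b true 0 0 1]⟩,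
  ⟨1, [], [], [.b false 2 0 0, .b false 3 0 0, .b true 0 0 10]⟩,
  ⟨0, [], [], [.b false 2 12 12]⟩,
  ⟨0, [], [], [.b true 3 12 12]⟩,
  ⟨0, [], [], [.b true 4 12 12]⟩,
  ⟨0, [], [], [.b true 2 13 13]⟩,
  ⟨0, [], [], [.b true 3 13 13]⟩,
  ⟨0, [], [], [.b true 4 13 13]⟩,
  ⟨0, [], [], [.q true 0 10 11 12 8]⟩,
  ⟨0, [], [], [.b false 0 12 13]⟩,
  ⟨0, [], [], [.b true 2 14 14]⟩,
  ⟨0, [], [], [.b true 3 14 14]⟩,
  ⟨0, [], [], [.b true 4 14 14]⟩,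
  ⟨0, [], [], [.b false 1 8 14]⟩,
  ⟨0, [], [], [.q true 0 8 11 14 10]⟩,
  ⟨1, [], [], [.b true 2 0 0, .b false 3 0 0, .b true 0 0 14]⟩,
  ⟨1, [], [], [.b true 2 0 0, .b false 3 0 0, .b true 0 0 8]⟩,
  ⟨0, [], [], [.b true 2 15 15]⟩,
  ⟨0, [], [], [.b true 3 15 15]⟩,
  ⟨0, [], [], [.b true 4 15 15]⟩,
  ⟨0, [], [], [.b false 2 16 16]⟩,
  ⟨0, [], [], [.b true 3 16 16]⟩,
  ⟨0, [], [], [.b true 4 16 16]⟩,
  ⟨0, [], [], [.q true 0 8 14 15 10]⟩,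
  ⟨0, [], [], [.b false 0 15 16]⟩,
  ⟨0, [], [], [.b true 2 17 17]⟩,
  ⟨0, [], [], [.b false 3 17 17]⟩,
  ⟨0, [], [], [.b true 4 17 17]⟩,
  ⟨0, [], [], [.b true 2 18 18]⟩,
  ⟨0, [], [], [.b true 3 18 18]⟩,
  ⟨0, [], [], [.b true 4 18 18]⟩,
  ⟨0, [], [], [.b false 1 8 18]⟩,
  ⟨0, [], [], [.b false 0 18 10]⟩,
  ⟨0, [], [], [.q true 1 14 17 8 18]⟩]

def ll_s_xs_p0 : List Nat := [
0x64ec1900000004700000004100000006d00000007b1acc000501,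
0x107900000008100000008300b4000301,
0xec40030000000871ac2000201,
0x460ec070000000020000000061ac8000301,
0xec460070000000750000000080616000301,
0x10e025000000081000000004000000035000000089143b000501,
0x10e5300000008100000000a00000008300000007b00000007d00000008900000000c000800]

def ll_s_xs_pf : List Nat := ll_s_xs_p0

theorem ll_s_xs_ref {V : Type} {S : SRel V} {p : Nat → V} (hp : ∀ i j, i < 11 → j < 11 → p i = p j → i = j)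
    (hts : PHs S p 11 ((qO ++ (qT ++ qE)) ++ ll_s_xs_x)) : False :=
  refuteS (k := 11) (n2 := 5) (n3 := 1) (n4 := 2) (o3 := 330) (o4 := 616) (M := 5038) ((qO ++ (qT ++ qE)) ++ ll_s_xs_x) ll_s_xs_pf (by decide +kernel)
    (by decide +kernel) (by decide +kernel) (by decide +kernel) hp hts

theorem ll_s_xs {V : Type} {W : Wo V} (h : W.Ok) {b c al r zm m t zbt dbt u x : V}
    (s_b : W.S b) (g_b : W.Gd b) (s_c : W.S c) (g_c : W.Gd c) (s_al : ¬ W.S al) (g_al : W.Gd al) (s_r : ¬ W.S r) (g_r : W.Gd r) (k_b_c : W.K b c) (e_b_al : W.G.Adj b al) (tp_r : W.Tp r) (n_al_r : al ≠ r) (ar_b : W.Arc b r al) (ar_c : W.Arc c r al) (tp_al : W.Tp al) (s_zm : ¬ W.S zm) (g_zm : W.Gd zm) (s_m : W.S m) (g_m : W.Gd m) (x_al_r_zm_b : CrF W.f al r zm b) (ne_zm_m : ¬ W.G.Adj zm m) (s_t : W.S t) (g_t : W.Gd t) (nk_b_t : ¬ W.K b t) (x_b_r_t_al : CrF W.f b r t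 al) (tp_t : W.Tp t) (tp_b : W.Tp b) (s_zbt : W.S zbt) (g_zbt : W.Gd zbt) (s_dbt : ¬ W.S dbt) (g_dbt : W.Gd dbt) (x_b_t_zbt_al : CrF W.f b t zbt al) (ne_zbt_dbt : ¬ W.G.Adj zbt dbt) (s_u : W.S u) (u_u : ¬ W.A u) (d_u : W.D u) (s_x : W.S x) (g_x : W.Gd x) (nk_b_x : ¬ W.K b x) (ne_x_al : ¬ W.G.Adj x al) (t_t_u_b_x : W.T t u b x) : False := by
  have h' := h.tw (k := 11) (by decide)
  refine ll_s_xs_ref (S := Wo.rel h') (pt_inj (l := ([(b, 0), (c, 1), (al, 2), (r, 3), (zm, 4), (m, 5), (t, 6), (zbt, 7), (dbt, 8), (u, 9), (x, 10)] : List (V × Fin 11))) (o := (b, 0))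
    (List.Nodup.of_map Prod.snd (show ([0, 1, 2, 3, 4, 5, 6, 7, 8, 9, 10] : List (Fin 11)).Nodup by decide)) rfl) (PHs.app (UHs.phs ((qO_h h').app ((qT_h h').app (qE_h h'))) _ _) ?_)
  exact
  .cons (fun d hd h0 => h0 ⟨rfl, s_b⟩) (
    .cons (fun d hd h0 => h0 ⟨rfl, g_b.1⟩) (
    .cons (fun d hd h0 => h0 ⟨rfl, g_b.2.1⟩) (
    .cons (fun d hd h0 => h0 ⟨rfl, s_c⟩) (
    .cons (fun d hd h0 => h0 ⟨rfl, g_c.1⟩) (
    .cons (fun d hd h0 => h0 ⟨rfl, g_c.2.1⟩) (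
    .cons (fun d hd h0 => s_al h0.2) (
    .cons (fun d hd h0 => h0 ⟨rfl, g_al.1⟩) (
    .cons (fun d hd h0 => h0 ⟨rfl, g_al.2.1⟩) (
    .cons (fun d hd h0 => s_r h0.2) (
    .cons (fun d hd h0 => h0 ⟨rfl, g_r.1⟩) (
    .cons (fun d hd h0 => h0 ⟨rfl, g_r.2.1⟩) (
    .cons (fun d hd h0 => h0 k_b_c) (
    .cons (fun d hd h0 => h0 e_b_al) (
    .cons (fun d hd h0 h1 h2 => h2 (tpy tp_r s_r h0.2 h1.2)) (
    .cons (fun d hd h0 h1 h2 h3 h4 h5 h6 => h6 (arx h ar_b s_b s_r s_al n_al_r h0.2 (ng h1) h2.2 h3.2 h4 h5)) (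
    .cons (fun d hd h0 h1 h2 h3 h4 h5 h6 => h6 (ary h ar_b s_b s_r s_al n_al_r tp_r (ng h0) h1.2 h2.2 h3.2 h4 h5)) (
    .cons (fun d hd h0 h1 h2 h3 h4 h5 h6 => h6 (arx h ar_c s_c s_r s_al n_al_r h0.2 (ng h1) h2.2 h3.2 h4 h5)) (
    .cons (fun d hd h0 h1 h2 h3 h4 h5 h6 => h6 (ary h ar_c s_c s_r s_al n_al_r tp_r (ng h0) h1.2 h2.2 h3.2 h4 h5)) (
    .cons (fun d hd h0 h1 h2 => h2 (tpy tp_al s_al h0.2 h1.2)) (
    .cons (fun d hd h0 => s_zm h0.2) (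
    .cons (fun d hd h0 => h0 ⟨rfl, g_zm.1⟩) (
    .cons (fun d hd h0 => h0 ⟨rfl, g_zm.2.1⟩) (
    .cons (fun d hd h0 => h0 ⟨rfl, s_m⟩) (
    .cons (fun d hd h0 => h0 ⟨rfl, g_m.1⟩) (
    .cons (fun d hd h0 => h0 ⟨rfl, g_m.2.1⟩) (
    .cons (fun d hd h0 => h0 (txp h x_al_r_zm_b)) (
    .cons (fun d hd h0 => ne_zm_m h0) (
    .cons (fun d hd h0 => h0 ⟨rfl, s_t⟩) (
    .cons (fun d hd h0 => h0 ⟨rfl, g_t.1⟩) (
    .cons (fun d hd h0 => h0 ⟨rfl, g_t.2.1⟩) (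
    .cons (fun d hd h0 => nk_b_t h0) (
    .cons (fun d hd h0 => h0 (txp h x_b_r_t_al)) (
    .cons (fun d hd h0 h1 h2 => h2 (tpx tp_t s_t (ng h0) h1.2)) (
    .cons (fun d hd h0 h1 h2 => h2 (tpx tp_b s_b (ng h0) h1.2)) (
    .cons (fun d hd h0 => h0 ⟨rfl, s_zbt⟩) (
    .cons (fun d hd h0 => h0 ⟨rfl, g_zbt.1⟩) (
    .cons (fun d hd h0 => h0 ⟨rfl, g_zbt.2.1⟩) (
    .cons (fun d hd h0 => s_dbt h0.2) (
    .cons (fun d hd h0 => h0 ⟨rfl, g_dbt.1⟩) (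
    .cons (fun d hd h0 => h0 ⟨rfl, g_dbt.2.1⟩) (
    .cons (fun d hd h0 => h0 (txp h x_b_t_zbt_al)) (
    .cons (fun d hd h0 => ne_zbt_dbt h0) (
    .cons (fun d hd h0 => h0 ⟨rfl, s_u⟩) (
    .cons (fun d hd h0 => u_u h0.2) (
    .cons (fun d hd h0 => h0 ⟨rfl, d_u⟩) (
    .cons (fun d hd h0 => h0 ⟨rfl, s_x⟩) (
    .cons (fun d hd h0 => h0 ⟨rfl, g_x.1⟩) (
    .cons (fun d hd h0 => h0 ⟨rfl, g_x.2.1⟩) (
    .cons (fun d hd h0 => nk_b_x h0) (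
    .cons (fun d hd h0 => ne_x_al h0) (
    .cons (fun d hd h0 => h0 (ttp h t_t_u_b_x)) (
    .nil))))))))))))))))))))))))))))))))))))))))))))))))))))

/-- templates -/
def lb_s_xs_x : List Tm := [
  ⟨0, [], [], [.b true 2 8 8]⟩,
  ⟨0, [], [], [.b true 3 8 8]⟩,
  ⟨0, [], [], [.b true 4 8 8]⟩,
  ⟨0, [], [], [.b true 2 9 9]⟩,
  ⟨0, [], [], [.b true 3 9 9]⟩,
  ⟨0, [], [], [.b true 4 9 9]⟩,
  ⟨0, [], [], [.b false 2 10 10]⟩,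
  ⟨0, [], [], [.b true 3 10 10]⟩,
  ⟨0, [], [], [.b true 4 10 10]⟩,
  ⟨0, [], [], [.b false 2 11 11]⟩,
  ⟨0, [], [], [.b true 3 11 11]⟩,
  ⟨0, [], [], [.b true 4 11 11]⟩,
  ⟨0, [], [], [.b true 1 8 9]⟩,
  ⟨0, [], [], [.b true 0 8 10]⟩,
  ⟨1, [], [], [.b false 2 0 0, .b false 3 0 0, .b true 0 0 11]⟩,
  ⟨2, [], [], [.b false 2 0 0, .b true 2 1 1, .b false 3 0 0, .b false 3 1 1, .b true 1 0 8, .q false 0 8 11 0 10, .b true 0 0 1]⟩,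
  ⟨2, [], [], [.b true 2 0 0, .b false 2 1 1, .b false 3 0 0, .b false 3 1 1, .b true 1 0 8, .q false 0 8 11 0 10, .b true 0 0 1]⟩,
  ⟨2, [], [], [.b false 2 0 0, .b true 2 1 1, .b false 3 0 0, .b false 3 1 1, .b true 1 0 9, .q false 0 9 11 0 10, .b true 0 0 1]⟩,
  ⟨2, [], [], [.b true 2 0 0, .b false 2 1 1, .b false 3 0 0, .b false 3 1 1, .b true 1 0 9, .q false 0 9 11 0 10, .b true 0 0 1]⟩,
  ⟨1, [], [], [.b false 2 0 0, .b false 3 0 0, .b true 0 0 10]⟩,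
  ⟨0, [], [], [.b false 2 12 12]⟩,
  ⟨0, [], [], [.b true 3 12 12]⟩,
  ⟨0, [], [], [.b true 4 12 12]⟩,
  ⟨0, [], [], [.b true 2 13 13]⟩,
  ⟨0, [], [], [.b true 3 13 13]⟩,
  ⟨0, [], [], [.b true 4 13 13]⟩,
  ⟨0, [], [], [.q true 0 10 11 12 8]⟩,
  ⟨0, [], [], [.b false 0 12 13]⟩,
  ⟨0, [], [], [.b true 2 14 14]⟩,
  ⟨0, [], [], [.b true 3 14 14]⟩,
  ⟨0, [], [], [.b true 4 14 14]⟩,
  ⟨0, [], [], [.b false 1 8 14]⟩,
  ⟨0, [], [], [.q true 0 8 11 14 10]⟩,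
  ⟨1, [], [], [.b true 2 0 0, .b false 3 0 0, .b true 0 0 14]⟩,
  ⟨1, [], [], [.b true 2 0 0, .b false 3 0 0, .b true 0 0 8]⟩,
  ⟨0, [], [], [.b true 2 15 15]⟩,
  ⟨0, [], [], [.b true 3 15 15]⟩,
  ⟨0, [], [], [.b true 4 15 15]⟩,
  ⟨0, [], [], [.b false 2 16 16]⟩,
  ⟨0, [], [], [.b true 3 16 16]⟩,
  ⟨0, [], [], [.b true 4 16 16]⟩,
  ⟨0, [], [], [.q true 0 8 14 15 10]⟩,
  ⟨0, [], [], [.b false 0 15 16]⟩,
  ⟨0, [], [], [.b true 2 17 17]⟩,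
  ⟨0, [], [], [.b false 3 17 17]⟩,
  ⟨0, [], [], [.b true 4 17 17]⟩,
  ⟨0, [], [], [.q true 1 10 17 8 14]⟩]

def lb_s_xs_p0 : List Nat := [
0x64ec1900000004700000004100000006d00000007b149c000501,
0x107900000008100000008300b4000301,
0xec40030000000871492000201,
0x460ec070000000020000000061498000301,
0xec46007000000075000000008059d000301,
0x10e0250000000810000000040000000350000000890e84000501,
0x10e5300000008100000000a00000008300000007b00000007d00000008900000000c000800]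

def lb_s_xs_pf : List Nat := lb_s_xs_p0

theorem lb_s_xs_ref {V : Type} {S : SRel V} {p : Nat → V} (hp : ∀ i j, i < 10 → j < 10 → p i = p j → i = j)
    (hts : PHs S p 10 ((qO ++ (qT ++ qE)) ++ lb_s_xs_x)) : False :=
  refuteS (k := 10) (n2 := 5) (n3 := 1) (n4 := 2) (o3 := 275) (o4 := 495) (M := 3575) ((qO ++ (qT ++ qE)) ++ lb_s_xs_x) lb_s_xs_pf (by decide +kernel)
    (by decide +kernel) (by decide +kernel) (by decide +kernel) hp hts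

theorem lb_s_xs {V : Type} {W : Wo V} (h : W.Ok) {b c al r zm m t zbt dbt u : V}
    (s_b : W.S b) (g_b : W.Gd b) (s_c : W.S c) (g_c : W.Gd c) (s_al : ¬ W.S al) (g_al : W.Gd al) (s_r : ¬ W.S r) (g_r : W.Gd r) (k_b_c : W.K b c) (e_b_al : W.G.Adj b al) (tp_r : W.Tp r) (n_al_r : al ≠ r) (ar_b : W.Arc b r al) (ar_c : W.Arc c r al) (tp_al : W.Tp al) (s_zm : ¬ W.S zm) (g_zm : W.Gd zm) (s_m : W.S m) (g_m : W.Gd m) (x_al_r_zm_b : CrF W.f al r zm b) (ne_zm_m : ¬ W.G.Adj zm m) (s_t : W.S t) (g_t : W.Gd t) (nk_b_t : ¬ W.K b t) (x_b_r_t_al : CrF W.f b r t al) (tp_t : W.Tp t) (tp_b : W.Tp b) (s_zbt : W.S zbt) (g_zbt : W.Gd zbt) (s_dbt : ¬ W.S dbt) (g_dbt : W.Gd dbt) (x_b_t_zbt_al : CrF W.f b t zbt al) (ne_zbt_dbt : ¬ W.G.Adj zbt dbt) (s_u : W.S u) (u_u : ¬ W.A u) (d_u : W.D u) (t_al_u_b_t : W.T al u b t) : False := by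
  have h' := h.tw (k := 10) (by decide)
  refine lb_s_xs_ref (S := Wo.rel h') (pt_inj (l := ([(b, 0), (c, 1), (al, 2), (r, 3), (zm, 4), (m, 5), (t, 6), (zbt, 7), (dbt, 8), (u, 9)] : List (V × Fin 10))) (o := (b, 0))
    (List.Nodup.of_map Prod.snd (show ([0, 1, 2, 3, 4, 5, 6, 7, 8, 9] : List (Fin 10)).Nodup by decide)) rfl) (PHs.app (UHs.phs ((qO_h h').app ((qT_h h').app (qE_h h'))) _ _) ?_)
  exact
  .cons (fun d hd h0 => h0 ⟨rfl, s_b⟩) (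
    .cons (fun d hd h0 => h0 ⟨rfl, g_b.1⟩) (
    .cons (fun d hd h0 => h0 ⟨rfl, g_b.2.1⟩) (
    .cons (fun d hd h0 => h0 ⟨rfl, s_c⟩) (
    .cons (fun d hd h0 => h0 ⟨rfl, g_c.1⟩) (
    .cons (fun d hd h0 => h0 ⟨rfl, g_c.2.1⟩) (
    .cons (fun d hd h0 => s_al h0.2) (
    .cons (fun d hd h0 => h0 ⟨rfl, g_al.1⟩) (
    .cons (fun d hd h0 => h0 ⟨rfl, g_al.2.1⟩) (
    .cons (fun d hd h0 => s_r h0.2) (
    .cons (fun d hd h0 => h0 ⟨rfl, g_r.1⟩) (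
    .cons (fun d hd h0 => h0 ⟨rfl, g_r.2.1⟩) (
    .cons (fun d hd h0 => h0 k_b_c) (
    .cons (fun d hd h0 => h0 e_b_al) (
    .cons (fun d hd h0 h1 h2 => h2 (tpy tp_r s_r h0.2 h1.2)) (
    .cons (fun d hd h0 h1 h2 h3 h4 h5 h6 => h6 (arx h ar_b s_b s_r s_al n_al_r h0.2 (ng h1) h2.2 h3.2 h4 h5)) (
    .cons (fun d hd h0 h1 h2 h3 h4 h5 h6 => h6 (ary h ar_b s_b s_r s_al n_al_r tp_r (ng h0) h1.2 h2.2 h3.2 h4 h5)) (
    .cons (fun d hd h0 h1 h2 h3 h4 h5 h6 => h6 (arx h ar_c s_c s_r s_al n_al_r h0.2 (ng h1) h2.2 h3.2 h4 h5)) (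
    .cons (fun d hd h0 h1 h2 h3 h4 h5 h6 => h6 (ary h ar_c s_c s_r s_al n_al_r tp_r (ng h0) h1.2 h2.2 h3.2 h4 h5)) (
    .cons (fun d hd h0 h1 h2 => h2 (tpy tp_al s_al h0.2 h1.2)) (
    .cons (fun d hd h0 => s_zm h0.2) (
    .cons (fun d hd h0 => h0 ⟨rfl, g_zm.1⟩) (
    .cons (fun d hd h0 => h0 ⟨rfl, g_zm.2.1⟩) (
    .cons (fun d hd h0 => h0 ⟨rfl, s_m⟩) (
    .cons (fun d hd h0 => h0 ⟨rfl, g_m.1⟩) (
    .cons (fun d hd h0 => h0 ⟨rfl, g_m.2.1⟩) (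
    .cons (fun d hd h0 => h0 (txp h x_al_r_zm_b)) (
    .cons (fun d hd h0 => ne_zm_m h0) (
    .cons (fun d hd h0 => h0 ⟨rfl, s_t⟩) (
    .cons (fun d hd h0 => h0 ⟨rfl, g_t.1⟩) (
    .cons (fun d hd h0 => h0 ⟨rfl, g_t.2.1⟩) (
    .cons (fun d hd h0 => nk_b_t h0) (
    .cons (fun d hd h0 => h0 (txp h x_b_r_t_al)) (
    .cons (fun d hd h0 h1 h2 => h2 (tpx tp_t s_t (ng h0) h1.2)) (
    .cons (fun d hd h0 h1 h2 => h2 (tpx tp_b s_b (ng h0) h1.2)) (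
    .cons (fun d hd h0 => h0 ⟨rfl, s_zbt⟩) (
    .cons (fun d hd h0 => h0 ⟨rfl, g_zbt.1⟩) (
    .cons (fun d hd h0 => h0 ⟨rfl, g_zbt.2.1⟩) (
    .cons (fun d hd h0 => s_dbt h0.2) (
    .cons (fun d hd h0 => h0 ⟨rfl, g_dbt.1⟩) (
    .cons (fun d hd h0 => h0 ⟨rfl, g_dbt.2.1⟩) (
    .cons (fun d hd h0 => h0 (txp h x_b_t_zbt_al)) (
    .cons (fun d hd h0 => ne_zbt_dbt h0) (
    .cons (fun d hd h0 => h0 ⟨rfl, s_u⟩) (
    .cons (fun d hd h0 => u_u h0.2) (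
    .cons (fun d hd h0 => h0 ⟨rfl, d_u⟩) (
    .cons (fun d hd h0 => h0 (ttp h t_al_u_b_t)) (
    .nil)))))))))))))))))))))))))))))))))))))))))))))))

/-- templates -/
def lc_s_xs_x : List Tm := [
  ⟨0, [], [], [.b true 2 8 8]⟩,
  ⟨0, [], [], [.b true 3 8 8]⟩,
  ⟨0, [], [], [.b true 4 8 8]⟩,
  ⟨0, [], [], [.b true 2 9 9]⟩,
  ⟨0, [], [], [.b true 3 9 9]⟩,
  ⟨0, [], [], [.b true 4 9 9]⟩,
  ⟨0, [], [], [.b false 2 10 10]⟩,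
  ⟨0, [], [], [.b true 3 10 10]⟩,
  ⟨0, [], [], [.b true 4 10 10]⟩,
  ⟨0, [], [], [.b false 2 11 11]⟩,
  ⟨0, [], [], [.b true 3 11 11]⟩,
  ⟨0, [], [], [.b true 4 11 11]⟩,
  ⟨0, [], [], [.b true 1 8 9]⟩,
  ⟨0, [], [], [.b true 0 8 10]⟩,
  ⟨1, [], [], [.b false 2 0 0, .b false 3 0 0, .b true 0 0 11]⟩,
  ⟨2, [], [], [.b false 2 0 0, .b true 2 1 1, .b false 3 0 0, .b false 3 1 1, .b true 1 0 8, .q false 0 8 11 0 10, .b true 0 0 1]⟩,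
  ⟨2, [], [], [.b true 2 0 0, .b false 2 1 1, .b false 3 0 0, .b false 3 1 1, .b true 1 0 8, .q false 0 8 11 0 10, .b true 0 0 1]⟩,
  ⟨2, [], [], [.b false 2 0 0, .b true 2 1 1, .b false 3 0 0, .b false 3 1 1, .b true 1 0 9, .q false 0 9 11 0 10, .b true 0 0 1]⟩,
  ⟨2, [], [], [.b true 2 0 0, .b false 2 1 1, .b false 3 0 0, .b false 3 1 1, .b true 1 0 9, .q false 0 9 11 0 10, .b true 0 0 1]⟩,
  ⟨1, [], [], [.b false 2 0 0, .b false 3 0 0, .b true 0 0 10]⟩,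
  ⟨0, [], [], [.b false 2 12 12]⟩,
  ⟨0, [], [], [.b true 3 12 12]⟩,
  ⟨0, [], [], [.b true 4 12 12]⟩,
  ⟨0, [], [], [.b true 2 13 13]⟩,
  ⟨0, [], [], [.b true 3 13 13]⟩,
  ⟨0, [], [], [.b true 4 13 13]⟩,
  ⟨0, [], [], [.q true 0 10 11 12 8]⟩,
  ⟨0, [], [], [.b false 0 12 13]⟩,
  ⟨0, [], [], [.b true 2 14 14]⟩,
  ⟨0, [], [], [.b true 3 14 14]⟩,
  ⟨0, [], [], [.b true 4 14 14]⟩,
  ⟨0, [], [], [.b false 1 8 14]⟩,
  ⟨0, [], [], [.q true 0 8 11 14 10]⟩,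
  ⟨1, [], [], [.b true 2 0 0, .b false 3 0 0, .b true 0 0 14]⟩,
  ⟨1, [], [], [.b true 2 0 0, .b false 3 0 0, .b true 0 0 8]⟩,
  ⟨0, [], [], [.b true 2 15 15]⟩,
  ⟨0, [], [], [.b true 3 15 15]⟩,
  ⟨0, [], [], [.b true 4 15 15]⟩,
  ⟨0, [], [], [.b false 2 16 16]⟩,
  ⟨0, [], [], [.b true 3 16 16]⟩,
  ⟨0, [], [], [.b true 4 16 16]⟩,
  ⟨0, [], [], [.q true 0 8 14 15 10]⟩,
  ⟨0, [], [], [.b false 0 15 16]⟩,
  ⟨0, [], [], [.b true 2 17 17]⟩,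
  ⟨0, [], [], [.b false 3 17 17]⟩,
  ⟨0, [], [], [.b true 4 17 17]⟩,
  ⟨0, [], [], [.b true 2 18 18]⟩,
  ⟨0, [], [], [.b false 3 18 18]⟩,
  ⟨0, [], [], [.b true 4 18 18]⟩,
  ⟨0, [], [], [.q true 1 14 17 8 18]⟩]

def lc_s_xs_p0 : List Nat := [
0x64ec1900000004700000004100000006d00000007b1acc000501,
0x107900000008100000008300b4000301,
0xec40030000000871ac2000201,
0x460ec070000000020000000061ac8000301,
0xec460070000000750000000080616000301,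
0x10e025000000081000000004000000035000000089143b000501,
0x10e5300000008100000000a00000008300000007b00000007d00000008900000000c000800]

def lc_s_xs_pf : List Nat := lc_s_xs_p0

theorem lc_s_xs_ref {V : Type} {S : SRel V} {p : Nat → V} (hp : ∀ i j, i < 11 → j < 11 → p i = p j → i = j)
    (hts : PHs S p 11 ((qO ++ (qT ++ qE)) ++ lc_s_xs_x)) : False :=
  refuteS (k := 11) (n2 := 5) (n3 := 1) (n4 := 2) (o3 := 330) (o4 := 616) (M := 5038) ((qO ++ (qT ++ qE)) ++ lc_s_xs_x) lc_s_xs_pf (by decide +kernel)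
    (by decide +kernel) (by decide +kernel) (by decide +kernel) hp hts

theorem lc_s_xs {V : Type} {W : Wo V} (h : W.Ok) {b c al r zm m t zbt dbt u v : V}
    (s_b : W.S b) (g_b : W.Gd b) (s_c : W.S c) (g_c : W.Gd c) (s_al : ¬ W.S al) (g_al : W.Gd al) (s_r : ¬ W.S r) (g_r : W.Gd r) (k_b_c : W.K b c) (e_b_al : W.G.Adj b al) (tp_r : W.Tp r) (n_al_r : al ≠ r) (ar_b : W.Arc b r al) (ar_c : W.Arc c r al) (tp_al : W.Tp al) (s_zm : ¬ W.S zm) (g_zm : W.Gd zm) (s_m : W.S m) (g_m : W.Gd m) (x_al_r_zm_b : CrF W.f al r zm b) (ne_zm_m : ¬ W.G.Adj zm m) (s_t : W.S t) (g_t : W.Gd t) (nk_b_t : ¬ W.K b t) (x_b_r_t_al : CrF W.f b r t al) (tp_t : W.Tp t) (tp_b : W.Tp b) (s_zbt : W.S zbt) (g_zbt : W.Gd zbt) (s_dbt : ¬ W.S dbt) (g_dbt : W.Gd dbt) (x_b_t_zbt_al : CrF W.f b t zbt al) (ne_zbt_dbt : ¬ W.G.Adj zbt dbt) (s_u : W.S u) (u_u : ¬ W.A u) (d_u : W.D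 u) (s_v : W.S v) (u_v : ¬ W.A v) (d_v : W.D v) (t_t_u_b_v : W.T t u b v) : False := by
  have h' := h.tw (k := 11) (by decide)
  refine lc_s_xs_ref (S := Wo.rel h') (pt_inj (l := ([(b, 0), (c, 1), (al, 2), (r, 3), (zm, 4), (m, 5), (t, 6), (zbt, 7), (dbt, 8), (u, 9), (v, 10)] : List (V × Fin 11))) (o := (b, 0))
    (List.Nodup.of_map Prod.snd (show ([0, 1, 2, 3, 4, 5, 6, 7, 8, 9, 10] : List (Fin 11)).Nodup by decide)) rfl) (PHs.app (UHs.phs ((qO_h h').app ((qT_h h').app (qE_h h'))) _ _) ?_)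
  exact
  .cons (fun d hd h0 => h0 ⟨rfl, s_b⟩) (
    .cons (fun d hd h0 => h0 ⟨rfl, g_b.1⟩) (
    .cons (fun d hd h0 => h0 ⟨rfl, g_b.2.1⟩) (
    .cons (fun d hd h0 => h0 ⟨rfl, s_c⟩) (
    .cons (fun d hd h0 => h0 ⟨rfl, g_c.1⟩) (
    .cons (fun d hd h0 => h0 ⟨rfl, g_c.2.1⟩) (
    .cons (fun d hd h0 => s_al h0.2) (
    .cons (fun d hd h0 => h0 ⟨rfl, g_al.1⟩) (
    .cons (fun d hd h0 => h0 ⟨rfl, g_al.2.1⟩) (
    .cons (fun d hd h0 => s_r h0.2) (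
    .cons (fun d hd h0 => h0 ⟨rfl, g_r.1⟩) (
    .cons (fun d hd h0 => h0 ⟨rfl, g_r.2.1⟩) (
    .cons (fun d hd h0 => h0 k_b_c) (
    .cons (fun d hd h0 => h0 e_b_al) (
    .cons (fun d hd h0 h1 h2 => h2 (tpy tp_r s_r h0.2 h1.2)) (
    .cons (fun d hd h0 h1 h2 h3 h4 h5 h6 => h6 (arx h ar_b s_b s_r s_al n_al_r h0.2 (ng h1) h2.2 h3.2 h4 h5)) (
    .cons (fun d hd h0 h1 h2 h3 h4 h5 h6 => h6 (ary h ar_b s_b s_r s_al n_al_r tp_r (ng h0) h1.2 h2.2 h3.2 h4 h5)) (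
    .cons (fun d hd h0 h1 h2 h3 h4 h5 h6 => h6 (arx h ar_c s_c s_r s_al n_al_r h0.2 (ng h1) h2.2 h3.2 h4 h5)) (
    .cons (fun d hd h0 h1 h2 h3 h4 h5 h6 => h6 (ary h ar_c s_c s_r s_al n_al_r tp_r (ng h0) h1.2 h2.2 h3.2 h4 h5)) (
    .cons (fun d hd h0 h1 h2 => h2 (tpy tp_al s_al h0.2 h1.2)) (
    .cons (fun d hd h0 => s_zm h0.2) (
    .cons (fun d hd h0 => h0 ⟨rfl, g_zm.1⟩) (
    .cons (fun d hd h0 => h0 ⟨rfl, g_zm.2.1⟩) (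
    .cons (fun d hd h0 => h0 ⟨rfl, s_m⟩) (
    .cons (fun d hd h0 => h0 ⟨rfl, g_m.1⟩) (
    .cons (fun d hd h0 => h0 ⟨rfl, g_m.2.1⟩) (
    .cons (fun d hd h0 => h0 (txp h x_al_r_zm_b)) (
    .cons (fun d hd h0 => ne_zm_m h0) (
    .cons (fun d hd h0 => h0 ⟨rfl, s_t⟩) (
    .cons (fun d hd h0 => h0 ⟨rfl, g_t.1⟩) (
    .cons (fun d hd h0 => h0 ⟨rfl, g_t.2.1⟩) (
    .cons (fun d hd h0 => nk_b_t h0) (
    .cons (fun d hd h0 => h0 (txp h x_b_r_t_al)) (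
    .cons (fun d hd h0 h1 h2 => h2 (tpx tp_t s_t (ng h0) h1.2)) (
    .cons (fun d hd h0 h1 h2 => h2 (tpx tp_b s_b (ng h0) h1.2)) (
    .cons (fun d hd h0 => h0 ⟨rfl, s_zbt⟩) (
    .cons (fun d hd h0 => h0 ⟨rfl, g_zbt.1⟩) (
    .cons (fun d hd h0 => h0 ⟨rfl, g_zbt.2.1⟩) (
    .cons (fun d hd h0 => s_dbt h0.2) (
    .cons (fun d hd h0 => h0 ⟨rfl, g_dbt.1⟩) (
    .cons (fun d hd h0 => h0 ⟨rfl, g_dbt.2.1⟩) (
    .cons (fun d hd h0 => h0 (txp h x_b_t_zbt_al)) (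
    .cons (fun d hd h0 => ne_zbt_dbt h0) (
    .cons (fun d hd h0 => h0 ⟨rfl, s_u⟩) (
    .cons (fun d hd h0 => u_u h0.2) (
    .cons (fun d hd h0 => h0 ⟨rfl, d_u⟩) (
    .cons (fun d hd h0 => h0 ⟨rfl, s_v⟩) (
    .cons (fun d hd h0 => u_v h0.2) (
    .cons (fun d hd h0 => h0 ⟨rfl, d_v⟩) (
    .cons (fun d hd h0 => h0 (ttp h t_t_u_b_v)) (
    .nil))))))))))))))))))))))))))))))))))))))))))))))))))

/-- templates -/
def fr_s_y_x : List Tm := [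
  ⟨0, [], [], [.b true 2 8 8]⟩,
  ⟨0, [], [], [.b true 3 8 8]⟩,
  ⟨0, [], [], [.b true 4 8 8]⟩,
  ⟨0, [], [], [.b true 2 9 9]⟩,
  ⟨0, [], [], [.b true 3 9 9]⟩,
  ⟨0, [], [], [.b true 4 9 9]⟩,
  ⟨0, [], [], [.b false 2 10 10]⟩,
  ⟨0, [], [], [.b true 3 10 10]⟩,
  ⟨0, [], [], [.b true 4 10 10]⟩,
  ⟨0, [], [], [.b false 2 11 11]⟩,
  ⟨0, [], [], [.b true 3 11 11]⟩,
  ⟨0, [], [], [.b true 4 11 11]⟩,
  ⟨0, [], [], [.b true 1 8 9]⟩,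
  ⟨0, [], [], [.b true 0 8 10]⟩,
  ⟨1, [], [], [.b false 2 0 0, .b false 3 0 0, .b true 0 0 11]⟩,
  ⟨2, [], [], [.b false 2 0 0, .b true 2 1 1, .b false 3 0 0, .b false 3 1 1, .b true 1 0 8, .q false 0 8 11 0 10, .b true 0 0 1]⟩,
  ⟨2, [], [], [.b true 2 0 0, .b false 2 1 1, .b false 3 0 0, .b false 3 1 1, .b true 1 0 8, .q false 0 8 11 0 10, .b true 0 0 1]⟩,
  ⟨2, [], [], [.b false 2 0 0, .b true 2 1 1, .b false 3 0 0, .b false 3 1 1, .b true 1 0 9, .q false 0 9 11 0 10, .b true 0 0 1]⟩,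
  ⟨2, [], [], [.b true 2 0 0, .b false 2 1 1, .b false 3 0 0, .b false 3 1 1, .b true 1 0 9, .q false 0 9 11 0 10, .b true 0 0 1]⟩,
  ⟨1, [], [], [.b false 2 0 0, .b false 3 0 0, .b true 0 0 10]⟩,
  ⟨0, [], [], [.b false 2 12 12]⟩,
  ⟨0, [], [], [.b true 3 12 12]⟩,
  ⟨0, [], [], [.b true 4 12 12]⟩,
  ⟨0, [], [], [.b true 2 13 13]⟩,
  ⟨0, [], [], [.b true 3 13 13]⟩,
  ⟨0, [], [], [.b true 4 13 13]⟩,
  ⟨0, [], [], [.q true 0 10 11 12 8]⟩,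
  ⟨0, [], [], [.b false 0 12 13]⟩,
  ⟨0, [], [], [.b false 2 14 14]⟩,
  ⟨0, [], [], [.b true 3 14 14]⟩,
  ⟨0, [], [], [.b true 4 14 14]⟩,
  ⟨0, [], [], [.q true 0 8 11 14 10]⟩,
  ⟨1, [], [], [.b false 2 0 0, .b false 3 0 0, .b true 0 0 14]⟩,
  ⟨0, [], [], [.b false 2 15 15]⟩,
  ⟨0, [], [], [.b true 3 15 15]⟩,
  ⟨0, [], [], [.b true 4 15 15]⟩,
  ⟨0, [], [], [.b true 2 16 16]⟩,
  ⟨0, [], [], [.b true 3 16 16]⟩,
  ⟨0, [], [], [.b true 4 16 16]⟩,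
  ⟨0, [], [], [.q true 0 14 11 15 8]⟩,
  ⟨0, [], [], [.b false 0 15 16]⟩,
  ⟨0, [], [], [.b true 0 8 9]⟩,
  ⟨0, [], [], [.q false 1 8 9 14 11]⟩]

def fr_s_y_p0 : List Nat := [
0xe0210000000350000000770a29000301,
0xce60030000000830fd4000201,
0xec460070000000730000000040534000301,
0x10e5500000007f00000007700000000200000007900000007d00000000600d7000701,
0x85000000008000200]

def fr_s_y_pf : List Nat := fr_s_y_p0

theorem fr_s_y_ref {V : Type} {S : SRel V} {p : Nat → V} (hp : ∀ i j, i < 9 → j < 9 → p i = p j → i = j)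
    (hts : PHs S p 9 ((qO ++ (qT ++ qE)) ++ fr_s_y_x)) : False :=
  refuteS (k := 9) (n2 := 5) (n3 := 1) (n4 := 2) (o3 := 225) (o4 := 390) (M := 2460) ((qO ++ (qT ++ qE)) ++ fr_s_y_x) fr_s_y_pf (by decide +kernel)
    (by decide +kernel) (by decide +kernel) (by decide +kernel) hp hts

theorem fr_s_y {V : Type} {W : Wo V} (h : W.Ok) {b c al r zm m t zrt drt : V}
    (s_b : W.S b) (g_b : W.Gd b) (s_c : W.S c) (g_c : W.Gd c) (s_al : ¬ W.S al) (g_al : W.Gd al) (s_r : ¬ W.S r) (g_r : W.Gd r) (k_b_c : W.K b c) (e_b_al : W.G.Adj b al) (tp_r : W.Tp r) (n_al_r : al ≠ r) (ar_b : W.Arc b r al) (ar_c : W.Arc c r al) (tp_al : W.Tp al) (s_zm : ¬ W.S zm) (g_zm : W.Gd zm) (s_m : W.S m) (g_m : W.Gd m) (x_al_r_zm_b : CrF W.f al r zm b) (ne_zm_m : ¬ W.G.Adj zm m) (s_t : ¬ W.S t) (g_t : W.Gd t) (x_b_r_t_al : CrF W.f b r t al) (tp_t : W.Tp t) (s_zrt :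 ¬ W.S zrt) (g_zrt : W.Gd zrt) (s_drt : W.S drt) (g_drt : W.Gd drt) (x_t_r_zrt_b : CrF W.f t r zrt b) (ne_zrt_drt : ¬ W.G.Adj zrt drt) (n_t_r : t ≠ r) (e_b_c : W.G.Adj b c) (nt_b_c_t_r : ¬ W.T b c t r) : False := by
  have h' := h.tw (k := 9) (by decide)
  refine fr_s_y_ref (S := Wo.rel h') (pt_inj (l := ([(b, 0), (c, 1), (al, 2), (r, 3), (zm, 4), (m, 5), (t, 6), (zrt, 7), (drt, 8)] : List (V × Fin 9))) (o := (b, 0))
    (List.Nodup.of_map Prod.snd (show ([0, 1, 2, 3, 4, 5, 6, 7, 8] : List (Fin 9)).Nodup by decide)) rfl) (PHs.app (UHs.phs ((qO_h h').app ((qT_h h').app (qE_h h'))) _ _) ?_)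
  exact
  .cons (fun d hd h0 => h0 ⟨rfl, s_b⟩) (
    .cons (fun d hd h0 => h0 ⟨rfl, g_b.1⟩) (
    .cons (fun d hd h0 => h0 ⟨rfl, g_b.2.1⟩) (
    .cons (fun d hd h0 => h0 ⟨rfl, s_c⟩) (
    .cons (fun d hd h0 => h0 ⟨rfl, g_c.1⟩) (
    .cons (fun d hd h0 => h0 ⟨rfl, g_c.2.1⟩) (
    .cons (fun d hd h0 => s_al h0.2) (
    .cons (fun d hd h0 => h0 ⟨rfl, g_al.1⟩) (
    .cons (fun d hd h0 => h0 ⟨rfl, g_al.2.1⟩) (
    .cons (fun d hd h0 => s_r h0.2) (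
    .cons (fun d hd h0 => h0 ⟨rfl, g_r.1⟩) (
    .cons (fun d hd h0 => h0 ⟨rfl, g_r.2.1⟩) (
    .cons (fun d hd h0 => h0 k_b_c) (
    .cons (fun d hd h0 => h0 e_b_al) (
    .cons (fun d hd h0 h1 h2 => h2 (tpy tp_r s_r h0.2 h1.2)) (
    .cons (fun d hd h0 h1 h2 h3 h4 h5 h6 => h6 (arx h ar_b s_b s_r s_al n_al_r h0.2 (ng h1) h2.2 h3.2 h4 h5)) (
    .cons (fun d hd h0 h1 h2 h3 h4 h5 h6 => h6 (ary h ar_b s_b s_r s_al n_al_r tp_r (ng h0) h1.2 h2.2 h3.2 h4 h5)) (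
    .cons (fun d hd h0 h1 h2 h3 h4 h5 h6 => h6 (arx h ar_c s_c s_r s_al n_al_r h0.2 (ng h1) h2.2 h3.2 h4 h5)) (
    .cons (fun d hd h0 h1 h2 h3 h4 h5 h6 => h6 (ary h ar_c s_c s_r s_al n_al_r tp_r (ng h0) h1.2 h2.2 h3.2 h4 h5)) (
    .cons (fun d hd h0 h1 h2 => h2 (tpy tp_al s_al h0.2 h1.2)) (
    .cons (fun d hd h0 => s_zm h0.2) (
    .cons (fun d hd h0 => h0 ⟨rfl, g_zm.1⟩) (
    .cons (fun d hd h0 => h0 ⟨rfl, g_zm.2.1⟩) (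
    .cons (fun d hd h0 => h0 ⟨rfl, s_m⟩) (
    .cons (fun d hd h0 => h0 ⟨rfl, g_m.1⟩) (
    .cons (fun d hd h0 => h0 ⟨rfl, g_m.2.1⟩) (
    .cons (fun d hd h0 => h0 (txp h x_al_r_zm_b)) (
    .cons (fun d hd h0 => ne_zm_m h0) (
    .cons (fun d hd h0 => s_t h0.2) (
    .cons (fun d hd h0 => h0 ⟨rfl, g_t.1⟩) (
    .cons (fun d hd h0 => h0 ⟨rfl, g_t.2.1⟩) (
    .cons (fun d hd h0 => h0 (txp h x_b_r_t_al)) (
    .cons (fun d hd h0 h1 h2 => h2 (tpy tp_t s_t h0.2 h1.2)) (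
    .cons (fun d hd h0 => s_zrt h0.2) (
    .cons (fun d hd h0 => h0 ⟨rfl, g_zrt.1⟩) (
    .cons (fun d hd h0 => h0 ⟨rfl, g_zrt.2.1⟩) (
    .cons (fun d hd h0 => h0 ⟨rfl, s_drt⟩) (
    .cons (fun d hd h0 => h0 ⟨rfl, g_drt.1⟩) (
    .cons (fun d hd h0 => h0 ⟨rfl, g_drt.2.1⟩) (
    .cons (fun d hd h0 => h0 (txp h x_t_r_zrt_b)) (
    .cons (fun d hd h0 => ne_zrt_drt h0) (
    .cons (fun d hd h0 => h0 e_b_c) (
    .cons (fun d hd h0 => nt_b_c_t_r (ttn e_b_c.ne n_t_r h0)) (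
    .nil)))))))))))))))))))))))))))))))))))))))))))

/-- templates -/
def ll_s_y_x : List Tm := [
  ⟨0, [], [], [.b true 2 8 8]⟩,
  ⟨0, [], [], [.b true 3 8 8]⟩,
  ⟨0, [], [], [.b true 4 8 8]⟩,
  ⟨0, [], [], [.b true 2 9 9]⟩,
  ⟨0, [], [], [.b true 3 9 9]⟩,
  ⟨0, [], [], [.b true 4 9 9]⟩,
  ⟨0, [], [], [.b false 2 10 10]⟩,
  ⟨0, [], [], [.b true 3 10 10]⟩,
  ⟨0, [], [], [.b true 4 10 10]⟩,
  ⟨0, [], [], [.b false 2 11 11]⟩,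
  ⟨0, [], [], [.b true 3 11 11]⟩,
  ⟨0, [], [], [.b true 4 11 11]⟩,
  ⟨0, [], [], [.b true 1 8 9]⟩,
  ⟨0, [], [], [.b true 0 8 10]⟩,
  ⟨1, [], [], [.b false 2 0 0, .b false 3 0 0, .b true 0 0 11]⟩,
  ⟨2, [], [], [.b false 2 0 0, .b true 2 1 1, .b false 3 0 0, .b false 3 1 1, .b true 1 0 8, .q false 0 8 11 0 10, .b true 0 0 1]⟩,
  ⟨2, [], [], [.b true 2 0 0, .b false 2 1 1, .b false 3 0 0, .b false 3 1 1, .b true 1 0 8, .q false 0 8 11 0 10, .b true 0 0 1]⟩,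
  ⟨2, [], [], [.b false 2 0 0, .b true 2 1 1, .b false 3 0 0, .b false 3 1 1, .b true 1 0 9, .q false 0 9 11 0 10, .b true 0 0 1]⟩,
  ⟨2, [], [], [.b true 2 0 0, .b false 2 1 1, .b false 3 0 0, .b false 3 1 1, .b true 1 0 9, .q false 0 9 11 0 10, .b true 0 0 1]⟩,
  ⟨1, [], [], [.b false 2 0 0, .b false 3 0 0, .b true 0 0 10]⟩,
  ⟨0, [], [], [.b false 2 12 12]⟩,
  ⟨0, [], [], [.b true 3 12 12]⟩,
  ⟨0, [], [], [.b true 4 12 12]⟩,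
  ⟨0, [], [], [.b true 2 13 13]⟩,
  ⟨0, [], [], [.b true 3 13 13]⟩,
  ⟨0, [], [], [.b true 4 13 13]⟩,
  ⟨0, [], [], [.q true 0 10 11 12 8]⟩,
  ⟨0, [], [], [.b false 0 12 13]⟩,
  ⟨0, [], [], [.b false 2 14 14]⟩,
  ⟨0, [], [], [.b true 3 14 14]⟩,
  ⟨0, [], [], [.b true 4 14 14]⟩,
  ⟨0, [], [], [.q true 0 8 11 14 10]⟩,
  ⟨1, [], [], [.b false 2 0 0, .b false 3 0 0, .b true 0 0 14]⟩,
  ⟨0, [], [], [.b false 2 15 15]⟩,
  ⟨0, [], [], [.b true 3 15 15]⟩,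
  ⟨0, [], [], [.b true 4 15 15]⟩,
  ⟨0, [], [], [.b true 2 16 16]⟩,
  ⟨0, [], [], [.b true 3 16 16]⟩,
  ⟨0, [], [], [.b true 4 16 16]⟩,
  ⟨0, [], [], [.q true 0 14 11 15 8]⟩,
  ⟨0, [], [], [.b false 0 15 16]⟩,
  ⟨0, [], [], [.b true 2 17 17]⟩,
  ⟨0, [], [], [.b false 3 17 17]⟩,
  ⟨0, [], [], [.b true 4 17 17]⟩,
  ⟨0, [], [], [.b true 2 18 18]⟩,
  ⟨0, [], [], [.b true 3 18 18]⟩,
  ⟨0, [], [], [.b true 4 18 18]⟩,
  ⟨0, [], [], [.b false 1 8 18]⟩,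
  ⟨0, [], [], [.b false 0 18 10]⟩,
  ⟨0, [], [], [.q true 1 14 17 8 18]⟩]

def ll_s_y_p0 : List Nat := [
0xe021000000035000000077143b000301,
0xce60030000000831ac8000201,
0xec460070000000730000000040616000301,
0x10e5500000007f00000007700000000200000007900000007d00000000600d7000701,
0x85000000008000200]

def ll_s_y_pf : List Nat := ll_s_y_p0

theorem ll_s_y_ref {V : Type} {S : SRel V} {p : Nat → V} (hp : ∀ i j, i < 11 → j < 11 → p i = p j → i = j)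
    (hts : PHs S p 11 ((qO ++ (qT ++ qE)) ++ ll_s_y_x)) : False :=
  refuteS (k := 11) (n2 := 5) (n3 := 1) (n4 := 2) (o3 := 330) (o4 := 616) (M := 5038) ((qO ++ (qT ++ qE)) ++ ll_s_y_x) ll_s_y_pf (by decide +kernel)
    (by decide +kernel) (by decide +kernel) (by decide +kernel) hp hts

theorem ll_s_y {V : Type} {W : Wo V} (h : W.Ok) {b c al r zm m t zrt drt u x : V}
    (s_b : W.S b) (g_b : W.Gd b) (s_c : W.S c) (g_c : W.Gd c) (s_al : ¬ W.S al) (g_al : W.Gd al) (s_r : ¬ W.S r) (g_r : W.Gd r) (k_b_c : W.K b c) (e_b_al : W.G.Adj b al) (tp_r : W.Tp r) (n_al_r : al ≠ r) (ar_b : W.Arc b r al) (ar_c : W.Arc c r al) (tp_al : W.Tp al) (s_zm : ¬ W.S zm) (g_zm : W.Gd zm) (s_m : W.S m) (g_m : W.Gd m) (x_al_r_zm_b : CrF W.f al r zm b) (ne_zm_m : ¬ W.G.Adj zm m) (s_t : ¬ W.S t) (g_t : W.Gd t) (x_b_r_t_al : CrF W.f b r t al) (tp_t : W.Tp t) (s_zrt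 : ¬ W.S zrt) (g_zrt : W.Gd zrt) (s_drt : W.S drt) (g_drt : W.Gd drt) (x_t_r_zrt_b : CrF W.f t r zrt b) (ne_zrt_drt : ¬ W.G.Adj zrt drt) (n_t_r : t ≠ r) (s_u : W.S u) (u_u : ¬ W.A u) (d_u : W.D u) (s_x : W.S x) (g_x : W.Gd x) (nk_b_x : ¬ W.K b x) (ne_x_al : ¬ W.G.Adj x al) (t_t_u_b_x : W.T t u b x) : False := by
  have h' := h.tw (k := 11) (by decide)
  refine ll_s_y_ref (S := Wo.rel h') (pt_inj (l := ([(b, 0), (c, 1), (al, 2), (r, 3), (zm, 4), (m, 5), (t, 6), (zrt, 7), (drt, 8), (u, 9), (x, 10)] : List (V × Fin 11))) (o := (b, 0))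
    (List.Nodup.of_map Prod.snd (show ([0, 1, 2, 3, 4, 5, 6, 7, 8, 9, 10] : List (Fin 11)).Nodup by decide)) rfl) (PHs.app (UHs.phs ((qO_h h').app ((qT_h h').app (qE_h h'))) _ _) ?_)
  exact
  .cons (fun d hd h0 => h0 ⟨rfl, s_b⟩) (
    .cons (fun d hd h0 => h0 ⟨rfl, g_b.1⟩) (
    .cons (fun d hd h0 => h0 ⟨rfl, g_b.2.1⟩) (
    .cons (fun d hd h0 => h0 ⟨rfl, s_c⟩) (
    .cons (fun d hd h0 => h0 ⟨rfl, g_c.1⟩) (
    .cons (fun d hd h0 => h0 ⟨rfl, g_c.2.1⟩) (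
    .cons (fun d hd h0 => s_al h0.2) (
    .cons (fun d hd h0 => h0 ⟨rfl, g_al.1⟩) (
    .cons (fun d hd h0 => h0 ⟨rfl, g_al.2.1⟩) (
    .cons (fun d hd h0 => s_r h0.2) (
    .cons (fun d hd h0 => h0 ⟨rfl, g_r.1⟩) (
    .cons (fun d hd h0 => h0 ⟨rfl, g_r.2.1⟩) (
    .cons (fun d hd h0 => h0 k_b_c) (
    .cons (fun d hd h0 => h0 e_b_al) (
    .cons (fun d hd h0 h1 h2 => h2 (tpy tp_r s_r h0.2 h1.2)) (
    .cons (fun d hd h0 h1 h2 h3 h4 h5 h6 => h6 (arx h ar_b s_b s_r s_al n_al_r h0.2 (ng h1) h2.2 h3.2 h4 h5)) (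
    .cons (fun d hd h0 h1 h2 h3 h4 h5 h6 => h6 (ary h ar_b s_b s_r s_al n_al_r tp_r (ng h0) h1.2 h2.2 h3.2 h4 h5)) (
    .cons (fun d hd h0 h1 h2 h3 h4 h5 h6 => h6 (arx h ar_c s_c s_r s_al n_al_r h0.2 (ng h1) h2.2 h3.2 h4 h5)) (
    .cons (fun d hd h0 h1 h2 h3 h4 h5 h6 => h6 (ary h ar_c s_c s_r s_al n_al_r tp_r (ng h0) h1.2 h2.2 h3.2 h4 h5)) (
    .cons (fun d hd h0 h1 h2 => h2 (tpy tp_al s_al h0.2 h1.2)) (
    .cons (fun d hd h0 => s_zm h0.2) (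
    .cons (fun d hd h0 => h0 ⟨rfl, g_zm.1⟩) (
    .cons (fun d hd h0 => h0 ⟨rfl, g_zm.2.1⟩) (
    .cons (fun d hd h0 => h0 ⟨rfl, s_m⟩) (
    .cons (fun d hd h0 => h0 ⟨rfl, g_m.1⟩) (
    .cons (fun d hd h0 => h0 ⟨rfl, g_m.2.1⟩) (
    .cons (fun d hd h0 => h0 (txp h x_al_r_zm_b)) (
    .cons (fun d hd h0 => ne_zm_m h0) (
    .cons (fun d hd h0 => s_t h0.2) (
    .cons (fun d hd h0 => h0 ⟨rfl, g_t.1⟩) (
    .cons (fun d hd h0 => h0 ⟨rfl, g_t.2.1⟩) (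
    .cons (fun d hd h0 => h0 (txp h x_b_r_t_al)) (
    .cons (fun d hd h0 h1 h2 => h2 (tpy tp_t s_t h0.2 h1.2)) (
    .cons (fun d hd h0 => s_zrt h0.2) (
    .cons (fun d hd h0 => h0 ⟨rfl, g_zrt.1⟩) (
    .cons (fun d hd h0 => h0 ⟨rfl, g_zrt.2.1⟩) (
    .cons (fun d hd h0 => h0 ⟨rfl, s_drt⟩) (
    .cons (fun d hd h0 => h0 ⟨rfl, g_drt.1⟩) (
    .cons (fun d hd h0 => h0 ⟨rfl, g_drt.2.1⟩) (
    .cons (fun d hd h0 => h0 (txp h x_t_r_zrt_b)) (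
    .cons (fun d hd h0 => ne_zrt_drt h0) (
    .cons (fun d hd h0 => h0 ⟨rfl, s_u⟩) (
    .cons (fun d hd h0 => u_u h0.2) (
    .cons (fun d hd h0 => h0 ⟨rfl, d_u⟩) (
    .cons (fun d hd h0 => h0 ⟨rfl, s_x⟩) (
    .cons (fun d hd h0 => h0 ⟨rfl, g_x.1⟩) (
    .cons (fun d hd h0 => h0 ⟨rfl, g_x.2.1⟩) (
    .cons (fun d hd h0 => nk_b_x h0) (
    .cons (fun d hd h0 => ne_x_al h0) (
    .cons (fun d hd h0 => h0 (ttp h t_t_u_b_x)) (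
    .nil))))))))))))))))))))))))))))))))))))))))))))))))))

end Pool.Agent.SOQ
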