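import Pool.Agent.SOQ.Fs
import Pool.Agent.SOQ.Rc
import Pool.Agent.SOQ.Rd
import Pool.Agent.SOQ.PMain

/-! Project SOQ, module Pf: the hypotheses of the pull hold for the core of a block. -/

set_option autoImplicit false

namespace Pool.Agent.SOQ

open Pool.Agent.SOC Pool.Agent.SOD Pool.Agent.RUP

variable {V : Type}

/-- the letter `r` is top, with all attached vertices between the block of `b` and `r` -/
structure PC (W : Wo V) (b al r : V) : Prop where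
  ok : W.Ok
  mx : W.Mx
  sd : ∀ {a}, W.S a → W.D a
  de : ∀ {a}, W.D a → W.E a
  da : ∀ {a}, W.D a → W.S a ∨ W.A a
  dk : ∀ {a c}, ¬ W.S a → W.D a → W.D c → W.K a c → a = c
  sb : W.S b
  ab : W.A b
  sl : ¬ W.S al
  gl : W.Gd al
  sr : ¬ W.S r
  gr : W.Gd r
  n : al ≠ r
  e1 : W.G.Adj b al
  tp : W.Tp r
  arc : W.Arc b r al

/-- the pulled set -/
def RR (W : Wo V) (b al r v : V) : Prop := v = r ∨ (W.A v ∧ W.D v ∧ ¬ W.K b v ∧ CrF W.f b r v al)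

section
variable {W : Wo V} {a b c d al r t x u v : V}

theorem PC.gs (h : PC W b al r) (sa : W.S a) (aa : W.A a) : W.Gd a := ⟨aa, h.sd sa, h.de (h.sd sa)⟩

theorem PC.gd (h : PC W b al r) (da : W.D a) (aa : W.A a) : W.Gd a := ⟨aa, da, h.de da⟩

theorem PC.kk (h : PC W b al r) (hk : W.K b a) : PC W a al r :=
  ⟨h.ok, h.mx, h.sd, h.de, h.da, h.dk, h.ok.bs.kS hk h.sb, h.ok.bs.kA (h.ok.bs.ksym hk), h.sl, h.gl, h.sr, h.gr, h.n,
    h.ok.bs.kr hk h.sb h.sl h.e1, h.tp, h.arc.kk h.ok hk h.sb h.sr h.sl h.gl.1⟩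

theorem PC.rr (h : PC W b al r) (hk : W.K b a) (hr : RR W b al r t) : RR W a al r t := by
  rcases hr with h1 | ⟨h1, h2, h3, h4⟩
  · exact Or.inl h1
  · refine Or.inr ⟨h1, h2, fun e => h3 (h.ok.bs.ktr hk e), ?_⟩
    exact h.ok.shift1 hk (nsd (h.ok.bs.kS hk h.sb) h.sr).symm h1 h3 h.gl.1 (fun e => h.sl (h.ok.bs.kS e h.sb)) h4

theorem PC.rr' (h : PC W b al r) (hk : W.K b a) (hr : ¬ RR W b al r t) : ¬ RR W a al r t :=
  fun k => hr ((h.kk hk).rr (h.ok.bs.ksym hk) k)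

theorem PC.rtop (h : PC W b al r) (hr : RR W b al r t) : W.Tp t := by
  rcases hr with h1 | ⟨h1, h2, h3, h4⟩
  · rw [h1]; exact h.tp
  · exact h.arc t h1 h3 h4

theorem PC.rg (h : PC W b al r) (hr : RR W b al r t) : W.Gd t := by
  rcases hr with h1 | ⟨h1, h2, h3, h4⟩
  · rw [h1]; exact h.gr
  · exact h.gd h2 h1

theorem PC.nk (h : PC W b al r) (hr : RR W b al r t) : ¬ W.K b t := by
  rcases hr with h1 | ⟨h1, h2, h3, h4⟩
  · rw [h1]; exact fun e => h.sr (h.ok.bs.kS e h.sb)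
  · exact h3

/-- top vertices of the same side have the same row -/
theorem Wo.Tp.sm (h : W.Ok) (hs : W.S a ↔ W.S b) (ha : W.Tp a) (hb : W.Tp b) : W.Sm a b := by
  intro z hz
  have hz' : W.S z ↔ ¬ W.S b := by rw [← hs]; exact hz
  by_cases hA : W.A z
  · exact ⟨fun _ => hb z hA hz', fun _ => ha z hA hz⟩
  · have n1 : ∀ {c : V}, (W.S c ↔ W.S a) → ¬ W.G.Adj c z := by
      intro c hc e
      by_cases sa : W.S a
      · exact hA (h.bs.att (hc.2 sa) (fun k => hz.1 k sa) e).2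
      · exact hA (h.bs.att (hz.2 sa) (fun k => sa (hc.1 k)) e.symm).1
    exact ⟨fun k => absurd k (n1 Iff.rfl), fun k => absurd k (n1 hs.symm)⟩

/-- the vertex `al`: not top, or separated from `r` by a vertex which is not top -/
theorem PC.mar (h : PC W b al r) : (∃ m, W.S m ∧ W.Gd m ∧ ¬ W.G.Adj al m) ∨
    (W.Tp al ∧ ∃ zm m, ¬ W.S zm ∧ W.Gd zm ∧ W.S m ∧ W.Gd m ∧ (∀ o, W.S o → CrF W.f al r zm o) ∧ ¬ W.G.Adj zm m) := by
  by_cases ht : W.Tp al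
  swap
  · exact Or.inl (h.mx.nty h.ok h.sl ht)
  have nk : ¬ W.K al r := fun k => h.n (h.dk h.sl h.gl.2.1 h.gr.2.1 k)
  obtain ⟨z, d, h1, h2, h3, h4, h5, h6⟩ := h.mx.sy h.ok h.sl h.sr h.gl.1 h.gr.1 nk
    (ht.sm h.ok ⟨fun k => absurd k h.sl, fun k => absurd k h.sr⟩ h.tp)
  have e1 : W.G.Adj al d := ht d h5.1 ⟨fun _ => h.sl, fun _ => h4⟩
  exact Or.inr ⟨ht, z, d, h1, h2, h4, h5, h3, fun k => h6 ⟨fun _ => k, fun _ => e1⟩⟩

/-- the kinds of vertices in the pulled set -/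
theorem PC.kind (h : PC W b al r) (hr : RR W b al r t) : t = r ∨
    (W.S t ∧ CrF W.f b r t al ∧
      ((∃ dbt, ¬ W.S dbt ∧ W.Gd dbt ∧ ¬ W.G.Adj b dbt) ∨
        (W.Tp b ∧ ∃ zbt dbt, W.S zbt ∧ W.Gd zbt ∧ ¬ W.S dbt ∧ W.Gd dbt ∧ CrF W.f b t zbt al ∧ ¬ W.G.Adj zbt dbt))) ∨
    (¬ W.S t ∧ CrF W.f b r t al ∧ t ≠ r ∧
      ∃ zrt drt, ¬ W.S zrt ∧ W.Gd zrt ∧ W.S drt ∧ W.Gd drt ∧ CrF W.f t r zrt b ∧ ¬ W.G.Adj zrt drt) := by
  have tt := h.rtop hr
  have gt := h.rg hr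
  by_cases e : t = r
  · exact Or.inl e
  right
  obtain ⟨h1, h2, h3, h4⟩ := hr.resolve_left e
  by_cases st : W.S t
  · refine Or.inl ⟨st, h4, ?_⟩
    by_cases tb : W.Tp b
    swap
    · exact Or.inl (h.mx.ntx h.ok h.sb tb)
    obtain ⟨z, d, i1, i2, i3, i4, i5, i6⟩ := h.mx.sx h.ok h.sb st h.ab h1 h3
      (tb.sm h.ok ⟨fun _ => st, fun _ => h.sb⟩ tt)
    have e1 : W.G.Adj b d := tb d i5.1 ⟨fun k => absurd k i4, fun k => absurd h.sb k⟩
    exact Or.inr ⟨tb, z, d, i1, i2, i4, i5, i3 al h.sl, fun k => i6 ⟨fun _ => k, fun _ => e1⟩⟩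
  · refine Or.inr ⟨st, h4, e, ?_⟩
    have nk : ¬ W.K t r := fun k => e (h.dk st h2 h.gr.2.1 k)
    obtain ⟨z, d, i1, i2, i3, i4, i5, i6⟩ := h.mx.sy h.ok st h.sr h1 h.gr.1 nk
      (tt.sm h.ok ⟨fun k => absurd k st, fun k => absurd k h.sr⟩ h.tp)
    have e1 : W.G.Adj t d := tt d i5.1 ⟨fun _ => st, fun _ => i4⟩
    exact ⟨z, d, i1, i2, i4, i5, i3 b h.sb, fun k => i6 ⟨fun _ => k, fun _ => e1⟩⟩

/-- the vertices outside of the pulled set -/
theorem PC.out (h : PC W b al r) (hr : ¬ RR W b al r x) (gx : W.Gd x) (nk : ¬ W.K b x) :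
    (W.S x → ((∃ dx, ¬ W.S dx ∧ W.Gd dx ∧ ¬ W.G.Adj x dx) ∨ (W.Tp x ∧ ¬ CrF W.f b r x al)) ∧
      ((∃ dbx, ¬ W.S dbx ∧ W.Gd dbx ∧ ¬ (W.G.Adj b dbx ↔ W.G.Adj x dbx)) ∨
      (W.Sm b x ∧ ∃ zbx dbx, W.S zbx ∧ W.Gd zbx ∧ ¬ W.S dbx ∧ W.Gd dbx ∧ ¬ (W.G.Adj b dbx ↔ W.G.Adj zbx dbx) ∧
        CrF W.f b x zbx al))) ∧
    (¬ W.S x → (∃ dx, W.S dx ∧ W.Gd dx ∧ ¬ W.G.Adj x dx) ∨ (W.Tp x ∧ ¬ CrF W.f b r x al ∧ r ≠ x ∧
      ∃ zrx drx, ¬ W.S zrx ∧ W.Gd zrx ∧ W.S drx ∧ W.Gd drx ∧ CrF W.f r x zrx b ∧ ¬ W.G.Adj zrx drx)) := by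
  have rx : r ≠ x := fun e => hr (Or.inl e.symm)
  have nx : ¬ CrF W.f b r x al := fun e => hr (Or.inr ⟨gx.1, gx.2.1, nk, e⟩)
  constructor
  · intro sx
    constructor
    · by_cases tx : W.Tp x
      · exact Or.inr ⟨tx, nx⟩
      · exact Or.inl (h.mx.ntx h.ok sx tx)
    · by_cases hs : W.Sm b x
      · obtain ⟨z, d, i1, i2, i3, i4, i5, i6⟩ := h.mx.sx h.ok h.sb sx h.ab gx.1 nk hs
        exact Or.inr ⟨hs, z, d, i1, i2, i4, i5, i6, i3 al h.sl⟩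
      · exact Or.inl (h.mx.dx h.ok h.sb sx hs)
  · intro sx
    by_cases tx : W.Tp x
    swap
    · exact Or.inl (h.mx.nty h.ok sx tx)
    have nk' : ¬ W.K r x := fun k => rx (h.dk h.sr h.gr.2.1 gx.2.1 k)
    obtain ⟨z, d, i1, i2, i3, i4, i5, i6⟩ := h.mx.sy h.ok h.sr sx h.gr.1 gx.1 nk'
      (h.tp.sm h.ok ⟨fun k => absurd k h.sr, fun k => absurd k sx⟩ tx)
    have e1 : W.G.Adj r d := h.tp d i5.1 ⟨fun _ => h.sr, fun _ => i4⟩
    exact Or.inr ⟨tx, nx, rx, z, d, i1, i2, i4, i5, i3 b h.sb, fun k => i6 ⟨fun _ => k, fun _ => e1⟩⟩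

theorem PC.fax (h : PC W b al r) (k_b_c : W.K b c) (nk_b_x : ¬ W.K b x) (hr : ¬ RR W b al r x) (g_x : W.Gd x)
    (e_b_x : W.G.Adj b x) (e_x_al : W.G.Adj x al) (e_b_c : W.G.Adj b c) (e_c_x : W.G.Adj c x)
    (t_b_al_c_x : W.T b al c x) : False := by
  have h0 := h.ok
  have s_b := h.sb
  have g_b := h.gs h.sb h.ab
  have hc := h.kk k_b_c
  have s_c := hc.sb
  have g_c := hc.gs hc.sb hc.ab
  have ar_c := hc.arc
  have s_al := h.sl
  have g_al := h.gl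
  have s_r := h.sr
  have g_r := h.gr
  have e_b_al := h.e1
  have tp_r := h.tp
  have n_al_r := h.n
  have ar_b := h.arc
  obtain ⟨o1, o2⟩ := h.out hr g_x nk_b_x
  by_cases s_x : W.S x
  · obtain ⟨o3, o4⟩ := o1 s_x
    rcases h.mar with ⟨m, s_m, g_m, ne_al_m⟩ | ⟨tp_al, zm, m, s_zm, g_zm, s_m, g_m, hx_m, ne_zm_m⟩
    · rcases o3 with ⟨dx, s_dx, g_dx, ne_x_dx⟩ | ⟨tp_x, nx_b_r_x_al⟩
      · rcases o4 with ⟨dbx, s_dbx, g_dbx, w_b_x_dbx⟩ | ⟨m_b_x, zbx, dbx, s_zbx, g_zbx, s_dbx, g_dbx, w_b_zbx_dbx, x_b_x_zbx_al⟩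
        · apply fax_d_nt_d h0 (b := b) (c := c) (al := al) (r := r) (m := m) (x := x) (dx := dx) (dbx := dbx) <;> assumption
        · apply fax_d_nt_s h0 (b := b) (c := c) (al := al) (r := r) (m := m) (x := x) (dx := dx) (zbx := zbx) (dbx := dbx) <;> assumption
      · rcases o4 with ⟨dbx, s_dbx, g_dbx, w_b_x_dbx⟩ | ⟨m_b_x, zbx, dbx, s_zbx, g_zbx, s_dbx, g_dbx, w_b_zbx_dbx, x_b_x_zbx_al⟩
        · apply fax_d_tp_d h0 (b := b) (c := c) (al := al) (r := r) (m := m) (x := x) (dbx := dbx) <;> assumption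
        · apply fax_d_tp_s h0 (b := b) (c := c) (al := al) (r := r) (m := m) (x := x) (zbx := zbx) (dbx := dbx) <;> assumption
    · have x_al_r_zm_b := hx_m b s_b
      rcases o3 with ⟨dx, s_dx, g_dx, ne_x_dx⟩ | ⟨tp_x, nx_b_r_x_al⟩
      · rcases o4 with ⟨dbx, s_dbx, g_dbx, w_b_x_dbx⟩ | ⟨m_b_x, zbx, dbx, s_zbx, g_zbx, s_dbx, g_dbx, w_b_zbx_dbx, x_b_x_zbx_al⟩
        · apply fax_s_nt_d h0 (b := b) (c := c) (al := al) (r := r) (zm := zm) (m := m) (x := x) (dx := dx) (dbx := dbx) <;> assumption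
        · apply fax_s_nt_s h0 (b := b) (c := c) (al := al) (r := r) (zm := zm) (m := m) (x := x) (dx := dx) (zbx := zbx) (dbx := dbx) <;> assumption
      · rcases o4 with ⟨dbx, s_dbx, g_dbx, w_b_x_dbx⟩ | ⟨m_b_x, zbx, dbx, s_zbx, g_zbx, s_dbx, g_dbx, w_b_zbx_dbx, x_b_x_zbx_al⟩
        · apply fax_s_tp_d h0 (b := b) (c := c) (al := al) (r := r) (zm := zm) (m := m) (x := x) (dbx := dbx) <;> assumption
        · apply fax_s_tp_s h0 (b := b) (c := c) (al := al) (r := r) (zm := zm) (m := m) (x := x) (zbx := zbx) (dbx := dbx) <;> assumption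
  · have o3 := o2 s_x
    rcases h.mar with ⟨m, s_m, g_m, ne_al_m⟩ | ⟨tp_al, zm, m, s_zm, g_zm, s_m, g_m, hx_m, ne_zm_m⟩
    · rcases o3 with ⟨dx, s_dx, g_dx, ne_x_dx⟩ | ⟨tp_x, nx_b_r_x_al, n_r_x, zrx, drx, s_zrx, g_zrx, s_drx, g_drx, x_r_x_zrx_b, ne_zrx_drx⟩
      · apply fay_d_nt h0 (b := b) (c := c) (al := al) (r := r) (m := m) (x := x) (dx := dx) <;> assumption
      · apply fay_d_tp h0 (b := b) (c := c) (al := al) (r := r) (m := m) (x := x) (zrx := zrx) (drx := drx) <;> assumption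
    · have x_al_r_zm_b := hx_m b s_b
      rcases o3 with ⟨dx, s_dx, g_dx, ne_x_dx⟩ | ⟨tp_x, nx_b_r_x_al, n_r_x, zrx, drx, s_zrx, g_zrx, s_drx, g_drx, x_r_x_zrx_b, ne_zrx_drx⟩
      · apply fay_s_nt h0 (b := b) (c := c) (al := al) (r := r) (zm := zm) (m := m) (x := x) (dx := dx) <;> assumption
      · apply fay_s_tp h0 (b := b) (c := c) (al := al) (r := r) (zm := zm) (m := m) (x := x) (zrx := zrx) (drx := drx) <;> assumption

theorem PC.fr0 (h : PC W b al r) (k_b_c : W.K b c) (hr : RR W b al r t) (tr : t ≠ r)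
    (e_b_c : W.G.Adj b c) (nt_b_c_t_r : ¬ W.T b c t r) : False := by
  have h0 := h.ok
  have s_b := h.sb
  have g_b := h.gs h.sb h.ab
  have hc := h.kk k_b_c
  have s_c := hc.sb
  have g_c := hc.gs hc.sb hc.ab
  have ar_c := hc.arc
  have s_al := h.sl
  have g_al := h.gl
  have s_r := h.sr
  have g_r := h.gr
  have e_b_al := h.e1
  have tp_r := h.tp
  have n_al_r := h.n
  have ar_b := h.arc
  have tp_t := h.rtop hr
  have g_t := h.rg hr
  have nk_b_t := h.nk hr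
  rcases h.mar with ⟨m, s_m, g_m, ne_al_m⟩ | ⟨tp_al, zm, m, s_zm, g_zm, s_m, g_m, hx_m, ne_zm_m⟩
  · rcases h.kind hr with hk | ⟨s_t, x_b_r_t_al, ⟨dbt, s_dbt, g_dbt, ne_b_dbt⟩ | ⟨tp_b, zbt, dbt, s_zbt, g_zbt, s_dbt, g_dbt, x_b_t_zbt_al, ne_zbt_dbt⟩⟩ | ⟨s_t, x_b_r_t_al, n_t_r, zrt, drt, s_zrt, g_zrt, s_drt, g_drt, x_t_r_zrt_b, ne_zrt_drt⟩
    · exact tr hk
    · apply fr_d_xd h0 (b := b) (c := c) (al := al) (r := r) (m := m) (t := t) (dbt := dbt) <;> assumption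
    · apply fr_d_xs h0 (b := b) (c := c) (al := al) (r := r) (m := m) (t := t) (zbt := zbt) (dbt := dbt) <;> assumption
    · apply fr_d_y h0 (b := b) (c := c) (al := al) (r := r) (m := m) (t := t) (zrt := zrt) (drt := drt) <;> assumption
  · have x_al_r_zm_b := hx_m b s_b
    rcases h.kind hr with hk | ⟨s_t, x_b_r_t_al, ⟨dbt, s_dbt, g_dbt, ne_b_dbt⟩ | ⟨tp_b, zbt, dbt, s_zbt, g_zbt, s_dbt, g_dbt, x_b_t_zbt_al, ne_zbt_dbt⟩⟩ | ⟨s_t, x_b_r_t_al, n_t_r, zrt, drt, s_zrt, g_zrt, s_drt, g_drt, x_t_r_zrt_b, ne_zrt_drt⟩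
    · exact tr hk
    · apply fr_s_xd h0 (b := b) (c := c) (al := al) (r := r) (zm := zm) (m := m) (t := t) (dbt := dbt) <;> assumption
    · apply fr_s_xs h0 (b := b) (c := c) (al := al) (r := r) (zm := zm) (m := m) (t := t) (zbt := zbt) (dbt := dbt) <;> assumption
    · apply fr_s_y h0 (b := b) (c := c) (al := al) (r := r) (zm := zm) (m := m) (t := t) (zrt := zrt) (drt := drt) <;> assumption

theorem PC.ll0 (h : PC W b al r) (hr : RR W b al r t) (s_u : W.S u) (u_u : ¬ W.A u) (s_x : W.S x) (g_x : W.Gd x)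
    (nk_b_x : ¬ W.K b x) (ne_x_al : ¬ W.G.Adj x al) (t_t_u_b_x : W.T t u b x) : False := by
  have k_b_b := h.ok.bs.krefl h.ab
  have h0 := h.ok
  have s_b := h.sb
  have g_b := h.gs h.sb h.ab
  have s_al := h.sl
  have g_al := h.gl
  have s_r := h.sr
  have g_r := h.gr
  have e_b_al := h.e1
  have tp_r := h.tp
  have n_al_r := h.n
  have ar_b := h.arc
  have d_u := h.sd s_u
  have tp_t := h.rtop hr
  have g_t := h.rg hr
  have nk_b_t := h.nk hr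
  rcases h.mar with ⟨m, s_m, g_m, ne_al_m⟩ | ⟨tp_al, zm, m, s_zm, g_zm, s_m, g_m, hx_m, ne_zm_m⟩
  · rcases h.kind hr with hk | ⟨s_t, x_b_r_t_al, ⟨dbt, s_dbt, g_dbt, ne_b_dbt⟩ | ⟨tp_b, zbt, dbt, s_zbt, g_zbt, s_dbt, g_dbt, x_b_t_zbt_al, ne_zbt_dbt⟩⟩ | ⟨s_t, x_b_r_t_al, n_t_r, zrt, drt, s_zrt, g_zrt, s_drt, g_drt, x_t_r_zrt_b, ne_zrt_drt⟩
    · subst hk
      apply ll_d_r h0 (b := b) (c := b) (al := al) (r := t) (m := m) (u := u) (x := x) <;> assumption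
    · apply ll_d_xd h0 (b := b) (c := b) (al := al) (r := r) (m := m) (t := t) (dbt := dbt) (u := u) (x := x) <;> assumption
    · apply ll_d_xs h0 (b := b) (c := b) (al := al) (r := r) (m := m) (t := t) (zbt := zbt) (dbt := dbt) (u := u) (x := x) <;> assumption
    · apply ll_d_y h0 (b := b) (c := b) (al := al) (r := r) (m := m) (t := t) (zrt := zrt) (drt := drt) (u := u) (x := x) <;> assumption
  · have x_al_r_zm_b := hx_m b s_b
    rcases h.kind hr with hk | ⟨s_t, x_b_r_t_al, ⟨dbt, s_dbt, g_dbt, ne_b_dbt⟩ | ⟨tp_b, zbt, dbt, s_zbt, g_zbt, s_dbt, g_dbt, x_b_t_zbt_al, ne_zbt_dbt⟩⟩ | ⟨s_t, x_b_r_t_al, n_t_r, zrt, drt, s_zrt, g_zrt, s_drt, g_drt, x_t_r_zrt_b, ne_zrt_drt⟩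
    · subst hk
      apply ll_s_r h0 (b := b) (c := b) (al := al) (r := t) (zm := zm) (m := m) (u := u) (x := x) <;> assumption
    · apply ll_s_xd h0 (b := b) (c := b) (al := al) (r := r) (zm := zm) (m := m) (t := t) (dbt := dbt) (u := u) (x := x) <;> assumption
    · apply ll_s_xs h0 (b := b) (c := b) (al := al) (r := r) (zm := zm) (m := m) (t := t) (zbt := zbt) (dbt := dbt) (u := u) (x := x) <;> assumption
    · apply ll_s_y h0 (b := b) (c := b) (al := al) (r := r) (zm := zm) (m := m) (t := t) (zrt := zrt) (drt := drt) (u := u) (x := x) <;> assumption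

theorem PC.lb0 (h : PC W b al r) (hr : RR W b al r t) (s_t : W.S t) (s_u : W.S u) (u_u : ¬ W.A u)
    (t_al_u_b_t : W.T al u b t) : False := by
  have k_b_b := h.ok.bs.krefl h.ab
  have h0 := h.ok
  have s_b := h.sb
  have g_b := h.gs h.sb h.ab
  have s_al := h.sl
  have g_al := h.gl
  have s_r := h.sr
  have g_r := h.gr
  have e_b_al := h.e1
  have tp_r := h.tp
  have n_al_r := h.n
  have ar_b := h.arc
  have d_u := h.sd s_u
  have tp_t := h.rtop hr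
  have g_t := h.rg hr
  have nk_b_t := h.nk hr
  rcases h.mar with ⟨m, s_m, g_m, ne_al_m⟩ | ⟨tp_al, zm, m, s_zm, g_zm, s_m, g_m, hx_m, ne_zm_m⟩
  · rcases h.kind hr with hk | ⟨s_t, x_b_r_t_al, ⟨dbt, s_dbt, g_dbt, ne_b_dbt⟩ | ⟨tp_b, zbt, dbt, s_zbt, g_zbt, s_dbt, g_dbt, x_b_t_zbt_al, ne_zbt_dbt⟩⟩ | ⟨s_t, x_b_r_t_al, n_t_r, zrt, drt, s_zrt, g_zrt, s_drt, g_drt, x_t_r_zrt_b, ne_zrt_drt⟩
    · exact s_r (hk ▸ s_t)
    · apply lb_d_xd h0 (b := b) (c := b) (al := al) (r := r) (m := m) (t := t) (dbt := dbt) (u := u) <;> assumption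
    · apply lb_d_xs h0 (b := b) (c := b) (al := al) (r := r) (m := m) (t := t) (zbt := zbt) (dbt := dbt) (u := u) <;> assumption
    · contradiction
  · have x_al_r_zm_b := hx_m b s_b
    rcases h.kind hr with hk | ⟨s_t, x_b_r_t_al, ⟨dbt, s_dbt, g_dbt, ne_b_dbt⟩ | ⟨tp_b, zbt, dbt, s_zbt, g_zbt, s_dbt, g_dbt, x_b_t_zbt_al, ne_zbt_dbt⟩⟩ | ⟨s_t, x_b_r_t_al, n_t_r, zrt, drt, s_zrt, g_zrt, s_drt, g_drt, x_t_r_zrt_b, ne_zrt_drt⟩
    · exact s_r (hk ▸ s_t)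
    · apply lb_s_xd h0 (b := b) (c := b) (al := al) (r := r) (zm := zm) (m := m) (t := t) (dbt := dbt) (u := u) <;> assumption
    · apply lb_s_xs h0 (b := b) (c := b) (al := al) (r := r) (zm := zm) (m := m) (t := t) (zbt := zbt) (dbt := dbt) (u := u) <;> assumption
    · contradiction

theorem PC.lc0 (h : PC W b al r) (hr : RR W b al r t) (s_t : W.S t) (s_u : W.S u) (u_u : ¬ W.A u) (s_v : W.S v)
    (u_v : ¬ W.A v) (t_t_u_b_v : W.T t u b v) : False := by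
  have k_b_b := h.ok.bs.krefl h.ab
  have h0 := h.ok
  have s_b := h.sb
  have g_b := h.gs h.sb h.ab
  have s_al := h.sl
  have g_al := h.gl
  have s_r := h.sr
  have g_r := h.gr
  have e_b_al := h.e1
  have tp_r := h.tp
  have n_al_r := h.n
  have ar_b := h.arc
  have d_u := h.sd s_u
  have d_v := h.sd s_v
  have tp_t := h.rtop hr
  have g_t := h.rg hr
  have nk_b_t := h.nk hr
  rcases h.mar with ⟨m, s_m, g_m, ne_al_m⟩ | ⟨tp_al, zm, m, s_zm, g_zm, s_m, g_m, hx_m, ne_zm_m⟩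
  · rcases h.kind hr with hk | ⟨s_t, x_b_r_t_al, ⟨dbt, s_dbt, g_dbt, ne_b_dbt⟩ | ⟨tp_b, zbt, dbt, s_zbt, g_zbt, s_dbt, g_dbt, x_b_t_zbt_al, ne_zbt_dbt⟩⟩ | ⟨s_t, x_b_r_t_al, n_t_r, zrt, drt, s_zrt, g_zrt, s_drt, g_drt, x_t_r_zrt_b, ne_zrt_drt⟩
    · exact s_r (hk ▸ s_t)
    · apply lc_d_xd h0 (b := b) (c := b) (al := al) (r := r) (m := m) (t := t) (dbt := dbt) (u := u) (v := v) <;> assumption
    · apply lc_d_xs h0 (b := b) (c := b) (al := al) (r := r) (m := m) (t := t) (zbt := zbt) (dbt := dbt) (u := u) (v := v) <;> assumption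
    · contradiction
  · have x_al_r_zm_b := hx_m b s_b
    rcases h.kind hr with hk | ⟨s_t, x_b_r_t_al, ⟨dbt, s_dbt, g_dbt, ne_b_dbt⟩ | ⟨tp_b, zbt, dbt, s_zbt, g_zbt, s_dbt, g_dbt, x_b_t_zbt_al, ne_zbt_dbt⟩⟩ | ⟨s_t, x_b_r_t_al, n_t_r, zrt, drt, s_zrt, g_zrt, s_drt, g_drt, x_t_r_zrt_b, ne_zrt_drt⟩
    · exact s_r (hk ▸ s_t)
    · apply lc_s_xd h0 (b := b) (c := b) (al := al) (r := r) (zm := zm) (m := m) (t := t) (dbt := dbt) (u := u) (v := v) <;> assumption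
    · apply lc_s_xs h0 (b := b) (c := b) (al := al) (r := r) (zm := zm) (m := m) (t := t) (zbt := zbt) (dbt := dbt) (u := u) (v := v) <;> assumption
    · contradiction


/-- two points of the block and two other attached points: some pairing -/
theorem PC.some4 (h : PC W b al r) (ka : W.K b a) (kc : W.K b c) (ac : a ≠ c) {y z : V} (ay : W.A y) (ny : ¬ W.K b y)
    (az : W.A z) (nz : ¬ W.K b z) (dy : W.D y) (dz : W.D z) (yz : y ≠ z) (e1 : W.G.Adj a y) (e2 : W.G.Adj a z)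
    (e3 : W.G.Adj c y) (e4 : W.G.Adj c z) : W.T a c y z ∨ (W.T a z c y ∨ W.T a y c z) := by
  have kac : W.K a c := h.ok.bs.ktr (h.ok.bs.ksym ka) kc
  have nay : ¬ W.K a y := fun e => ny (h.ok.bs.ktr ka e)
  have naz : ¬ W.K a z := fun e => nz (h.ok.bs.ktr ka e)
  have nx := h.ok.bs.kb kac ay nay az naz
  have da := h.sd (h.ok.bs.kS ka h.sb)
  have dc := h.sd (h.ok.bs.kS kc h.sb)
  rcases h.ok.se.one ac e1.ne e2.ne e3.ne e4.ne yz with h1 | h1 | h1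
  · exact absurd h1 nx
  · rcases h.ok.t.some e1 e4 h1 da dc dy dz with h2 | h2
    · exact Or.inl h2
    · exact Or.inr (Or.inl h2)
  · rcases h.ok.t.some e2 e3 h1 da dc dz dy with h2 | h2
    · exact Or.inl (h.ok.t.sw3 h2)
    · exact Or.inr (Or.inr h2)

/-- the hypotheses of the pull -/
theorem PC.plh (h : PC W b al r) : PlH W (W.K b) (RR W b al r) al where
  ok := h.ok
  bs := fun k => h.ok.bs.kS k h.sb
  ba := fun k => h.ok.bs.kA (h.ok.bs.ksym k)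
  sd := h.sd
  da := h.da
  kb := by
    intro p q x y kp kq ax nx ay ny
    exact h.ok.bs.kb (h.ok.bs.ktr (h.ok.bs.ksym kp) kq) ax (fun e => nx (h.ok.bs.ktr kp e)) ay
      (fun e => ny (h.ok.bs.ktr kp e))
  uni := by
    intro p q x kp kq ax nx e
    have kpq : W.K p q := h.ok.bs.ktr (h.ok.bs.ksym kp) kq
    have sp := h.ok.bs.kS kp h.sb
    have sq := h.ok.bs.kS kq h.sb
    have ap := h.ok.bs.kA (h.ok.bs.ksym kp)
    have aq := h.ok.bs.kA (h.ok.bs.ksym kq)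
    by_cases sx : W.S x
    · have nq : ¬ W.K q x := fun k => nx (h.ok.bs.ktr kq k)
      have np : ¬ W.K p x := fun k => nx (h.ok.bs.ktr kp k)
      rw [h.mx.rule h.ok sq sx (h.gs sq aq) (h.gs sx ax) nq]
      rw [h.mx.rule h.ok sp sx (h.gs sp ap) (h.gs sx ax) np] at e
      rcases e with e | e
      · refine Or.inl fun k => e ((h.ok.ksm kpq).trans k ⟨fun _ => sq, fun _ => sp⟩)
      · obtain ⟨u, h1, h2, h3, w, h4, h5, h6⟩ := e
        refine Or.inr ⟨u, h1, h2, fun z sz k => h.ok.bs.kr kpq sp sz (h3 z sz k), w, h4, h.ok.bs.kr kpq sp h4 h5, h6⟩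
    · exact h.ok.bs.kr kpq sp sx e
  alY := h.sl
  alD := h.gl.2.1
  alR := by
    rintro (k | ⟨_, _, _, k⟩)
    · exact h.n k
    · exact k.1.2.2.2.2.2 rfl
  alE := fun k => (h.ok.bs.kr k h.sb h.sl h.e1).symm
  ra := fun hr => (h.rg hr).1
  rb := fun hr => h.nk hr
  rd := fun hr => (h.rg hr).2.1
  top := by
    intro p q hr aq dq nk
    by_cases hs : W.S p ↔ W.S q
    · exact h.mx.tpa h.ok hs (h.rg hr) (h.gd dq aq) nk (h.rtop hr)
    · exact h.rtop hr q aq (by tauto)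
  topB := by
    intro p q hr kq
    have sq := h.ok.bs.kS kq h.sb
    have gq := h.gs sq (h.ok.bs.kA (h.ok.bs.ksym kq))
    have nk : ¬ W.K p q := fun k => h.nk hr (h.ok.bs.ktr kq (h.ok.bs.ksym k))
    by_cases hs : W.S p ↔ W.S q
    · exact h.mx.tpa h.ok hs (h.rg hr) gq nk (h.rtop hr)
    · exact h.rtop hr q gq.1 (by tauto)
  rk := by
    intro p q hr k dq
    by_cases sp : W.S p
    · have gp := h.rg hr
      rcases hr with h1 | ⟨h1, h2, h3, h4⟩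
      · exact absurd (h1 ▸ sp) h.sr
      have sq := h.ok.bs.kS k sp
      refine Or.inr ⟨h.ok.bs.kA (h.ok.bs.ksym k), dq, fun e => h3 (h.ok.bs.ktr e (h.ok.bs.ksym k)), ?_⟩
      exact h.ok.shift k h.ab (fun e => h3 (h.ok.bs.ksym e)) h.gr.1 (fun e => h.sr (h.ok.bs.kS e sp)) (nsd sq h.sl).symm h4
    · have := h.dk sp (h.rg hr).2.1 dq k
      rw [← this]
      exact hr
  fa := by
    intro p q x kp kq pq ax nx nr dx e1 e2 e3
    have hp := h.kk kp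
    have hq := h.kk kq
    have kpq : W.K p q := h.ok.bs.ktr (h.ok.bs.ksym kp) kq
    have kqp := h.ok.bs.ksym kpq
    have npx : ¬ W.K p x := fun k => nx (h.ok.bs.ktr kp k)
    have nqx : ¬ W.K q x := fun k => nx (h.ok.bs.ktr kq k)
    have gx := h.gd dx ax
    rcases h.some4 kp kq pq h.gl.1 (fun k => h.sl (h.ok.bs.kS k h.sb)) ax nx h.gl.2.1 dx e3.ne.symm hp.e1 e1 hq.e1 e2
      with h1 | h1 | h1
    · exact h1
    · -- T p x q al
      exact (hq.fax kqp nqx (h.rr' kq nr) gx e2 e3 (h.ok.t.adj h1).symm e1 (h.ok.t.sw2 h1)).elim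
    · -- T p al q x
      exact (hp.fax kpq npx (h.rr' kp nr) gx e1 e3 (h.ok.t.adj h1) e2 h1).elim
  fr := by
    intro p q x y kp kq pq rx ry e
    have hp := h.kk kp
    have hq := h.kk kq
    have kpq : W.K p q := h.ok.bs.ktr (h.ok.bs.ksym kp) kq
    have key : ∀ {t : V}, RR W b al r t → t ≠ r → W.T p q t r := by
      intro t hr tr
      have top : ∀ {v w : V}, RR W b al r v → W.K b w → W.G.Adj w v := by
        intro v w hv kw
        have sw := h.ok.bs.kS kw h.sb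
        have gw := h.gs sw (h.ok.bs.kA (h.ok.bs.ksym kw))
        have nk : ¬ W.K v w := fun k => h.nk hv (h.ok.bs.ktr kw (h.ok.bs.ksym k))
        by_cases hs : W.S v ↔ W.S w
        · exact (h.mx.tpa h.ok hs (h.rg hv) gw nk (h.rtop hv)).symm
        · exact (h.rtop hv w gw.1 (by tauto)).symm
      have hrr : RR W b al r r := Or.inl rfl
      by_cases e0 : W.G.Adj p q
      · by_contra hn
        exact hp.fr0 kpq (h.rr kp hr) tr e0 hn
      · rcases h.some4 kp kq pq (h.rg hr).1 (h.nk hr) h.gr.1 (h.nk hrr) (h.rg hr).2.1 h.gr.2.1 tr (top hr kp)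
          (top hrr kp) (top hr kq) (top hrr kq) with h1 | h1 | h1
        · exact h1
        · exact absurd (h.ok.t.adj h1) e0
        · exact absurd (h.ok.t.adj h1) e0
    by_cases xr : x = r
    · by_cases yr : y = r
      · exact absurd (xr.trans yr.symm) e.ne
      · rw [xr]
        exact h.ok.t.sw3 (key ry yr)
    · by_cases yr : y = r
      · rw [yr]
        exact key rx xr
      · exact h.ok.t.trans (key rx xr) (h.ok.t.sw3 (key ry yr)) e.ne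
  ll := by
    intro p q x y hr nq kx ay ny ne ht
    have hx := h.kk kx
    have sq : W.S q := (h.da (h.ok.t.doms ht).2.1).resolve_right nq
    have dy := (h.ok.t.doms ht).2.2.2
    have sy : W.S y := by
      by_contra k
      exact nq (h.ok.bs.att sq k (h.ok.t.sq ht).2.2.2).1
    exact hx.ll0 (h.rr kx hr) sq nq sy (h.gs sy ay) (fun k => ny (h.ok.bs.ktr kx k)) ne ht
  l2 := by
    intro q x y nq kx hr ht
    have hx := h.kk kx
    have sq : W.S q := (h.da (h.ok.t.doms ht).2.1).resolve_right nq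
    have sy : W.S y := by
      by_contra k
      exact nq (h.ok.bs.att sq k (h.ok.t.sq ht).2.2.2).1
    exact hx.lb0 (h.rr kx hr) sy sq nq ht
  l3 := by
    intro p q x y hr nq kx ny ht
    have hx := h.kk kx
    have sq : W.S q := (h.da (h.ok.t.doms ht).2.1).resolve_right nq
    have sy : W.S y := (h.da (h.ok.t.doms ht).2.2.2).resolve_right ny
    have sp : W.S p := by
      by_contra k
      exact ny (h.ok.bs.att sy k (h.ok.t.sq ht).2.1.symm).1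
    exact hx.lc0 (h.rr kx hr) sp sq nq sy ny ht

end

end Pool.Agent.SOQ
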