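import Pool.Agent.SOQ.Defs

/-! Project SOQ, module Sem: transfer of facts to the world with twins. -/

set_option autoImplicit false

namespace Pool.Agent.SOQ

open Pool.Agent.SOC Pool.Agent.SOD Pool.Agent.RUP

variable {V : Type}

theorem ng {a : V} {p : Prop} (h : ¬ (a = a ∧ p)) : ¬ p := fun k => h ⟨rfl, k⟩

theorem PQ.irr {G : SimpleGraph V} {X T : V → V → V → V → Prop} {D : V → Prop} (h : PQ G X T D) {a b x : V}
    (ht : T a x b x) : False := (h.sq ht).2.2.2.ne rfl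

theorem Bs.ady {G : SimpleGraph V} {X : V → V → V → V → Prop} {S A : V → Prop} {K : V → V → Prop}
    (h : Bs G X S A K) (ha : ∀ {a}, ¬ S a → A a → ∃ z, S z ∧ G.Adj a z) {a b c : V} (sa : ¬ S a) (sb : ¬ S b) (sc : S c)
    (ab : A b) (e : G.Adj a c) (n : ¬ G.Adj b c) : G.Adj a b := by
  obtain ⟨z, h1, h2⟩ := ha sb ab
  rcases h.pc sc sa h1 sb e.symm h2.symm with h3 | h3
  · exact h3.2
  · exact absurd h3.1.symm n

/-- attached, in both domains -/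
def Wo.Gd (W : Wo V) (a : V) : Prop := W.A a ∧ W.D a ∧ W.E a

/-- the same row -/
def Wo.Sm (W : Wo V) (a b : V) : Prop := ∀ z, (W.S z ↔ ¬ W.S a) → (W.G.Adj a z ↔ W.G.Adj b z)

/-- adjacent to all attached vertices of the other side -/
def Wo.Tp (W : Wo V) (t : V) : Prop := ∀ z, W.A z → (W.S z ↔ ¬ W.S t) → W.G.Adj t z

/-- the attached vertices outside of the block of `b` on the arc between `b` and `r` (not containing `al`) are top -/
def Wo.Arc (W : Wo V) (b r al : V) : Prop := ∀ p, W.A p → ¬ W.K b p → CrF W.f b r p al → W.Tp p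

section
variable {W : Wo V} {k : ℕ} {a b c d z : V}

theorem smx (h : W.Sm a b) (sa : W.S a) (sz : ¬ W.S z) (e : W.G.Adj z a) : W.G.Adj z b :=
  ((h z ⟨fun k => absurd k sz, fun k => absurd sa k⟩).1 e.symm).symm

theorem smx' (h : W.Sm a b) (sa : W.S a) (sz : ¬ W.S z) (e : W.G.Adj z b) : W.G.Adj z a :=
  ((h z ⟨fun k => absurd k sz, fun k => absurd sa k⟩).2 e.symm).symm

theorem smy (h : W.Sm a b) (sa : ¬ W.S a) (sz : W.S z) (e : W.G.Adj z a) : W.G.Adj z b :=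
  ((h z ⟨fun _ => sa, fun _ => sz⟩).1 e.symm).symm

theorem smy' (h : W.Sm a b) (sa : ¬ W.S a) (sz : W.S z) (e : W.G.Adj z b) : W.G.Adj z a :=
  ((h z ⟨fun _ => sa, fun _ => sz⟩).2 e.symm).symm

theorem tpx (h : W.Tp a) (sa : W.S a) (sz : ¬ W.S z) (az : W.A z) : W.G.Adj z a :=
  (h z az ⟨fun k => absurd k sz, fun k => absurd sa k⟩).symm

theorem tpy (h : W.Tp a) (sa : ¬ W.S a) (sz : W.S z) (az : W.A z) : W.G.Adj z a :=
  (h z az ⟨fun _ => sa, fun _ => sz⟩).symm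

theorem txp (h : W.Ok) {i j l m : Fin k} (hx : CrF W.f a b c d) : CrF (tf k W.f) (a, i) (b, j) (c, l) (d, m) :=
  (tx_iff h.inj (p := (a, i)) (q := (b, j)) (r := (c, l)) (s := (d, m)) hx.1.1 hx.1.2.1 hx.1.2.2.1 hx.1.2.2.2.1
    hx.1.2.2.2.2.1 hx.1.2.2.2.2.2).2 hx

theorem txn (h : W.Ok) {i j l m : Fin k} (ab : a ≠ b) (ac : a ≠ c) (ad : a ≠ d) (bc : b ≠ c) (bd : b ≠ d) (cd : c ≠ d)
    (hx : CrF (tf k W.f) (a, i) (b, j) (c, l) (d, m)) : CrF W.f a b c d :=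
  (tx_iff h.inj (p := (a, i)) (q := (b, j)) (r := (c, l)) (s := (d, m)) ab ac ad bc bd cd).1 hx

theorem ttp (h : W.Ok) {i j l m : Fin k} (ht : W.T a b c d) : tt W.G W.D W.T k (a, i) (b, j) (c, l) (d, m) :=
  ⟨⟨fun e => h.t.ne ht (congrArg Prod.fst e), fun e => h.t.ne' ht (congrArg Prod.fst e)⟩, h.t.doms ht, h.t.sq ht,
    fun _ _ => ht⟩

theorem ttn {i j l m : Fin k} (ab : a ≠ b) (cd : c ≠ d) (ht : tt W.G W.D W.T k (a, i) (b, j) (c, l) (d, m)) :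
    W.T a b c d := ht.2.2.2 ab cd

theorem tup (h : W.Ok) {i j l m : Fin k} (ht : W.U a b c d) : tt W.G W.E W.U k (a, i) (b, j) (c, l) (d, m) :=
  ⟨⟨fun e => h.u.ne ht (congrArg Prod.fst e), fun e => h.u.ne' ht (congrArg Prod.fst e)⟩, h.u.doms ht, h.u.sq ht,
    fun _ _ => ht⟩

theorem tun {i j l m : Fin k} (ab : a ≠ b) (cd : c ≠ d) (ht : tt W.G W.E W.U k (a, i) (b, j) (c, l) (d, m)) :
    W.U a b c d := ht.2.2.2 ab cd

theorem arc_aux (h : W.Ok) {r al : V} {i j l : Fin k} (ar : W.Arc b r al) (sb : W.S b) (sr : ¬ W.S r) (sl : ¬ W.S al)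
    (n : al ≠ r) {p : V × Fin k} (hA : W.A p.1) (hK : ¬ W.K p.1 b) (hx : CrF (tf k W.f) (b, i) (r, j) p (al, l)) :
    p.1 = r ∨ W.Tp p.1 := by
  by_cases h1 : p.1 = r
  · exact Or.inl h1
  have nb : b ≠ p.1 := fun e => hK (by rw [← e]; rw [← e] at hA; exact h.bs.krefl hA)
  have br : b ≠ r := fun e => sr (e ▸ sb)
  have bl : b ≠ al := fun e => sl (e ▸ sb)
  by_cases h2 : p.1 = al
  · rcases tx_twin2 h.inj (r := p) (s := (al, l)) h2 hx with g | g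
    · exact absurd (g.trans h2) bl
    · exact absurd (g.trans h2) n.symm
  exact Or.inr (ar p.1 hA (fun e => hK (h.bs.ksym e))
    ((tx_iff h.inj (p := (b, i)) (q := (r, j)) (r := p) (s := (al, l)) br nb bl (fun e => h1 e.symm) n.symm h2).1 hx))

theorem arx (h : W.Ok) {r al : V} {i j l : Fin k} (ar : W.Arc b r al) (sb : W.S b) (sr : ¬ W.S r) (sl : ¬ W.S al)
    (n : al ≠ r) {p q : V × Fin k} (sp : W.S p.1) (sq : ¬ W.S q.1) (hA : W.A p.1) (hA' : W.A q.1) (hK : ¬ W.K p.1 b)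
    (hx : CrF (tf k W.f) (b, i) (r, j) p (al, l)) : W.G.Adj p.1 q.1 := by
  rcases arc_aux h ar sb sr sl n hA hK hx with h1 | h1
  · exact absurd (h1 ▸ sp) sr
  · exact h1 q.1 hA' ⟨fun k => absurd k sq, fun k => absurd sp k⟩

theorem ary (h : W.Ok) {r al : V} {i j l : Fin k} (ar : W.Arc b r al) (sb : W.S b) (sr : ¬ W.S r) (sl : ¬ W.S al)
    (n : al ≠ r) (tr : W.Tp r) {p q : V × Fin k} (sp : ¬ W.S p.1) (sq : W.S q.1) (hA : W.A p.1) (hA' : W.A q.1)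
    (hK : ¬ W.K p.1 b) (hx : CrF (tf k W.f) (b, i) (r, j) p (al, l)) : W.G.Adj p.1 q.1 := by
  rcases arc_aux h ar sb sr sl n hA hK hx with h1 | h1
  · rw [h1]
    exact tr q.1 hA' ⟨fun _ => sr, fun _ => sq⟩
  · exact h1 q.1 hA' ⟨fun _ => sp, fun _ => sq⟩

theorem nsd {a b : V} (sa : W.S a) (sb : ¬ W.S b) : a ≠ b := fun e => sb (e ▸ sa)

theorem nsd' {a b : V} (sa : ¬ W.S a) (sb : W.S b) : a ≠ b := fun e => sa (e ▸ sb)

theorem nkn (h : W.Ok) {a b : V} (g : W.Gd a) (hk : ¬ W.K a b) : a ≠ b := fun e => hk (e ▸ h.bs.krefl g.1)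

end

/-- the two structures agree on quartets with two points on each side; quartets with two points of a block -/
structure Wo.Ag (W : Wo V) : Prop where
  sd : ∀ {a}, W.S a → W.D a
  se : ∀ {a}, ¬ W.S a → W.E a
  d1 : ∀ {a b c d}, W.S a → W.S b → ¬ W.S c → ¬ W.S d → ¬ W.K a b → ¬ W.K c d → W.E a → W.E b → W.T a b c d →
    W.U a b c d
  d1' : ∀ {a b c d}, W.S a → W.S b → ¬ W.S c → ¬ W.S d → ¬ W.K a b → ¬ W.K c d → W.D c → W.D d → W.U a b c d →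
    W.T a b c d
  d2 : ∀ {a b c d}, W.S a → ¬ W.S b → W.S c → ¬ W.S d → ¬ W.K a c → ¬ W.K b d → W.E a → W.E c → W.T a b c d →
    W.U a b c d
  d2' : ∀ {a b c d}, W.S a → ¬ W.S b → W.S c → ¬ W.S d → ¬ W.K a c → ¬ W.K b d → W.D b → W.D d → W.U a b c d →
    W.T a b c d
  m1 : ∀ {a b c d}, W.S a → ¬ W.S c → ¬ W.S d → W.K a b → a ≠ b → ¬ W.K c d → W.D c → W.D d → W.G.Adj a c →
    W.G.Adj a d → W.T a b c d
  m2 : ∀ {a b c d}, ¬ W.S a → W.S c → W.S d → W.K a b → a ≠ b → ¬ W.K c d → W.E c → W.E d → W.G.Adj a c →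
    W.G.Adj a d → W.U a b c d

theorem Wo.Ag.tw {W : Wo V} (h : W.Ok) (ha : W.Ag) (k : ℕ) : (W.tw k).Ag where
  sd := fun h1 => ha.sd h1
  se := fun h1 => ha.se h1
  d1 := by
    rintro a b c d sa sb sc sd kab kcd ea eb ⟨n, _, sq, ht⟩
    have h1 : a.1 ≠ b.1 := fun e => kab (by show W.K a.1 b.1; rw [← e]; exact h.bs.krefl (h.bs.att sa sc sq.1).1)
    have h2 : c.1 ≠ d.1 := fun e => kcd (by show W.K c.1 d.1; rw [← e]; exact h.bs.krefl (h.bs.att sa sc sq.1).2)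
    exact ⟨n, ⟨ea, eb, ha.se sc, ha.se sd⟩, sq, fun _ _ => ha.d1 sa sb sc sd kab kcd ea eb (ht h1 h2)⟩
  d1' := by
    rintro a b c d sa sb sc sd kab kcd dc dd ⟨n, _, sq, ht⟩
    have h1 : a.1 ≠ b.1 := fun e => kab (by show W.K a.1 b.1; rw [← e]; exact h.bs.krefl (h.bs.att sa sc sq.1).1)
    have h2 : c.1 ≠ d.1 := fun e => kcd (by show W.K c.1 d.1; rw [← e]; exact h.bs.krefl (h.bs.att sa sc sq.1).2)
    exact ⟨n, ⟨ha.sd sa, ha.sd sb, dc, dd⟩, sq, fun _ _ => ha.d1' sa sb sc sd kab kcd dc dd (ht h1 h2)⟩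
  d2 := by
    rintro a b c d sa sb sc sd kac kbd ea ec ⟨n, _, sq, ht⟩
    have h1 : a.1 ≠ b.1 := nsd sa sb
    have h2 : c.1 ≠ d.1 := nsd sc sd
    exact ⟨n, ⟨ea, ha.se sb, ec, ha.se sd⟩, sq, fun _ _ => ha.d2 sa sb sc sd kac kbd ea ec (ht h1 h2)⟩
  d2' := by
    rintro a b c d sa sb sc sd kac kbd db dd ⟨n, _, sq, ht⟩
    have h1 : a.1 ≠ b.1 := nsd sa sb
    have h2 : c.1 ≠ d.1 := nsd sc sd
    exact ⟨n, ⟨ha.sd sa, db, ha.sd sc, dd⟩, sq, fun _ _ => ha.d2' sa sb sc sd kac kbd db dd (ht h1 h2)⟩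
  m1 := by
    intro a b c d sa sc sd kab ab kcd dc dd e1 e2
    have e1' : W.G.Adj a.1 c.1 := e1
    have e2' : W.G.Adj a.1 d.1 := e2
    have sb := h.bs.kS kab sa
    have f1 := h.bs.kr kab sa sc e1'
    have f2 := h.bs.kr kab sa sd e2'
    have hn : c.1 ≠ d.1 := fun e => kcd (by show W.K c.1 d.1; rw [← e]; exact h.bs.krefl (h.bs.att sa sc e1').2)
    exact ⟨⟨ab, fun e => hn (by rw [e])⟩, ⟨ha.sd sa, ha.sd sb, dc, dd⟩, ⟨e1', e2', f1, f2⟩,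
      fun h3 _ => ha.m1 sa sc sd kab h3 kcd dc dd e1' e2'⟩
  m2 := by
    intro a b c d sa sc sd kab ab kcd ec ed e1 e2
    have e1' : W.G.Adj a.1 c.1 := e1
    have e2' : W.G.Adj a.1 d.1 := e2
    have sb : ¬ W.S b.1 := fun g => sa (h.bs.kS (h.bs.ksym kab) g)
    have f1 := h.bs.kr' kab sa sc e1'
    have f2 := h.bs.kr' kab sa sd e2'
    have hn : c.1 ≠ d.1 := fun e => kcd (by
      show W.K c.1 d.1
      rw [← e]
      exact h.bs.krefl (h.bs.att sc sa e1'.symm).1)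
    exact ⟨⟨ab, fun e => hn (by rw [e])⟩, ⟨ha.se sa, ha.se sb, ec, ed⟩, ⟨e1', e2', f1, f2⟩,
      fun h3 _ => ha.m2 sa sc sd kab h3 kcd ec ed e1' e2'⟩

end Pool.Agent.SOQ
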