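import Pool.Agent.SOQ.Ra

/-! Project SOQ, module Sep: maximal blocks, separation of vertices in different blocks, the rule for adjacency. -/

set_option autoImplicit false

namespace Pool.Agent.SOQ

open Pool.Agent.SOC Pool.Agent.SOD Pool.Agent.RUP

variable {V : Type}

/-- the blocks are maximal; the blocks have representatives in the domains -/
structure Wo.M1 (W : Wo V) : Prop where
  rx : ∀ {a}, W.S a → W.A a → ∃ b, W.K a b ∧ W.Gd b
  ry : ∀ {a}, ¬ W.S a → W.A a → ∃ b, W.K a b ∧ W.Gd b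
  mx1 : ∀ {a b}, W.S a → W.S b → W.A a → W.A b → ¬ W.K a b → W.Sm a b →
    ∃ c, W.S c ∧ W.A c ∧ ¬ W.Sm a c ∧ ∀ d, ¬ W.S d → CrF W.f a b c d

/-- also the blocks of the other side are maximal -/
structure Wo.Mx (W : Wo V) : Prop extends Wo.M1 W where
  mx2 : ∀ {a b}, ¬ W.S a → ¬ W.S b → W.A a → W.A b → ¬ W.K a b → W.Sm a b →
    ∃ c, ¬ W.S c ∧ W.A c ∧ ¬ W.Sm a c ∧ ∀ d, W.S d → CrF W.f a b c d

section
variable {W : Wo V} {a b c d : V}

theorem Wo.Ok.se (h : W.Ok) : Sepr (CrF W.f) := crF_sepr h.inj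

theorem Wo.Ok.kSn (h : W.Ok) (hk : W.K a b) (ha : ¬ W.S a) : ¬ W.S b := fun k => ha (h.bs.kS (h.bs.ksym hk) k)

/-- members of a block have the same row -/
theorem Wo.Ok.ksm (h : W.Ok) (hk : W.K a b) : W.Sm a b := by
  intro z hz
  by_cases sa : W.S a
  · have sz : ¬ W.S z := fun k => (hz.1 k) sa
    exact ⟨h.bs.kr hk sa sz, h.bs.kr (h.bs.ksym hk) (h.bs.kS hk sa) sz⟩
  · have sz : W.S z := hz.2 sa
    exact ⟨h.bs.kr' hk sa sz, h.bs.kr' (h.bs.ksym hk) (h.kSn hk sa) sz⟩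

theorem Wo.Ok.kiff (h : W.Ok) (hk : W.K a b) : W.S a ↔ W.S b := ⟨h.bs.kS hk, h.bs.kS (h.bs.ksym hk)⟩

theorem Wo.Sm.symm (h : W.Sm a b) (hs : W.S a ↔ W.S b) : W.Sm b a := fun z hz => (h z (by rw [hs]; exact hz)).symm

theorem Wo.Sm.trans (h : W.Sm a b) (h' : W.Sm b c) (hs : W.S a ↔ W.S b) : W.Sm a c := fun z hz =>
  (h z hz).trans (h' z (by rw [← hs]; exact hz))

/-- a vertex and its representative are adjacent to the same vertices of the other side -/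
theorem Wo.Ok.kadj (h : W.Ok) (hk : W.K a b) {z : V} (hz : W.S z ↔ ¬ W.S a) : W.G.Adj z a ↔ W.G.Adj z b := by
  have := h.ksm hk z hz
  rw [W.G.adj_comm z a, W.G.adj_comm z b]
  exact this

theorem Wo.Ok.ktp (h : W.Ok) (hk : W.K a b) (ht : W.Tp a) : W.Tp b := by
  intro z hA hz
  have hz' : W.S z ↔ ¬ W.S a := by rw [h.kiff hk]; exact hz
  exact (h.ksm hk z hz').1 (ht z hA hz')

/-- replacing one point by another point of its block -/
theorem Wo.Ok.shift (h : W.Ok) (hk : W.K c d) (aa : W.A a) (na : ¬ W.K c a) (ab : W.A b) (nb : ¬ W.K c b) {e : V}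
    (he : e ≠ d) (hx : CrF W.f a b c e) : CrF W.f a b d e := by
  by_cases cd : c = d
  · rw [← cd]; exact hx
  have ad : a ≠ d := fun k => na (k ▸ hk)
  have bd : b ≠ d := fun k => nb (k ▸ hk)
  rcases h.se.add2 hx he cd ad bd with h1 | h1
  · exact h.se.comm (h.se.swap (h.se.comm h1))
  · exact absurd (h.se.comm h1) (h.bs.kb hk aa na ab nb)

/-- first position -/
theorem Wo.Ok.shift1 (h : W.Ok) (hk : W.K a b) {r : V} (hr : r ≠ b) (ac : W.A c) (nc : ¬ W.K a c) (ad : W.A d)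
    (nd : ¬ W.K a d) (hx : CrF W.f a r c d) : CrF W.f b r c d :=
  h.se.comm (h.shift hk ac nc ad nd hr (h.se.comm hx))

/-- not top -/
theorem Wo.M1.ntx (h : W.Ok) (hm : W.M1) (sa : W.S a) (ht : ¬ W.Tp a) : ∃ m, ¬ W.S m ∧ W.Gd m ∧ ¬ W.G.Adj a m := by
  unfold Wo.Tp at ht
  push Not at ht
  obtain ⟨z, hA, hz, hn⟩ := ht
  have sz : ¬ W.S z := fun k => hz.1 k sa
  obtain ⟨m, h1, h2⟩ := hm.ry sz hA
  refine ⟨m, h.kSn h1 sz, h2, fun k => hn ?_⟩
  exact (h.kadj h1 (z := a) ⟨fun _ => sz, fun _ => sa⟩).2 k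

/-- not top -/
theorem Wo.M1.nty (h : W.Ok) (hm : W.M1) (sa : ¬ W.S a) (ht : ¬ W.Tp a) : ∃ m, W.S m ∧ W.Gd m ∧ ¬ W.G.Adj a m := by
  unfold Wo.Tp at ht
  push Not at ht
  obtain ⟨z, hA, hz, hn⟩ := ht
  have sz : W.S z := hz.2 sa
  obtain ⟨m, h1, h2⟩ := hm.rx sz hA
  refine ⟨m, h.bs.kS h1 sz, h2, fun k => hn ?_⟩
  exact (h.kadj h1 (z := a) ⟨fun k => absurd k sa, fun k => absurd sz k⟩).2 k

/-- different rows -/
theorem Wo.M1.dx (h : W.Ok) (hm : W.M1) (sa : W.S a) (sb : W.S b) (hs : ¬ W.Sm a b) :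
    ∃ d, ¬ W.S d ∧ W.Gd d ∧ ¬ (W.G.Adj a d ↔ W.G.Adj b d) := by
  unfold Wo.Sm at hs
  push Not at hs
  obtain ⟨z, hz, hn⟩ := hs
  have hn' : ¬ (W.G.Adj a z ↔ W.G.Adj b z) := by tauto
  have sz : ¬ W.S z := fun k => hz.1 k sa
  have hA : W.A z := by
    by_cases e : W.G.Adj a z
    · exact (h.bs.att sa sz e).2
    · by_cases e' : W.G.Adj b z
      · exact (h.bs.att sb sz e').2
      · exact absurd ⟨fun k => absurd k e, fun k => absurd k e'⟩ hn'
  obtain ⟨m, h1, h2⟩ := hm.ry sz hA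
  refine ⟨m, h.kSn h1 sz, h2, fun k => hn' ?_⟩
  rw [h.kadj h1 (z := a) ⟨fun _ => sz, fun _ => sa⟩, h.kadj h1 (z := b) ⟨fun _ => sz, fun _ => sb⟩]
  exact k

/-- different rows -/
theorem Wo.M1.dy (h : W.Ok) (hm : W.M1) (sa : ¬ W.S a) (sb : ¬ W.S b) (hs : ¬ W.Sm a b) :
    ∃ d, W.S d ∧ W.Gd d ∧ ¬ (W.G.Adj a d ↔ W.G.Adj b d) := by
  unfold Wo.Sm at hs
  push Not at hs
  obtain ⟨z, hz, hn⟩ := hs
  have hn' : ¬ (W.G.Adj a z ↔ W.G.Adj b z) := by tauto
  have sz : W.S z := hz.2 sa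
  have hA : W.A z := by
    by_cases e : W.G.Adj a z
    · exact (h.bs.att sz sa e.symm).1
    · by_cases e' : W.G.Adj b z
      · exact (h.bs.att sz sb e'.symm).1
      · exact absurd ⟨fun k => absurd k e, fun k => absurd k e'⟩ hn'
  obtain ⟨m, h1, h2⟩ := hm.rx sz hA
  refine ⟨m, h.bs.kS h1 sz, h2, fun k => hn' ?_⟩
  rw [h.kadj h1 (z := a) ⟨fun k => absurd k sa, fun k => absurd sz k⟩,
    h.kadj h1 (z := b) ⟨fun k => absurd k sb, fun k => absurd sz k⟩]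
  exact k

/-- separation of two vertices in different blocks of the side `S` -/
theorem Wo.M1.sx (h : W.Ok) (hm : W.M1) (sa : W.S a) (sb : W.S b) (ga : W.A a) (gb : W.A b) (hk : ¬ W.K a b)
    (hs : W.Sm a b) : ∃ z d, W.S z ∧ W.Gd z ∧ (∀ o, ¬ W.S o → CrF W.f a b z o) ∧ ¬ W.S d ∧ W.Gd d ∧
      ¬ (W.G.Adj a d ↔ W.G.Adj z d) := by
  obtain ⟨c, sc, ac, h1, h2⟩ := hm.mx1 sa sb ga gb hk hs
  obtain ⟨z, h3, h4⟩ := hm.rx sc ac
  have sz := h.bs.kS h3 sc
  have nca : ¬ W.K c a := fun k => h1 (h.ksm (h.bs.ksym k))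
  have ncb : ¬ W.K c b := fun k => h1 (hs.trans (h.ksm (h.bs.ksym k)) ⟨fun _ => sb, fun _ => sa⟩)
  have h5 : ¬ W.Sm a z := fun k => h1 (k.trans (h.ksm (h.bs.ksym h3)) ⟨fun _ => sz, fun _ => sa⟩)
  obtain ⟨d, h6, h7, h8⟩ := hm.dx h sa sz h5
  exact ⟨z, d, sz, h4, fun o so => h.shift h3 ga nca gb ncb (nsd' so sz) (h2 o so), h6, h7, h8⟩

/-- separation of two vertices in different blocks of the other side -/
theorem Wo.Mx.sy (h : W.Ok) (hm : W.Mx) (sa : ¬ W.S a) (sb : ¬ W.S b) (ga : W.A a) (gb : W.A b) (hk : ¬ W.K a b)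
    (hs : W.Sm a b) : ∃ z d, ¬ W.S z ∧ W.Gd z ∧ (∀ o, W.S o → CrF W.f a b z o) ∧ W.S d ∧ W.Gd d ∧
      ¬ (W.G.Adj a d ↔ W.G.Adj z d) := by
  obtain ⟨c, sc, ac, h1, h2⟩ := hm.mx2 sa sb ga gb hk hs
  obtain ⟨z, h3, h4⟩ := hm.ry sc ac
  have sz := h.kSn h3 sc
  have nca : ¬ W.K c a := fun k => h1 (h.ksm (h.bs.ksym k))
  have ncb : ¬ W.K c b := fun k => h1 (hs.trans (h.ksm (h.bs.ksym k)) ⟨fun k => absurd k sa, fun k => absurd k sb⟩)
  have h5 : ¬ W.Sm a z := fun k => h1 (k.trans (h.ksm (h.bs.ksym h3)) ⟨fun k => absurd k sa, fun k => absurd k sz⟩)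
  obtain ⟨d, h6, h7, h8⟩ := hm.dy h sa sz h5
  exact ⟨z, d, sz, h4, fun o so => h.shift h3 ga nca gb ncb (nsd so sz) (h2 o so), h6, h7, h8⟩

/-- vertices of the same side with different rows are adjacent -/
theorem Wo.Ok.adr (h : W.Ok) (hab : W.S a ↔ W.S b) (ga : W.A a) (gb : W.A b) (hs : ¬ W.Sm a b) : W.G.Adj a b := by
  unfold Wo.Sm at hs
  push Not at hs
  obtain ⟨z, hz, hn⟩ := hs
  have hn' : ¬ (W.G.Adj a z ↔ W.G.Adj b z) := by tauto
  by_cases sa : W.S a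
  · have sb := hab.1 sa
    have sz : ¬ W.S z := fun k => hz.1 k sa
    by_cases e : W.G.Adj a z
    · exact h.bs.adx h.at1 sa sb sz gb e (fun k => hn' ⟨fun _ => k, fun _ => e⟩)
    · have e' : W.G.Adj b z := by by_contra k; exact hn' ⟨fun k' => absurd k' e, fun k' => absurd k' k⟩
      exact (h.bs.adx h.at1 sb sa sz ga e' e).symm
  · have sb : ¬ W.S b := fun k => sa (hab.2 k)
    have sz : W.S z := hz.2 sa
    by_cases e : W.G.Adj a z
    · exact h.bs.ady h.at2 sa sb sz gb e (fun k => hn' ⟨fun _ => k, fun _ => e⟩)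
    · have e' : W.G.Adj b z := by by_contra k; exact hn' ⟨fun k' => absurd k' e, fun k' => absurd k' k⟩
      exact (h.bs.ady h.at2 sb sa sz ga e' e).symm

/-- a top vertex is adjacent to the attached vertices of its side which are in different blocks -/
theorem Wo.Mx.tpa (h : W.Ok) (hm : W.Mx) (hab : W.S a ↔ W.S b) (ga : W.Gd a) (gb : W.Gd b) (hk : ¬ W.K a b)
    (ht : W.Tp a) : W.G.Adj a b := by
  by_cases hs : W.Sm a b
  · by_contra hn
    by_cases sa : W.S a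
    · have sb := hab.1 sa
      obtain ⟨z, d, sz, gz, hx, sd, gd, hd⟩ := hm.sx h sa sb ga.1 gb.1 hk hs
      have e1 : W.G.Adj a d := ht d gd.1 ⟨fun k => absurd k sd, fun k => absurd sa k⟩
      have e2 : ¬ W.G.Adj z d := fun k => hd ⟨fun _ => k, fun _ => e1⟩
      obtain ⟨e0, se0, he0⟩ := h.at1 sz gz.1
      obtain ⟨e, hke, ge⟩ := hm.ry se0 (h.bs.att sz se0 he0).2
      have se := h.kSn hke se0
      have e3 : W.G.Adj z e := (h.kadj hke (z := z) ⟨fun _ => se0, fun _ => sz⟩).1 he0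
      have e4 : W.G.Adj a e := ht e ge.1 ⟨fun k => absurd k se, fun k => absurd sa k⟩
      exact f1bx h sa ga sb gb sz gz sd gd hs (hx d sd) se ge e2 e1 hn e3 e4 (hx e se)
    · have sb : ¬ W.S b := fun k => sa (hab.2 k)
      obtain ⟨z, d, sz, gz, hx, sd, gd, hd⟩ := hm.sy h sa sb ga.1 gb.1 hk hs
      have e1 : W.G.Adj a d := ht d gd.1 ⟨fun _ => sa, fun _ => sd⟩
      have e2 : ¬ W.G.Adj z d := fun k => hd ⟨fun _ => k, fun _ => e1⟩
      obtain ⟨e0, se0, he0⟩ := h.at2 sz gz.1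
      obtain ⟨e, hke, ge⟩ := hm.rx se0 (h.bs.att se0 sz he0.symm).1
      have se := h.bs.kS hke se0
      have e3 : W.G.Adj z e := (h.kadj hke (z := z) ⟨fun k => absurd k sz, fun k => absurd se0 k⟩).1 he0
      have e4 : W.G.Adj a e := ht e ge.1 ⟨fun _ => sa, fun _ => se⟩
      exact f1by h sa ga sb gb sz gz sd gd hs (hx d sd) se ge e2 e1 hn e3 e4 (hx e se)
  · exact h.adr hab ga.1 gb.1 hs

/-- some row of an attached vertex of the side is a proper subset of the row of `a` -/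
def Wo.Low (W : Wo V) (a : V) : Prop :=
  ∃ u, W.S u ∧ W.A u ∧ (∀ z, ¬ W.S z → W.G.Adj u z → W.G.Adj a z) ∧ ∃ e, ¬ W.S e ∧ W.G.Adj a e ∧ ¬ W.G.Adj u e

/-- RULE: adjacency of vertices in different blocks of the side `S` -/
theorem Wo.M1.rule (h : W.Ok) (hm : W.M1) (sa : W.S a) (sb : W.S b) (ga : W.Gd a) (gb : W.Gd b) (hk : ¬ W.K a b) :
    W.G.Adj a b ↔ (¬ W.Sm a b ∨ W.Low a) := by
  by_cases hs : W.Sm a b
  · obtain ⟨z, d, sz, gz, hx, sd, gd, hd⟩ := hm.sx h sa sb ga.1 gb.1 hk hs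
    -- representatives on the other side
    have rp : ∀ {x : V}, ¬ W.S x → W.A x → ∃ y, ¬ W.S y ∧ W.Gd y ∧ ∀ v, W.S v → (W.G.Adj v x ↔ W.G.Adj v y) := by
      intro x sx ax
      obtain ⟨y, h1, h2⟩ := hm.ry sx ax
      exact ⟨y, h.kSn h1 sx, h2, fun v sv => h.kadj h1 ⟨fun _ => sx, fun _ => sv⟩⟩
    have rx : ∀ {x : V}, W.S x → W.A x → ∃ y, W.S y ∧ W.Gd y ∧ ∀ v, ¬ W.S v → (W.G.Adj x v ↔ W.G.Adj y v) := by
      intro x sx ax
      obtain ⟨y, h1, h2⟩ := hm.rx sx ax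
      refine ⟨y, h.bs.kS h1 sx, h2, fun v sv => ?_⟩
      exact h.ksm h1 v ⟨fun k => absurd k sv, fun k => absurd sx k⟩
    by_cases hl : W.Low a
    · refine ⟨fun _ => Or.inr hl, fun _ => ?_⟩
      obtain ⟨u0, su0, au0, hu0, e0, se0, he1, he2⟩ := hl
      obtain ⟨u, su, gu, hu⟩ := rx su0 au0
      obtain ⟨e, se, ge, he⟩ := rp se0 (h.bs.att sa se0 he1).2
      obtain ⟨f0, sf0, hf0⟩ := h.at1 su gu.1
      obtain ⟨f, sf, gf, hf⟩ := rp sf0 (h.bs.att su sf0 hf0).2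
      have uf : W.G.Adj u f := (hf u su).1 hf0
      have af : W.G.Adj a f := hu0 f sf ((hu f sf).2 uf)
      have ae : W.G.Adj a e := (he a sa).1 he1
      have nue : ¬ W.G.Adj u e := fun k => he2 ((hu e0 se0).2 ((he u su).2 k))
      have lt : ∀ {x : V}, ¬ W.S x → W.Gd x → W.G.Adj z x → ¬ W.G.Adj a x → False := by
        intro x sx gx zx ax
        have nux : ¬ W.G.Adj u x := fun k => ax (hu0 x sx ((hu x sx).2 k))
        exact f1cx h sa ga sb gb sz gz sx gx hs (hx x sx) zx ax su gu se ge sf gf ae nue uf af nux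
      have ad : W.G.Adj a d := by
        by_contra k
        have zd : W.G.Adj z d := by
          by_contra k'
          exact hd ⟨fun k'' => absurd k'' k, fun k'' => absurd k'' k'⟩
        exact lt sd gd zd k
      have nzd : ¬ W.G.Adj z d := fun k => hd ⟨fun _ => k, fun _ => ad⟩
      obtain ⟨g0, sg0, hg0⟩ := h.at1 sz gz.1
      obtain ⟨g, sg, gg, hg⟩ := rp sg0 (h.bs.att sz sg0 hg0).2
      have zg : W.G.Adj z g := (hg z sz).1 hg0
      have ag : W.G.Adj a g := by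
        by_contra k
        exact lt sg gg zg k
      by_contra hn
      exact f1bx h sa ga sb gb sz gz sd gd hs (hx d sd) sg gg nzd ad hn zg ag (hx g sg)
    · refine ⟨fun hab => ?_, fun k => k.elim (fun k => absurd hs k) (fun k => absurd k hl)⟩
      exfalso
      apply hl
      -- the row of `z` is contained in the row of `a`
      have sub : ∀ x, ¬ W.S x → W.G.Adj z x → W.G.Adj a x := by
        intro x sx zx
        by_contra k
        obtain ⟨y, sy, gy, hy⟩ := rp sx (h.bs.att sz sx zx).2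
        exact f1ax h sa ga sb gb sz gz sy gy hs (hx y sy) ((hy z sz).1 zx) (fun k' => k ((hy a sa).2 k')) hab
      have ad : W.G.Adj a d := by
        by_contra k
        have zd : W.G.Adj z d := by
          by_contra k'
          exact hd ⟨fun k'' => absurd k'' k, fun k'' => absurd k'' k'⟩
        exact k (sub d sd zd)
      exact ⟨z, sz, gz.1, sub, d, sd, ad, fun k => hd ⟨fun _ => k, fun _ => ad⟩⟩
  · exact ⟨fun _ => Or.inl hs, fun _ => h.adr ⟨fun _ => sb, fun _ => sa⟩ ga.1 gb.1 hs⟩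

end

end Pool.Agent.SOQ
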