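import Pool.Agent.SOQ.Sem

/-! Project SOQ: templates (generated). -/

set_option autoImplicit false
set_option maxRecDepth 100000
set_option linter.unusedVariables false

namespace Pool.Agent.SOQ

open Pool.Agent.SOC Pool.Agent.SOD Pool.Agent.RUP

/-- templates -/
def qO : List Tm := [
  ⟨4, [], ad4, [.q true 0 0 1 2 3, .q true 0 0 2 1 3, .q true 0 0 3 1 2]⟩,
  ⟨4, [], ad4, [.q false 0 0 1 2 3, .q false 0 0 2 1 3]⟩,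
  ⟨5, [], ad5, [.q false 0 0 1 2 3, .q false 0 0 1 3 4, .q false 0 0 1 2 4]⟩,
  ⟨5, [], ad5, [.q false 0 0 1 2 3, .q true 0 0 1 3 4, .q true 0 0 1 2 4]⟩]

theorem qO_h {V : Type} {W : Wo V} (h : W.Ok) : UHs (Wo.rel h) qO :=
  .cons (fun v n01 n02 n03 n12 n13 n23 h0 h1 h2 => ((crF_sepr h.inj).one n01 n02 n03 n12 n13 n23).elim h0 (fun k => k.elim h1 h2)) (
  .cons (fun v n01 n02 n03 n12 n13 n23 h0 h1 => (crF_sepr h.inj).amo h0 h1) (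
  .cons (fun v n01 n02 n03 n04 n12 n13 n14 n23 n24 n34 h0 h1 h2 => (crF_sepr h.inj).add h0 h1 h2) (
  .cons (fun v n01 n02 n03 n04 n12 n13 n14 n23 n24 n34 h0 h1 h2 => ((crF_sepr h.inj).add2 h0 n34 n24 n04 n14).elim h1 h2) (
  .nil))))

/-- templates -/
def qT : List Tm := [
  ⟨4, [], ad4, [.q false 1 0 1 2 3, .q false 0 0 1 2 3]⟩,
  ⟨4, [], ad4, [.q false 1 0 1 2 3, .b true 0 0 2]⟩,
  ⟨4, [], ad4, [.b false 0 0 1, .b false 0 2 3, .q false 0 0 1 2 3, .q true 1 0 2 1 3, .q true 1 0 3 1 2, .b false 4 0 0, .b false 4 1 1, .b false 4 2 2, .b false 4 3 3]⟩,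
  ⟨4, [], ad4, [.q false 1 0 1 2 3, .q false 1 0 2 1 3]⟩,
  ⟨5, [], ad5, [.q false 1 0 1 2 3, .q false 1 0 1 3 4, .q true 1 0 1 2 4]⟩,
  ⟨5, [], ad5, [.q false 1 0 1 2 3, .q false 1 0 3 2 4, .q true 1 0 1 2 4]⟩,
  ⟨6, [], ad6, [.q false 1 0 1 2 3, .q false 1 0 4 2 5, .q true 1 0 1 2 5, .q true 1 0 4 2 3]⟩,
  ⟨4, [], ad4, [.q false 1 0 1 2 3, .b true 4 0 0]⟩]

theorem qT_h {V : Type} {W : Wo V} (h : W.Ok) : UHs (Wo.rel h) qT :=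
  .cons (fun v n01 n02 n03 n12 n13 n23 h0 h1 => h.t.nc h0 h1) (
  .cons (fun v n01 n02 n03 n12 n13 n23 h0 h1 => h1 (h.t.adj h0)) (
  .cons (fun v n01 n02 n03 n12 n13 n23 h0 h1 h2 h3 h4 h5 h6 h7 h8 => (h.t.some h0 h1 h2 h5.2 h7.2 h6.2 h8.2).elim h3 (fun k => h4 (h.t.sw3 k))) (
  .cons (fun v n01 n02 n03 n12 n13 n23 h0 h1 => h.t.nb h0 h1) (
  .cons (fun v n01 n02 n03 n04 n12 n13 n14 n23 n24 n34 h0 h1 h2 => h2 (h.t.trans h0 h1 n24)) (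
  .cons (fun v n01 n02 n03 n04 n12 n13 n14 n23 n24 n34 h0 h1 h2 => (h.t.ferrers h0 h1).elim h2 (fun k => h.t.irr k)) (
  .cons (fun v n01 n02 n03 n04 n05 n12 n13 n14 n15 n23 n24 n25 n34 n35 n45 h0 h1 h2 h3 => (h.t.ferrers h0 h1).elim h2 h3) (
  .cons (fun v n01 n02 n03 n12 n13 n23 h0 h1 => h1 ⟨rfl, h.t.dom h0⟩) (
  .nil))))))))

/-- templates -/
def qU : List Tm := [
  ⟨4, [], ad4, [.q false 2 0 1 2 3, .q false 0 0 1 2 3]⟩,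
  ⟨4, [], ad4, [.q false 2 0 1 2 3, .b true 0 0 2]⟩,
  ⟨4, [], ad4, [.b false 0 0 1, .b false 0 2 3, .q false 0 0 1 2 3, .q true 2 0 2 1 3, .q true 2 0 3 1 2, .b false 5 0 0, .b false 5 1 1, .b false 5 2 2, .b false 5 3 3]⟩,
  ⟨4, [], ad4, [.q false 2 0 1 2 3, .q false 2 0 2 1 3]⟩,
  ⟨5, [], ad5, [.q false 2 0 1 2 3, .q false 2 0 1 3 4, .q true 2 0 1 2 4]⟩,
  ⟨5, [], ad5, [.q false 2 0 1 2 3, .q false 2 0 3 2 4, .q true 2 0 1 2 4]⟩,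
  ⟨6, [], ad6, [.q false 2 0 1 2 3, .q false 2 0 4 2 5, .q true 2 0 1 2 5, .q true 2 0 4 2 3]⟩,
  ⟨4, [], ad4, [.q false 2 0 1 2 3, .b true 5 0 0]⟩]

theorem qU_h {V : Type} {W : Wo V} (h : W.Ok) : UHs (Wo.rel h) qU :=
  .cons (fun v n01 n02 n03 n12 n13 n23 h0 h1 => h.u.nc h0 h1) (
  .cons (fun v n01 n02 n03 n12 n13 n23 h0 h1 => h1 (h.u.adj h0)) (
  .cons (fun v n01 n02 n03 n12 n13 n23 h0 h1 h2 h3 h4 h5 h6 h7 h8 => (h.u.some h0 h1 h2 h5.2 h7.2 h6.2 h8.2).elim h3 (fun k => h4 (h.u.sw3 k))) (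
  .cons (fun v n01 n02 n03 n12 n13 n23 h0 h1 => h.u.nb h0 h1) (
  .cons (fun v n01 n02 n03 n04 n12 n13 n14 n23 n24 n34 h0 h1 h2 => h2 (h.u.trans h0 h1 n24)) (
  .cons (fun v n01 n02 n03 n04 n12 n13 n14 n23 n24 n34 h0 h1 h2 => (h.u.ferrers h0 h1).elim h2 (fun k => h.u.irr k)) (
  .cons (fun v n01 n02 n03 n04 n05 n12 n13 n14 n15 n23 n24 n25 n34 n35 n45 h0 h1 h2 h3 => (h.u.ferrers h0 h1).elim h2 h3) (
  .cons (fun v n01 n02 n03 n12 n13 n23 h0 h1 => h1 ⟨rfl, h.u.dom h0⟩) (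
  .nil))))))))

/-- templates -/
def qE : List Tm := [
  ⟨4, [], ad4, [.b false 2 0 0, .b false 2 1 1, .b true 2 2 2, .b true 2 3 3, .q false 0 0 1 2 3]⟩,
  ⟨2, [], [(0, 1)], [.b false 2 0 0, .b true 2 1 1, .b false 0 0 1, .b true 3 0 0]⟩,
  ⟨2, [], [(0, 1)], [.b false 2 0 0, .b true 2 1 1, .b false 0 0 1, .b true 3 1 1]⟩,
  ⟨3, [], [(0, 1), (0, 2), (1, 2)], [.b false 1 0 1, .b false 1 1 2, .b true 1 0 2]⟩,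
  ⟨2, [], [(0, 1)], [.b false 1 0 1, .b false 2 0 0, .b true 2 1 1]⟩,
  ⟨2, [], [(0, 1)], [.b false 1 0 1, .b true 3 0 0]⟩,
  ⟨3, [], [(0, 1), (0, 2), (1, 2)], [.b false 1 0 1, .b false 2 0 0, .b true 2 2 2, .b false 0 0 2, .b true 0 1 2]⟩,
  ⟨3, [], [(0, 1), (0, 2), (1, 2)], [.b false 1 0 1, .b true 2 0 0, .b false 2 2 2, .b false 0 0 2, .b true 0 1 2]⟩,
  ⟨4, [], ad4, [.b false 1 0 1, .b false 3 2 2, .b true 1 0 2, .b false 3 3 3, .b true 1 0 3, .q false 0 0 1 2 3]⟩,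
  ⟨4, [], ad4, [.b false 2 0 0, .b false 2 1 1, .b true 2 2 2, .b true 2 3 3, .b false 0 0 2, .b false 0 1 3, .b true 0 0 1, .b true 0 0 3]⟩,
  ⟨4, [], ad4, [.b false 2 0 0, .b false 2 1 1, .b true 2 2 2, .b true 2 3 3, .b false 0 0 2, .b false 0 1 3, .b true 0 2 3, .b true 0 0 3]⟩,
  ⟨3, [], [(0, 1), (0, 2), (1, 2)], [.b false 2 0 0, .b false 2 1 1, .b true 2 2 2, .b false 3 1 1, .b false 0 0 2, .b true 0 1 2, .b true 0 0 1]⟩,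
  ⟨3, [], [(0, 1), (0, 2), (1, 2)], [.b true 2 0 0, .b true 2 1 1, .b false 2 2 2, .b false 3 1 1, .b false 0 0 2, .b true 0 1 2, .b true 0 0 1]⟩,
  ⟨5, [], ad5, [.b false 2 0 0, .b false 2 1 1, .b true 2 2 2, .b true 2 3 3, .b true 0 0 2, .b true 0 1 3, .b false 0 0 1, .b false 0 0 3, .b false 0 1 2, .b false 0 2 3, .b false 0 0 4, .b false 0 1 4, .b false 0 2 4, .b false 0 3 4]⟩]

theorem qE_h {V : Type} {W : Wo V} (h : W.Ok) : UHs (Wo.rel h) qE :=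
  .cons (fun v n01 n02 n03 n12 n13 n23 h0 h1 h2 h3 h4 => h.bs.int h0.2 h1.2 (ng h2) (ng h3) h4) (
  .cons (fun v n01 h0 h1 h2 h3 => h3 ⟨rfl, (h.bs.att h0.2 (ng h1) h2).1⟩) (
  .cons (fun v n01 h0 h1 h2 h3 => h3 ⟨rfl, (h.bs.att h0.2 (ng h1) h2).2⟩) (
  .cons (fun v n01 n02 n12 h0 h1 h2 => h2 (h.bs.ktr h0 h1)) (
  .cons (fun v n01 h0 h1 h2 => h2 ⟨rfl, h.bs.kS h0 h1.2⟩) (
  .cons (fun v n01 h0 h1 => h1 ⟨rfl, h.bs.kA h0⟩) (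
  .cons (fun v n01 n02 n12 h0 h1 h2 h3 h4 => h4 (h.bs.kr h0 h1.2 (ng h2) h3)) (
  .cons (fun v n01 n02 n12 h0 h1 h2 h3 h4 => h4 (h.bs.kr' h0 (ng h1) h2.2 h3)) (
  .cons (fun v n01 n02 n03 n12 n13 n23 h0 h1 h2 h3 h4 h5 => h.bs.kb h0 h1.2 h2 h3.2 h4 h5) (
  .cons (fun v n01 n02 n03 n12 n13 n23 h0 h1 h2 h3 h4 h5 h6 h7 => (h.bs.pc h0.2 (ng h2) h1.2 (ng h3) h4 h5).elim (fun k => h6 k.1) (fun k => h7 k.1)) (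
  .cons (fun v n01 n02 n03 n12 n13 n23 h0 h1 h2 h3 h4 h5 h6 h7 => (h.bs.pc h0.2 (ng h2) h1.2 (ng h3) h4 h5).elim (fun k => h6 k.2) (fun k => h7 k.1)) (
  .cons (fun v n01 n02 n12 h0 h1 h2 h3 h4 h5 h6 => h6 (h.bs.adx h.at1 h0.2 h1.2 (ng h2) h3.2 h4 h5)) (
  .cons (fun v n01 n02 n12 h0 h1 h2 h3 h4 h5 h6 => h6 (h.bs.ady h.at2 (ng h0) (ng h1) h2.2 h3.2 h4 h5)) (
  .cons (fun v n01 n02 n03 n04 n12 n13 n14 n23 n24 n34 h0 h1 h2 h3 h4 h5 h6 h7 h8 h9 h10 h11 h12 h13 => h.bs.w4 h0.2 h1.2 (ng h2) (ng h3) h4 h5 h6 h7 h8 h9 h10 h11 h12 h13) (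
  .nil))))))))))))))

/-- templates -/
def qA : List Tm := [
  ⟨4, [], ad4, [.b false 2 0 0, .b false 2 1 1, .b true 2 2 2, .b true 2 3 3, .b true 1 0 1, .b true 1 2 3, .b false 5 0 0, .b false 5 1 1, .q false 1 0 1 2 3, .q true 2 0 1 2 3]⟩,
  ⟨4, [], ad4, [.b false 2 0 0, .b false 2 1 1, .b true 2 2 2, .b true 2 3 3, .b true 1 0 1, .b true 1 2 3, .b false 4 2 2, .b false 4 3 3, .q false 2 0 1 2 3, .q true 1 0 1 2 3]⟩,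
  ⟨4, [], ad4, [.b false 2 0 0, .b true 2 1 1, .b false 2 2 2, .b true 2 3 3, .b true 1 0 2, .b true 1 1 3, .b false 5 0 0, .b false 5 2 2, .q false 1 0 1 2 3, .q true 2 0 1 2 3]⟩,
  ⟨4, [], ad4, [.b false 2 0 0, .b true 2 1 1, .b false 2 2 2, .b true 2 3 3, .b true 1 0 2, .b true 1 1 3, .b false 4 1 1, .b false 4 3 3, .q false 2 0 1 2 3, .q true 1 0 1 2 3]⟩,
  ⟨4, [], ad4, [.b false 2 0 0, .b true 2 2 2, .b true 2 3 3, .b false 1 0 1, .b true 1 2 3, .b false 4 2 2, .b false 4 3 3, .b false 0 0 2, .b false 0 0 3, .q true 1 0 1 2 3]⟩,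
  ⟨4, [], ad4, [.b true 2 0 0, .b false 2 2 2, .b false 2 3 3, .b false 1 0 1, .b true 1 2 3, .b false 5 2 2, .b false 5 3 3, .b false 0 0 2, .b false 0 0 3, .q true 2 0 1 2 3]⟩]

theorem qA_h {V : Type} {W : Wo V} (h : W.Ok) (ha : W.Ag) : UHs (Wo.rel h) qA :=
  .cons (fun v n01 n02 n03 n12 n13 n23 h0 h1 h2 h3 h4 h5 h6 h7 h8 h9 => h9 (ha.d1 h0.2 h1.2 (ng h2) (ng h3) h4 h5 h6.2 h7.2 h8)) (
  .cons (fun v n01 n02 n03 n12 n13 n23 h0 h1 h2 h3 h4 h5 h6 h7 h8 h9 => h9 (ha.d1' h0.2 h1.2 (ng h2) (ng h3) h4 h5 h6.2 h7.2 h8)) (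
  .cons (fun v n01 n02 n03 n12 n13 n23 h0 h1 h2 h3 h4 h5 h6 h7 h8 h9 => h9 (ha.d2 h0.2 (ng h1) h2.2 (ng h3) h4 h5 h6.2 h7.2 h8)) (
  .cons (fun v n01 n02 n03 n12 n13 n23 h0 h1 h2 h3 h4 h5 h6 h7 h8 h9 => h9 (ha.d2' h0.2 (ng h1) h2.2 (ng h3) h4 h5 h6.2 h7.2 h8)) (
  .cons (fun v n01 n02 n03 n12 n13 n23 h0 h1 h2 h3 h4 h5 h6 h7 h8 h9 => h9 (ha.m1 h0.2 (ng h1) (ng h2) h3 n01 h4 h5.2 h6.2 h7 h8)) (
  .cons (fun v n01 n02 n03 n12 n13 n23 h0 h1 h2 h3 h4 h5 h6 h7 h8 h9 => h9 (ha.m2 (ng h0) h1.2 h2.2 h3 n01 h4 h5.2 h6.2 h7 h8)) (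
  .nil))))))

end Pool.Agent.SOQ
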