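import Pool.Agent.SOQ.Cv

/-! Project SOQ, module Wd: the worlds of a cut; the rule; structures of a side in normal form. -/

set_option autoImplicit false

namespace Pool.Agent.SOQ

open Pool.Agent.SOC Pool.Agent.SOD Pool.Agent.RUP Pool.Agent.SOF Pool.Agent.SOG Pool.Agent.SOW Pool.Agent.SOP
  Pool.Agent.SOE

variable {V : Type}

/-- the world of one structure -/
def W1 (C : Cut V) (f : V → ℕ) (G : SimpleGraph V) (T : V → V → V → V → Prop) (P : V → Prop) : Wo V where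
  G := G
  f := f
  T := rs T (dm C C.S P)
  U := rs T (dm C C.S P)
  S := C.S
  A := C.A
  D := dm C C.S P
  E := dm C C.S P
  K := C.K

/-- the world of two structures -/
def W2 (C : Cut V) (f : V → ℕ) (G : SimpleGraph V) (T1 T2 : V → V → V → V → Prop) (P : V → Prop) : Wo V where
  G := G
  f := f
  T := rs T1 (dm C C.S P)
  U := rs T2 (dm C (fun x => ¬ C.S x) P)
  S := C.S
  A := C.A
  D := dm C C.S P
  E := dm C (fun x => ¬ C.S x) P
  K := C.K

/-- the hypotheses on the cut -/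
structure CH (C : Cut V) (f : V → ℕ) (G : SimpleGraph V) : Prop where
  inj : Function.Injective f
  ok : C.Ok (CrF f)
  bi : C.Bi G
  m1 : Mx1 C G (CrF f)
  epc : EPC G {x | C.S x}

section
variable {C : Cut V} {G : SimpleGraph V} {T T1 T2 T' : V → V → V → V → Prop} {f : V → ℕ} {s P D : V → Prop}
  {a b c d e x y p q r t : V}

theorem dm_at (h : dm C s P x) : s x ∨ C.A x := h.imp id (fun k => k.1)

theorem dm_dk (hc : C.Ok (CrF f)) (side : ∀ {p q}, C.K p q → s p → s q) (sa : ¬ s a) (da : dm C s P a)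
    (db : dm C s P b) (k : C.K a b) : a = b := by
  have sb : ¬ s b := fun e => sa (side (hc.ksym k) e)
  rw [← (da.resolve_left sa).2, ← (db.resolve_left sb).2]
  exact rp_con hc k

theorem CH.bs (h : CH C f G) : Bs G (CrF f) C.S C.A C.K := bs_of h.ok h.bi h.m1 h.epc

theorem CH.kS' (h : CH C f G) {p q : V} (hk : C.K p q) (hp : ¬ C.S p) : ¬ C.S q := fun k => hp (h.ok.kS (h.ok.ksym hk) k)

theorem CH.w1 (h : CH C f G) (hh : Half C G (CrF f) C.S T) : (W1 C f G T P).Ok where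
  inj := h.inj
  bs := h.bs
  at1 := h.m1.at1
  at2 := h.m1.at2
  t := pq_of_half hh dm_at (dm_dk h.ok h.ok.kS)
  u := pq_of_half hh dm_at (dm_dk h.ok h.ok.kS)

theorem CH.w2 (h : CH C f G) (h1 : Half C G (CrF f) C.S T1) (h2 : Half C G (CrF f) (fun x => ¬ C.S x) T2) :
    (W2 C f G T1 T2 P).Ok where
  inj := h.inj
  bs := h.bs
  at1 := h.m1.at1
  at2 := h.m1.at2
  t := pq_of_half h1 dm_at (dm_dk h.ok h.ok.kS)
  u := pq_of_half h2 dm_at (dm_dk h.ok h.kS')

theorem dm_rp (h : CH C f G) (ha : C.A a) : dm C s P (rp C P a) :=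
  Or.inr ⟨h.ok.kA (h.ok.ksym (rp_k (h.m1.refl ha))), rp_idem h.ok (h.m1.refl ha)⟩

theorem CH.m1w1 (h : CH C f G) : (W1 C f G T P).M1 where
  rx := fun {a} sa aa => ⟨a, h.m1.refl aa, aa, Or.inl sa, Or.inl sa⟩
  ry := fun {a} _ aa => ⟨rp C P a, rp_k (h.m1.refl aa), h.ok.kA (h.ok.ksym (rp_k (h.m1.refl aa))), dm_rp h aa, dm_rp h aa⟩
  mx1 := by
    intro a b sa sb aa ab nk hs
    obtain ⟨c, sc, ac, ⟨z, sz, hz⟩, hx⟩ := h.m1.mx sa sb aa ab nk
      (fun z sz => hs z ⟨fun e => absurd e sz, fun e => absurd sa e⟩)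
    exact ⟨c, sc, ac, fun k => hz (k z ⟨fun e => absurd e sz, fun e => absurd sa e⟩), hx⟩

theorem CH.m1w2 (h : CH C f G) : (W2 C f G T1 T2 P).M1 where
  rx := fun {a} _ aa => ⟨rp C P a, rp_k (h.m1.refl aa), h.ok.kA (h.ok.ksym (rp_k (h.m1.refl aa))), dm_rp (s := C.S) h aa,
    dm_rp (s := fun x => ¬ C.S x) h aa⟩
  ry := fun {a} _ aa => ⟨rp C P a, rp_k (h.m1.refl aa), h.ok.kA (h.ok.ksym (rp_k (h.m1.refl aa))), dm_rp (s := C.S) h aa,
    dm_rp (s := fun x => ¬ C.S x) h aa⟩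
  mx1 := h.m1w1 (T := T1) (P := P) |>.mx1

theorem mx2_of (m2 : Mx1 (op C) G (CrF f)) {a b : V} (sa : ¬ C.S a) (sb : ¬ C.S b) (aa : C.A a) (ab : C.A b)
    (nk : ¬ C.K a b) (hs : (W1 C f G T P).Sm a b) :
    ∃ c, ¬ C.S c ∧ C.A c ∧ ¬ (W1 C f G T P).Sm a c ∧ ∀ d, C.S d → CrF f a b c d := by
  obtain ⟨c, sc, ac, ⟨z, sz, hz⟩, hx⟩ := m2.mx sa sb aa ab nk
    (fun z sz => hs z ⟨fun _ => sa, fun _ => not_not.1 sz⟩)
  exact ⟨c, sc, ac, fun k => hz (k z ⟨fun _ => sa, fun _ => not_not.1 sz⟩), fun d sd => hx d (not_not.2 sd)⟩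

theorem CH.mxw1 (h : CH C f G) (m2 : Mx1 (op C) G (CrF f)) : (W1 C f G T P).Mx :=
  ⟨h.m1w1, fun sa sb aa ab nk hs => mx2_of m2 sa sb aa ab nk hs⟩

theorem CH.mxw2 (h : CH C f G) (m2 : Mx1 (op C) G (CrF f)) : (W2 C f G T1 T2 P).Mx :=
  ⟨h.m1w2, fun sa sb aa ab nk hs => mx2_of (T := T1) (P := P) m2 sa sb aa ab nk hs⟩

theorem CH.dmw1 (h : CH C f G) : (W1 C f G T P).Dm where
  sd := fun sa => Or.inl sa
  de := fun da => da
  da := dm_at
  dk := fun sa da db k => dm_dk h.ok h.ok.kS sa da db k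

/-- F1: the rule for the adjacency of two attached vertices in different blocks of the side `S` -/
theorem CH.rule (h : CH C f G) (hh : Half C G (CrF f) C.S T) (sa : C.S a) (sb : C.S b) (aa : C.A a) (ab : C.A b)
    (nk : ¬ C.K a b) : G.Adj a b ↔ (¬ (∀ z, ¬ C.S z → (G.Adj a z ↔ G.Adj b z)) ∨
      ∃ u, C.S u ∧ C.A u ∧ (∀ z, ¬ C.S z → G.Adj u z → G.Adj a z) ∧ ∃ e, ¬ C.S e ∧ G.Adj a e ∧ ¬ G.Adj u e) := by
  have h1 := (h.m1w1 (T := T) (P := fun _ => False)).rule (h.w1 hh) sa sb ⟨aa, Or.inl sa, Or.inl sa⟩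
    ⟨ab, Or.inl sb, Or.inl sb⟩ nk
  have h2 : (W1 C f G T fun _ => False).Sm a b ↔ ∀ z, ¬ C.S z → (G.Adj a z ↔ G.Adj b z) :=
    ⟨fun k z sz => k z ⟨fun e => absurd e sz, fun e => absurd sa e⟩, fun k z hz => k z (fun e => hz.1 e sa)⟩
  rw [h2] at h1
  exact h1

/-- adjacency to another block depends only on the block -/
theorem CH.uni (h : CH C f G) (hh : Half C G (CrF f) C.S T) (sa : C.S a) (aa : C.A a) (hk : C.K a b) (nk : ¬ C.K a c)
    (pc' : C.S c → C.A c) : G.Adj a c ↔ G.Adj b c := by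
  have sb := h.ok.kS hk sa
  have ab := h.ok.kA (h.ok.ksym hk)
  by_cases sc : C.S c
  · have ac := pc' sc
    have nk' : ¬ C.K b c := fun k => nk (h.ok.ktr hk k)
    rw [h.rule hh sa sc aa ac nk, h.rule hh sb sc ab ac nk']
    have e : ∀ z, ¬ C.S z → (G.Adj a z ↔ G.Adj b z) :=
      fun z sz => ⟨h.bi.bi hk sa sz, h.bi.bi (h.ok.ksym hk) sb sz⟩
    constructor
    · rintro (k | ⟨u, u1, u2, u3, w, w1, w2, w3⟩)
      · exact Or.inl fun k' => k fun z sz => (e z sz).trans (k' z sz)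
      · exact Or.inr ⟨u, u1, u2, fun z sz k => (e z sz).1 (u3 z sz k), w, w1, (e w w1).1 w2, w3⟩
    · rintro (k | ⟨u, u1, u2, u3, w, w1, w2, w3⟩)
      · exact Or.inl fun k' => k fun z sz => (e z sz).symm.trans (k' z sz)
      · exact Or.inr ⟨u, u1, u2, fun z sz k => (e z sz).2 (u3 z sz k), w, w1, (e w w1).2 w2, w3⟩
  · exact ⟨h.bi.bi hk sa sc, h.bi.bi (h.ok.ksym hk) sb sc⟩

/-- a vertex of the side or a vertex in another block -/
def NN (C : Cut V) (a c : V) : Prop := C.S c ∨ (C.A c ∧ ¬ C.K a c)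

theorem kbx (h : CH C f G) (hk : C.K a b) (sa : ¬ C.S a) (nc : NN C a c) (nd : NN C a d) : ¬ CrF f a b c d := by
  intro hx
  have sb := h.kS' hk sa
  have sX := crF_sepr h.inj
  by_cases sc : C.S c
  · by_cases sd : C.S d
    · exact h.ok.int sc sd sa sb (sX.comm hx)
    · obtain ⟨h1, h2⟩ := nd.resolve_left sd
      exact h2 (h.ok.kb' hk h1 sa sd sc (sX.comm (sX.swap (sX.comm hx))))
  · obtain ⟨h1, h2⟩ := nc.resolve_left sc
    by_cases sd : C.S d
    · exact h2 (h.ok.kb' hk h1 sa sc sd hx)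
    · obtain ⟨h3, h4⟩ := nd.resolve_left sd
      exact kb_of h.ok h.m1.at1 h.m1.at2 hk h1 h2 h3 h4 hx

theorem shx (h : CH C f G) (hk : C.K a b) (sa : ¬ C.S a) (nc : NN C a c) (nd : NN C a d) (ne : NN C a e)
    (hx : CrF f a c d e) : CrF f b c d e := by
  by_cases ab : a = b
  · rw [← ab]; exact hx
  have sb := h.kS' hk sa
  have key : ∀ {z : V}, NN C a z → z ≠ b := by
    rintro z (k | k) e
    · exact sb (e ▸ k)
    · exact k.2 (e ▸ hk)
  have sX := crF_sepr h.inj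
  rcases sX.add2 (e := b) (sX.comm hx) (key nc) ab (key nd) (key ne) with h1 | h1
  · exact sX.swap (sX.comm h1)
  · exact absurd (sX.comm h1) (kbx h hk sa nd ne)

theorem rh_s (sx : C.S x) : rh C C.S P x = x := by
  unfold rh
  rw [if_pos sx]

theorem rh_n (sx : ¬ C.S x) : rh C C.S P x = rp C P x := by
  unfold rh
  rw [if_neg sx]

theorem rh_d (h : CH C f G) (hx : C.S x ∨ C.A x) : dm C C.S P (rh C C.S P x) := by
  by_cases sx : C.S x
  · rw [rh_s sx]
    exact Or.inl sx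
  · rw [rh_n sx]
    exact dm_rp h (hx.resolve_left sx)

theorem rh_i (h : CH C f G) (hx : C.S x ∨ C.A x) : rh C C.S P (rh C C.S P x) = rh C C.S P x := by
  by_cases sx : C.S x
  · rw [rh_s sx, rh_s sx]
  · have hr := h.m1.refl (hx.resolve_left sx)
    rw [rh_n sx, rh_n (h.kS' (rp_k hr) sx), rp_idem h.ok hr]

theorem rh_con (h : CH C f G) (sx : ¬ C.S x) (hk : C.K x y) : rh C C.S P x = rh C C.S P y := by
  rw [rh_n sx, rh_n (h.kS' hk sx)]
  exact rp_con h.ok hk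

theorem rh_st (h : CH C f G) (px : C.S x ∨ C.A x) (pq : C.S q ∨ C.A q) (pr : C.S r ∨ C.A r) (pt : C.S t ∨ C.A t)
    (n1 : rh C C.S P x ≠ rh C C.S P q) (n2 : rh C C.S P x ≠ rh C C.S P r) (n3 : rh C C.S P x ≠ rh C C.S P t) :
    CrF f x q r t ↔ CrF f (rh C C.S P x) q r t := by
  by_cases sx : C.S x
  · rw [rh_s sx]
  have ax := px.resolve_left sx
  have kx : C.K x (rh C C.S P x) := by
    rw [rh_n sx]
    exact rp_k (h.m1.refl ax)
  have key : ∀ {q : V}, (C.S q ∨ C.A q) → rh C C.S P x ≠ rh C C.S P q → NN C x q ∧ NN C (rh C C.S P x) q := by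
    intro q pq n
    by_cases sq : C.S q
    · exact ⟨Or.inl sq, Or.inl sq⟩
    · have nk : ¬ C.K x q := fun k => n (rh_con h sx k)
      exact ⟨Or.inr ⟨pq.resolve_left sq, nk⟩, Or.inr ⟨pq.resolve_left sq, fun k => nk (h.ok.ktr kx k)⟩⟩
  exact ⟨fun hx => shx h kx sx (key pq n1).1 (key pr n2).1 (key pt n3).1 hx,
    fun hx => shx h (h.ok.ksym kx) (h.kS' kx sx) (key pq n1).2 (key pr n2).2 (key pt n3).2 hx⟩

/-- the representatives of the blocks -/
theorem rep_ok (h : CH C f G) (ua : ∀ {p q p'}, ¬ C.S p → ¬ C.S q → C.A p → C.A q → ¬ C.K p q → C.K p p' →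
    (G.Adj p q ↔ G.Adj p' q)) : RepOk C G (CrF f) C.S G (CrF f) (rh C C.S P) where
  inj := by
    intro p q pp pq he
    by_cases sp : C.S p
    · by_cases sq : C.S q
      · left
        rwa [rh_s sp, rh_s sq] at he
      · exfalso
        rw [rh_s sp, rh_n sq] at he
        exact h.kS' (rp_k (P := P) (h.m1.refl (pq.resolve_left sq))) sq (he ▸ sp)
    · by_cases sq : C.S q
      · exfalso
        rw [rh_n sp, rh_s sq] at he
        exact h.kS' (rp_k (P := P) (h.m1.refl (pp.resolve_left sp))) sp (he ▸ sq)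
      · right
        refine ⟨sp, ?_⟩
        have k1 := rp_k (P := P) (h.m1.refl (pp.resolve_left sp))
        have k2 := rp_k (P := P) (h.m1.refl (pq.resolve_left sq))
        rw [rh_n sp, rh_n sq] at he
        rw [← he] at k2
        exact h.ok.ktr k1 (h.ok.ksym k2)
  con := fun sp k => rh_con h sp k
  side := fun k sp => h.ok.kS k sp
  adj := by
    intro p q pp pq n
    by_cases sp : C.S p
    · by_cases sq : C.S q
      · rw [rh_s sp, rh_s sq]
      · have k2 := rp_k (P := P) (h.m1.refl (pq.resolve_left sq))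
        rw [rh_s sp, rh_n sq, G.adj_comm p q, G.adj_comm p]
        exact ⟨h.bi.bi' k2 sq sp, h.bi.bi' (h.ok.ksym k2) (h.kS' k2 sq) sp⟩
    · have ap := pp.resolve_left sp
      have k1 := rp_k (P := P) (h.m1.refl ap)
      by_cases sq : C.S q
      · rw [rh_n sp, rh_s sq]
        exact ⟨h.bi.bi' k1 sp sq, h.bi.bi' (h.ok.ksym k1) (h.kS' k1 sp) sq⟩
      · have aq := pq.resolve_left sq
        have k2 := rp_k (P := P) (h.m1.refl aq)
        have nk : ¬ C.K p q := fun k => n (rh_con h sp k)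
        rw [rh_n sp, rh_n sq, ua sp sq ap aq nk k1, G.adj_comm, G.adj_comm (rp C P p)]
        exact ua sq (h.kS' k1 sp) aq (h.ok.kA (h.ok.ksym k1)) (fun k => nk (h.ok.ktr k1 (h.ok.ksym k))) k2
  cross := by
    intro p q r t pp pq pr pt n1 n2 n3 n4 n5 n6
    have sX := crF_sepr h.inj
    have dp := dm_at (rh_d (P := P) h pp)
    have dq := dm_at (rh_d (P := P) h pq)
    have dr := dm_at (rh_d (P := P) h pr)
    have ip := rh_i (P := P) h pp
    have iq := rh_i (P := P) h pq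
    have ir := rh_i (P := P) h pr
    have e1 : CrF f p q r t ↔ CrF f (rh C C.S P p) q r t := rh_st h pp pq pr pt n1 n2 n3
    have e2 : CrF f q (rh C C.S P p) r t ↔ CrF f (rh C C.S P q) (rh C C.S P p) r t :=
      rh_st h pq dp pr pt (by rw [ip]; exact n1.symm) n4 n5
    have e3 : CrF f r t (rh C C.S P p) (rh C C.S P q) ↔ CrF f (rh C C.S P r) t (rh C C.S P p) (rh C C.S P q) :=
      rh_st h pr pt dp dq n6 (by rw [ip]; exact n2.symm) (by rw [iq]; exact n4.symm)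
    have e4 : CrF f t (rh C C.S P r) (rh C C.S P p) (rh C C.S P q) ↔
        CrF f (rh C C.S P t) (rh C C.S P r) (rh C C.S P p) (rh C C.S P q) :=
      rh_st h pt dr dp dq (by rw [ir]; exact n6.symm) (by rw [ip]; exact n3.symm) (by rw [iq]; exact n5.symm)
    constructor
    · intro hx
      exact sX.comm (sX.swap (e4.1 (sX.swap (e3.1 (sX.comm (sX.swap (e2.1 (sX.swap (e1.1 hx)))))))))
    · intro hx
      exact e1.2 (sX.swap (e2.2 (sX.swap (sX.comm (e3.2 (sX.swap (e4.2 (sX.swap (sX.comm hx)))))))))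

end

end Pool.Agent.SOQ
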